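import Pool.Agent.H8.CovGeo

namespace Pool.Agent.H8.Cov

open Real

noncomputable def arcf (p1 p2 a b : ℤ) (θ : ℝ) : E := rot a b (p1 - a) (p2 - b) θ

noncomputable def del (N : ℕ) : ℝ := 1 / (6 * (N : ℝ) ^ 2)

structure Ok (N : ℕ) (p1 p2 a b : ℤ) : Prop where
  p1l : 0 ≤ p1
  p1u : p1 < N
  p2l : 0 ≤ p2
  p2u : p2 < N
  al : N ≤ a
  au : a < 3 * N
  bl : 0 ≤ b
  bu : b < 2 * N

lemma arcf_zero (p1 p2 a b : ℤ) : arcf p1 p2 a b 0 = !₂[(p1 : ℝ), (p2 : ℝ)] := by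
  unfold arcf
  rw [rot_zero]
  simp

lemma arcf_eq (p1 p2 a b : ℤ) (θ : ℝ) :
    (arcf p1 p2 a b θ 0 - a) ^ 2 + (arcf p1 p2 a b θ 1 - b) ^ 2 =
      ((p1 : ℝ) - a) ^ 2 + (p2 - b) ^ 2 := by
  unfold arcf
  rw [rot0, rot1]
  linear_combination (((p1 : ℝ) - a) ^ 2 + (p2 - b) ^ 2) * (sin_sq_add_cos_sq θ)

lemma del_pos {N : ℕ} (hN : 2 ≤ N) : 0 < del N := by
  unfold del; positivity

lemma del_le {N : ℕ} (hN : 2 ≤ N) : del N ≤ 1 := by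
  unfold del
  have h2 : (2 : ℝ) ≤ N := by exact_mod_cast hN
  rw [div_le_one (by positivity)]
  nlinarith

lemma Ok.norm_le {N : ℕ} {p1 p2 a b : ℤ} (h : Ok N p1 p2 a b) :
    ((p1 : ℝ) - a) ^ 2 + (p2 - b) ^ 2 ≤ 13 * (N : ℝ) ^ 2 := by
  obtain ⟨h1, h2, h3, h4, h5, h6, h7, h8⟩ := h
  have e1 : (p1 - a) ^ 2 ≤ (3 * (N : ℤ)) ^ 2 := by
    apply sq_le_sq'
    · omega
    · omega
  have e2 : (p2 - b) ^ 2 ≤ (2 * (N : ℤ)) ^ 2 := by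
    apply sq_le_sq'
    · omega
    · omega
  have e3 : (p1 - a) ^ 2 + (p2 - b) ^ 2 ≤ 13 * (N : ℤ) ^ 2 := by nlinarith
  exact_mod_cast e3

lemma Ok.norm_ge {N : ℕ} {p1 p2 a b : ℤ} (h : Ok N p1 p2 a b) :
    1 ≤ ((p1 : ℝ) - a) ^ 2 + (p2 - b) ^ 2 := by
  obtain ⟨h1, h2, h3, h4, h5, h6, h7, h8⟩ := h
  have e1 : 1 ≤ (p1 - a) ^ 2 := one_le_sq_of_ne (by omega)
  have e2 : 0 ≤ (p2 - b) ^ 2 := sq_nonneg _
  have e3 : 1 ≤ (p1 - a) ^ 2 + (p2 - b) ^ 2 := by omega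
  exact_mod_cast e3

lemma arc_near {N : ℕ} (hN : 2 ≤ N) {p1 p2 a b : ℤ} (h : Ok N p1 p2 a b) {θ : ℝ} (h0 : 0 ≤ θ)
    (h1 : θ ≤ del N) :
    ((arcf p1 p2 a b θ 0 - p1) ^ 2 + (arcf p1 p2 a b θ 1 - p2) ^ 2) * (36 * (N : ℝ) ^ 2) ≤ 13 := by
  have e := rot_dist (c1 := a) (c2 := b) (u1 := (p1 : ℝ) - a) (u2 := (p2 : ℝ) - b) (θ := θ)
  rw [add_sub_cancel, add_sub_cancel] at e
  have hN2 : (2 : ℝ) ≤ N := by exact_mod_cast hN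
  have h2 := h.norm_le
  have h3 : θ ^ 2 ≤ del N ^ 2 := by
    apply sq_le_sq'
    · linarith [(del_pos hN).le]
    · exact h1
  have h4 : del N ^ 2 * (36 * (N : ℝ) ^ 4) = 1 := by
    unfold del
    field_simp
    norm_num
  have h5 : ((arcf p1 p2 a b θ 0 - p1) ^ 2 + (arcf p1 p2 a b θ 1 - p2) ^ 2) ≤
      13 * (N : ℝ) ^ 2 * del N ^ 2 := by
    refine e.trans ?_
    exact mul_le_mul h2 h3 (sq_nonneg _) (by positivity)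
  calc ((arcf p1 p2 a b θ 0 - p1) ^ 2 + (arcf p1 p2 a b θ 1 - p2) ^ 2) * (36 * (N : ℝ) ^ 2)
      ≤ (13 * (N : ℝ) ^ 2 * del N ^ 2) * (36 * (N : ℝ) ^ 2) :=
        mul_le_mul_of_nonneg_right h5 (by positivity)
    _ = 13 * (del N ^ 2 * (36 * (N : ℝ) ^ 4)) := by ring
    _ = 13 := by rw [h4, mul_one]

lemma near_quarter {N : ℕ} (hN : 2 ≤ N) {z : ℝ} (hz : 0 ≤ z) (h : z * (36 * (N : ℝ) ^ 2) ≤ 13) :
    z < 1 / 4 := by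
  have hN2 : (2 : ℝ) ≤ N := by exact_mod_cast hN
  have h4 : (4 : ℝ) ≤ (N : ℝ) ^ 2 := by nlinarith
  have : z * 144 ≤ z * (36 * (N : ℝ) ^ 2) := by
    apply mul_le_mul_of_nonneg_left _ hz
    linarith
  linarith

lemma same_of_near {p1 p2 q1 q2 : ℤ} {x y : ℝ} (h1 : (x - p1) ^ 2 + (y - p2) ^ 2 < 1 / 4)
    (h2 : (x - q1) ^ 2 + (y - q2) ^ 2 < 1 / 4) : p1 = q1 ∧ p2 = q2 := by
  have h3 : ((p1 : ℝ) - q1) ^ 2 + ((p2 : ℝ) - q2) ^ 2 < 1 := by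
    nlinarith [sq_nonneg ((x - p1) + (x - q1)), sq_nonneg ((y - p2) + (y - q2))]
  have h4 : (p1 - q1) ^ 2 + (p2 - q2) ^ 2 < 1 := by exact_mod_cast h3
  have h5 : (p1 - q1) ^ 2 ≥ 0 := sq_nonneg _
  have h6 : (p2 - q2) ^ 2 ≥ 0 := sq_nonneg _
  have h7 : (p1 - q1) ^ 2 = 0 := by omega
  have h8 : (p2 - q2) ^ 2 = 0 := by omega
  rw [sq_eq_zero_iff, sub_eq_zero] at h7 h8
  exact ⟨h7, h8⟩

lemma K1 {N : ℕ} (hN : 2 ≤ N) {p1 p2 a b p1' p2' a' b' : ℤ} (h : Ok N p1 p2 a b)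
    (h' : Ok N p1' p2' a' b') (hne : ¬ (p1 = p1' ∧ p2 = p2' ∧ a = a' ∧ b = b')) {θ θ' : ℝ}
    (h0 : 0 ≤ θ) (h1 : θ ≤ del N) (h0' : 0 ≤ θ') (h1' : θ' ≤ del N)
    (he : arcf p1 p2 a b θ = arcf p1' p2' a' b' θ') :
    p1 = p1' ∧ p2 = p2' ∧ arcf p1 p2 a b θ = !₂[(p1 : ℝ), (p2 : ℝ)] := by
  have n1 := arc_near hN h h0 h1
  have n2 := arc_near hN h' h0' h1'
  rw [← he] at n2
  obtain ⟨hp1, hp2⟩ := same_of_near (near_quarter hN (by positivity) n1)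
    (near_quarter hN (by positivity) n2)
  refine ⟨hp1, hp2, ?_⟩
  subst hp1 hp2
  have hne' : ¬ (a = a' ∧ b = b') := fun hh => hne ⟨rfl, rfl, hh.1, hh.2⟩
  have q1 := arcf_eq p1 p2 a b θ
  have q2 := arcf_eq p1 p2 a' b' θ'
  rw [← he] at q2
  have hN2 : (2 : ℝ) ≤ N := by exact_mod_cast hN
  have hK : ((a' : ℝ) - a) ^ 2 + (b' - b) ^ 2 ≤ 8 * (N : ℝ) ^ 2 := by
    obtain ⟨g1, g2, g3, g4, g5, g6, g7, g8⟩ := h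
    obtain ⟨g1', g2', g3', g4', g5', g6', g7', g8'⟩ := h'
    have e1 : (a' - a) ^ 2 ≤ (2 * (N : ℤ)) ^ 2 := by
      apply sq_le_sq'
      · omega
      · omega
    have e2 : (b' - b) ^ 2 ≤ (2 * (N : ℤ)) ^ 2 := by
      apply sq_le_sq'
      · omega
      · omega
    have e3 : (a' - a) ^ 2 + (b' - b) ^ 2 ≤ 8 * (N : ℤ) ^ 2 := by nlinarith
    exact_mod_cast e3
  obtain ⟨k1, k2⟩ := key p1 p2 a b a' b' _ _ _ hne' q1 q2 hK (by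
    have := n1
    nlinarith)
  ext i
  fin_cases i
  · simpa using k1
  · simpa using k2

end Pool.Agent.H8.Cov
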