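import Pool.Agent.H8.CovArc

namespace Pool.Agent.H8.Cov

open Real

/-- a crossing-free circular-arc drawing of `G` covered by circles or lines indexed by `I` -/
def DrawnOn (V I : Type) (G : SimpleGraph V) : Prop :=
  ∃ C : I → Set E,
    (∀ i, (∃ (c : E) (r : ℝ), 0 < r ∧ C i = Metric.sphere c r) ∨
          (∃ x y : E, x ≠ y ∧ C i = ((line[ℝ, x, y] : AffineSubspace ℝ E) : Set E))) ∧
    ∃ p : V → E, Function.Injective p ∧ (∀ v, ∃ i, p v ∈ C i) ∧
      ∃ γ : ∀ u v : V, Path (p u) (p v),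
        (∀ u v, G.Adj u v →
          Function.Injective ⇑(γ u v) ∧ ∃ i, Set.range ⇑(γ u v) ⊆ C i) ∧
        (∀ u v w, G.Adj u v → w ≠ u → w ≠ v → p w ∉ Set.range ⇑(γ u v)) ∧
        (∀ u v x y, G.Adj u v → G.Adj x y → s(u, v) ≠ s(x, y) →
          Set.range ⇑(γ u v) ∩ Set.range ⇑(γ x y) ⊆
            p '' (({u, v} : Set V) ∩ ({x, y} : Set V)))

lemma DrawnOn.transfer {V I V' I' : Type} {G : SimpleGraph V} (h : DrawnOn V I G) (e : V ≃ V')
    (f : I ≃ I') : DrawnOn V' I' (G.comap e.symm) := by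
  obtain ⟨C, hC, p, hp, hpC, γ, h1, h2, h3⟩ := h
  refine ⟨C ∘ f.symm, fun i => hC _, p ∘ e.symm, hp.comp e.symm.injective, ?_,
    fun u v => γ (e.symm u) (e.symm v), ?_, ?_, ?_⟩
  · intro v
    obtain ⟨i, hi⟩ := hpC (e.symm v)
    exact ⟨f i, by simpa using hi⟩
  · intro u v huv
    obtain ⟨g1, i, g2⟩ := h1 _ _ huv
    exact ⟨g1, f i, by simpa using g2⟩
  · intro u v w huv hwu hwv
    exact h2 _ _ _ huv (fun h => hwu (e.symm.injective h)) (fun h => hwv (e.symm.injective h))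
  · intro u v x y huv hxy hne q hq
    obtain ⟨w, ⟨hw1, hw2⟩, hw3⟩ := h3 (e.symm u) (e.symm v) (e.symm x) (e.symm y) huv hxy (by
      intro h
      apply hne
      have := congrArg (Sym2.map e) h
      simpa using this) hq
    refine ⟨e w, ⟨?_, ?_⟩, by simpa using hw3⟩
    · rcases hw1 with h | h
      · left; rw [h]; simp
      · right; rw [Set.mem_singleton_iff] at h ⊢; rw [h]; simp
    · rcases hw2 with h | h
      · left; rw [h]; simp
      · right; rw [Set.mem_singleton_iff] at h ⊢; rw [h]; simp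

abbrev Hb (N : ℕ) := Fin N × Fin N
abbrev Dd (N : ℕ) := Fin (2 * N) × Fin (2 * N)
abbrev Vt (N : ℕ) := Hb N ⊕ (Hb N × Dd N)

def hx {N : ℕ} (h : Hb N) : ℤ := ((h.1 : ℕ) : ℤ)
def hy {N : ℕ} (h : Hb N) : ℤ := ((h.2 : ℕ) : ℤ)
def dx {N : ℕ} (d : Dd N) : ℤ := (N : ℤ) + ((d.1 : ℕ) : ℤ)
def dy {N : ℕ} (d : Dd N) : ℤ := ((d.2 : ℕ) : ℤ)

lemma ok {N : ℕ} (h : Hb N) (d : Dd N) : Ok N (hx h) (hy h) (dx d) (dy d) := by
  obtain ⟨⟨h1, h1'⟩, ⟨h2, h2'⟩⟩ := h
  obtain ⟨⟨d1, d1'⟩, ⟨d2, d2'⟩⟩ := d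
  constructor <;> simp only [hx, hy, dx, dy] <;> omega

lemma hub_ext {N : ℕ} {h h' : Hb N} (h1 : hx h = hx h') (h2 : hy h = hy h') : h = h' := by
  obtain ⟨⟨a, _⟩, ⟨b, _⟩⟩ := h
  obtain ⟨⟨a', _⟩, ⟨b', _⟩⟩ := h'
  simp only [hx, hy] at h1 h2
  have e1 : a = a' := by omega
  have e2 : b = b' := by omega
  subst e1 e2
  rfl

lemma cen_ext {N : ℕ} {h h' : Dd N} (h1 : dx h = dx h') (h2 : dy h = dy h') : h = h' := by
  obtain ⟨⟨a, _⟩, ⟨b, _⟩⟩ := h
  obtain ⟨⟨a', _⟩, ⟨b', _⟩⟩ := h'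
  simp only [dx, dy] at h1 h2
  have e1 : a = a' := by omega
  have e2 : b = b' := by omega
  subst e1 e2
  rfl

noncomputable def af {N : ℕ} (l : Hb N × Dd N) (θ : ℝ) : E :=
  arcf (hx l.1) (hy l.1) (dx l.2) (dy l.2) θ

noncomputable def pos {N : ℕ} : Vt N → E
  | .inl h => !₂[(hx h : ℝ), (hy h : ℝ)]
  | .inr l => af l (del N)

def As {N : ℕ} (l : Hb N × Dd N) : Set E := {q | ∃ θ, 0 ≤ θ ∧ θ ≤ del N ∧ q = af l θ}

lemma af_zero {N : ℕ} (l : Hb N × Dd N) : af l 0 = pos (Sum.inl l.1) := arcf_zero _ _ _ _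

lemma af_inj {N : ℕ} (hN : 2 ≤ N) (l : Hb N × Dd N) {θ θ' : ℝ} (h0 : 0 ≤ θ) (h1 : θ ≤ del N)
    (h0' : 0 ≤ θ') (h1' : θ' ≤ del N) (h : af l θ = af l θ') : θ = θ' := by
  have hd := del_le hN
  have hpi : (1 : ℝ) ≤ π := by linarith [pi_gt_three]
  exact rot_inj (by
    have := (ok l.1 l.2).norm_ge
    intro hh
    linarith) h0 (by linarith) h0' (by linarith) h

lemma pos_ne {N : ℕ} (hN : 2 ≤ N) (l : Hb N × Dd N) : pos (Sum.inr l) ≠ pos (Sum.inl l.1) := by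
  intro h
  rw [← af_zero] at h
  have := af_inj hN l (del_pos hN).le le_rfl le_rfl (del_pos hN).le h
  exact (del_pos hN).ne' this

lemma hub_mem {N : ℕ} (hN : 2 ≤ N) (l : Hb N × Dd N) : pos (Sum.inl l.1) ∈ As l :=
  ⟨0, le_rfl, (del_pos hN).le, (af_zero l).symm⟩

lemma leaf_mem {N : ℕ} (hN : 2 ≤ N) (l : Hb N × Dd N) : pos (Sum.inr l) ∈ As l :=
  ⟨del N, (del_pos hN).le, le_rfl, rfl⟩

lemma As_inter {N : ℕ} (hN : 2 ≤ N) {l l' : Hb N × Dd N} (hne : l ≠ l') {q : E} (h : q ∈ As l)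
    (h' : q ∈ As l') : l.1 = l'.1 ∧ q = pos (Sum.inl l.1) := by
  obtain ⟨θ, h0, h1, rfl⟩ := h
  obtain ⟨θ', h0', h1', he⟩ := h'
  obtain ⟨e1, e2, e3⟩ := K1 hN (ok l.1 l.2) (ok l'.1 l'.2) (by
    rintro ⟨g1, g2, g3, g4⟩
    exact hne (Prod.ext (hub_ext g1 g2) (cen_ext g3 g4))) h0 h1 h0' h1' he
  exact ⟨hub_ext e1 e2, e3⟩

lemma hub_near {N : ℕ} (hN : 2 ≤ N) {l : Hb N × Dd N} {h : Hb N} (hm : pos (Sum.inl h) ∈ As l) :
    h = l.1 := by
  obtain ⟨θ, h0, h1, he⟩ := hm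
  have n1 := near_quarter hN (by positivity) (arc_near hN (ok l.1 l.2) h0 h1)
  have n2 : (arcf (hx l.1) (hy l.1) (dx l.2) (dy l.2) θ 0 - (hx h : ℝ)) ^ 2 +
      (arcf (hx l.1) (hy l.1) (dx l.2) (dy l.2) θ 1 - (hy h : ℝ)) ^ 2 < 1 / 4 := by
    have he' : arcf (hx l.1) (hy l.1) (dx l.2) (dy l.2) θ = !₂[(hx h : ℝ), (hy h : ℝ)] := he.symm
    rw [he']
    simp
  obtain ⟨g1, g2⟩ := same_of_near n1 n2
  exact (hub_ext g1 g2).symm

lemma pos_inj {N : ℕ} (hN : 2 ≤ N) : Function.Injective (pos : Vt N → E) := by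
  rintro (h | l) (h' | l') he
  · have e0 := congrArg (fun q : E => q 0) he
    have e1 := congrArg (fun q : E => q 1) he
    simp only [pos] at e0 e1
    have e0' : (hx h : ℝ) = hx h' := by simpa using e0
    have e1' : (hy h : ℝ) = hy h' := by simpa using e1
    have : h = h' := hub_ext (by exact_mod_cast e0') (by exact_mod_cast e1')
    rw [this]
  · exfalso
    have h1 : pos (Sum.inl h) ∈ As l' := by rw [he]; exact leaf_mem hN l'
    have h2 := hub_near hN h1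
    subst h2
    exact pos_ne hN l' he.symm
  · exfalso
    have h1 : pos (Sum.inl h') ∈ As l := by rw [← he]; exact leaf_mem hN l
    have h2 := hub_near hN h1
    subst h2
    exact pos_ne hN l he
  · by_contra hne
    have hne' : l ≠ l' := fun h => hne (by rw [h])
    have h1 := leaf_mem hN l
    have h2 : pos (Sum.inr l) ∈ As l' := by rw [he]; exact leaf_mem hN l'
    exact pos_ne hN l (As_inter hN hne' h1 h2).2

lemma af_cont {N : ℕ} (l : Hb N × Dd N) : Continuous (af l) := rot_cont _ _ _ _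

/-- the arc as a path -/
noncomputable def aPath {N : ℕ} (l : Hb N × Dd N) :
    Path (pos (Sum.inl l.1) : E) (pos (Sum.inr l)) where
  toFun t := af l (del N * t)
  continuous_toFun := (af_cont l).comp (by fun_prop)
  source' := by simp [af_zero]
  target' := by simp [pos]

lemma aPath_inj {N : ℕ} (hN : 2 ≤ N) (l : Hb N × Dd N) : Function.Injective ⇑(aPath l) := by
  intro s t h
  have hd := del_pos hN
  have h' : af l (del N * s) = af l (del N * t) := h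
  have := af_inj hN l (mul_nonneg hd.le s.2.1) (mul_le_of_le_one_right hd.le s.2.2)
    (mul_nonneg hd.le t.2.1) (mul_le_of_le_one_right hd.le t.2.2) h'
  exact Subtype.ext (mul_left_cancel₀ hd.ne' this)

lemma aPath_range {N : ℕ} (hN : 2 ≤ N) (l : Hb N × Dd N) : Set.range ⇑(aPath l) ⊆ As l := by
  rintro _ ⟨t, rfl⟩
  have hd := del_pos hN
  exact ⟨del N * t, mul_nonneg hd.le t.2.1, mul_le_of_le_one_right hd.le t.2.2, rfl⟩

/-- the star forest -/
def star (N : ℕ) : SimpleGraph (Vt N) where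
  Adj x y := match x, y with
    | .inl h, .inr l => l.1 = h
    | .inr l, .inl h => l.1 = h
    | _, _ => False
  symm := by
    constructor
    rintro (x | x) (y | y) h <;> exact h
  loopless := by
    constructor
    rintro (x | x) h <;> exact h

open Classical in
noncomputable def Sq (N : ℕ) : Finset ℕ :=
  (Finset.Icc 1 (13 * N ^ 2)).filter (fun m => ∃ a b : ℕ, m = a ^ 2 + b ^ 2)

def mm {N : ℕ} (l : Hb N × Dd N) : ℕ :=
  (hx l.1 - dx l.2).natAbs ^ 2 + (hy l.1 - dy l.2).natAbs ^ 2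

lemma mm_cast {N : ℕ} (l : Hb N × Dd N) :
    ((mm l : ℕ) : ℝ) = ((hx l.1 : ℝ) - dx l.2) ^ 2 + (hy l.1 - dy l.2) ^ 2 := by
  have h : ((mm l : ℕ) : ℤ) = (hx l.1 - dx l.2) ^ 2 + (hy l.1 - dy l.2) ^ 2 := by
    unfold mm
    push_cast
    simp [sq_abs]
  exact_mod_cast h

lemma mm_mem {N : ℕ} (l : Hb N × Dd N) : mm l ∈ Sq N := by
  classical
  unfold Sq
  rw [Finset.mem_filter, Finset.mem_Icc]
  have h1 := (ok l.1 l.2).norm_ge
  have h2 := (ok l.1 l.2).norm_le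
  rw [← mm_cast] at h1 h2
  exact ⟨⟨by exact_mod_cast h1, by exact_mod_cast h2⟩, _, _, rfl⟩

lemma exists_path {N : ℕ} (hN : 2 ≤ N) (u v : Vt N) : ∃ γ : Path (pos u : E) (pos v),
    ∀ l : Hb N × Dd N, (u = Sum.inl l.1 ∧ v = Sum.inr l) ∨ (u = Sum.inr l ∧ v = Sum.inl l.1) →
      Function.Injective ⇑γ ∧ Set.range ⇑γ ⊆ As l := by
  by_cases h : ∃ l : Hb N × Dd N, u = Sum.inl l.1 ∧ v = Sum.inr l
  · obtain ⟨l, rfl, rfl⟩ := h
    refine ⟨aPath l, fun l' hl' => ?_⟩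
    rcases hl' with ⟨_, h2⟩ | ⟨h1, _⟩
    · rw [Sum.inr.injEq] at h2
      subst h2
      exact ⟨aPath_inj hN l, aPath_range hN l⟩
    · cases h1
  · by_cases h' : ∃ l : Hb N × Dd N, u = Sum.inr l ∧ v = Sum.inl l.1
    · obtain ⟨l, rfl, rfl⟩ := h'
      refine ⟨(aPath l).symm, fun l' hl' => ?_⟩
      rcases hl' with ⟨h1, _⟩ | ⟨h1, _⟩
      · cases h1
      · rw [Sum.inr.injEq] at h1
        subst h1
        refine ⟨?_, ?_⟩
        · intro s t hst
          have : aPath l (unitInterval.symm s) = aPath l (unitInterval.symm t) := hst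
          exact unitInterval.symm_bijective.injective (aPath_inj hN l this)
        · rw [Path.symm_range]
          exact aPath_range hN l
    · refine ⟨PathConnectedSpace.somePath _ _, fun l hl => ?_⟩
      rcases hl with hl | hl
      · exact absurd ⟨l, hl⟩ h
      · exact absurd ⟨l, hl⟩ h'

lemma adj_cases {N : ℕ} {u v : Vt N} (h : (star N).Adj u v) : ∃ l : Hb N × Dd N,
    (u = Sum.inl l.1 ∧ v = Sum.inr l) ∨ (u = Sum.inr l ∧ v = Sum.inl l.1) := by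
  rcases u with u | u <;> rcases v with v | v
  · exact h.elim
  · have : v.1 = u := h
    exact ⟨v, Or.inl ⟨by rw [this], rfl⟩⟩
  · have : u.1 = v := h
    exact ⟨u, Or.inr ⟨rfl, by rw [this]⟩⟩
  · exact h.elim

theorem drawn {N : ℕ} (hN : 2 ≤ N) : DrawnOn (Vt N) (Dd N × {m // m ∈ Sq N}) (star N) := by
  choose γ hγ using exists_path hN
  let C : Dd N × {m // m ∈ Sq N} → Set E := fun i =>
    Metric.sphere (!₂[(dx i.1 : ℝ), (dy i.1 : ℝ)] : E) (√((i.2 : ℕ) : ℝ))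
  have hAC : ∀ l : Hb N × Dd N, As l ⊆ C (l.2, ⟨mm l, mm_mem l⟩) := by
    rintro l _ ⟨θ, _, _, rfl⟩
    show af l θ ∈ Metric.sphere (!₂[(dx l.2 : ℝ), (dy l.2 : ℝ)] : E) (√((mm l : ℕ) : ℝ))
    rw [mm_cast]
    exact rot_sphere _ _ _ _ _
  have d0 : Dd N := (⟨0, by omega⟩, ⟨0, by omega⟩)
  refine ⟨C, ?_, pos, pos_inj hN, ?_, γ, ?_, ?_, ?_⟩
  · rintro ⟨d, m, hm⟩
    left
    refine ⟨_, √(m : ℝ), ?_, rfl⟩
    have : 1 ≤ m := by
      unfold Sq at hm
      rw [Finset.mem_filter, Finset.mem_Icc] at hm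
      exact hm.1.1
    have : (0 : ℝ) < m := by exact_mod_cast this
    exact Real.sqrt_pos.mpr this
  · rintro (h | l)
    · exact ⟨_, hAC (h, d0) (hub_mem hN (h, d0))⟩
    · exact ⟨_, hAC l (leaf_mem hN l)⟩
  · intro u v huv
    obtain ⟨l, hl⟩ := adj_cases huv
    obtain ⟨g1, g2⟩ := hγ u v l hl
    exact ⟨g1, _, g2.trans (hAC l)⟩
  · intro u v w huv hwu hwv hw
    obtain ⟨l, hl⟩ := adj_cases huv
    have hw' := (hγ u v l hl).2 hw
    have hw1 : w ≠ Sum.inl l.1 := by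
      rcases hl with ⟨rfl, rfl⟩ | ⟨rfl, rfl⟩
      · exact hwu
      · exact hwv
    have hw2 : w ≠ Sum.inr l := by
      rcases hl with ⟨rfl, rfl⟩ | ⟨rfl, rfl⟩
      · exact hwv
      · exact hwu
    rcases w with h | l'
    · have := hub_near hN hw'
      exact hw1 (by rw [this])
    · have hne : l' ≠ l := fun h => hw2 (by rw [h])
      exact pos_ne hN l' (As_inter hN hne (leaf_mem hN l') hw').2
  · intro u v x y huv hxy hne q hq
    obtain ⟨l, hl⟩ := adj_cases huv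
    obtain ⟨l', hl'⟩ := adj_cases hxy
    have q1 := (hγ u v l hl).2 hq.1
    have q2 := (hγ x y l' hl').2 hq.2
    have hll : l ≠ l' := by
      rintro rfl
      apply hne
      rcases hl with ⟨rfl, rfl⟩ | ⟨rfl, rfl⟩ <;> rcases hl' with ⟨rfl, rfl⟩ | ⟨rfl, rfl⟩
      · rfl
      · exact Sym2.eq_swap
      · exact Sym2.eq_swap
      · rfl
    obtain ⟨e1, e2⟩ := As_inter hN hll q1 q2
    refine ⟨Sum.inl l.1, ⟨?_, ?_⟩, e2.symm⟩
    · rcases hl with ⟨rfl, rfl⟩ | ⟨rfl, rfl⟩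
      · left; rfl
      · right; rfl
    · rcases hl' with ⟨rfl, rfl⟩ | ⟨rfl, rfl⟩
      · left; rw [e1]
      · right; rw [e1]; rfl

end Pool.Agent.H8.Cov
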