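import Mathlib

namespace Pool.Agent.H8.Cov

open Real

abbrev E := EuclideanSpace ℝ (Fin 2)

/-- rotation of `u` about `c` by the angle `θ` -/
noncomputable def rot (c1 c2 u1 u2 θ : ℝ) : E :=
  !₂[c1 + (cos θ * u1 - sin θ * u2), c2 + (sin θ * u1 + cos θ * u2)]

lemma rot_zero (c1 c2 u1 u2 : ℝ) : rot c1 c2 u1 u2 0 = !₂[c1 + u1, c2 + u2] := by
  simp [rot]

lemma rot_cont (c1 c2 u1 u2 : ℝ) : Continuous (rot c1 c2 u1 u2) := by
  unfold rot
  refine (EuclideanSpace.equiv (Fin 2) ℝ).symm.continuous.comp (continuous_pi fun i => ?_)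
  fin_cases i
  · show Continuous fun θ => c1 + (cos θ * u1 - sin θ * u2)
    fun_prop
  · show Continuous fun θ => c2 + (sin θ * u1 + cos θ * u2)
    fun_prop

lemma rot0 (c1 c2 u1 u2 θ : ℝ) : rot c1 c2 u1 u2 θ 0 = c1 + (cos θ * u1 - sin θ * u2) := by
  simp [rot]
lemma rot1 (c1 c2 u1 u2 θ : ℝ) : rot c1 c2 u1 u2 θ 1 = c2 + (sin θ * u1 + cos θ * u2) := by
  simp [rot]

lemma rot_sphere (c1 c2 u1 u2 θ : ℝ) :
    rot c1 c2 u1 u2 θ ∈ Metric.sphere (!₂[c1, c2] : E) (√(u1 ^ 2 + u2 ^ 2)) := by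
  rw [Metric.mem_sphere, EuclideanSpace.dist_eq, Fin.sum_univ_two, rot0, rot1]
  congr 1
  simp only [Real.dist_eq, sq_abs]
  simp only [PiLp.toLp_apply, Matrix.cons_val_zero, Matrix.cons_val_one]
  nlinarith [sin_sq_add_cos_sq θ]

lemma rot_inj {c1 c2 u1 u2 θ θ' : ℝ} (hu : u1 ^ 2 + u2 ^ 2 ≠ 0) (h0 : 0 ≤ θ) (h1 : θ ≤ π)
    (h0' : 0 ≤ θ') (h1' : θ' ≤ π) (h : rot c1 c2 u1 u2 θ = rot c1 c2 u1 u2 θ') : θ = θ' := by
  have e0 := congrArg (fun q : E => q 0) h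
  have e1 := congrArg (fun q : E => q 1) h
  simp only [rot0, rot1] at e0 e1
  have hc : cos θ = cos θ' := by
    have : (cos θ - cos θ') * (u1 ^ 2 + u2 ^ 2) = 0 := by
      linear_combination u1 * e0 + u2 * e1
    rcases mul_eq_zero.mp this with h | h
    · linarith
    · exact absurd h hu
  exact injOn_cos ⟨h0, h1⟩ ⟨h0', h1'⟩ hc

/-- squared distance from the start -/
lemma rot_dist {c1 c2 u1 u2 θ : ℝ} :
    (rot c1 c2 u1 u2 θ 0 - (c1 + u1)) ^ 2 + (rot c1 c2 u1 u2 θ 1 - (c2 + u2)) ^ 2 ≤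
      (u1 ^ 2 + u2 ^ 2) * θ ^ 2 := by
  rw [rot0, rot1]
  have h1 : 1 - θ ^ 2 / 2 ≤ cos θ := one_sub_sq_div_two_le_cos
  have h2 : 0 ≤ u1 ^ 2 + u2 ^ 2 := by positivity
  nlinarith [sin_sq_add_cos_sq θ, mul_le_mul_of_nonneg_left h1 h2]

lemma sq_sum_zero {a b : ℝ} (h : a ^ 2 + b ^ 2 = 0) : a = 0 ∧ b = 0 := by
  have h1 : a ^ 2 = 0 := by nlinarith [sq_nonneg a, sq_nonneg b]
  have h2 : b ^ 2 = 0 := by nlinarith [sq_nonneg a, sq_nonneg b]
  exact ⟨by simpa using h1, by simpa using h2⟩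

lemma one_le_sq_of_ne {n : ℤ} (h : n ≠ 0) : 1 ≤ n ^ 2 := by
  have : 0 < n ^ 2 := by positivity
  omega

/-- two circles with integer centres through an integer point -/
lemma key (p1 p2 a b a' b' : ℤ) (x y K : ℝ) (hne : ¬ (a = a' ∧ b = b'))
    (h1 : (x - a) ^ 2 + (y - b) ^ 2 = ((p1 : ℝ) - a) ^ 2 + (p2 - b) ^ 2)
    (h2 : (x - a') ^ 2 + (y - b') ^ 2 = ((p1 : ℝ) - a') ^ 2 + (p2 - b') ^ 2)
    (hK : ((a' : ℝ) - a) ^ 2 + (b' - b) ^ 2 ≤ K)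
    (hd : ((x - p1) ^ 2 + (y - p2) ^ 2) * K < 4) : x = p1 ∧ y = p2 := by
  set d1 := x - p1 with hd1
  set d2 := y - p2 with hd2
  set e1 : ℝ := (a' : ℝ) - a with he1
  set e2 : ℝ := (b' : ℝ) - b with he2
  have hx : x = d1 + p1 := by rw [hd1]; ring
  have hy : y = d2 + p2 := by rw [hd2]; ring
  set n : ℤ := (p1 - a) * (b' - b) - (p2 - b) * (a' - a) with hn
  have hnR : (n : ℝ) = ((p1 : ℝ) - a) * e2 - (p2 - b) * e1 := by
    rw [hn, he1, he2]; push_cast; ring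
  have g1 : d1 ^ 2 + d2 ^ 2 + 2 * (d1 * (p1 - a) + d2 * (p2 - b)) = 0 := by
    rw [hx, hy] at h1; linear_combination h1
  have g2 : d1 ^ 2 + d2 ^ 2 + 2 * (d1 * (p1 - a') + d2 * (p2 - b')) = 0 := by
    rw [hx, hy] at h2; linear_combination h2
  have g3 : d1 * e1 + d2 * e2 = 0 := by
    rw [he1, he2]; linear_combination (g1 - g2) / 2
  set w := d1 * e2 - d2 * e1 with hw
  have g4 : (d1 ^ 2 + d2 ^ 2) * (e1 ^ 2 + e2 ^ 2) = w ^ 2 := by
    rw [hw]; linear_combination (d1 * e1 + d2 * e2) * g3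
  have g5 : w * (w + 2 * n) = 0 := by
    rw [hnR]
    linear_combination (-1) * g4 + (e1 ^ 2 + e2 ^ 2) * g1 -
      2 * (e1 * (p1 - a) + e2 * (p2 - b)) * g3
  have hepos : 0 < e1 ^ 2 + e2 ^ 2 := by
    by_contra hcon
    have h0 : e1 ^ 2 + e2 ^ 2 = 0 := le_antisymm (not_lt.mp hcon) (by positivity)
    obtain ⟨h01, h02⟩ := sq_sum_zero h0
    apply hne
    rw [he1, sub_eq_zero] at h01
    rw [he2, sub_eq_zero] at h02
    exact ⟨by exact_mod_cast h01.symm, by exact_mod_cast h02.symm⟩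
  have hw0 : w = 0 := by
    rcases mul_eq_zero.mp g5 with h | h
    · exact h
    · by_contra hw1
      have hn0 : n ≠ 0 := by
        intro hn0
        rw [hn0] at h
        apply hw1
        simpa using h
      have hn1 : (1 : ℝ) ≤ (n : ℝ) ^ 2 := by
        exact_mod_cast one_le_sq_of_ne hn0
      have hw2 : w ^ 2 = 4 * (n : ℝ) ^ 2 := by
        have : w = -2 * n := by linarith
        rw [this]; ring
      have hle : (d1 ^ 2 + d2 ^ 2) * (e1 ^ 2 + e2 ^ 2) ≤ (d1 ^ 2 + d2 ^ 2) * K :=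
        mul_le_mul_of_nonneg_left hK (by positivity)
      linarith
  rw [hw0] at g4
  have hd0 : d1 ^ 2 + d2 ^ 2 = 0 := by
    rcases mul_eq_zero.mp (by simpa using g4 : (d1 ^ 2 + d2 ^ 2) * (e1 ^ 2 + e2 ^ 2) = 0) with h | h
    · exact h
    · exact absurd h hepos.ne'
  obtain ⟨h01, h02⟩ := sq_sum_zero hd0
  exact ⟨by linarith, by linarith⟩

end Pool.Agent.H8.Cov
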