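import Pool.Agent.H8.CovGeo

namespace Pool.Agent.H8.Cov

open Real AffineMap

lemma lm_comp (x y : E) (r0 r2 t : ℝ) :
    lineMap (lineMap x y r0 : E) (lineMap x y r2 : E) t = (lineMap x y (r0 + t * (r2 - r0)) : E) := by
  simp only [lineMap_apply_module']
  module

lemma lm_seg (x y : E) {r0 r1 r2 : ℝ} (h : (r0 < r1 ∧ r1 ≤ r2) ∨ (r1 < r0 ∧ r2 ≤ r1)) :
    (lineMap x y r1 : E) ∈ segment ℝ (lineMap x y r0 : E) (lineMap x y r2 : E) := by
  rw [segment_eq_image_lineMap]
  have hne : r2 - r0 ≠ 0 := by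
    rcases h with h | h
    · have h5 : 0 < r2 - r0 := by linarith
      exact h5.ne'
    · have h5 : r2 - r0 < 0 := by linarith
      exact h5.ne
  refine ⟨(r1 - r0) / (r2 - r0), ?_, ?_⟩
  · rcases h with h | h
    · have : 0 < r2 - r0 := by linarith
      constructor
      · apply div_nonneg <;> linarith
      · rw [div_le_one this]; linarith
    · have h' : r2 - r0 < 0 := by linarith
      constructor
      · apply div_nonneg_of_nonpos <;> linarith
      · rw [div_le_one_of_neg h']; linarith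
  · rw [lm_comp, div_mul_cancel₀ _ hne]
    congr 1
    ring

lemma line_eq {x y a b : E} {S : Set E} (hS : S = ((line[ℝ, x, y] : AffineSubspace ℝ E) : Set E))
    (ha : a ∈ S) (hb : b ∈ S) (hab : a ≠ b) : S = Set.range fun s : ℝ => (lineMap a b s : E) := by
  subst hS
  rw [SetLike.mem_coe, mem_affineSpan_pair_iff_exists_lineMap_eq] at ha hb
  obtain ⟨r0, rfl⟩ := ha
  obtain ⟨r1, rfl⟩ := hb
  have hr : r1 - r0 ≠ 0 := by
    intro h
    apply hab
    rw [sub_eq_zero] at h
    rw [h]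
  ext q
  rw [SetLike.mem_coe, mem_affineSpan_pair_iff_exists_lineMap_eq]
  constructor
  · rintro ⟨r, rfl⟩
    refine ⟨(r - r0) / (r1 - r0), ?_⟩
    show lineMap _ _ _ = _
    rw [lm_comp, div_mul_cancel₀ _ hr]
    congr 1
    ring
  · rintro ⟨s, rfl⟩
    exact ⟨_, (lm_comp _ _ _ _ _).symm⟩

theorem line_lb {H D : Type} [Fintype H] [Fintype D] (k : ℕ) (L : Fin k → Set E)
    (hL : ∀ i, ∃ x y : E, x ≠ y ∧ L i = ((line[ℝ, x, y] : AffineSubspace ℝ E) : Set E))
    (p : H ⊕ (H × D) → E) (hp : Function.Injective p)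
    (hseg : ∀ u d, ∃ i, segment ℝ (p (Sum.inl u)) (p (Sum.inr (u, d))) ⊆ L i)
    (hv : ∀ u d w, w ≠ Sum.inl u → w ≠ Sum.inr (u, d) →
      p w ∉ segment ℝ (p (Sum.inl u)) (p (Sum.inr (u, d)))) :
    Fintype.card H * Fintype.card D ≤ 2 * k + Fintype.card H * Fintype.card H := by
  classical
  choose i hi using hseg
  let A : Finset (Set E) := Finset.univ.image L
  have hA : A.card ≤ k := by
    refine Finset.card_image_le.trans ?_
    simp
  let B : H → Finset (Set E) := fun u => Finset.univ.image fun d => L (i u d)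
  have hBA : ∀ u, B u ⊆ A := by
    intro u S hS
    obtain ⟨d, _, rfl⟩ := Finset.mem_image.mp hS
    exact Finset.mem_image.mpr ⟨_, Finset.mem_univ _, rfl⟩
  have hmem : ∀ u, ∀ S ∈ B u, p (Sum.inl u) ∈ S := by
    intro u S hS
    obtain ⟨d, _, rfl⟩ := Finset.mem_image.mp hS
    exact hi u d (left_mem_segment _ _ _)
  have hlin : ∀ u, ∀ S ∈ B u, ∃ x y : E, S = ((line[ℝ, x, y] : AffineSubspace ℝ E) : Set E) := by
    intro u S hS
    obtain ⟨d, _, rfl⟩ := Finset.mem_image.mp hS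
    obtain ⟨x, y, _, h⟩ := hL (i u d)
    exact ⟨x, y, h⟩
  -- each line carries at most two spokes
  have hfib : ∀ u, Fintype.card D ≤ 2 * (B u).card := by
    intro u
    refine Finset.card_le_mul_card_image (s := (Finset.univ : Finset D)) 2 ?_
    intro S hS
    by_contra hcon
    have h3 : 2 < (Finset.univ.filter fun d => L (i u d) = S).card := not_le.mp hcon
    obtain ⟨d1, d2, d3, h1, h2, h3', h12, h13, h23⟩ := Finset.two_lt_card_iff.mp h3
    rw [Finset.mem_filter] at h1 h2 h3'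
    obtain ⟨x, y, _, hxy⟩ := hL (i u d1)
    have g0 : p (Sum.inl u) ∈ L (i u d1) := hi u d1 (left_mem_segment _ _ _)
    have g1 : p (Sum.inr (u, d1)) ∈ L (i u d1) := hi u d1 (right_mem_segment _ _ _)
    have g2 : p (Sum.inr (u, d2)) ∈ L (i u d1) := by
      rw [h1.2, ← h2.2]; exact hi u d2 (right_mem_segment _ _ _)
    have g3 : p (Sum.inr (u, d3)) ∈ L (i u d1) := by
      rw [h1.2, ← h3'.2]; exact hi u d3 (right_mem_segment _ _ _)
    rw [hxy, SetLike.mem_coe, mem_affineSpan_pair_iff_exists_lineMap_eq] at g0 g1 g2 g3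
    obtain ⟨r0, e0⟩ := g0
    obtain ⟨r1, e1⟩ := g1
    obtain ⟨r2, e2⟩ := g2
    obtain ⟨r3, e3⟩ := g3
    have bad : ∀ (d d' : D) (r r' : ℝ), d ≠ d' → lineMap x y r = p (Sum.inr (u, d)) →
        lineMap x y r' = p (Sum.inr (u, d')) →
        ((r0 < r ∧ r ≤ r') ∨ (r < r0 ∧ r' ≤ r)) → False := by
      intro d d' r r' hdd hr hr' hh
      refine hv u d' (Sum.inr (u, d)) (by simp) (by simp [hdd]) ?_
      rw [← hr, ← hr', ← e0]
      exact lm_seg x y hh
    have ne : ∀ (d : D) (r : ℝ), lineMap x y r = p (Sum.inr (u, d)) → r ≠ r0 := by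
      intro d r hr hrr
      rw [hrr, e0] at hr
      have := hp hr
      cases this
    have n1 := ne d1 r1 e1
    have n2 := ne d2 r2 e2
    have n3 := ne d3 r3 e3
    have pair : ∀ (d d' : D) (r r' : ℝ), d ≠ d' → lineMap x y r = p (Sum.inr (u, d)) →
        lineMap x y r' = p (Sum.inr (u, d')) → ¬ ((r0 < r ∧ r0 < r') ∨ (r < r0 ∧ r' < r0)) := by
      intro d d' r r' hdd hr hr' hh
      rcases le_total r r' with hle | hle <;> rcases hh with hh | hh
      · exact bad d d' r r' hdd hr hr' (Or.inl ⟨hh.1, hle⟩)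
      · exact bad d' d r' r hdd.symm hr' hr (Or.inr ⟨hh.2, hle⟩)
      · exact bad d' d r' r hdd.symm hr' hr (Or.inl ⟨hh.2, hle⟩)
      · exact bad d d' r r' hdd hr hr' (Or.inr ⟨hh.1, hle⟩)
    have p12 := pair d1 d2 r1 r2 h12 e1 e2
    have p13 := pair d1 d3 r1 r3 h13 e1 e3
    have p23 := pair d2 d3 r2 r3 h23 e2 e3
    rcases lt_or_gt_of_ne n1 with a1 | a1 <;> rcases lt_or_gt_of_ne n2 with a2 | a2 <;>
      rcases lt_or_gt_of_ne n3 with a3 | a3
    · exact p12 (Or.inr ⟨a1, a2⟩)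
    · exact p12 (Or.inr ⟨a1, a2⟩)
    · exact p13 (Or.inr ⟨a1, a3⟩)
    · exact p23 (Or.inl ⟨a2, a3⟩)
    · exact p23 (Or.inr ⟨a2, a3⟩)
    · exact p13 (Or.inl ⟨a1, a3⟩)
    · exact p12 (Or.inl ⟨a1, a2⟩)
    · exact p12 (Or.inl ⟨a1, a2⟩)
  have hint : ∀ u v, u ≠ v → (B u ∩ B v).card ≤ 1 := by
    intro u v huv
    rw [Finset.card_le_one]
    intro S hS S' hS'
    rw [Finset.mem_inter] at hS hS'
    have hne : p (Sum.inl u) ≠ p (Sum.inl v) := fun h => huv (by simpa using hp h)
    obtain ⟨x, y, h1⟩ := hlin u S hS.1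
    obtain ⟨x', y', h2⟩ := hlin u S' hS'.1
    rw [line_eq h1 (hmem u S hS.1) (hmem v S hS.2) hne,
      line_eq h2 (hmem u S' hS'.1) (hmem v S' hS'.2) hne]
  have hun : ∀ T : Finset H, 2 * ∑ u ∈ T, (B u).card ≤ 2 * (T.biUnion B).card + T.card * T.card := by
    intro T
    induction T using Finset.induction_on with
    | empty => simp
    | insert v T hvT ih =>
      rw [Finset.sum_insert hvT, Finset.biUnion_insert, Finset.card_insert_of_notMem hvT]
      have h1 : (B v ∩ T.biUnion B).card ≤ T.card := by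
        rw [Finset.inter_biUnion]
        refine Finset.card_biUnion_le.trans ?_
        refine (Finset.sum_le_sum fun u hu => hint v u (fun h => hvT (h ▸ hu))).trans ?_
        simp
      have h2 := Finset.card_union_add_card_inter (B v) (T.biUnion B)
      nlinarith
  have h1 := hun Finset.univ
  have h2 : (Finset.univ.biUnion B).card ≤ k :=
    (Finset.card_le_card (Finset.biUnion_subset.mpr fun u _ => hBA u)).trans hA
  have h3 : Fintype.card H * Fintype.card D ≤ 2 * ∑ u : H, (B u).card := by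
    rw [Finset.mul_sum]
    calc Fintype.card H * Fintype.card D = ∑ _u : H, Fintype.card D := by simp
      _ ≤ _ := Finset.sum_le_sum fun u _ => hfib u
  rw [Finset.card_univ] at h1
  omega

end Pool.Agent.H8.Cov
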