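import Mathlib

set_option autoImplicit false
open Classical

namespace Pool.Agent.H8.Cov

/-- admissible residues modulo `q ^ 2` -/
def Gq (q : ℕ) : Finset ℕ := (Finset.range (q ^ 2)).filter (fun r => q ∣ r → r = 0)

lemma card_Gq (q : ℕ) (hq : 2 ≤ q) : (Gq q).card + (q - 1) ≤ q ^ 2 := by
  have h1 := Finset.card_filter_add_card_filter_not (s := Finset.range (q ^ 2))
    (fun r => q ∣ r → r = 0)
  rw [Finset.card_range] at h1
  have h2 : q - 1 ≤ ((Finset.range (q ^ 2)).filter (fun r => ¬ (q ∣ r → r = 0))).card := by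
    have h3 : ((Finset.Ico 1 q).image (fun k => q * k)).card = q - 1 := by
      rw [Finset.card_image_of_injective, Nat.card_Ico]
      intro a b hab
      exact Nat.eq_of_mul_eq_mul_left (by omega) hab
    rw [← h3]
    apply Finset.card_le_card
    intro r hr
    simp only [Finset.mem_image, Finset.mem_Ico] at hr
    obtain ⟨k, ⟨hk1, hk2⟩, rfl⟩ := hr
    simp only [Finset.mem_filter, Finset.mem_range]
    refine ⟨?_, ?_⟩
    · rw [pow_two]
      exact Nat.mul_lt_mul_of_pos_left hk2 (by omega)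
    · intro hcon
      have := hcon (dvd_mul_right q k)
      have h5 : 0 < q * k := Nat.mul_pos (by omega) hk1
      omega
  unfold Gq
  omega

lemma two_sq_res {q : ℕ} (hq : q.Prime) (h3 : q % 4 = 3) {m a b : ℕ} (hm : m = a ^ 2 + b ^ 2) :
    m % q ^ 2 ∈ Gq q := by
  unfold Gq
  have hpos : 0 < q ^ 2 := pow_pos hq.pos 2
  simp only [Finset.mem_filter, Finset.mem_range]
  refine ⟨Nat.mod_lt _ hpos, ?_⟩
  intro hd
  have hqm : q ∣ m := by
    rw [← Nat.mod_add_div m (q ^ 2)]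
    exact dvd_add hd ((dvd_pow_self q two_ne_zero).mul_right _)
  by_cases hm0 : m = 0
  · rw [hm0]; simp
  · have hev := Nat.eq_sq_add_sq_iff.1 ⟨a, b, hm⟩ q (Nat.mem_primeFactors.2 ⟨hq, hqm, hm0⟩) h3
    have : Fact q.Prime := ⟨hq⟩
    have h1 : 1 ≤ padicValNat q m := one_le_padicValNat_of_dvd hm0 hqm
    have h2 : 2 ≤ padicValNat q m := by
      obtain ⟨r, hr⟩ := hev
      omega
    have h4 : q ^ 2 ∣ m := (padicValNat_dvd_iff_le hm0).2 h2
    exact Nat.mod_eq_zero_of_dvd h4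

lemma card_T (Q : Finset ℕ) (hQ : ∀ q ∈ Q, q.Prime) :
    ((Finset.range (∏ q ∈ Q, q ^ 2)).filter (fun m => ∀ q ∈ Q, m % q ^ 2 ∈ Gq q)).card ≤
      ∏ q ∈ Q, (Gq q).card := by
  rw [← Finset.card_pi]
  apply Finset.card_le_card_of_injOn (fun m => (fun q (_ : q ∈ Q) => m % q ^ 2))
  · intro m hm
    simp only [Finset.coe_filter, Finset.mem_range, Set.mem_ofPred_eq] at hm
    simp only [Finset.mem_coe, Finset.mem_pi]
    exact fun q hq => hm.2 q hq
  · intro m hm m' hm' he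
    simp only [Finset.coe_filter, Finset.mem_range, Set.mem_ofPred_eq] at hm hm'
    have h1 : ∀ q ∈ Q, ((q : ℤ) ^ 2) ∣ (m : ℤ) - m' := by
      intro q hq
      have h2 : m % q ^ 2 = m' % q ^ 2 := congrFun (congrFun he q) hq
      have h3 : (m' : ℤ) ≡ m [ZMOD ((q ^ 2 : ℕ) : ℤ)] := by
        rw [Int.natCast_modEq_iff]
        exact h2.symm
      have := h3.dvd
      push_cast at this
      exact this
    have h2 : (∏ q ∈ Q, (q : ℤ) ^ 2) ∣ (m : ℤ) - m' := by
      apply Finset.prod_dvd_of_coprime _ h1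
      intro p hp q hq hpq
      apply IsCoprime.pow
      rw [Nat.isCoprime_iff_coprime]
      exact (Nat.coprime_primes (hQ p hp) (hQ q hq)).2 hpq
    have h3 : ((∏ q ∈ Q, q ^ 2 : ℕ) : ℤ) ∣ (m : ℤ) - m' := by
      push_cast
      exact h2
    have h4 : |(m : ℤ) - m'| < ((∏ q ∈ Q, q ^ 2 : ℕ) : ℤ) := by
      rw [abs_lt]
      constructor <;> omega
    have h5 := Int.eq_zero_of_abs_lt_dvd h3 h4
    omega

lemma periodic_P (Q : Finset ℕ) :
    Function.Periodic (fun m => ∀ q ∈ Q, m % q ^ 2 ∈ Gq q) (∏ q ∈ Q, q ^ 2) := by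
  intro m
  simp only [eq_iff_iff]
  have h : ∀ q ∈ Q, (m + ∏ q ∈ Q, q ^ 2) % q ^ 2 = m % q ^ 2 := by
    intro q hq
    obtain ⟨c, hc⟩ := Finset.dvd_prod_of_mem (fun q => q ^ 2) hq
    rw [hc]
    exact Nat.add_mul_mod_self_left _ _ _
  constructor
  · intro h' q hq
    rw [← h q hq]
    exact h' q hq
  · intro h' q hq
    rw [h q hq]
    exact h' q hq

lemma count_periods (P : ℕ → Prop) [DecidablePred P] (M : ℕ) (hP : Function.Periodic P M) (K : ℕ) :
    ((Finset.Ico 1 (1 + K * M)).filter P).card = K * M.count P := by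
  induction K with
  | zero => simp
  | succ K ih =>
    have h1 : Finset.Ico 1 (1 + (K + 1) * M) =
        Finset.Ico 1 (1 + K * M) ∪ Finset.Ico (1 + K * M) (1 + K * M + M) := by
      rw [Finset.Ico_union_Ico_eq_Ico (by omega) (by omega)]
      congr 1
      ring
    rw [h1, Finset.filter_union, Finset.card_union_of_disjoint]
    · rw [ih, Nat.filter_Ico_card_eq_of_periodic _ _ _ hP]
      ring
    · apply Finset.disjoint_filter_filter
      exact Finset.Ico_disjoint_Ico_consecutive _ _ _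

theorem two_sq_sparse
    (h : ∀ C : ℝ, ∃ Q : Finset ℕ, (∀ q ∈ Q, q.Prime ∧ q % 4 = 3) ∧ C ≤ ∑ q ∈ Q, (1 : ℝ) / q)
    (ε : ℝ) (hε : 0 < ε) :
    ∃ N : ℕ, 2 ≤ N ∧ (((Finset.Icc 1 (13 * N ^ 2)).filter
      (fun m => ∃ a b : ℕ, m = a ^ 2 + b ^ 2)).card : ℝ) ≤ ε * (N : ℝ) ^ 2 := by
  obtain ⟨Q, hQ, hC⟩ := h (2 * Real.log (13 / ε))
  set M : ℕ := ∏ q ∈ Q, q ^ 2 with hM
  have hMpos : 0 < M := Finset.prod_pos fun q hq => pow_pos (hQ q hq).1.pos 2
  refine ⟨2 * M, by omega, ?_⟩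
  have h1 : ((Finset.Icc 1 (13 * (2 * M) ^ 2)).filter
      (fun m => ∃ a b : ℕ, m = a ^ 2 + b ^ 2)).card ≤ (52 * M) * ∏ q ∈ Q, (Gq q).card := by
    calc ((Finset.Icc 1 (13 * (2 * M) ^ 2)).filter (fun m => ∃ a b : ℕ, m = a ^ 2 + b ^ 2)).card
        ≤ ((Finset.Ico 1 (1 + (52 * M) * M)).filter (fun m => ∀ q ∈ Q, m % q ^ 2 ∈ Gq q)).card := by
          apply Finset.card_le_card
          intro m hm
          simp only [Finset.mem_filter, Finset.mem_Icc, Finset.mem_Ico] at hm ⊢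
          obtain ⟨⟨hm1, hm2⟩, a, b, hab⟩ := hm
          refine ⟨⟨hm1, ?_⟩, fun q hq => two_sq_res (hQ q hq).1 (hQ q hq).2 hab⟩
          have : 13 * (2 * M) ^ 2 = 52 * M * M := by ring
          omega
      _ = (52 * M) * M.count (fun m => ∀ q ∈ Q, m % q ^ 2 ∈ Gq q) :=
          count_periods (fun m => ∀ q ∈ Q, m % q ^ 2 ∈ Gq q) M (periodic_P Q) _
      _ ≤ (52 * M) * ∏ q ∈ Q, (Gq q).card := by
          apply Nat.mul_le_mul_left
          rw [Nat.count_eq_card_filter_range]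
          exact card_T Q fun q hq => (hQ q hq).1
  have h2 : (∏ q ∈ Q, ((Gq q).card : ℝ)) ≤ (M : ℝ) * (ε / 13) := by
    have h3 : ∀ q ∈ Q, ((Gq q).card : ℝ) ≤ (q : ℝ) ^ 2 * Real.exp (-((1 : ℝ) / q / 2)) := by
      intro q hq
      have hq2 : 2 ≤ q := (hQ q hq).1.two_le
      have h4 := card_Gq q hq2
      have hq2' : (2 : ℝ) ≤ q := by exact_mod_cast hq2
      have h5 : ((Gq q).card : ℝ) + ((q : ℝ) - 1) ≤ (q : ℝ) ^ 2 := by
        have : (((Gq q).card + (q - 1) : ℕ) : ℝ) ≤ ((q ^ 2 : ℕ) : ℝ) := by exact_mod_cast h4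
        push_cast [Nat.cast_sub (by omega : 1 ≤ q)] at this
        exact this
      have h6 := Real.add_one_le_exp (-((1 : ℝ) / q / 2))
      have h7 : (q : ℝ) ^ 2 * (-((1 : ℝ) / q / 2) + 1) ≤
          (q : ℝ) ^ 2 * Real.exp (-((1 : ℝ) / q / 2)) :=
        mul_le_mul_of_nonneg_left h6 (by positivity)
      have h8 : (q : ℝ) ^ 2 * (-((1 : ℝ) / q / 2) + 1) = (q : ℝ) ^ 2 - q / 2 := by
        field_simp
        ring
      rw [h8] at h7
      linarith
    calc (∏ q ∈ Q, ((Gq q).card : ℝ)) ≤ ∏ q ∈ Q, ((q : ℝ) ^ 2 * Real.exp (-((1 : ℝ) / q / 2))) :=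
          Finset.prod_le_prod (fun q _ => by positivity) h3
      _ = (M : ℝ) * Real.exp (-((∑ q ∈ Q, (1 : ℝ) / q) / 2)) := by
          rw [Finset.prod_mul_distrib, ← Real.exp_sum, hM]
          push_cast
          congr 2
          rw [Finset.sum_neg_distrib, Finset.sum_div]
      _ ≤ (M : ℝ) * (ε / 13) := by
          apply mul_le_mul_of_nonneg_left _ (by positivity)
          have h9 : -((∑ q ∈ Q, (1 : ℝ) / q) / 2) ≤ Real.log (ε / 13) := by
            have : Real.log (13 / ε) = - Real.log (ε / 13) := by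
              rw [← Real.log_inv, inv_div]
            rw [this] at hC
            linarith
          calc Real.exp (-((∑ q ∈ Q, (1 : ℝ) / q) / 2)) ≤ Real.exp (Real.log (ε / 13)) :=
                Real.exp_le_exp.2 h9
            _ = ε / 13 := Real.exp_log (by positivity)
  calc (((Finset.Icc 1 (13 * (2 * M) ^ 2)).filter
      (fun m => ∃ a b : ℕ, m = a ^ 2 + b ^ 2)).card : ℝ)
      ≤ (((52 * M) * ∏ q ∈ Q, (Gq q).card : ℕ) : ℝ) := by exact_mod_cast h1
    _ = 52 * M * ∏ q ∈ Q, ((Gq q).card : ℝ) := by push_cast; ring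
    _ ≤ 52 * M * ((M : ℝ) * (ε / 13)) := by
        apply mul_le_mul_of_nonneg_left h2 (by positivity)
    _ = ε * ((2 * M : ℕ) : ℝ) ^ 2 := by push_cast; ring

end Pool.Agent.H8.Cov
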