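import Pool.Agent.H8.CovDraw
import Pool.Agent.H8.CovLB
import Pool.Agent.H8.CovNT

namespace Pool.Agent.H8.Cov

open Real

lemma star_adj {N : ℕ} (l : Hb N × Dd N) : (star N).Adj (Sum.inl l.1) (Sum.inr l) := rfl

theorem main (hN3 : ∀ C : ℝ, ∃ Q : Finset ℕ, (∀ q ∈ Q, q.Prime ∧ q % 4 = 3) ∧
      C ≤ ∑ q ∈ Q, (1 : ℝ) / q) :
    ∃ (m : ℕ → ℕ) (G : ∀ n, SimpleGraph (Fin (m n))) (a b : ℕ → ℕ),
    (∀ n, 0 < b n) ∧
    Filter.Tendsto (fun n => (a n : ℝ) / (b n : ℝ)) Filter.atTop (nhds 0) ∧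
    (∀ n, DrawnOn (Fin (m n)) (Fin (a n)) (G n)) ∧
    (∀ n, ∀ k < b n, ¬ ∃ L : Fin k → Set E,
      (∀ i, ∃ x y : E, x ≠ y ∧
        L i = ((line[ℝ, x, y] : AffineSubspace ℝ E) : Set E)) ∧
      ∃ p : Fin (m n) → E, Function.Injective p ∧
        (∀ v, ∃ i, p v ∈ L i) ∧
        (∀ u v, (G n).Adj u v → ∃ i, segment ℝ (p u) (p v) ⊆ L i) ∧
        (∀ u v w, (G n).Adj u v → w ≠ u → w ≠ v → p w ∉ segment ℝ (p u) (p v)) ∧
        (∀ u v x y, (G n).Adj u v → (G n).Adj x y → s(u, v) ≠ s(x, y) →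
          segment ℝ (p u) (p v) ∩ segment ℝ (p x) (p y) ⊆
            p '' (({u, v} : Set (Fin (m n))) ∩ ({x, y} : Set (Fin (m n)))))) := by
  classical
  have hex : ∀ n : ℕ, ∃ N : ℕ, 2 ≤ N ∧
      ((Sq N).card : ℝ) ≤ (1 / ((n : ℝ) + 1)) * (N : ℝ) ^ 2 := by
    intro n
    obtain ⟨N, h1, h2⟩ := two_sq_sparse hN3 (1 / ((n : ℝ) + 1)) (by positivity)
    refine ⟨N, h1, ?_⟩
    exact h2
  choose N hN2 hNS using hex
  refine ⟨fun n => Fintype.card (Vt (N n)),
    fun n => (star (N n)).comap (Fintype.equivFin (Vt (N n))).symm,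
    fun n => Fintype.card (Dd (N n) × {m // m ∈ Sq (N n)}), fun n => (N n) ^ 4, ?_, ?_, ?_, ?_⟩
  · intro n
    have := hN2 n
    positivity
  · have hb : ∀ n : ℕ, (Fintype.card (Dd (N n) × {m // m ∈ Sq (N n)}) : ℝ) / (((N n) ^ 4 : ℕ) : ℝ) ≤
        4 * (1 / ((n : ℝ) + 1)) := by
      intro n
      have hNpos : (0 : ℝ) < (N n : ℝ) := by
        have := hN2 n
        exact_mod_cast (by omega : 0 < N n)
      have hc : (Fintype.card (Dd (N n) × {m // m ∈ Sq (N n)}) : ℝ) =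
          4 * (N n : ℝ) ^ 2 * ((Sq (N n)).card : ℝ) := by
        rw [Fintype.card_prod, Fintype.card_prod, Fintype.card_fin, Fintype.card_coe]
        push_cast
        ring
      rw [hc]
      push_cast
      rw [div_le_iff₀ (by positivity)]
      calc 4 * (N n : ℝ) ^ 2 * ((Sq (N n)).card : ℝ)
          ≤ 4 * (N n : ℝ) ^ 2 * ((1 / ((n : ℝ) + 1)) * (N n : ℝ) ^ 2) :=
            mul_le_mul_of_nonneg_left (hNS n) (by positivity)
        _ = 4 * (1 / ((n : ℝ) + 1)) * (N n : ℝ) ^ 4 := by ring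
    have hlim : Filter.Tendsto (fun n : ℕ => 4 * (1 / ((n : ℝ) + 1))) Filter.atTop (nhds 0) := by
      have := (tendsto_one_div_add_atTop_nhds_zero_nat (𝕜 := ℝ)).const_mul 4
      simpa using this
    exact squeeze_zero (fun n => by positivity) hb hlim
  · intro n
    exact (drawn (hN2 n)).transfer _ (Fintype.equivFin _)
  · intro n k hk
    rintro ⟨L, hL, p, hp, _, h1, h2, _⟩
    set e := Fintype.equivFin (Vt (N n)) with he
    have hlb := line_lb (H := Hb (N n)) (D := Dd (N n)) k L hL (p ∘ e) (hp.comp e.injective) (by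
      intro u d
      refine h1 (e (Sum.inl u)) (e (Sum.inr (u, d))) ?_
      show (star (N n)).Adj (e.symm _) (e.symm _)
      rw [e.symm_apply_apply, e.symm_apply_apply]
      exact star_adj (u, d)) (by
      intro u d w hw1 hw2
      refine h2 (e (Sum.inl u)) (e (Sum.inr (u, d))) (e w) ?_ (fun h => hw1 (e.injective h))
        (fun h => hw2 (e.injective h))
      show (star (N n)).Adj (e.symm _) (e.symm _)
      rw [e.symm_apply_apply, e.symm_apply_apply]
      exact star_adj (u, d))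
    have c1 : Fintype.card (Hb (N n)) = (N n) ^ 2 := by
      rw [Fintype.card_prod, Fintype.card_fin]; ring
    have c2 : Fintype.card (Dd (N n)) = 4 * (N n) ^ 2 := by
      rw [Fintype.card_prod, Fintype.card_fin]; ring
    rw [c1, c2] at hlb
    have e1 : (N n) ^ 2 * (4 * (N n) ^ 2) = 4 * (N n) ^ 4 := by ring
    have e2 : (N n) ^ 2 * (N n) ^ 2 = (N n) ^ 4 := by ring
    rw [e1, e2] at hlb
    have hk' : k < (N n) ^ 4 := hk
    omega

end Pool.Agent.H8.Cov
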