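import Mathlib

/-!
The sum of `1/q` over the primes `q ≡ 3 mod 4` diverges.
-/

namespace Pool.Agent.H8.Cov

open ArithmeticFunction ArithmeticFunction.vonMangoldt Filter Topology

/-- `1/n` for the primes `n ≡ 3 mod 4` -/
noncomputable def uu (n : ℕ) : ℝ := if n.Prime ∧ n % 4 = 3 then (1 : ℝ) / n else 0

theorem uu_nonneg (n : ℕ) : 0 ≤ uu n := by
  unfold uu; split_ifs <;> positivity

theorem cast_eq_three {n : ℕ} (h : ((n : ℕ) : ZMod 4) = 3) : n % 4 = 3 := by
  have h1 : ((n : ℕ) : ZMod 4) = ((3 : ℕ) : ZMod 4) := by rw [h]; rfl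
  rw [ZMod.natCast_eq_natCast_iff] at h1
  exact h1

theorem term_bound (N : ℕ) (x : ℝ) (hx : 1 < x) (n : ℕ) :
    residueClass (3 : ZMod 4) n / (n : ℝ) ^ x ≤
      (if n.Prime then 0 else residueClass (3 : ZMod 4) n) / n +
      (if n < N then vonMangoldt n / n else 0) + (x - 1)⁻¹ * (if n < N then 0 else uu n) := by
  have hd : 0 < x - 1 := by linarith
  have hr := residueClass_nonneg (3 : ZMod 4) n
  have hv : 0 ≤ (vonMangoldt n : ℝ) := vonMangoldt_nonneg
  have h2 : 0 ≤ (if n < N then vonMangoldt n / (n : ℝ) else 0) := by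
    split_ifs
    · positivity
    · exact le_rfl
  have h3 : 0 ≤ (x - 1)⁻¹ * (if n < N then 0 else uu n) := by
    apply mul_nonneg (inv_nonneg.2 hd.le)
    split_ifs
    · exact le_rfl
    · exact uu_nonneg n
  rcases n.eq_zero_or_pos with rfl | hn
  · rw [residueClass_apply_zero, zero_div]
    have h1 : 0 ≤ (if Nat.Prime 0 then 0 else (0 : ℝ)) / ((0 : ℕ) : ℝ) := by simp
    simpa using add_nonneg h2 h3
  have hn' : (0 : ℝ) < n := by exact_mod_cast hn
  have hn1 : (1 : ℝ) ≤ n := by exact_mod_cast hn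
  have hpow : (n : ℝ) ≤ (n : ℝ) ^ x := by
    conv_lhs => rw [← Real.rpow_one n]
    exact Real.rpow_le_rpow_of_exponent_le hn1 hx.le
  by_cases hp : n.Prime
  · simp only [hp, if_true, zero_div, zero_add]
    by_cases hN : n < N
    · have h4 : residueClass (3 : ZMod 4) n / (n : ℝ) ^ x ≤ vonMangoldt n / n := by
        apply div_le_div₀ hv (residueClass_le _ _) hn' hpow
      simp only [hN, if_true, mul_zero, add_zero]
      exact h4
    · simp only [hN, if_false, zero_add]
      by_cases hc : ((n : ℕ) : ZMod 4) = 3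
      · have h5 : uu n = 1 / n := by
          unfold uu
          rw [if_pos ⟨hp, cast_eq_three hc⟩]
        have h6 : residueClass (3 : ZMod 4) n = Real.log n := by
          have : residueClass (3 : ZMod 4) n = vonMangoldt n :=
            Set.indicator_of_mem (s := {n : ℕ | (n : ZMod 4) = 3}) hc _
          rw [this, vonMangoldt_apply_prime hp]
        have h7 : Real.log n ≤ (n : ℝ) ^ (x - 1) / (x - 1) := Real.log_le_rpow_div hn'.le hd
        have h8 : (n : ℝ) ^ x = n * (n : ℝ) ^ (x - 1) := by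
          rw [show x = 1 + (x - 1) by ring, Real.rpow_add hn', Real.rpow_one]
          ring_nf
        have h9 : 0 < (n : ℝ) ^ (x - 1) := Real.rpow_pos_of_pos hn' _
        rw [h5, h6, h8, div_le_iff₀ (by positivity)]
        calc Real.log n ≤ (n : ℝ) ^ (x - 1) / (x - 1) := h7
          _ = _ := by field_simp
      · have h6 : residueClass (3 : ZMod 4) n = 0 :=
          Set.indicator_of_notMem (s := {n : ℕ | (n : ZMod 4) = 3}) hc _
        rw [h6, zero_div]
        simpa [hN] using h3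
  · simp only [hp, if_false]
    have h4 : residueClass (3 : ZMod 4) n / (n : ℝ) ^ x ≤ residueClass (3 : ZMod 4) n / n :=
      div_le_div_of_nonneg_left hr hn' hpow
    linarith

theorem sum_inv_three (C : ℝ) : ∃ Q : Finset ℕ, (∀ q ∈ Q, q.Prime ∧ q % 4 = 3) ∧
    C ≤ ∑ q ∈ Q, (1 : ℝ) / q := by
  classical
  by_contra hcon
  push Not at hcon
  have hsum : Summable uu := by
    refine summable_of_sum_le uu_nonneg (c := C) ?_
    intro s
    have h1 : ∑ n ∈ s, uu n = ∑ n ∈ s.filter (fun n => n.Prime ∧ n % 4 = 3), (1 : ℝ) / n := by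
      rw [Finset.sum_filter]; rfl
    rw [h1]
    exact (hcon _ fun q hq => (Finset.mem_filter.1 hq).2).le
  -- choose `N`
  obtain ⟨N, hN⟩ : ∃ N, ∑' n, uu n - ∑ n ∈ Finset.range N, uu n < 1 / 4 := by
    have h1 := hsum.hasSum.tendsto_sum_nat
    have h2 : ∀ᶠ N in atTop, ∑' n, uu n - 1 / 4 < ∑ n ∈ Finset.range N, uu n :=
      h1.eventually (lt_mem_nhds (by linarith))
    obtain ⟨N, hN⟩ := h2.exists
    exact ⟨N, by linarith⟩
  have s1 := summable_residueClass_non_primes_div (3 : ZMod 4)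
  have s2 : Summable fun n : ℕ => (if n < N then vonMangoldt n / (n : ℝ) else 0) := by
    apply summable_of_ne_finset_zero (s := Finset.range N)
    intro n hn
    rw [Finset.mem_range] at hn
    simp [hn]
  have s3' : HasSum (fun n : ℕ => (if n < N then uu n else 0)) (∑ n ∈ Finset.range N, uu n) := by
    have h1 : ∑ n ∈ Finset.range N, uu n = ∑ n ∈ Finset.range N, (if n < N then uu n else 0) :=
      Finset.sum_congr rfl fun n hn => by simp [Finset.mem_range.1 hn]
    rw [h1]
    apply hasSum_sum_of_ne_finset_zero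
    intro n hn
    rw [Finset.mem_range] at hn
    simp [hn]
  have s3 : HasSum (fun n : ℕ => (if n < N then 0 else uu n))
      (∑' n, uu n - ∑ n ∈ Finset.range N, uu n) := by
    have h1 := hsum.hasSum.sub s3'
    have h2 : (fun n : ℕ => (if n < N then 0 else uu n)) =
        fun n : ℕ => uu n - (if n < N then uu n else 0) := by
      ext n
      split_ifs <;> simp
    rw [h2]
    exact h1
  obtain ⟨C', hC'⟩ := LSeries_residueClass_lower_bound (q := 4) (a := 3)
    (by decide : IsUnit (3 : ZMod 4))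
  obtain ⟨D, hD⟩ : ∃ D, D = ∑' n : ℕ, (if n.Prime then 0 else residueClass (3 : ZMod 4) n) / (n : ℝ) +
    ∑' n : ℕ, (if n < N then vonMangoldt n / (n : ℝ) else 0) := ⟨_, rfl⟩
  have key : ∀ x ∈ Set.Ioc (1 : ℝ) 2, 1 / 4 * (x - 1)⁻¹ ≤ D + C' := by
    intro x hx
    have hd : 0 < x - 1 := by linarith [hx.1]
    have h1 := hC' hx
    have hs : Summable fun n : ℕ => residueClass (3 : ZMod 4) n / (n : ℝ) ^ x :=
      LSeries.summable_real_of_abscissaOfAbsConv_lt <|
        (abscissaOfAbsConv_residueClass_le_one (3 : ZMod 4)).trans_lt <| mod_cast hx.1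
    have h2 := hs.tsum_le_tsum (fun n => term_bound N x hx.1 n)
      ((s1.add s2).add (s3.summable.mul_left (x - 1)⁻¹))
    rw [((s1.add s2).tsum_add (s3.summable.mul_left (x - 1)⁻¹)), s1.tsum_add s2, tsum_mul_left,
      s3.tsum_eq, ← hD] at h2
    have h3 : ((Nat.totient 4 : ℕ) : ℝ)⁻¹ = 1 / 2 := by
      have : Nat.totient 4 = 2 := by decide
      rw [this]; norm_num
    rw [h3] at h1
    have h4 : (x - 1)⁻¹ * (∑' n, uu n - ∑ n ∈ Finset.range N, uu n) ≤ (x - 1)⁻¹ * (1 / 4) :=
      mul_le_mul_of_nonneg_left hN.le (inv_nonneg.2 hd.le)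
    have h5 : (1 : ℝ) / 2 / (x - 1) = 1 / 2 * (x - 1)⁻¹ := by rw [div_eq_mul_inv]
    rw [h5] at h1
    linarith
  -- contradiction for `x` close to `1`
  obtain ⟨e, he0, he⟩ : ∃ e : ℝ, 0 < e ∧ D + C' < 1 / 4 * e ∧ 1 ≤ e := by
    refine ⟨max 1 (4 * (D + C') + 4), by positivity, ?_, le_max_left _ _⟩
    have := le_max_right 1 (4 * (D + C') + 4)
    linarith
  have h1 := key (1 + e⁻¹) ⟨by linarith [inv_pos.2 he0], by
    have : e⁻¹ ≤ 1 := inv_le_one_of_one_le₀ he.2
    linarith⟩
  rw [add_sub_cancel_left, inv_inv] at h1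
  linarith [he.1]

end Pool.Agent.H8.Cov
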