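import Pool.Agent.H8.DualDiamDefs

open Set Real

namespace Pool.H8.DualDiam

noncomputable def P (x θ : ℝ) : ℂ := Complex.exp ((x : ℂ) + (θ : ℂ) * Complex.I)

lemma norm_P (x θ : ℝ) : ‖P x θ‖ = Real.exp x := by
  unfold P
  rw [Complex.norm_exp]
  simp

lemma P_eq_iff {x θ y φ : ℝ} : P x θ = P y φ ↔ x = y ∧ ∃ n : ℤ, θ = φ + 2 * π * n := by
  unfold P
  rw [Complex.exp_eq_exp_iff_exists_int]
  constructor
  · rintro ⟨n, hn⟩
    have h1 := congrArg Complex.re hn
    have h2 := congrArg Complex.im hn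
    simp at h1 h2
    exact ⟨h1, n, by rw [h2]; ring⟩
  · rintro ⟨rfl, n, hn⟩
    refine ⟨n, ?_⟩
    rw [hn]
    push_cast
    ring

lemma P_re (x θ : ℝ) : (P x θ).re = Real.exp x * Real.cos θ := by
  unfold P
  rw [Complex.exp_re]
  simp

lemma continuous_P : Continuous (fun q : ℝ × ℝ => P q.1 q.2) := by
  unfold P
  fun_prop

/-- sign -/
noncomputable def sg (j : ℕ) : ℝ := (-1) ^ (j + 1)

lemma sg_succ (j : ℕ) : sg (j + 1) = - sg j := by unfold sg; ring
lemma sg_cases (j : ℕ) : sg j = 1 ∨ sg j = -1 := by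
  unfold sg; exact neg_one_pow_eq_or ℝ (j + 1)

noncomputable def X (j : ℕ) : ℝ := π * j - π / 2

/-- the spiral with index `j`, parametrised by the logarithm of the modulus -/
noncomputable def sp (j : ℕ) (x : ℝ) : ℂ := P x (sg j * x)

lemma eq_int_of_sg {j : ℕ} {x : ℝ} {n : ℤ} (h : sg j * x = sg (j + 1) * x + 2 * π * n) :
    ∃ N : ℤ, x = π * N := by
  rw [sg_succ] at h
  rcases sg_cases j with h1 | h1 <;> rw [h1] at h
  · exact ⟨n, by linarith⟩
  · refine ⟨-n, ?_⟩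
    push_cast
    linarith

lemma int_between {j : ℕ} {N : ℤ} (h1 : π * j + π / 2 ≤ π * N) (h2 : π * N ≤ π * j + 3 * π / 2) :
    N = j + 1 := by
  have hp := Real.pi_pos
  have h3 : (j : ℝ) < N := by nlinarith
  have h4 : (N : ℝ) < j + 2 := by nlinarith
  have h5 : (j : ℤ) < N := by exact_mod_cast h3
  have h6 : N < (j : ℤ) + 2 := by exact_mod_cast h4
  omega

lemma common_lt {j k : ℕ} (hjk : j < k) {x y : ℝ} (hx : x ∈ Icc (X j) (X (j + 2)))
    (hy : y ∈ Icc (X k) (X (k + 2))) (h : sp j x = sp k y) :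
    x = y ∧ ((k = j + 1 ∧ x = π * k) ∨ (k = j + 2 ∧ x = X k)) := by
  have hp := Real.pi_pos
  obtain ⟨rfl, n, hn⟩ := P_eq_iff.mp h
  refine ⟨rfl, ?_⟩
  obtain ⟨hx1, hx2⟩ := hx
  obtain ⟨hy1, hy2⟩ := hy
  unfold X at *
  push_cast at *
  have hk : k < j + 3 := by
    have : (k : ℝ) < j + 3 := by nlinarith
    exact_mod_cast this
  have hk' : k = j + 1 ∨ k = j + 2 := by omega
  rcases hk' with rfl | rfl
  · left
    refine ⟨rfl, ?_⟩
    obtain ⟨N, hN⟩ := eq_int_of_sg hn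
    have := int_between (j := j) (N := N) (by rw [← hN]; push_cast at *; nlinarith)
      (by rw [← hN]; push_cast at *; nlinarith)
    rw [hN, this]
    push_cast
    ring
  · right
    refine ⟨rfl, ?_⟩
    push_cast at *
    linarith

/-- crossing of the extra edge with a spiral -/
lemma common_none {j : ℕ} {x y : ℝ} (hx : x ∈ Icc (-(π / 2)) (π / 2))
    (hy : y ∈ Icc (X j) (X (j + 2))) (h : P x (π / 2) = sp j y) :
    x = y ∧ ((j = 0 ∧ x = X 0) ∨ (j = 1 ∧ x = X 1)) := by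
  have hp := Real.pi_pos
  obtain ⟨rfl, n, hn⟩ := P_eq_iff.mp h
  refine ⟨rfl, ?_⟩
  obtain ⟨hx1, hx2⟩ := hx
  obtain ⟨hy1, hy2⟩ := hy
  unfold X at *
  push_cast at *
  have hk : j < 2 := by
    have : (j : ℝ) < 2 := by nlinarith
    exact_mod_cast this
  have hk' : j = 0 ∨ j = 1 := by omega
  rcases hk' with rfl | rfl
  · left
    refine ⟨rfl, ?_⟩
    simp [sg] at hn
    have h1 : (n : ℝ) < 1 := by nlinarith
    have h2 : (-1 : ℝ) < n := by nlinarith
    have h3 : n < 1 := by exact_mod_cast h1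
    have h4 : -1 < n := by exact_mod_cast h2
    have h5 : n = 0 := by omega
    subst h5
    simp at hn ⊢
    linarith
  · right
    refine ⟨rfl, ?_⟩
    push_cast at *
    linarith

end Pool.H8.DualDiam
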