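import Mathlib

open Set

namespace Pool.H8.DualDiam

/-- Two sets `K`, `L` in the plane `ℂ = ℝ²` cross properly at the point `p`: a homeomorphism `φ` from
an open neighbourhood of `p` onto an open neighbourhood of the origin of `ℝ × ℝ` takes `p` to the
origin, and inside this neighbourhood it takes `K` to the horizontal and `L` to the vertical axis. -/
def ProperCrossing (K L : Set ℂ) (p : ℂ) : Prop :=
  ∃ φ : OpenPartialHomeomorph ℂ (ℝ × ℝ), p ∈ φ.source ∧ φ p = (0, 0) ∧
    ∀ z ∈ φ.source, (z ∈ K ↔ (φ z).2 = 0) ∧ (z ∈ L ↔ (φ z).1 = 0)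

/-- A simple topological graph in the plane `ℂ = ℝ²`, with vertex set `V` and edge set `E`. -/
structure SimpleTopGraph (V E : Type) where
  /-- the position of a vertex -/
  pt : V → ℂ
  /-- vertices are distinct points -/
  pt_injective : Function.Injective pt
  /-- first endpoint of an edge -/
  src : E → V
  /-- second endpoint of an edge -/
  tgt : E → V
  /-- the Jordan arc drawn for an edge -/
  arc : E → C(unitInterval, ℂ)
  arc_injective : ∀ e, Function.Injective (arc e)
  arc_zero : ∀ e, arc e 0 = pt (src e)
  arc_one : ∀ e, arc e 1 = pt (tgt e)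
  /-- an edge passes through no vertex other than its endpoints -/
  avoids : ∀ e v t, arc e t = pt v → v = src e ∨ v = tgt e
  /-- two edges have at most one point in common -/
  common : ∀ e f, e ≠ f → ∀ p q, p ∈ range (arc e) → p ∈ range (arc f) →
    q ∈ range (arc e) → q ∈ range (arc f) → p = q
  /-- a common point of two edges is a shared endpoint or a proper crossing -/
  crossing : ∀ e f, e ≠ f → ∀ p, p ∈ range (arc e) → p ∈ range (arc f) →
    (∃ v, (v = src e ∨ v = tgt e) ∧ (v = src f ∨ v = tgt f) ∧ p = pt v) ∨
    (p ∉ range pt ∧ ProperCrossing (range (arc e)) (range (arc f)) p)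
  /-- no three edges pass through a common crossing point -/
  no_triple : ∀ e f g, e ≠ f → f ≠ g → e ≠ g → ∀ p, p ∈ range (arc e) → p ∈ range (arc f) →
    p ∈ range (arc g) → p ∈ range pt

namespace SimpleTopGraph

variable {V E : Type} (G : SimpleTopGraph V E)

/-- the underlying abstract graph -/
def graph : SimpleGraph V where
  Adj u v := u ≠ v ∧ ∃ e, (G.src e = u ∧ G.tgt e = v) ∨ (G.src e = v ∧ G.tgt e = u)
  symm := ⟨fun u v h => ⟨h.1.symm, by
    obtain ⟨e, he⟩ := h.2
    exact ⟨e, he.symm⟩⟩⟩
  loopless := ⟨fun u h => h.1 rfl⟩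

/-- the point set of the drawing (which is also the point set of the planarization) -/
def support : Set ℂ := (⋃ e, range (G.arc e)) ∪ range G.pt

/-- The faces of the planarization: the connected components of the complement of the drawing. -/
def Face : Type := {F : Set ℂ // ∃ z ∈ G.supportᶜ, F = connectedComponentIn G.supportᶜ z}

/-- The point with parameter `t` on the edge `e` is a vertex of the planarization: it is an
endpoint of `e` or it lies on another edge. -/
def IsNode (e : E) (t : unitInterval) : Prop :=
  t = 0 ∨ t = 1 ∨ ∃ f, f ≠ e ∧ G.arc e t ∈ range (G.arc f)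

/-- `s` is an edge of the planarization (without its two endpoints): the part of some edge `e` strictly
between two consecutive vertices of the planarization on `e`. -/
def IsSide (s : Set ℂ) : Prop :=
  ∃ e, ∃ a b : unitInterval, a < b ∧ G.IsNode e a ∧ G.IsNode e b ∧
    (∀ t, a < t → t < b → ¬ G.IsNode e t) ∧ s = G.arc e '' Ioo a b

/-- The dual graph of the planarization: two distinct faces are adjacent if some edge of the
planarization lies on the boundary of both. -/
def dual : SimpleGraph G.Face where
  Adj F F' := F ≠ F' ∧ ∃ s, G.IsSide s ∧ s ⊆ frontier F.1 ∧ s ⊆ frontier F'.1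
  symm := ⟨fun F F' h => ⟨h.1.symm, by
    obtain ⟨s, h1, h2, h3⟩ := h.2
    exact ⟨s, h1, h3, h2⟩⟩⟩
  loopless := ⟨fun u h => h.1 rfl⟩

end SimpleTopGraph

end Pool.H8.DualDiam
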