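import Pool.Agent.H8.DualDiamSep

open Set Real

namespace Pool.H8.DualDiam

variable {m : ℕ}

/-- open diamond -/
def Dia (t : ℕ) : Set (ℝ × ℝ) := {q | |q.1 - π * t| + |q.2 - π * (t + 1)| < π}

lemma convex_Dia (t : ℕ) : Convex ℝ (Dia t) := by
  intro q hq r hr a b ha hb hab
  unfold Dia at *
  simp only [mem_ofPred_eq, Prod.fst_add, Prod.snd_add, Prod.smul_fst, Prod.smul_snd,
    smul_eq_mul] at *
  have h1 : |a * q.1 + b * r.1 - π * t| ≤ a * |q.1 - π * t| + b * |r.1 - π * t| := by
    have : a * q.1 + b * r.1 - π * t = a * (q.1 - π * t) + b * (r.1 - π * t) := by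
      linear_combination (π * t) * hab
    rw [this]
    refine (abs_add_le _ _).trans ?_
    rw [abs_mul, abs_mul, abs_of_nonneg ha, abs_of_nonneg hb]
  have h2 : |a * q.2 + b * r.2 - π * (t + 1)| ≤
      a * |q.2 - π * (t + 1)| + b * |r.2 - π * (t + 1)| := by
    have : a * q.2 + b * r.2 - π * (t + 1) =
        a * (q.2 - π * (t + 1)) + b * (r.2 - π * (t + 1)) := by
      linear_combination (π * (t + 1)) * hab
    rw [this]
    refine (abs_add_le _ _).trans ?_
    rw [abs_mul, abs_mul, abs_of_nonneg ha, abs_of_nonneg hb]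
  have h3 : a * (|q.1 - π * t| + |q.2 - π * (t + 1)|) +
      b * (|r.1 - π * t| + |r.2 - π * (t + 1)|) < π := by
    rcases ha.eq_or_lt with h | h
    · subst h
      have : b = 1 := by linarith
      subst this
      linarith
    · have : b * (|r.1 - π * t| + |r.2 - π * (t + 1)|) ≤ b * π :=
        mul_le_mul_of_nonneg_left hr.le hb
      have h4 : a * (|q.1 - π * t| + |q.2 - π * (t + 1)|) < a * π :=
        mul_lt_mul_of_pos_left hq h
      calc _ < a * π + b * π := by linarith
        _ = π := by rw [← add_mul, hab, one_mul]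
  linarith

lemma Dia_support {t : ℕ} (ht : 1 ≤ t) {q : ℝ × ℝ} (hq : q ∈ Dia t) :
    P q.1 q.2 ∉ (G m).support := by
  have hp := Real.pi_pos
  have ht' : (1 : ℝ) ≤ t := by exact_mod_cast ht
  unfold Dia at hq
  rw [mem_ofPred_eq] at hq
  have hsp : ∀ (j : ℕ) (x : ℝ), P q.1 q.2 ≠ sp j x := by
    intro j x h
    obtain ⟨h1, n, hn⟩ := P_eq_iff.mp h
    subst h1
    have ha := abs_nonneg (q.1 - π * t)
    have hb := abs_nonneg (q.2 - π * (t + 1))
    have ha1 := le_abs_self (q.1 - π * t)
    have ha2 := neg_abs_le (q.1 - π * t)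
    have hb1 := le_abs_self (q.2 - π * (t + 1))
    have hb2 := neg_abs_le (q.2 - π * (t + 1))
    rcases sg_cases j with hs | hs <;> rw [hs] at hn
    · have h3 : 2 * π * n < 2 * π * 1 := by linarith
      have h4 : 2 * π * 0 < 2 * π * n := by linarith
      have h5 : (n : ℝ) < 1 := lt_of_mul_lt_mul_left h3 (by positivity)
      have h6 : (0 : ℝ) < n := lt_of_mul_lt_mul_left h4 (by positivity)
      have h7 : n < 1 := by exact_mod_cast h5
      have h8 : 0 < n := by exact_mod_cast h6
      omega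
    · have h3 : 2 * π * n < 2 * π * (t + 1) := by linarith
      have h4 : 2 * π * t < 2 * π * n := by linarith
      have h5 : (n : ℝ) < t + 1 := lt_of_mul_lt_mul_left h3 (by positivity)
      have h6 : (t : ℝ) < n := lt_of_mul_lt_mul_left h4 (by positivity)
      have h7 : n < (t : ℤ) + 1 := by exact_mod_cast h5
      have h8 : (t : ℤ) < n := by exact_mod_cast h6
      omega
  rintro (h | h)
  · rw [mem_iUnion] at h
    obtain ⟨e, he⟩ := h
    have he' : P q.1 q.2 ∈ range (arc e) := he
    rw [mem_range_arc] at he'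
    obtain ⟨x, hx, hxe⟩ := he'
    cases e with
    | some j => exact hsp j x hxe
    | none =>
      obtain ⟨h1, n, hn⟩ := P_eq_iff.mp hxe
      subst h1
      simp only [lo, hi] at hx
      have ha2 := neg_abs_le (q.1 - π * t)
      have hb1 := le_abs_self (q.2 - π * (t + 1))
      have hb2 := neg_abs_le (q.2 - π * (t + 1))
      have h0 := hx.2
      have h3 : π * 1 ≤ π * t := mul_le_mul_of_nonneg_left ht' hp.le
      have hb := abs_nonneg (q.2 - π * (t + 1))
      have h4 : π * t < π * 2 := by linarith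
      have h4' : (t : ℝ) < 2 := lt_of_mul_lt_mul_left h4 hp.le
      have h4'' : t < 2 := by exact_mod_cast h4'
      have h5 : t = 1 := by omega
      subst h5
      push_cast at *
      have h6 : 2 * π * n < 2 * π * 1 := by linarith
      have h7 : 2 * π * 0 < 2 * π * n := by linarith
      have h8 : (n : ℝ) < 1 := lt_of_mul_lt_mul_left h6 (by positivity)
      have h9 : (0 : ℝ) < n := lt_of_mul_lt_mul_left h7 (by positivity)
      have h10 : n < 1 := by exact_mod_cast h8
      have h11 : 0 < n := by exact_mod_cast h9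
      omega
  · obtain ⟨v, hv⟩ := h
    exact hsp v (X v) hv.symm

noncomputable def ctr (t : ℕ) : ℂ := P (π * t) (π * (t + 1))

lemma ctr_mem_Dia (t : ℕ) : ((π * t, π * (t + 1)) : ℝ × ℝ) ∈ Dia t := by
  unfold Dia
  simp [Real.pi_pos]

lemma ctr_not_support {t : ℕ} (ht : 1 ≤ t) : ctr t ∈ (G m).supportᶜ :=
  Dia_support ht (ctr_mem_Dia t)

noncomputable def face (m : ℕ) (t : ℕ) (ht : 1 ≤ t) : (G m).Face :=
  ⟨connectedComponentIn (G m).supportᶜ (ctr t), ctr t, ctr_not_support ht, rfl⟩

lemma Dia_subset_face {t : ℕ} (ht : 1 ≤ t) :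
    (fun q : ℝ × ℝ => P q.1 q.2) '' Dia t ⊆ (face m t ht).1 := by
  refine IsPreconnected.subset_connectedComponentIn ?_ ⟨_, ctr_mem_Dia t, rfl⟩ ?_
  · exact (convex_Dia t).isPreconnected.image _ continuous_P.continuousOn
  · rintro _ ⟨q, hq, rfl⟩
    exact Dia_support ht hq

lemma mem_closure_face {t : ℕ} (ht : 1 ≤ t) {x θ : ℝ}
    (h : |x - π * t| + |θ - π * (t + 1)| ≤ π) : P x θ ∈ closure (face m t ht).1 := by
  have hp := Real.pi_pos
  refine closure_mono (Dia_subset_face ht) ?_
  have h1 : ((x, θ) : ℝ × ℝ) ∈ closure (Dia t) := by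
    set F : ℝ → ℝ × ℝ := fun s : ℝ => ((π * t + s * (x - π * t),
      π * (t + 1) + s * (θ - π * (t + 1))) : ℝ × ℝ) with hF
    have hFc : Continuous F := by fun_prop
    have h2 : ((x, θ) : ℝ × ℝ) = F 1 := by
      simp [hF]
    rw [h2]
    have h3 : (1 : ℝ) ∈ closure (Ico (0 : ℝ) 1) := by
      rw [closure_Ico (by norm_num)]
      exact ⟨by norm_num, le_rfl⟩
    refine closure_mono ?_ (image_closure_subset_closure_image hFc ⟨1, h3, rfl⟩)
    rintro _ ⟨s, ⟨hs0, hs1⟩, rfl⟩
    unfold Dia
    simp only [hF, mem_ofPred_eq, add_sub_cancel_left, abs_mul, abs_of_nonneg hs0]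
    have h4 : s * |x - π * t| + s * |θ - π * (t + 1)| ≤ s * π := by
      rw [← mul_add]; exact mul_le_mul_of_nonneg_left h hs0
    have h5 : s * π < 1 * π := mul_lt_mul_of_pos_right hs1 hp
    linarith
  exact image_closure_subset_closure_image continuous_P ⟨_, h1, rfl⟩

lemma mem_frontier_face {t : ℕ} (ht : 1 ≤ t) {z : ℂ} (hz : z ∈ (G m).support)
    (h : z ∈ closure (face m t ht).1) : z ∈ frontier (face m t ht).1 := by
  refine ⟨h, fun h1 => ?_⟩
  have h2 : z ∈ (G m).supportᶜ := connectedComponentIn_subset _ _ (interior_subset h1)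
  exact h2 hz

lemma sp_eq_P (t : ℕ) (x : ℝ) (k : ℤ) : sp t x = P x (sg t * x + 2 * π * k) := by
  unfold sp
  rw [P_eq_iff]
  exact ⟨rfl, -k, by push_cast; ring⟩

lemma side_closure {t : ℕ} (ht : 1 ≤ t) {x : ℝ} (h1 : π * t < x) (h2 : x < π * (t + 1)) :
    sp t x ∈ closure (face m t ht).1 ∧ sp t x ∈ closure (face m (t + 1) (by omega)).1 := by
  have hp := Real.pi_pos
  constructor
  · rcases sg_cases t with hs | hs
    · rw [sp_eq_P t x 0, hs]
      apply mem_closure_face
      rw [abs_of_nonneg (by linarith), abs_of_nonpos (by push_cast; linarith)]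
      push_cast
      linarith
    · rw [sp_eq_P t x (t + 1), hs]
      apply mem_closure_face
      rw [abs_of_nonneg (by linarith), abs_of_nonneg (by push_cast; linarith)]
      push_cast
      linarith
  · rcases sg_cases t with hs | hs
    · rw [sp_eq_P t x 1, hs]
      apply mem_closure_face
      rw [abs_of_nonpos (by push_cast; linarith), abs_of_nonneg (by push_cast; linarith)]
      push_cast
      linarith
    · rw [sp_eq_P t x (t + 1), hs]
      apply mem_closure_face
      rw [abs_of_nonpos (by push_cast; linarith), abs_of_nonpos (by push_cast; linarith)]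
      push_cast
      linarith

lemma ctr_U {s t : ℕ} (h : s ≤ t) (ht : 1 ≤ t) : ctr s ∈ U t := by
  have hp := Real.pi_pos
  unfold U ctr
  rw [mem_ofPred_eq, norm_P, Real.exp_lt_exp]
  have h0 := A_nonneg t (P (π * s) (π * (s + 1)))
  rcases h.eq_or_lt with h | h
  · subst h
    have h1 := cos_A s (π * s) (π * (s + 1))
    have h2 : A s (P (π * s) (π * (s + 1))) ≠ 0 := by
      intro h3
      rw [h3, Real.cos_zero, mul_add, mul_one, cos_pi_mul_add, ← mul_assoc, sgn_sq, Real.cos_pi] at h1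
      norm_num at h1
    have h3 : 0 < A s (P (π * s) (π * (s + 1))) := lt_of_le_of_ne h0 (Ne.symm h2)
    linarith
  · have h1 : ((s : ℕ) : ℝ) < t := by exact_mod_cast h
    have h2 : π * s < π * t := mul_lt_mul_of_pos_left h1 hp
    linarith

lemma ctr_W {s t : ℕ} (h : t < s) : ctr s ∈ W t := by
  have hp := Real.pi_pos
  unfold W ctr
  rw [mem_ofPred_eq, norm_P, Real.exp_lt_exp]
  have h0 := A_le t (P (π * s) (π * (s + 1)))
  rcases (show t + 1 = s ∨ t + 2 ≤ s by omega) with h | h
  · subst h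
    have h1 := cos_A t (π * (t + 1 : ℕ)) (π * ((t + 1 : ℕ) + 1))
    have h2 : A t (P (π * (t + 1 : ℕ)) (π * ((t + 1 : ℕ) + 1))) = 0 := by
      have h3 : π * ((t + 1 : ℕ) + 1) = π * (t + 2 : ℕ) + 0 := by push_cast; ring
      rw [h3, cos_pi_mul_add, Real.cos_zero, mul_one, pow_add, ← mul_assoc, sgn_sq] at h1
      norm_num at h1
      have h4 : A t (P (π * (t + 1 : ℕ)) (π * ((t + 1 : ℕ) + 1))) =
          Real.arccos (Real.cos (A t (P (π * (t + 1 : ℕ)) (π * ((t + 1 : ℕ) + 1))))) :=
        (Real.arccos_cos (A_nonneg _ _) (A_le _ _)).symm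
      rw [h4]
      push_cast at *
      have h5 : π * ((t : ℝ) + 1 + 1) = π * (t + 2) := by ring
      rw [h5, h1]
      simp
    rw [h2]
    push_cast
    linarith
  · have h1 : (t : ℝ) + 2 ≤ s := by exact_mod_cast h
    have h2 : π * (t + 2) ≤ π * s := mul_le_mul_of_nonneg_left h1 hp.le
    linarith

lemma face_sub_W {s t : ℕ} (hs : 1 ≤ s) (h : t < s) (ht : 1 ≤ t) (htm : t + 2 ≤ m) :
    (face m s hs).1 ⊆ W t :=
  (face_W_iff _ ht htm (subset_closure (mem_connectedComponentIn (ctr_not_support hs)))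
    (Or.inr (ctr_W h))).mpr (ctr_W h)

lemma face_not_sub_W {s t : ℕ} (hs : 1 ≤ s) (h : s ≤ t) (ht : 1 ≤ t) (htm : t + 2 ≤ m) :
    ¬ (face m s hs).1 ⊆ W t := by
  intro h1
  have h2 : ctr s ∈ W t := h1 (mem_connectedComponentIn (ctr_not_support hs))
  exact (Set.disjoint_left.mp (disjoint_UW t)) (ctr_U h ht) h2

lemma face_adj {t : ℕ} (ht : 1 ≤ t) (htm : t + 2 ≤ m) :
    (G m).dual.Adj (face m t ht) (face m (t + 1) (by omega)) := by
  have hp := Real.pi_pos
  refine ⟨?_, ?_⟩
  · intro h
    have h1 := face_sub_W (m := m) (s := t + 1) (t := t) (by omega) (by omega) ht htm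
    rw [← h] at h1
    exact face_not_sub_W ht le_rfl ht htm h1
  have hlt : t < m := by omega
  set e : Option (Fin m) := some ⟨t, hlt⟩ with he
  have harc : ∀ τ : unitInterval, (G m).arc e τ = sp t (X t + 2 * π * τ) := by
    intro τ
    change sp t (lo m e + (hi m e - lo m e) * τ) = _
    simp only [he, lo, hi, X]
    push_cast
    congr 1
    ring
  refine ⟨(G m).arc e '' Ioo ⟨1 / 4, by norm_num, by norm_num⟩ ⟨3 / 4, by norm_num, by norm_num⟩,
    ⟨e, _, _, ?_, ?_, ?_, ?_, rfl⟩, ?_, ?_⟩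
  · rw [← Subtype.coe_lt_coe]; norm_num
  · right; right
    refine ⟨some ⟨t - 1, by omega⟩, ?_, ?_⟩
    · rw [he]; intro h; simp at h; omega
    · rw [harc]
      have h1 : X t + 2 * π * (1 / 4 : ℝ) = π * t := by unfold X; ring
      change sp t (X t + 2 * π * (1 / 4 : ℝ)) ∈ _
      rw [h1]
      obtain ⟨s, rfl⟩ : ∃ s, t = s + 1 := ⟨t - 1, by omega⟩
      have h2 : sp (s + 1) (π * (s + 1 : ℕ)) = sp s (π * (s + 1 : ℕ)) := by
        have := P_pm (x := π * (s + 1 : ℕ)) rfl
        rcases sp_cases s (π * (s + 1 : ℕ)) with ⟨h5, h6⟩ | ⟨h5, h6⟩ <;> rw [h5, h6, this]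
      rw [h2]
      refine mem_arc_some (j := ⟨s + 1 - 1, by omega⟩) (k := s + 1) (Or.inl (by simp)) ?_
      rw [sub_self, abs_zero]; positivity
  · right; right
    refine ⟨some ⟨t + 1, by omega⟩, ?_, ?_⟩
    · rw [he]; intro h; simp at h
    · rw [harc]
      have h1 : X t + 2 * π * (3 / 4 : ℝ) = π * (t + 1 : ℕ) := by unfold X; push_cast; ring
      change sp t (X t + 2 * π * (3 / 4 : ℝ)) ∈ _
      rw [h1]
      have h2 : sp t (π * (t + 1 : ℕ)) = sp (t + 1) (π * (t + 1 : ℕ)) := by
        have := P_pm (x := π * (t + 1 : ℕ)) rfl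
        rcases sp_cases t (π * (t + 1 : ℕ)) with ⟨h5, h6⟩ | ⟨h5, h6⟩ <;> rw [h5, h6, this]
      rw [h2]
      refine mem_arc_some (j := ⟨t + 1, by omega⟩) (k := t + 1) (Or.inr rfl) ?_
      rw [sub_self, abs_zero]; positivity
  · intro τ hτ1 hτ2
    rw [← Subtype.coe_lt_coe] at hτ1 hτ2
    change (1 / 4 : ℝ) < τ at hτ1
    change (τ : ℝ) < 3 / 4 at hτ2
    have hx1 : π * t < X t + 2 * π * τ := by unfold X; nlinarith
    have hx2 : X t + 2 * π * τ < π * (t + 1) := by unfold X; nlinarith
    rintro (h | h | ⟨f, hf, hfm⟩)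
    · rw [h] at hτ1; norm_num at hτ1
    · rw [h] at hτ2; norm_num at hτ2
    · have hfm' : (G m).arc e τ ∈ range (arc f) := hfm
      rw [mem_range_arc] at hfm'
      obtain ⟨y, hy, hyf⟩ := hfm'
      rw [harc] at hyf
      have hxI : X t + 2 * π * τ ∈ Icc (lo m e) (hi m e) := by
        constructor
        · change X t ≤ _
          unfold X at *; nlinarith
        · change _ ≤ X (t + 2)
          unfold X at *; push_cast at *; nlinarith
      obtain ⟨-, ⟨v, hv, -, hX, -⟩ | ⟨j, k, hj, -, hk, hX⟩ | ⟨j, k, hj, -, hk, hX⟩⟩ :=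
        meet (Ne.symm hf) hxI hy hyf
      · rw [hX] at hx1 hx2
        rcases hv with hv | hv <;> rw [hv] at hx1 hx2
        · change π * t < X t at hx1
          unfold X at hx1
          linarith
        · change X (t + 2) < _ at hx2
          unfold X at hx2
          push_cast at hx2
          linarith
      · rw [he, Option.some.injEq, Fin.ext_iff] at hj
        simp only at hj
        rw [hX, hk, ← hj] at hx2
        push_cast at hx2
        linarith
      · rw [he, Option.some.injEq, Fin.ext_iff] at hj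
        simp only at hj
        rw [hX, ← hj] at hx1
        linarith
  · rintro _ ⟨τ, ⟨hτ1, hτ2⟩, rfl⟩
    rw [← Subtype.coe_lt_coe] at hτ1 hτ2
    change (1 / 4 : ℝ) < τ at hτ1
    change (τ : ℝ) < 3 / 4 at hτ2
    refine mem_frontier_face ht (arc_subset_support e ⟨τ, rfl⟩) ?_
    rw [harc]
    refine (side_closure ht ?_ ?_).1
    · unfold X; nlinarith
    · unfold X; nlinarith
  · rintro _ ⟨τ, ⟨hτ1, hτ2⟩, rfl⟩
    rw [← Subtype.coe_lt_coe] at hτ1 hτ2
    change (1 / 4 : ℝ) < τ at hτ1
    change (τ : ℝ) < 3 / 4 at hτ2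
    refine mem_frontier_face _ (arc_subset_support e ⟨τ, rfl⟩) ?_
    rw [harc]
    refine (side_closure ht ?_ ?_).2
    · unfold X; nlinarith
    · unfold X; nlinarith

lemma face_reach (t : ℕ) (ht : 1 ≤ t) (htm : t + 1 ≤ m) :
    (G m).dual.Reachable (face m 1 le_rfl) (face m t ht) := by
  induction t, ht using Nat.le_induction with
  | base => exact SimpleGraph.Reachable.refl _
  | succ t ht ih =>
    exact (ih (by omega)).trans (face_adj ht (by omega)).reachable

theorem dist_face (hm : 2 ≤ m) :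
    m - 2 ≤ (G m).dual.dist (face m 1 le_rfl) (face m (m - 1) (by omega)) := by
  classical
  obtain ⟨w, hw⟩ := (face_reach (m := m) (m - 1) (by omega) (by omega)).exists_walk_length_eq_dist
  rw [← hw]
  have h := lev_walk w
  have h1 : lev (face m 1 le_rfl) = 0 := by
    unfold lev
    rw [Finset.card_eq_zero, Finset.filter_eq_empty_iff]
    intro t ht
    rw [Finset.mem_Icc] at ht
    exact face_not_sub_W le_rfl ht.1 ht.1 (by omega)
  have h2 : lev (face m (m - 1) (by omega)) = m - 2 := by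
    unfold lev
    rw [Finset.filter_true_of_mem]
    · simp
    · intro t ht
      rw [Finset.mem_Icc] at ht
      exact face_sub_W _ (by omega) ht.1 (by omega)
  omega

end Pool.H8.DualDiam
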