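import Pool.Agent.H8.DualDiamGraph

open Set Real

namespace Pool.H8.DualDiam

variable {m : ℕ}

lemma avoid {e : Option (Fin m)} {v : Fin (m + 2)} {x : ℝ} (hx : x ∈ Icc (lo m e) (hi m e))
    (h : crv m e x = pt m v) : v = src m e ∨ v = tgt m e := by
  have hp := Real.pi_pos
  have hxv : x = X v := by
    have := congrArg norm h
    rw [norm_crv, norm_pt] at this
    exact Real.exp_injective this
  obtain ⟨h1, h2⟩ := hx
  cases e with
  | none =>
    simp only [lo, hi] at h1 h2
    rw [hxv] at h1 h2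
    unfold X at h1 h2
    have : (v : ℕ) < 2 := by
      have : ((v : ℕ) : ℝ) < 2 := by nlinarith
      exact_mod_cast this
    have hv : (v : ℕ) = 0 ∨ (v : ℕ) = 1 := by omega
    rcases hv with hv | hv
    · left; apply Fin.ext; exact hv
    · right; apply Fin.ext; exact hv
  | some j =>
    simp only [lo, hi] at h1 h2
    rw [hxv] at h1 h2
    have h3 : (j : ℕ) ≤ v := by
      unfold X at h1
      have : ((j : ℕ) : ℝ) ≤ (v : ℕ) := by nlinarith
      exact_mod_cast this
    have h4 : (v : ℕ) ≤ j + 2 := by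
      unfold X at h2
      push_cast at h2
      have : ((v : ℕ) : ℝ) ≤ (j : ℕ) + 2 := by nlinarith
      exact_mod_cast this
    have hv : (v : ℕ) = j ∨ (v : ℕ) = j + 2 ∨ (v : ℕ) = j + 1 := by omega
    rcases hv with hv | hv | hv
    · left; apply Fin.ext; exact hv
    · right; apply Fin.ext; exact hv
    · exfalso
      have h5 : sp j x = sp v (X v) := h
      rw [hxv] at h5
      have := common_lt (j := j) (k := v) (by omega) (x := X v) (y := X v) ⟨h1, h2⟩
        ⟨le_rfl, by unfold X; push_cast; nlinarith⟩ h5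
      obtain ⟨-, ⟨-, h6⟩ | ⟨h6, -⟩⟩ := this
      · unfold X at h6
        linarith
      · omega

lemma mem_arc_some {j : Fin m} {k : ℕ} (hk : (k : ℕ) = j + 1 ∨ k = j) {x : ℝ}
    (hx : |x - π * k| ≤ π / 2) : sp j x ∈ range (arc (some j)) := by
  have hp := Real.pi_pos
  rw [mem_range_arc]
  rw [abs_le] at hx
  refine ⟨x, ⟨?_, ?_⟩, rfl⟩ <;> simp only [lo, hi, X] <;> rcases hk with rfl | rfl <;>
    push_cast at * <;> nlinarith [hx.1, hx.2]

lemma range_arc_some {j : Fin m} {z : ℂ} (hz : z ∈ range (arc (some j))) : ∃ x, z = sp j x := by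
  rw [mem_range_arc] at hz
  obtain ⟨x, -, rfl⟩ := hz
  exact ⟨x, rfl⟩

lemma proper_some {j k : Fin m} (hjk : (k : ℕ) = j + 1 ∨ (j : ℕ) = k + 1) {x : ℝ}
    (hx : x = π * (max (j : ℕ) (k : ℕ) : ℕ)) :
    ProperCrossing (range (arc (some j))) (range (arc (some k))) (sp j x) := by
  have hp := Real.pi_gt_three
  refine proper j k ?_ x ⟨((max (j : ℕ) (k : ℕ) : ℕ) : ℤ), by rw [hx]; push_cast; rfl⟩ _ _
    ?_ (fun z hz => range_arc_some hz) ?_ (fun z hz => range_arc_some hz)
  · rcases hjk with h | h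
    · rw [h, sg_succ]
    · rw [h, sg_succ, neg_neg]
  · intro y hy
    refine mem_arc_some (k := max (j : ℕ) (k : ℕ)) ?_ ?_
    · omega
    · rw [← hx]; linarith
  · intro y hy
    refine mem_arc_some (k := max (j : ℕ) (k : ℕ)) ?_ ?_
    · omega
    · rw [← hx]; linarith

/-- the drawing: two opposite logarithmic spirals, cut into `m` arcs, and one radial segment -/
noncomputable def G (m : ℕ) : SimpleTopGraph (Fin (m + 2)) (Option (Fin m)) where
  pt := pt m
  pt_injective u v h := by
    have := congrArg norm h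
    rw [norm_pt, norm_pt] at this
    exact Fin.ext (X_inj (Real.exp_injective this))
  src := src m
  tgt := tgt m
  arc := arc
  arc_injective e s t h := by
    have h1 := crv_inj h
    have h2 := lo_lt_hi e
    have h3 : (hi m e - lo m e) * (s : ℝ) = (hi m e - lo m e) * t := by linarith
    exact Subtype.ext (mul_left_cancel₀ (by linarith : hi m e - lo m e ≠ 0) h3)
  arc_zero e := by
    rw [arc_apply, ← crv_lo e]
    simp
  arc_one e := by
    rw [arc_apply, ← crv_hi e]
    simp
  avoids e v t h := by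
    have h1 : arc e t ∈ range (arc e) := ⟨t, rfl⟩
    rw [mem_range_arc] at h1
    obtain ⟨x, hx, h2⟩ := h1
    exact avoid hx (h2.symm.trans h)
  common e f hef p q hpe hpf hqe hqf := by
    rw [mem_range_arc] at hpe hpf hqe hqf
    obtain ⟨x, hx, rfl⟩ := hpe
    obtain ⟨y, hy, hxy⟩ := hpf
    obtain ⟨x', hx', rfl⟩ := hqe
    obtain ⟨y', hy', hxy'⟩ := hqf
    rw [(meet hef hx hy hxy).1, (meet hef hx' hy' hxy').1]
  crossing e f hef p hpe hpf := by
    rw [mem_range_arc] at hpe hpf
    obtain ⟨x, hx, rfl⟩ := hpe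
    obtain ⟨y, hy, hxy⟩ := hpf
    obtain ⟨-, ⟨v, hv1, hv2, hv3, hv4⟩ | ⟨j, k, rfl, rfl, hk, hX⟩ | ⟨j, k, rfl, rfl, hk, hX⟩⟩ :=
      meet hef hx hy hxy
    · exact Or.inl ⟨v, hv1, hv2, hv4⟩
    · right
      constructor
      · rintro ⟨v, hv⟩
        have h1 := avoid hx hv.symm
        have h2 := avoid hy (hxy.symm.trans hv.symm)
        simp only [src, tgt, Fin.ext_iff] at h1 h2
        omega
      · refine proper_some (Or.inl hk) ?_
        rw [hX, hk, max_eq_right (by omega)]
    · right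
      constructor
      · rintro ⟨v, hv⟩
        have h1 := avoid hx hv.symm
        have h2 := avoid hy (hxy.symm.trans hv.symm)
        simp only [src, tgt, Fin.ext_iff] at h1 h2
        omega
      · refine proper_some (Or.inr hk) ?_
        rw [hX, hk, max_eq_left (by omega)]
  no_triple e f g hef hfg heg p hpe hpf hpg := by
    rw [mem_range_arc] at hpe hpf hpg
    obtain ⟨x, hx, rfl⟩ := hpe
    obtain ⟨y, hy, hxy⟩ := hpf
    obtain ⟨w, hw, hxw⟩ := hpg
    have h1 := (meet hef hx hy hxy).2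
    have h2 := (meet heg hx hw hxw).2
    have h3 := (meet hfg hy hw (hxy.symm.trans hxw)).2
    rcases h1 with ⟨v, -, -, -, hv4⟩ | h1
    · exact ⟨v, hv4.symm⟩
    rcases h2 with ⟨v, -, -, -, hv4⟩ | h2
    · exact ⟨v, hv4.symm⟩
    rcases h3 with ⟨v, -, -, -, hv4⟩ | h3
    · exact ⟨v, hv4.symm.trans hxy.symm⟩
    exfalso
    rcases h1 with ⟨j, k, he, hf, hk, -⟩ | ⟨j, k, he, hf, hk, -⟩ <;>
    rcases h2 with ⟨j', k', he', hf', hk', -⟩ | ⟨j', k', he', hf', hk', -⟩ <;>
    rcases h3 with ⟨j'', k'', he'', hf'', hk'', -⟩ | ⟨j'', k'', he'', hf'', hk'', -⟩ <;>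
    · rw [he] at he'
      rw [hf] at he''
      rw [hf'] at hf''
      simp only [Option.some.injEq, Fin.ext_iff] at he' he'' hf''
      omega

lemma reach0 (v : ℕ) : ∀ hv : v < m + 2,
    (G m).graph.Reachable ⟨0, by omega⟩ ⟨v, hv⟩ := by
  induction v using Nat.strong_induction_on with
  | _ v ih =>
    intro hv
    match v, ih, hv with
    | 0, _, _ => exact SimpleGraph.Reachable.refl _
    | 1, _, hv =>
      refine SimpleGraph.Adj.reachable ⟨?_, none, Or.inl ⟨rfl, rfl⟩⟩
      intro h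
      simp at h
    | v + 2, ih, hv =>
      refine (ih v (by omega) (by omega)).trans (SimpleGraph.Adj.reachable
        ⟨?_, some ⟨v, by omega⟩, Or.inl ⟨rfl, rfl⟩⟩)
      intro h
      simp at h

lemma connected_G : (G m).graph.Connected := by
  haveI : Nonempty (Fin (m + 2)) := ⟨⟨0, by omega⟩⟩
  refine SimpleGraph.Connected.mk ?_
  intro u v
  exact (reach0 u.1 u.2).symm.trans (reach0 v.1 v.2)

end Pool.H8.DualDiam
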