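import Pool.Agent.H8.DualDiamCurves

open Set Real

namespace Pool.H8.DualDiam

lemma sg_mul_self (j : ℕ) : sg j * sg j = 1 := by
  rcases sg_cases j with h | h <;> rw [h] <;> norm_num

/-- linear change of coordinates -/
noncomputable def linH (σ : ℝ) (hσ : σ * σ = 1) : ℂ ≃ₜ ℝ × ℝ where
  toFun w := (w.im + σ * w.re, w.im - σ * w.re)
  invFun q := (((q.1 - q.2) / 2 * σ : ℝ) : ℂ) + (((q.1 + q.2) / 2 : ℝ) : ℂ) * Complex.I
  left_inv w := by
    apply Complex.ext
    · simp
      linear_combination w.re * hσ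
    · simp
  right_inv q := by
    apply Prod.ext
    · simp
      linear_combination ((q.1 - q.2) / 2) * hσ
    · simp
      linear_combination -((q.1 - q.2) / 2) * hσ
  continuous_toFun := by fun_prop
  continuous_invFun := by fun_prop

def sq : Set ℂ := {w | |w.re| < 1 ∧ |w.im| < 1}

lemma isOpen_sq : IsOpen sq := by
  unfold sq
  exact (isOpen_lt Complex.continuous_re.abs continuous_const).inter
    (isOpen_lt Complex.continuous_im.abs continuous_const)

lemma P_mul_exp (x θ : ℝ) (w : ℂ) : P x θ * Complex.exp w = P (x + w.re) (θ + w.im) := by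
  unfold P
  rw [← Complex.exp_add]
  congr 1
  apply Complex.ext <;> simp

lemma P_ne_zero (x θ : ℝ) : P x θ ≠ 0 := Complex.exp_ne_zero _

lemma int_zero {n : ℤ} (h : |2 * π * n| < 2) : n = 0 := by
  have hp := Real.pi_gt_three
  rw [abs_lt] at h
  have h1 : (n : ℝ) < 1 := by nlinarith
  have h2 : (-1 : ℝ) < n := by nlinarith
  have h3 : n < 1 := by exact_mod_cast h1
  have h4 : -1 < n := by exact_mod_cast h2
  omega

lemma proper (a b : ℕ) (hs : sg b = - sg a) (x0 : ℝ) (hx0 : ∃ N : ℤ, x0 = π * N) (K L : Set ℂ)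
    (hK : ∀ x, |x - x0| < 1 → sp a x ∈ K) (hK' : ∀ z ∈ K, ∃ x, z = sp a x)
    (hL : ∀ x, |x - x0| < 1 → sp b x ∈ L) (hL' : ∀ z ∈ L, ∃ x, z = sp b x) :
    ProperCrossing K L (sp a x0) := by
  obtain ⟨N, hN⟩ := hx0
  have hp0 : sp a x0 ≠ 0 := P_ne_zero _ _
  set p := sp a x0 with hp
  set Ψ : OpenPartialHomeomorph ℂ ℂ := Complex.expOpenPartialHomeomorph.restrOpen sq isOpen_sq with hΨ
  have hΨsrc : Ψ.source = {z : ℂ | z.im ∈ Ioo (-π) π} ∩ sq := by
    rw [hΨ, OpenPartialHomeomorph.restrOpen_source]
    rfl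
  have hΨfun : ∀ w, Ψ w = Complex.exp w := fun w => rfl
  have h0src : (0 : ℂ) ∈ Ψ.source := by
    rw [hΨsrc]
    refine ⟨?_, ?_⟩
    · simp [Real.pi_pos]
    · simp [sq]
  have h1 : Ψ.symm 1 = 0 := by
    have := Ψ.left_inv h0src
    rw [hΨfun, Complex.exp_zero] at this
    exact this
  have h1t : (1 : ℂ) ∈ Ψ.target := by
    have := Ψ.map_source h0src
    rw [hΨfun, Complex.exp_zero] at this
    exact this
  refine ⟨((Homeomorph.mulLeft₀ p⁻¹ (inv_ne_zero hp0)).toOpenPartialHomeomorph.trans
    (Ψ.symm.trans (linH (sg a) (sg_mul_self a)).toOpenPartialHomeomorph)), ?_, ?_, ?_⟩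
  · simp only [OpenPartialHomeomorph.trans_source, Homeomorph.toOpenPartialHomeomorph_source,
      univ_inter, mem_preimage, OpenPartialHomeomorph.symm_source, preimage_univ, inter_univ]
    change p⁻¹ * p ∈ Ψ.target
    rw [inv_mul_cancel₀ hp0]
    exact h1t
  · change linH (sg a) (sg_mul_self a) (Ψ.symm (p⁻¹ * p)) = (0, 0)
    rw [inv_mul_cancel₀ hp0, h1]
    simp [linH]
  · intro z hz
    simp only [OpenPartialHomeomorph.trans_source, Homeomorph.toOpenPartialHomeomorph_source,
      univ_inter, mem_preimage, OpenPartialHomeomorph.symm_source, preimage_univ, inter_univ] at hz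
    change p⁻¹ * z ∈ Ψ.target at hz
    have hw := Ψ.map_target hz
    have hr := Ψ.right_inv hz
    rw [hΨfun] at hr
    change (z ∈ K ↔ (linH (sg a) (sg_mul_self a) (Ψ.symm (p⁻¹ * z))).2 = 0) ∧
      (z ∈ L ↔ (linH (sg a) (sg_mul_self a) (Ψ.symm (p⁻¹ * z))).1 = 0)
    generalize Ψ.symm (p⁻¹ * z) = w at hw hr
    rw [hΨsrc] at hw
    obtain ⟨-, hw1, hw2⟩ := hw
    have hz' : z = P (x0 + w.re) (sg a * x0 + w.im) := by
      rw [← P_mul_exp]
      change z = p * Complex.exp w
      rw [hr, ← mul_assoc, mul_inv_cancel₀ hp0, one_mul]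
    change (z ∈ K ↔ w.im - sg a * w.re = 0) ∧ (z ∈ L ↔ w.im + sg a * w.re = 0)
    rw [abs_lt] at hw1 hw2
    have hsw : |sg a * w.re| < 1 := by
      rcases sg_cases a with h | h <;> rw [h, abs_lt] <;> constructor <;> linarith [hw1.1, hw1.2]
    rw [abs_lt] at hsw
    have hx0w : |x0 + w.re - x0| < 1 := by rw [abs_lt]; constructor <;> linarith [hw1.1, hw1.2]
    refine ⟨⟨fun hzK => ?_, fun he => ?_⟩, ⟨fun hzL => ?_, fun he => ?_⟩⟩
    · obtain ⟨x, hx⟩ := hK' z hzK
      rw [hz'] at hx
      obtain ⟨h1, n, hn⟩ := P_eq_iff.mp hx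
      rw [← h1] at hn
      have hn' : w.im - sg a * w.re = 2 * π * n := by linarith
      have : n = 0 := int_zero (by rw [← hn', abs_lt]; constructor <;> linarith [hw2.1, hw2.2, hsw.1, hsw.2])
      subst this
      simpa using hn'
    · have : z = sp a (x0 + w.re) := by
        rw [hz']
        unfold sp
        congr 1
        linarith
      rw [this]
      exact hK _ hx0w
    · obtain ⟨x, hx⟩ := hL' z hzL
      rw [hz'] at hx
      obtain ⟨h1, n, hn⟩ := P_eq_iff.mp hx
      rw [← h1, hs] at hn
      obtain ⟨k, hk⟩ : ∃ k : ℤ, w.im + sg a * w.re = 2 * π * k := by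
        rcases sg_cases a with h | h <;> rw [h] at hn ⊢
        · refine ⟨n - N, ?_⟩
          push_cast
          rw [hN] at hn
          linarith
        · refine ⟨n + N, ?_⟩
          push_cast
          rw [hN] at hn
          linarith
      have : k = 0 := int_zero (by rw [← hk, abs_lt]; constructor <;> linarith [hw2.1, hw2.2, hsw.1, hsw.2])
      subst this
      simpa using hk
    · have : z = sp b (x0 + w.re) := by
        rw [hz']
        unfold sp
        rw [P_eq_iff]
        refine ⟨rfl, ?_⟩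
        rcases sg_cases a with h | h <;> rw [hs, h] <;> rw [h] at he
        · refine ⟨N, ?_⟩
          rw [hN]
          linarith
        · refine ⟨-N, ?_⟩
          rw [hN]
          push_cast
          linarith
      rw [this]
      exact hL _ hx0w

variable (m : ℕ)

noncomputable def lo : Option (Fin m) → ℝ
  | none => -(π / 2)
  | some j => X j

noncomputable def hi : Option (Fin m) → ℝ
  | none => π / 2
  | some j => X (j + 2)

noncomputable def crv : Option (Fin m) → ℝ → ℂ
  | none, x => P x (π / 2)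
  | some j, x => sp j x

def src : Option (Fin m) → Fin (m + 2)
  | none => ⟨0, by omega⟩
  | some j => ⟨j, by omega⟩

def tgt : Option (Fin m) → Fin (m + 2)
  | none => ⟨1, by omega⟩
  | some j => ⟨j + 2, by omega⟩

noncomputable def pt (v : Fin (m + 2)) : ℂ := sp v (X v)

variable {m}

lemma lo_lt_hi (e : Option (Fin m)) : lo m e < hi m e := by
  have hp := Real.pi_pos
  cases e with
  | none => simp only [lo, hi]; linarith
  | some j => simp only [lo, hi, X]; push_cast; linarith

lemma norm_crv (e : Option (Fin m)) (x : ℝ) : ‖crv m e x‖ = Real.exp x := by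
  cases e with
  | none => exact norm_P _ _
  | some j => exact norm_P _ _

lemma crv_inj {e f : Option (Fin m)} {x y : ℝ} (h : crv m e x = crv m f y) : x = y := by
  have := congrArg norm h
  rw [norm_crv, norm_crv] at this
  exact Real.exp_injective this

lemma norm_pt (v : Fin (m + 2)) : ‖pt m v‖ = Real.exp (X v) := norm_P _ _

lemma X_inj {a b : ℕ} (h : X a = X b) : a = b := by
  unfold X at h
  have : π * (a : ℝ) = π * b := by linarith
  have h2 := mul_left_cancel₀ Real.pi_ne_zero this
  exact_mod_cast h2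

lemma crv_lo (e : Option (Fin m)) : crv m e (lo m e) = pt m (src m e) := by
  cases e with
  | none =>
    simp only [crv, lo, pt, src, sp, P_eq_iff]
    refine ⟨by simp [X], 0, by simp [X, sg]⟩
  | some j => rfl

lemma crv_hi (e : Option (Fin m)) : crv m e (hi m e) = pt m (tgt m e) := by
  cases e with
  | none =>
    simp only [crv, hi, pt, tgt, sp, P_eq_iff]
    refine ⟨by simp [X]; ring, 0, by simp [X, sg]; ring⟩
  | some j =>
    simp only [crv, hi, pt, tgt, sp]
    rw [sg_succ, sg_succ, neg_neg]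

lemma continuous_crv (e : Option (Fin m)) : Continuous (crv m e) := by
  cases e with
  | none => exact continuous_P.comp (by fun_prop : Continuous fun x : ℝ => (x, π / 2))
  | some j => exact continuous_P.comp (by fun_prop : Continuous fun x : ℝ => (x, sg j * x))

noncomputable def arc (e : Option (Fin m)) : C(unitInterval, ℂ) :=
  ⟨fun t => crv m e (lo m e + (hi m e - lo m e) * t),
    (continuous_crv e).comp (by fun_prop)⟩

lemma arc_apply (e : Option (Fin m)) (t : unitInterval) :
    arc e t = crv m e (lo m e + (hi m e - lo m e) * t) := rfl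

lemma mem_range_arc {e : Option (Fin m)} {z : ℂ} :
    z ∈ range (arc e) ↔ ∃ x ∈ Icc (lo m e) (hi m e), z = crv m e x := by
  have hlt := lo_lt_hi e
  constructor
  · rintro ⟨t, rfl⟩
    refine ⟨_, ⟨?_, ?_⟩, rfl⟩
    · have := t.2.1
      nlinarith
    · have := t.2.2
      nlinarith
  · rintro ⟨x, ⟨h1, h2⟩, rfl⟩
    refine ⟨⟨(x - lo m e) / (hi m e - lo m e), ?_, ?_⟩, ?_⟩
    · exact div_nonneg (by linarith) (by linarith)
    · rw [div_le_one (by linarith)]; linarith
    · rw [arc_apply]
      congr 1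
      have : hi m e - lo m e ≠ 0 := by linarith
      field_simp
      ring

/-- meeting radius of two edges -/
noncomputable def mt : Option (Fin m) → Option (Fin m) → ℝ
  | none, none => 0
  | none, some j => X j
  | some j, none => X j
  | some j, some k => if (k : ℕ) = j + 1 then π * k else if (j : ℕ) = k + 1 then π * j else
      X (max (j : ℕ) k)

lemma meet {e f : Option (Fin m)} (hef : e ≠ f) {x y : ℝ} (hx : x ∈ Icc (lo m e) (hi m e))
    (hy : y ∈ Icc (lo m f) (hi m f)) (h : crv m e x = crv m f y) :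
    x = mt e f ∧ ((∃ v, (v = src m e ∨ v = tgt m e) ∧ (v = src m f ∨ v = tgt m f) ∧
      x = X v ∧ crv m e x = pt m v) ∨
      (∃ j k : Fin m, e = some j ∧ f = some k ∧ (k : ℕ) = j + 1 ∧ x = π * k) ∨
      (∃ j k : Fin m, e = some j ∧ f = some k ∧ (j : ℕ) = k + 1 ∧ x = π * j)) := by
  have hxy := crv_inj h
  subst hxy
  cases e with
  | none =>
    cases f with
    | none => exact absurd rfl hef
    | some j =>
      obtain ⟨-, hj⟩ := common_none hx hy h
      rcases hj with ⟨hj, hX⟩ | ⟨hj, hX⟩
      · refine ⟨by simp only [mt]; rw [hj, hX], Or.inl ⟨src m none, Or.inl rfl, Or.inl ?_, hX, ?_⟩⟩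
        · apply Fin.ext; simp only [src]; exact hj.symm
        · have : x = lo m none := by rw [hX]; simp [lo, X]
          rw [this]; exact crv_lo none
      · refine ⟨by simp only [mt]; rw [hj, hX], Or.inl ⟨tgt m none, Or.inr rfl, Or.inl ?_, hX, ?_⟩⟩
        · apply Fin.ext; simp only [src, tgt]; exact hj.symm
        · have : x = hi m none := by rw [hX]; simp [hi, X]; ring
          rw [this]; exact crv_hi none
  | some j =>
    cases f with
    | none =>
      obtain ⟨-, hj⟩ := common_none hy hx h.symm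
      rcases hj with ⟨hj, hX⟩ | ⟨hj, hX⟩
      · refine ⟨by simp only [mt]; rw [hj, hX], Or.inl ⟨src m none, Or.inl ?_, Or.inl rfl, hX, ?_⟩⟩
        · apply Fin.ext; simp only [src]; exact hj.symm
        · rw [h]
          have : x = lo m none := by rw [hX]; simp [lo, X]
          rw [this]; exact crv_lo none
      · refine ⟨by simp only [mt]; rw [hj, hX], Or.inl ⟨tgt m none, Or.inl ?_, Or.inr rfl, hX, ?_⟩⟩
        · apply Fin.ext; simp only [src, tgt]; exact hj.symm
        · rw [h]
          have : x = hi m none := by rw [hX]; simp [hi, X]; ring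
          rw [this]; exact crv_hi none
    | some k =>
      have hjk : (j : ℕ) ≠ k := fun hh => hef (by rw [Fin.ext hh])
      rcases lt_or_gt_of_ne hjk with hlt | hlt
      · obtain ⟨-, hc⟩ := common_lt hlt hx hy h
        rcases hc with ⟨hk, hX⟩ | ⟨hk, hX⟩
        · refine ⟨by simp only [mt]; rw [if_pos hk, hX], Or.inr (Or.inl ⟨j, k, rfl, rfl, hk, hX⟩)⟩
        · refine ⟨?_, Or.inl ⟨tgt m (some j), Or.inr rfl, Or.inl ?_, ?_, ?_⟩⟩
          · simp only [mt]
            rw [if_neg (by omega), if_neg (by omega), max_eq_right hlt.le, hX]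
          · apply Fin.ext; simp only [src, tgt]; exact hk.symm
          · rw [hX]; simp only [tgt]; rw [hk]
          · have : x = hi m (some j) := by rw [hX]; simp only [hi]; rw [hk]
            rw [this]; exact crv_hi _
      · obtain ⟨-, hc⟩ := common_lt hlt hy hx h.symm
        rcases hc with ⟨hk, hX⟩ | ⟨hk, hX⟩
        · refine ⟨by simp only [mt]; rw [if_neg (by omega), if_pos hk, hX],
            Or.inr (Or.inr ⟨j, k, rfl, rfl, hk, hX⟩)⟩
        · refine ⟨?_, Or.inl ⟨src m (some j), Or.inl rfl, Or.inr ?_, ?_, ?_⟩⟩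
          · simp only [mt]
            rw [if_neg (by omega), if_neg (by omega), max_eq_left hlt.le, hX]
          · apply Fin.ext; simp only [src, tgt]; exact hk
          · rw [hX]; rfl
          · rw [hX]; exact crv_lo (some j)

end Pool.H8.DualDiam
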