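import Pool.Agent.H8.DualDiamFaces

open Set Real

namespace Pool.H8.DualDiam

variable {m : ℕ}

/-- distance of the angle of `z` to the angle `π t` -/
noncomputable def A (t : ℕ) (z : ℂ) : ℝ := Real.arccos ((-1) ^ t * (z.re / ‖z‖))

def U (t : ℕ) : Set ℂ := {z | ‖z‖ < Real.exp (π * t + A t z)}
def W (t : ℕ) : Set ℂ := {z | Real.exp (π * t + A t z) < ‖z‖}

lemma continuousAt_A (t : ℕ) {z : ℂ} (hz : z ≠ 0) : ContinuousAt (A t) z := by
  unfold A
  refine Real.continuous_arccos.continuousAt.comp ?_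
  refine continuousAt_const.mul ?_
  exact Complex.continuous_re.continuousAt.div continuous_norm.continuousAt (norm_ne_zero_iff.mpr hz)

lemma A_nonneg (t : ℕ) (z : ℂ) : 0 ≤ A t z := Real.arccos_nonneg _
lemma A_le (t : ℕ) (z : ℂ) : A t z ≤ π := Real.arccos_le_pi _

lemma isOpen_U (t : ℕ) : IsOpen (U t) := by
  rw [isOpen_iff_mem_nhds]
  intro z hz
  by_cases h0 : z = 0
  · subst h0
    refine Filter.mem_of_superset (Metric.ball_mem_nhds (0 : ℂ) one_pos) ?_
    intro w hw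
    rw [mem_ball_zero_iff] at hw
    refine hw.trans_le ?_
    apply Real.one_le_exp
    have := Real.pi_pos
    have := A_nonneg t w
    positivity
  · have h1 : ContinuousAt (fun w : ℂ => Real.exp (π * t + A t w) - ‖w‖) z := by
      refine ContinuousAt.sub ?_ continuous_norm.continuousAt
      exact Real.continuous_exp.continuousAt.comp (continuousAt_const.add (continuousAt_A t h0))
    have h2 : 0 < Real.exp (π * t + A t z) - ‖z‖ := sub_pos.mpr hz
    filter_upwards [h1.eventually (lt_mem_nhds h2)] with w hw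
    exact sub_pos.mp hw

lemma isOpen_W (t : ℕ) : IsOpen (W t) := by
  rw [isOpen_iff_mem_nhds]
  intro z hz
  have h0 : z ≠ 0 := by
    rintro rfl
    have : Real.exp (π * t + A t 0) < ‖(0 : ℂ)‖ := hz
    rw [norm_zero] at this
    exact absurd this (not_lt.mpr (Real.exp_pos _).le)
  have h1 : ContinuousAt (fun w : ℂ => ‖w‖ - Real.exp (π * t + A t w)) z := by
    refine ContinuousAt.sub continuous_norm.continuousAt ?_
    exact Real.continuous_exp.continuousAt.comp (continuousAt_const.add (continuousAt_A t h0))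
  have h2 : 0 < ‖z‖ - Real.exp (π * t + A t z) := sub_pos.mpr hz
  filter_upwards [h1.eventually (lt_mem_nhds h2)] with w hw
  exact sub_pos.mp hw

lemma disjoint_UW (t : ℕ) : Disjoint (U t) (W t) := by
  rw [Set.disjoint_left]
  intro z h1 h2
  exact lt_asymm (show ‖z‖ < Real.exp (π * t + A t z) from h1) h2

lemma cos_A (t : ℕ) (x θ : ℝ) : Real.cos (A t (P x θ)) = (-1) ^ t * Real.cos θ := by
  unfold A
  rw [norm_P, P_re, mul_div_cancel_left₀ _ (Real.exp_pos _).ne']
  have h1 := Real.neg_one_le_cos θ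
  have h2 := Real.cos_le_one θ
  apply Real.cos_arccos
  · rcases neg_one_pow_eq_or ℝ t with h | h <;> rw [h] <;> linarith
  · rcases neg_one_pow_eq_or ℝ t with h | h <;> rw [h] <;> linarith

lemma exists_P {z : ℂ} (hz : z ≠ 0) : ∃ x θ, z = P x θ := by
  refine ⟨Real.log ‖z‖, z.arg, ?_⟩
  unfold P
  rw [Complex.exp_add, ← Complex.ofReal_exp, Real.exp_log (norm_pos_iff.mpr hz)]
  exact (Complex.norm_mul_exp_arg_mul_I z).symm

lemma cos_pi_mul_add (t : ℕ) (y : ℝ) : Real.cos (π * t + y) = (-1) ^ t * Real.cos y := by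
  rw [mul_comm π, add_comm, Real.cos_add_nat_mul_pi]

lemma sgn_sq (t : ℕ) : ((-1 : ℝ) ^ t) * (-1) ^ t = 1 := by
  rw [← mul_pow]; norm_num

lemma norm_eq_of_not {t : ℕ} {z : ℂ} (h1 : z ∉ U t) (h2 : z ∉ W t) :
    ‖z‖ = Real.exp (π * t + A t z) :=
  le_antisymm (not_lt.mp h2) (not_lt.mp h1)

/-- the curve `C_t` -/
lemma curve {t : ℕ} {z : ℂ} (h1 : z ∉ U t) (h2 : z ∉ W t) :
    ∃ x, π * t ≤ x ∧ x ≤ π * t + π ∧ x = π * t + A t z ∧ (z = P x x ∨ z = P x (-x)) := by
  have h3 := norm_eq_of_not h1 h2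
  have hz : z ≠ 0 := by
    rw [← norm_pos_iff, h3]
    exact Real.exp_pos _
  obtain ⟨x, θ, hzx⟩ := exists_P hz
  have hx : x = π * t + A t z := by
    rw [hzx, norm_P] at h3
    rw [hzx]
    exact Real.exp_injective h3
  refine ⟨x, ?_, ?_, hx, ?_⟩
  · have := A_nonneg t z
    linarith
  · have := A_le t z
    linarith
  · have h4 : Real.cos x = Real.cos θ := by
      rw [hx, cos_pi_mul_add, hzx, cos_A, ← mul_assoc, sgn_sq, one_mul]
    rw [Real.cos_eq_cos_iff] at h4
    obtain ⟨k, hk | hk⟩ := h4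
    · left
      rw [hzx, P_eq_iff]
      exact ⟨rfl, k, by rw [hk]; ring⟩
    · right
      rw [hzx, P_eq_iff]
      exact ⟨rfl, k, by rw [hk]; ring⟩

lemma sp_cases (t : ℕ) (x : ℝ) :
    (sp t x = P x x ∧ sp (t + 1) x = P x (-x)) ∨ (sp t x = P x (-x) ∧ sp (t + 1) x = P x x) := by
  unfold sp
  rw [sg_succ]
  rcases sg_cases t with h | h <;> rw [h]
  · left
    constructor
    · rw [one_mul]
    · rw [neg_mul, one_mul]
  · right
    constructor
    · rw [neg_mul, one_mul]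
    · rw [neg_neg, one_mul]

lemma arc_subset_support (e : Option (Fin m)) {z : ℂ} (hz : z ∈ range (arc e)) :
    z ∈ (G m).support := Or.inl (mem_iUnion.mpr ⟨e, hz⟩)

lemma sp_mem_of {s : ℕ} (hs : s + 3 ≤ m) {x : ℝ} (h1 : π * (s + 1 : ℕ) ≤ x)
    (h2 : x ≤ π * (s + 1 : ℕ) + π) :
    sp s x ∈ (G m).support ∧ sp (s + 1) x ∈ (G m).support := by
  have hp := Real.pi_pos
  constructor
  · by_cases h : x ≤ π * (s + 1 : ℕ) + π / 2
    · refine arc_subset_support (some ⟨s, by omega⟩) ?_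
      refine mem_arc_some (j := ⟨s, by omega⟩) (k := s + 1) (Or.inl rfl) ?_
      rw [abs_le]; constructor <;> linarith
    · have : sp s x = sp (s + 2) x := by
        unfold sp; rw [sg_succ, sg_succ, neg_neg]
      rw [this]
      refine arc_subset_support (some ⟨s + 2, by omega⟩) ?_
      refine mem_arc_some (j := ⟨s + 2, by omega⟩) (k := s + 2) (Or.inr rfl) ?_
      rw [abs_le]
      push_cast at *
      constructor <;> linarith
  · refine arc_subset_support (some ⟨s + 1, by omega⟩) ?_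
    by_cases h : x ≤ π * (s + 1 : ℕ) + π / 2
    · refine mem_arc_some (j := ⟨s + 1, by omega⟩) (k := s + 1) (Or.inr rfl) ?_
      rw [abs_le]; constructor <;> linarith
    · refine mem_arc_some (j := ⟨s + 1, by omega⟩) (k := s + 2) (Or.inl rfl) ?_
      rw [abs_le]
      push_cast at *
      constructor <;> linarith

lemma curve_support {t : ℕ} (ht : 1 ≤ t) (htm : t + 2 ≤ m) {z : ℂ} (h1 : z ∉ U t) (h2 : z ∉ W t) :
    z ∈ (G m).support := by
  obtain ⟨s, rfl⟩ : ∃ s, t = s + 1 := ⟨t - 1, by omega⟩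
  obtain ⟨x, hx1, hx2, -, hz⟩ := curve h1 h2
  obtain ⟨h3, h4⟩ := sp_mem_of (m := m) (by omega) hx1 hx2
  rcases sp_cases s x with ⟨h5, h6⟩ | ⟨h5, h6⟩ <;> rcases hz with rfl | rfl
  · rw [← h5]; exact h3
  · rw [← h6]; exact h4
  · rw [← h6]; exact h4
  · rw [← h5]; exact h3

lemma P_pm {x : ℝ} {N : ℕ} (h : x = π * N) : P x x = P x (-x) := by
  rw [P_eq_iff]
  exact ⟨rfl, N, by rw [h]; push_cast; ring⟩

lemma two_curves {t t' : ℕ} (htt : t < t') {z : ℂ} (h1 : z ∉ U t) (h2 : z ∉ W t)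
    (h3 : z ∉ U t') (h4 : z ∉ W t') :
    t' = t + 1 ∧ z = sp t (π * (t + 1 : ℕ)) ∧ z = sp (t + 1) (π * (t + 1 : ℕ)) := by
  have hp := Real.pi_pos
  obtain ⟨x, hx1, hx2, hx3, hz⟩ := curve h1 h2
  have h5 := norm_eq_of_not h3 h4
  have h6 : π * t' + A t' z = x := by
    rcases hz with hz | hz
    · rw [hz, norm_P] at h5
      rw [hz]
      exact (Real.exp_injective h5).symm
    · rw [hz, norm_P] at h5
      rw [hz]
      exact (Real.exp_injective h5).symm
  have h7 := A_nonneg t' z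
  have h8 : (t' : ℝ) ≤ t + 1 := by nlinarith
  have h9 : t' ≤ t + 1 := by exact_mod_cast h8
  have h10 : t' = t + 1 := by omega
  refine ⟨h10, ?_⟩
  have hx : x = π * (t + 1 : ℕ) := by
    rw [h10] at h6 h7
    push_cast at *
    linarith
  have hpm := P_pm hx
  rw [← hx]
  have hz' : z = P x x := by
    rcases hz with hz | hz
    · exact hz
    · rw [hz, hpm]
  rcases sp_cases t x with ⟨h5, h6⟩ | ⟨h5, h6⟩ <;> rw [h5, h6, hz'] <;> exact ⟨by simp [hpm], by simp [hpm]⟩

lemma face_dich (F : (G m).Face) {t : ℕ} (ht : 1 ≤ t) (htm : t + 2 ≤ m) :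
    F.1 ⊆ U t ∨ F.1 ⊆ W t := by
  obtain ⟨F, z, hz, rfl⟩ := F
  refine IsPreconnected.subset_or_subset (isOpen_U t) (isOpen_W t) (disjoint_UW t) ?_
    isPreconnected_connectedComponentIn
  intro w hw
  have h1 : w ∈ (G m).supportᶜ := connectedComponentIn_subset _ _ hw
  by_contra h2
  rw [mem_union, not_or] at h2
  exact h1 (curve_support ht htm h2.1 h2.2)

lemma face_nonempty (F : (G m).Face) : F.1.Nonempty := by
  obtain ⟨F, z, hz, rfl⟩ := F
  exact ⟨z, mem_connectedComponentIn hz⟩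

lemma face_W_iff (F : (G m).Face) {t : ℕ} (ht : 1 ≤ t) (htm : t + 2 ≤ m) {p : ℂ}
    (hp : p ∈ closure F.1) (h : p ∈ U t ∪ W t) : F.1 ⊆ W t ↔ p ∈ W t := by
  constructor
  · intro h1
    by_contra h2
    have h3 : p ∈ U t := h.resolve_right h2
    obtain ⟨w, hw1, hw2⟩ := mem_closure_iff.mp hp (U t) (isOpen_U t) h3
    exact (Set.disjoint_left.mp (disjoint_UW t)) hw1 (h1 hw2)
  · intro h1
    obtain ⟨w, hw1, hw2⟩ := mem_closure_iff.mp hp (W t) (isOpen_W t) h1
    rcases face_dich F ht htm with h2 | h2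
    · exact absurd hw1 (Set.disjoint_left.mp (disjoint_UW t) (h2 hw2))
    · exact h2

open Classical in
/-- the number of curves `C_t` having the face in their exterior -/
noncomputable def lev (F : (G m).Face) : ℕ :=
  ((Finset.Icc 1 (m - 2)).filter (fun t => F.1 ⊆ W t)).card

lemma side_unique {s : Set ℂ} (hs : (G m).IsSide s) : ∃ p ∈ s, ∃ t0, ∀ t, 1 ≤ t → t + 2 ≤ m → t ≠ t0 →
    p ∈ U t ∪ W t := by
  obtain ⟨e, a, b, hab, -, -, hno, rfl⟩ := hs
  obtain ⟨τ, hτ1, hτ2⟩ := exists_between hab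
  refine ⟨(G m).arc e τ, ⟨τ, ⟨hτ1, hτ2⟩, rfl⟩, ?_⟩
  have hnode := hno τ hτ1 hτ2
  by_contra hcon
  push Not at hcon
  obtain ⟨t, ht1, ht2, -, ht3⟩ := hcon 0
  obtain ⟨t', ht1', ht2', hne, ht3'⟩ := hcon t
  rw [mem_union, not_or] at ht3 ht3'
  have key : ∃ r, 1 ≤ r ∧ r + 3 ≤ m ∧ (G m).arc e τ = sp r (π * (r + 1 : ℕ)) ∧
      (G m).arc e τ = sp (r + 1) (π * (r + 1 : ℕ)) := by
    rcases lt_or_gt_of_ne hne with h | h
    · obtain ⟨h1, h2, h3⟩ := two_curves h ht3'.1 ht3'.2 ht3.1 ht3.2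
      exact ⟨t', ht1', by omega, h2, h3⟩
    · obtain ⟨h1, h2, h3⟩ := two_curves h ht3.1 ht3.2 ht3'.1 ht3'.2
      exact ⟨t, ht1, by omega, h2, h3⟩
  obtain ⟨r, hr1, hr2, hr3, hr4⟩ := key
  have hp := Real.pi_pos
  have m1 : (G m).arc e τ ∈ range ((G m).arc (some ⟨r, by omega⟩)) := by
    rw [hr3]
    refine mem_arc_some (j := ⟨r, by omega⟩) (k := r + 1) (Or.inl rfl) ?_
    rw [sub_self, abs_zero]; positivity
  have m2 : (G m).arc e τ ∈ range ((G m).arc (some ⟨r + 1, by omega⟩)) := by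
    rw [hr4]
    refine mem_arc_some (j := ⟨r + 1, by omega⟩) (k := r + 1) (Or.inr rfl) ?_
    rw [sub_self, abs_zero]; positivity
  by_cases he : e = some ⟨r, by omega⟩
  · apply hnode
    refine Or.inr (Or.inr ⟨some ⟨r + 1, by omega⟩, ?_, m2⟩)
    rw [he]
    intro h
    simp at h
  · exact hnode (Or.inr (Or.inr ⟨some ⟨r, by omega⟩, fun h => he h.symm, m1⟩))

lemma lev_adj {F F' : (G m).Face} (h : (G m).dual.Adj F F') : lev F' ≤ lev F + 1 := by
  classical
  obtain ⟨-, s, hs, hF, hF'⟩ := h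
  obtain ⟨p, hps, t0, ht0⟩ := side_unique hs
  have h1 : (Finset.Icc 1 (m - 2)).filter (fun t => F'.1 ⊆ W t) ⊆
      insert t0 ((Finset.Icc 1 (m - 2)).filter (fun t => F.1 ⊆ W t)) := by
    intro t ht
    rw [Finset.mem_filter, Finset.mem_Icc] at ht
    by_cases htt : t = t0
    · exact Finset.mem_insert.mpr (Or.inl htt)
    · refine Finset.mem_insert.mpr (Or.inr (Finset.mem_filter.mpr ⟨Finset.mem_Icc.mpr ht.1, ?_⟩))
      have h2 := ht0 t ht.1.1 (by omega) htt
      rw [face_W_iff F ht.1.1 (by omega) (frontier_subset_closure (hF hps)) h2]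
      rw [face_W_iff F' ht.1.1 (by omega) (frontier_subset_closure (hF' hps)) h2] at ht
      exact ht.2
  unfold lev
  refine (Finset.card_le_card h1).trans (Finset.card_insert_le _ _)

lemma lev_walk {F F' : (G m).Face} (w : (G m).dual.Walk F F') : lev F' ≤ lev F + w.length := by
  induction w with
  | nil => simp
  | cons h w ih =>
    have := lev_adj h
    simp only [SimpleGraph.Walk.length_cons]
    omega

end Pool.H8.DualDiam
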