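import Mathlib

set_option autoImplicit false
set_option linter.style.haveILetI false

open Module

namespace Pool.Agent.H8Gs

/-- a free-like graded algebra on three generators -/
structure Fr (T : Type) [Ring T] [Algebra ℚ T] (𝒜 : ℕ → Submodule ℚ T) (x : Fin 3 → T) : Prop where
  one : (1 : T) ∈ 𝒜 0
  zero_le : 𝒜 0 ≤ Submodule.span ℚ {1}
  mul : ∀ i j a b, a ∈ 𝒜 i → b ∈ 𝒜 j → a * b ∈ 𝒜 (i + j)
  gen : ∀ i, x i ∈ 𝒜 1
  succ : ∀ d, 𝒜 (d + 1) ≤ ⨆ i, (𝒜 d).map (LinearMap.mulRight ℚ (x i))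
  fin : ∀ d, Module.Finite ℚ (𝒜 d)
  rank : ∀ d, finrank ℚ (𝒜 d) = 3 ^ d

variable {T : Type} [Ring T] [Algebra ℚ T] {𝒜 : ℕ → Submodule ℚ T} {x : Fin 3 → T}

variable (𝒜 x) in
/-- the graded pieces of the ideal generated by the relations -/
def I (ρ : ℕ → T) : ℕ → Submodule ℚ T
  | 0 => ⊥
  | d + 1 => (⨆ i, (I ρ d).map (LinearMap.mulRight ℚ (x i))) ⊔
      (Finset.HasAntidiagonal.antidiagonal (d + 1)).sup (fun p => (𝒜 p.1).map (LinearMap.mulRight ℚ (ρ p.2)))

variable {ρ : ℕ → T}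

lemma I_le (h : Fr T 𝒜 x) (hρ : ∀ e, ρ e ∈ 𝒜 e) (d : ℕ) : I 𝒜 x ρ d ≤ 𝒜 d := by
  induction d with
  | zero => exact bot_le
  | succ d ih =>
    rw [I]
    apply sup_le
    · apply iSup_le
      intro i
      rintro _ ⟨a, ha, rfl⟩
      exact h.mul _ _ _ _ (ih ha) (h.gen i)
    · apply Finset.sup_le
      rintro p hp _ ⟨a, ha, rfl⟩
      have := h.mul _ _ _ _ ha (hρ p.2)
      rw [Finset.HasAntidiagonal.mem_antidiagonal.mp hp] at this
      exact this

lemma I_mulRight_gen (d : ℕ) (i : Fin 3) {a : T} (ha : a ∈ I 𝒜 x ρ d) :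
    a * x i ∈ I 𝒜 x ρ (d + 1) := by
  rw [I]
  apply Submodule.mem_sup_left
  exact (le_iSup (fun i => (I 𝒜 x ρ d).map (LinearMap.mulRight ℚ (x i))) i) ⟨a, ha, rfl⟩

lemma I_mulRight (h : Fr T 𝒜 x) (d : ℕ) {a : T} (ha : a ∈ I 𝒜 x ρ d) :
    ∀ (e : ℕ) (b : T), b ∈ 𝒜 e → a * b ∈ I 𝒜 x ρ (d + e) := by
  intro e
  induction e with
  | zero =>
    intro b hb
    obtain ⟨c, rfl⟩ := Submodule.mem_span_singleton.mp (h.zero_le hb)
    rw [mul_smul_comm, mul_one]
    exact Submodule.smul_mem _ _ ha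
  | succ e ih =>
    intro b hb
    have h1 := h.succ e hb
    clear hb
    induction h1 using Submodule.iSup_induction' with
    | mem i y hy =>
      obtain ⟨c, hc, rfl⟩ := hy
      show a * (c * x i) ∈ _
      rw [← mul_assoc]
      exact I_mulRight_gen (d + e) i (ih c hc)
    | zero => rw [mul_zero]; exact Submodule.zero_mem _
    | add y z _ _ hy hz => rw [mul_add]; exact Submodule.add_mem _ hy hz

lemma rel_mem (h : Fr T 𝒜 x) (d : ℕ) (hd : 1 ≤ d) : ρ d ∈ I 𝒜 x ρ d := by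
  obtain ⟨d, rfl⟩ : ∃ e, d = e + 1 := ⟨d - 1, by omega⟩
  rw [I]
  apply Submodule.mem_sup_right
  have h1 : ((0, d + 1) : ℕ × ℕ) ∈ Finset.HasAntidiagonal.antidiagonal (d + 1) := by simp
  apply Finset.le_sup (f := fun p => (𝒜 p.1).map (LinearMap.mulRight ℚ (ρ p.2))) h1
  exact ⟨1, h.one, by simp⟩

lemma mem_fsup {ι : Type} (s : Finset ι) (f : ι → Submodule ℚ T) (P : T → Prop)
    (hP0 : P 0) (hPa : ∀ a b, P a → P b → P (a + b)) (hf : ∀ i ∈ s, ∀ a ∈ f i, P a) :
    ∀ a ∈ s.sup f, P a := by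
  classical
  induction s using Finset.induction_on with
  | empty =>
    intro a ha
    rw [Finset.sup_empty, Submodule.mem_bot] at ha
    rw [ha]; exact hP0
  | insert i s _ ih =>
    intro a ha
    rw [Finset.sup_insert] at ha
    obtain ⟨b, hb, c, hc, rfl⟩ := Submodule.mem_sup.mp ha
    exact hPa b c (hf i (Finset.mem_insert_self _ _) b hb)
      (ih (fun j hj => hf j (Finset.mem_insert_of_mem hj)) c hc)

lemma I_mulLeft (h : Fr T 𝒜 x) (d : ℕ) : ∀ (a : T), a ∈ I 𝒜 x ρ d →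
    ∀ (e : ℕ) (b : T), b ∈ 𝒜 e → b * a ∈ I 𝒜 x ρ (e + d) := by
  induction d with
  | zero =>
    intro a ha e b _
    have : a = 0 := ha
    rw [this, mul_zero]; exact Submodule.zero_mem _
  | succ d ih =>
    intro a ha e b hb
    rw [I] at ha
    obtain ⟨a1, ha1, a2, ha2, rfl⟩ := Submodule.mem_sup.mp ha
    rw [mul_add]
    apply Submodule.add_mem
    · induction ha1 using Submodule.iSup_induction' with
      | mem i y hy =>
        obtain ⟨c, hc, rfl⟩ := hy
        show b * (c * x i) ∈ _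
        rw [← mul_assoc]
        exact I_mulRight_gen (e + d) i (ih c hc e b hb)
      | zero => rw [mul_zero]; exact Submodule.zero_mem _
      | add y z hy' hz' hy hz =>
        rw [mul_add]
        exact Submodule.add_mem _
          (hy (Submodule.add_mem _ (Submodule.mem_sup_left hy') (Submodule.mem_sup_right ha2)))
          (hz (Submodule.add_mem _ (Submodule.mem_sup_left hz') (Submodule.mem_sup_right ha2)))
    · apply mem_fsup _ _ (fun a => b * a ∈ I 𝒜 x ρ (e + (d + 1))) ?_ ?_ ?_ a2 ha2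
      · rw [mul_zero]; exact Submodule.zero_mem _
      · intro y z hy hz
        rw [mul_add]
        exact Submodule.add_mem _ hy hz
      · rintro p hp _ ⟨c, hc, rfl⟩
        show b * (c * ρ p.2) ∈ _
        rw [← mul_assoc]
        have hp' := Finset.HasAntidiagonal.mem_antidiagonal.mp hp
        show _ ∈ I 𝒜 x ρ ((e + d) + 1)
        rw [I]
        apply Submodule.mem_sup_right
        have h1 : ((e + p.1, p.2) : ℕ × ℕ) ∈ Finset.HasAntidiagonal.antidiagonal (e + d + 1) := by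
          rw [Finset.HasAntidiagonal.mem_antidiagonal]; dsimp only; omega
        apply Finset.le_sup (f := fun p => (𝒜 p.1).map (LinearMap.mulRight ℚ (ρ p.2))) h1
        exact ⟨b * c, h.mul _ _ _ _ hb hc, rfl⟩

/-! ### dimension count -/

lemma exists_compl (h : Fr T 𝒜 x) (hρ : ∀ e, ρ e ∈ 𝒜 e) (d : ℕ) : ∃ B : Submodule ℚ T,
    B ≤ 𝒜 d ∧ I 𝒜 x ρ d ⊔ B = 𝒜 d ∧ finrank ℚ (I 𝒜 x ρ d) + finrank ℚ B = 3 ^ d := by
  obtain ⟨C, hC⟩ := exists_isCompl (I 𝒜 x ρ d)
  haveI := h.fin d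
  have hle := I_le h hρ d
  have h1 : I 𝒜 x ρ d ⊔ (C ⊓ 𝒜 d) = 𝒜 d := by
    rw [← sup_inf_assoc_of_le C hle, hC.sup_eq_top, top_inf_eq]
  have h2 : I 𝒜 x ρ d ⊓ (C ⊓ 𝒜 d) = ⊥ := by
    rw [← inf_assoc, hC.inf_eq_bot, bot_inf_eq]
  haveI : Module.Finite ℚ (I 𝒜 x ρ d) := Submodule.finiteDimensional_of_le hle
  haveI : Module.Finite ℚ ↥(C ⊓ 𝒜 d) := Submodule.finiteDimensional_of_le inf_le_right
  refine ⟨C ⊓ 𝒜 d, inf_le_right, h1, ?_⟩
  have h3 := Submodule.finrank_sup_add_finrank_inf_eq (I 𝒜 x ρ d) (C ⊓ 𝒜 d)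
  rw [h1, h2, h.rank, finrank_bot, add_zero] at h3
  exact h3.symm

lemma finrank_fsup_le {ι : Type} (s : Finset ι) (f : ι → Submodule ℚ T)
    (hf : ∀ i ∈ s, Module.Finite ℚ (f i)) :
    Module.Finite ℚ ↥(s.sup f) ∧ finrank ℚ ↥(s.sup f) ≤ ∑ i ∈ s, finrank ℚ (f i) := by
  classical
  induction s using Finset.induction_on with
  | empty => rw [Finset.sup_empty]; exact ⟨inferInstance, by simp⟩
  | insert i s his ih =>
    obtain ⟨h1, h2⟩ := ih (fun j hj => hf j (Finset.mem_insert_of_mem hj))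
    haveI := hf i (Finset.mem_insert_self _ _)
    rw [Finset.sup_insert, Finset.sum_insert his]
    refine ⟨inferInstance, ?_⟩
    exact (Submodule.finrank_add_le_finrank_add_finrank _ _).trans (by omega)

/-- the Golod–Shafarevich inequality -/
lemma gs (h : Fr T 𝒜 x) (hρ : ∀ e, ρ e ∈ 𝒜 e) (h0 : ρ 0 = 0) (h1 : ρ 1 = 0)
    (B : ℕ → Submodule ℚ T) (hB : ∀ d, B d ≤ 𝒜 d ∧ I 𝒜 x ρ d ⊔ B d = 𝒜 d ∧
      finrank ℚ (I 𝒜 x ρ d) + finrank ℚ (B d) = 3 ^ d) (d : ℕ) :
    finrank ℚ (I 𝒜 x ρ (d + 1)) ≤ 3 * finrank ℚ (I 𝒜 x ρ d) +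
      ∑ j ∈ Finset.range d, finrank ℚ (B j) := by
  haveI hfinI : ∀ d, Module.Finite ℚ (I 𝒜 x ρ d) := fun d => by
    haveI := h.fin d
    exact Submodule.finiteDimensional_of_le (I_le h hρ d)
  haveI hfinB : ∀ d, Module.Finite ℚ (B d) := fun d => by
    haveI := h.fin d
    exact Submodule.finiteDimensional_of_le (hB d).1
  -- the bigger space
  have hle : I 𝒜 x ρ (d + 1) ≤
      (Finset.univ : Finset (Fin 3)).sup (fun i => (I 𝒜 x ρ d).map (LinearMap.mulRight ℚ (x i))) ⊔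
      (Finset.range d).sup (fun j => (B j).map (LinearMap.mulRight ℚ (ρ (d + 1 - j)))) := by
    have hX : ∀ y, y ∈ I 𝒜 x ρ d → ∀ i, y * x i ∈
      (Finset.univ : Finset (Fin 3)).sup (fun i => (I 𝒜 x ρ d).map (LinearMap.mulRight ℚ (x i))) := by
      intro y hy i
      exact Finset.le_sup (f := fun i => (I 𝒜 x ρ d).map (LinearMap.mulRight ℚ (x i)))
        (Finset.mem_univ i) ⟨y, hy, rfl⟩
    rw [I]
    apply sup_le
    · apply iSup_le
      rintro i _ ⟨a, ha, rfl⟩
      exact Submodule.mem_sup_left (hX a ha i)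
    · apply Finset.sup_le
      rintro ⟨j, e⟩ hp _ ⟨a, ha, rfl⟩
      have hp' : j + e = d + 1 := Finset.HasAntidiagonal.mem_antidiagonal.mp hp
      show a * ρ e ∈ _
      rcases Nat.lt_or_ge e 2 with he | he
      · have : ρ e = 0 := by
          interval_cases e
          · exact h0
          · exact h1
        rw [this, mul_zero]; exact Submodule.zero_mem _
      · have haj : a ∈ I 𝒜 x ρ j ⊔ B j := by rw [(hB j).2.1]; exact ha
        obtain ⟨a1, ha1, a2, ha2, rfl⟩ := Submodule.mem_sup.mp haj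
        rw [add_mul]
        apply Submodule.add_mem
        · apply Submodule.mem_sup_left
          -- ρ e is a sum of c * x i
          obtain ⟨e', rfl⟩ : ∃ e', e = e' + 1 := ⟨e - 1, by omega⟩
          have hr := h.succ e' (hρ (e' + 1))
          generalize ρ (e' + 1) = r at hr ⊢
          induction hr using Submodule.iSup_induction' with
          | mem i y hy =>
            obtain ⟨c, hc, rfl⟩ := hy
            show a1 * (c * x i) ∈ _
            rw [← mul_assoc]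
            apply hX
            have h5 := I_mulRight h j ha1 e' c hc
            have h6 : j + e' = d := by omega
            rwa [h6] at h5
          | zero => rw [mul_zero]; exact Submodule.zero_mem _
          | add y z _ _ hy hz => rw [mul_add]; exact Submodule.add_mem _ hy hz
        · apply Submodule.mem_sup_right
          have hj : j ∈ Finset.range d := by rw [Finset.mem_range]; omega
          apply Finset.le_sup (f := fun j => (B j).map (LinearMap.mulRight ℚ (ρ (d + 1 - j)))) hj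
          have h6 : d + 1 - j = e := by omega
          rw [h6]
          exact ⟨a2, ha2, rfl⟩
  obtain ⟨f1, g1⟩ := finrank_fsup_le (Finset.univ : Finset (Fin 3))
    (fun i => (I 𝒜 x ρ d).map (LinearMap.mulRight ℚ (x i))) (fun i _ => inferInstance)
  obtain ⟨f2, g2⟩ := finrank_fsup_le (Finset.range d)
    (fun j => (B j).map (LinearMap.mulRight ℚ (ρ (d + 1 - j)))) (fun i _ => inferInstance)
  have g3 : ∑ i : Fin 3, finrank ℚ ((I 𝒜 x ρ d).map (LinearMap.mulRight ℚ (x i))) ≤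
      3 * finrank ℚ (I 𝒜 x ρ d) := by
    calc _ ≤ ∑ i : Fin 3, finrank ℚ (I 𝒜 x ρ d) :=
          Finset.sum_le_sum (fun i _ => Submodule.finrank_map_le _ _)
      _ = _ := by simp
  have g4 : ∑ j ∈ Finset.range d, finrank ℚ ((B j).map (LinearMap.mulRight ℚ (ρ (d + 1 - j)))) ≤
      ∑ j ∈ Finset.range d, finrank ℚ (B j) :=
    Finset.sum_le_sum (fun i _ => Submodule.finrank_map_le _ _)
  have g5 := Submodule.finrank_mono hle
  have g6 := Submodule.finrank_add_le_finrank_add_finrank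
    ((Finset.univ : Finset (Fin 3)).sup (fun i => (I 𝒜 x ρ d).map (LinearMap.mulRight ℚ (x i))))
    ((Finset.range d).sup (fun j => (B j).map (LinearMap.mulRight ℚ (ρ (d + 1 - j)))))
  omega

/-- the quotient is nonzero in every degree -/
theorem I_ne (h : Fr T 𝒜 x) (hρ : ∀ e, ρ e ∈ 𝒜 e) (h0 : ρ 0 = 0) (h1 : ρ 1 = 0) (d : ℕ) :
    ¬ 𝒜 d ≤ I 𝒜 x ρ d := by
  choose B hB using exists_compl h hρ
  have key : ∀ d, ∑ j ∈ Finset.range d, finrank ℚ (B j) ≤ finrank ℚ (B d) ∧
      1 ≤ finrank ℚ (B d) := by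
    intro d
    induction d with
    | zero =>
      refine ⟨by simp, ?_⟩
      have h2 := (hB 0).2.2
      have h3 : finrank ℚ (I 𝒜 x ρ 0) = 0 := by
        rw [I]; exact finrank_bot ℚ T
      omega
    | succ d ih =>
      have h2 := gs h hρ h0 h1 B hB d
      have h3 := (hB d).2.2
      have h4 := (hB (d + 1)).2.2
      rw [Finset.sum_range_succ]
      have h5 : 3 ^ (d + 1) = 3 * 3 ^ d := by ring
      omega
  intro hle
  have h2 := (key d).2
  have h3 := (hB d).2.2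
  haveI := h.fin d
  haveI : Module.Finite ℚ (I 𝒜 x ρ d) := Submodule.finiteDimensional_of_le (I_le h hρ d)
  have h4 := Submodule.finrank_mono hle
  rw [h.rank] at h4
  omega

end Pool.Agent.H8Gs
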