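import Mathlib
import Pool.Agent.H8.Gs

set_option autoImplicit false
set_option linter.style.haveILetI false

open Module DirectSum

namespace Pool.Agent.H8Gs

variable {T : Type} [Ring T] [Algebra ℚ T] {𝒜 : ℕ → Submodule ℚ T} {x : Fin 3 → T}

variable (𝒜) in
/-- elements supported in degrees `a..b` -/
def W (a b : ℕ) : Submodule ℚ T := (Finset.Icc a b).sup 𝒜

lemma W_mul (h : Fr T 𝒜 x) {a b a' b' : ℕ} {s t : T} (hs : s ∈ W 𝒜 a b) (ht : t ∈ W 𝒜 a' b') :
    s * t ∈ W 𝒜 (a + a') (b + b') := by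
  apply mem_fsup _ _ (fun s => s * t ∈ W 𝒜 (a + a') (b + b')) ?_ ?_ ?_ s hs
  · rw [zero_mul]; exact Submodule.zero_mem _
  · intro y z hy hz; rw [add_mul]; exact Submodule.add_mem _ hy hz
  · intro i hi y hy
    apply mem_fsup _ _ (fun t => y * t ∈ W 𝒜 (a + a') (b + b')) ?_ ?_ ?_ t ht
    · rw [mul_zero]; exact Submodule.zero_mem _
    · intro y z hy hz; rw [mul_add]; exact Submodule.add_mem _ hy hz
    · intro j hj z hz
      have h1 : i + j ∈ Finset.Icc (a + a') (b + b') := by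
        rw [Finset.mem_Icc] at *; omega
      exact Finset.le_sup (f := 𝒜) h1 (h.mul _ _ _ _ hy hz)

lemma W_pow (h : Fr T 𝒜 x) {D : ℕ} {t : T} (ht : t ∈ W 𝒜 1 D) (n : ℕ) :
    t ^ n ∈ W 𝒜 n (n * D) := by
  induction n with
  | zero =>
    rw [pow_zero]
    exact Finset.le_sup (f := 𝒜) (by simp : 0 ∈ Finset.Icc 0 (0 * D)) h.one
  | succ n ih =>
    rw [pow_succ]
    have := W_mul h ih ht
    have e : (n + 1) * D = n * D + D := by ring
    rw [e]
    exact this

variable [GradedAlgebra 𝒜]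

lemma W_decomp {a b : ℕ} {t : T} (ht : t ∈ W 𝒜 a b) :
    t = ∑ d ∈ Finset.Icc a b, (decompose 𝒜 t d : T) := by
  apply mem_fsup _ _ (fun t => t = ∑ d ∈ Finset.Icc a b, (decompose 𝒜 t d : T)) ?_ ?_ ?_ t ht
  · simp
  · intro y z hy hz
    have h1 : ∀ d, (decompose 𝒜 (y + z) d : T) = (decompose 𝒜 y d : T) + (decompose 𝒜 z d : T) := by
      intro d
      rw [decompose_add]; rfl
    simp only [h1, Finset.sum_add_distrib]
    rw [← hy, ← hz]
  · intro i hi y hy
    rw [Finset.sum_eq_single i]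
    · exact (decompose_of_mem_same 𝒜 hy).symm
    · intro j _ hij
      exact decompose_of_mem_ne 𝒜 hy (Ne.symm hij)
    · intro hi'
      exact absurd hi hi'

lemma mem_W {t : T} (ht : (decompose 𝒜 t 0 : T) = 0) : ∃ D, 1 ≤ D ∧ t ∈ W 𝒜 1 D := by
  classical
  refine ⟨((decompose 𝒜 t).support.sup id) + 1, by omega, ?_⟩
  suffices hs : (∑ i ∈ (decompose 𝒜 t).support, (decompose 𝒜 t i : T)) ∈
      W 𝒜 1 (((decompose 𝒜 t).support.sup id) + 1) by
    rwa [sum_support_decompose 𝒜 t] at hs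
  apply Submodule.sum_mem
  intro i hi
  rcases Nat.eq_zero_or_pos i with rfl | hi0
  · rw [ht]; exact Submodule.zero_mem _
  · have h1 : i ≤ (decompose 𝒜 t).support.sup id := Finset.le_sup (f := id) hi
    have h2 : i ∈ Finset.Icc 1 (((decompose 𝒜 t).support.sup id) + 1) := by
      rw [Finset.mem_Icc]; omega
    exact Finset.le_sup (f := 𝒜) h2 (SetLike.coe_mem _)

/-- the windows -/
def mm (D : ℕ → ℕ) : ℕ → ℕ
  | 0 => 2
  | j + 1 => mm D j * D j + 1

lemma mm_mono (D : ℕ → ℕ) (hD : ∀ j, 1 ≤ D j) {j k : ℕ} (hjk : j < k) :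
    mm D j * D j < mm D k := by
  induction k with
  | zero => omega
  | succ k ih =>
    rw [mm]
    rcases Nat.lt_or_ge j k with h | h
    · have h1 := ih h
      have h2 : mm D k ≤ mm D k * D k := Nat.le_mul_of_pos_right _ (hD k)
      omega
    · have : j = k := by omega
      subst this
      omega

lemma mm_two (D : ℕ → ℕ) (hD : ∀ j, 1 ≤ D j) (j : ℕ) : 2 ≤ mm D j := by
  induction j with
  | zero => exact le_rfl
  | succ j ih =>
    rw [mm]
    have h2 : mm D j ≤ mm D j * D j := Nat.le_mul_of_pos_right _ (hD j)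
    omega

theorem exists_nil [Countable T] (h : Fr T 𝒜 x) : ∃ ρ : ℕ → T, (∀ e, ρ e ∈ 𝒜 e) ∧ ρ 0 = 0 ∧
    ρ 1 = 0 ∧ ∀ t : T, (decompose 𝒜 t 0 : T) = 0 → ∃ n, t ^ n ∈ ⨆ d, I 𝒜 x ρ d := by
  classical
  haveI : Nonempty {t : T // (decompose 𝒜 t 0 : T) = 0} := ⟨⟨0, by simp⟩⟩
  obtain ⟨f, hf⟩ := exists_surjective_nat {t : T // (decompose 𝒜 t 0 : T) = 0}
  choose D hD1 hDW using fun j => mem_W (𝒜 := 𝒜) (f j).2
  let win : ℕ → ℕ → Prop := fun e j => mm D j ≤ e ∧ e ≤ mm D j * D j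
  have huniq : ∀ e j k, win e j → win e k → j = k := by
    intro e j k hj hk
    rcases lt_trichotomy j k with h1 | h1 | h1
    · have := mm_mono D hD1 h1
      have h2 := hj.2
      have h3 := hk.1
      omega
    · exact h1
    · have := mm_mono D hD1 h1
      have h2 := hk.2
      have h3 := hj.1
      omega
  let ρ : ℕ → T := fun e => if he : ∃ j, win e j then
    (decompose 𝒜 ((f he.choose : T) ^ (mm D he.choose)) e : T) else 0
  have hρw : ∀ e j, win e j → ρ e = (decompose 𝒜 ((f j : T) ^ (mm D j)) e : T) := by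
    intro e j hj
    have he : ∃ j, win e j := ⟨j, hj⟩
    have h1 : he.choose = j := huniq e _ _ he.choose_spec hj
    show (if he : ∃ j, win e j then
      (decompose 𝒜 ((f he.choose : T) ^ (mm D he.choose)) e : T) else 0) = _
    rw [dif_pos he, h1]
  have hρn : ∀ e, (¬ ∃ j, win e j) → ρ e = 0 := by
    intro e he
    show (if he : ∃ j, win e j then
      (decompose 𝒜 ((f he.choose : T) ^ (mm D he.choose)) e : T) else 0) = _
    rw [dif_neg he]
  have hsmall : ∀ e, e < 2 → ρ e = 0 := by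
    intro e he
    apply hρn
    rintro ⟨j, hj⟩
    have h1 := mm_two D hD1 j
    have h2 := hj.1
    omega
  refine ⟨ρ, ?_, hsmall 0 (by omega), hsmall 1 (by omega), ?_⟩
  · intro e
    by_cases he : ∃ j, win e j
    · obtain ⟨j, hj⟩ := he
      rw [hρw e j hj]
      exact SetLike.coe_mem _
    · rw [hρn e he]; exact Submodule.zero_mem _
  · intro t ht
    obtain ⟨j, hj⟩ := hf ⟨t, ht⟩
    refine ⟨mm D j, ?_⟩
    have hj' : (f j : T) = t := congrArg Subtype.val hj
    rw [← hj']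
    have h1 := W_pow h (hDW j) (mm D j)
    rw [W_decomp h1]
    apply Submodule.sum_mem
    intro d hd
    rw [Finset.mem_Icc] at hd
    rw [← hρw d j hd]
    have h2 := mm_two D hD1 j
    exact le_iSup (I 𝒜 x ρ) d (rel_mem h d (by omega))

end Pool.Agent.H8Gs
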