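import Mathlib
import Pool.Agent.H8.GsNil

set_option autoImplicit false
set_option linter.style.haveILetI false

open Module DirectSum
open scoped TensorProduct

namespace Pool.Agent.H8Gs

variable {T : Type} [Ring T] [Algebra ℚ T] {𝒜 : ℕ → Submodule ℚ T} {x : Fin 3 → T}

lemma I_iSup_left (h : Fr T 𝒜 x) [GradedAlgebra 𝒜] {ρ : ℕ → T} {a : T}
    (ha : a ∈ ⨆ d, I 𝒜 x ρ d) (b : T) : b * a ∈ ⨆ d, I 𝒜 x ρ d := by
  classical
  induction ha using Submodule.iSup_induction' with
  | mem d y hy =>
    rw [← sum_support_decompose 𝒜 b, Finset.sum_mul]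
    apply Submodule.sum_mem
    intro i _
    exact le_iSup (I 𝒜 x ρ) (i + d) (I_mulLeft h d y hy i _ (SetLike.coe_mem _))
  | zero => rw [mul_zero]; exact Submodule.zero_mem _
  | add y z _ _ hy hz => rw [mul_add]; exact Submodule.add_mem _ hy hz

lemma I_iSup_right (h : Fr T 𝒜 x) [GradedAlgebra 𝒜] {ρ : ℕ → T} {a : T}
    (ha : a ∈ ⨆ d, I 𝒜 x ρ d) (b : T) : a * b ∈ ⨆ d, I 𝒜 x ρ d := by
  classical
  induction ha using Submodule.iSup_induction' with
  | mem d y hy =>
    rw [← sum_support_decompose 𝒜 b, Finset.mul_sum]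
    apply Submodule.sum_mem
    intro i _
    exact le_iSup (I 𝒜 x ρ) (d + i) (I_mulRight h d hy i _ (SetLike.coe_mem _))
  | zero => rw [zero_mul]; exact Submodule.zero_mem _
  | add y z _ _ hy hz => rw [add_mul]; exact Submodule.add_mem _ hy hz

variable (x) in
/-- the monomials of degree `d` -/
def L : ℕ → List T
  | 0 => [1]
  | d + 1 => (L d).map (· * x 0) ++ (L d).map (· * x 1) ++ (L d).map (· * x 2)

lemma L_mem (h : Fr T 𝒜 x) (d : ℕ) : ∀ w ∈ L x d, w ∈ 𝒜 d := by
  induction d with
  | zero =>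
    intro w hw
    simp only [L, List.mem_singleton] at hw
    rw [hw]; exact h.one
  | succ d ih =>
    intro w hw
    simp only [L, List.mem_append, List.mem_map] at hw
    rcases hw with (⟨v, hv, rfl⟩ | ⟨v, hv, rfl⟩) | ⟨v, hv, rfl⟩
    · exact h.mul _ _ _ _ (ih v hv) (h.gen 0)
    · exact h.mul _ _ _ _ (ih v hv) (h.gen 1)
    · exact h.mul _ _ _ _ (ih v hv) (h.gen 2)

lemma L_span (h : Fr T 𝒜 x) (d : ℕ) : 𝒜 d ≤ Submodule.span ℚ {w | w ∈ L x d} := by
  induction d with
  | zero =>
    refine h.zero_le.trans (Submodule.span_mono ?_)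
    intro w hw
    simpa [L] using hw
  | succ d ih =>
    refine (h.succ d).trans (iSup_le ?_)
    rintro i _ ⟨a, ha, rfl⟩
    have h1 := ih ha
    clear ha
    induction h1 using Submodule.span_induction with
    | mem w hw =>
      apply Submodule.subset_span
      show w * x i ∈ L x (d + 1)
      have hw' : w ∈ L x d := hw
      simp only [L, List.mem_append, List.mem_map]
      fin_cases i
      · exact Or.inl (Or.inl ⟨w, hw', rfl⟩)
      · exact Or.inl (Or.inr ⟨w, hw', rfl⟩)
      · exact Or.inr ⟨w, hw', rfl⟩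
    | zero => rw [map_zero]; exact Submodule.zero_mem _
    | add y z _ _ hy hz => rw [map_add]; exact Submodule.add_mem _ hy hz
    | smul c y _ hy => rw [map_smul]; exact Submodule.smul_mem _ _ hy

/-- the conclusion we need: a nil quotient with nonvanishing -/
theorem main_alg [Countable T] [GradedAlgebra 𝒜] (h : Fr T 𝒜 x) (ε : T →ₐ[ℚ] ℚ)
    (hε : ∀ t, (decompose 𝒜 t 0 : T) = algebraMap ℚ T (ε t)) :
    ∃ (R : Type) (_ : Ring R) (_ : Algebra ℚ R) (e : R →ₐ[ℚ] ℚ),
      (∀ r, e r = 0 → IsNilpotent r) ∧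
      ∃ z : R ⊗[ℚ] R, (Algebra.TensorProduct.lift e e (fun _ _ => Commute.all _ _)) z = 0 ∧
        Ideal.span {1 - z} ≠ (⊤ : Ideal (R ⊗[ℚ] R)) := by
  classical
  obtain ⟨ρ, hρ, h0, h1, hnil⟩ := exists_nil h
  let J : Ideal T :=
    { carrier := (⨆ d, I 𝒜 x ρ d : Submodule ℚ T)
      add_mem' := fun ha hb => Submodule.add_mem _ ha hb
      zero_mem' := Submodule.zero_mem _
      smul_mem' := fun c a ha => I_iSup_left h ha c }
  haveI hJ2 : J.IsTwoSided := ⟨fun b ha => I_iSup_right h ha b⟩
  have hJ : ∀ a, a ∈ J ↔ a ∈ ⨆ d, I 𝒜 x ρ d := fun a => Iff.rfl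
  haveI : Nontrivial T := by
    by_contra hcon
    rw [not_nontrivial_iff_subsingleton] at hcon
    have h2 := h.rank 0
    rw [finrank_zero_of_subsingleton] at h2
    omega
  have hinj : Function.Injective (algebraMap ℚ T) := FaithfulSMul.algebraMap_injective ℚ T
  -- ε kills J
  have hεI : ∀ a ∈ J, ε a = 0 := by
    intro a ha
    rw [hJ] at ha
    induction ha using Submodule.iSup_induction' with
    | mem d y hy =>
      apply hinj
      rw [← hε, map_zero]
      rcases Nat.eq_zero_or_pos d with rfl | hd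
      · have : y = 0 := hy
        rw [this]; simp
      · exact decompose_of_mem_ne 𝒜 (I_le h hρ d hy) (by omega)
    | zero => exact map_zero _
    | add y z _ _ hy hz => rw [map_add, hy, hz, add_zero]
  let q : T →ₐ[ℚ] T ⧸ J := Ideal.Quotient.mkₐ ℚ J
  have hq : Function.Surjective q := Ideal.Quotient.mkₐ_surjective ℚ J
  let e : T ⧸ J →ₐ[ℚ] ℚ := Ideal.Quotient.liftₐ J ε hεI
  have heq : ∀ t, e (q t) = ε t := fun t => rfl
  let εA : (T ⧸ J) ⊗[ℚ] (T ⧸ J) →ₐ[ℚ] ℚ :=
    Algebra.TensorProduct.lift e e (fun _ _ => Commute.all _ _)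
  have hεA : ∀ r s, εA (r ⊗ₜ s) = e r * e s := fun r s => Algebra.TensorProduct.lift_tmul _ _ _ _ _
  let z : (T ⧸ J) ⊗[ℚ] (T ⧸ J) :=
    q (x 0) ⊗ₜ q (x 0) + q (x 1) ⊗ₜ q (x 1) + q (x 2) ⊗ₜ q (x 2)
  have hεx : ∀ i, ε (x i) = 0 := by
    intro i
    apply hinj
    rw [← hε, map_zero]
    exact decompose_of_mem_ne 𝒜 (h.gen i) (by omega)
  have hz : εA z = 0 := by
    show εA (_ + _ + _) = 0
    rw [map_add, map_add, hεA, hεA, hεA, heq, heq, heq, hεx, hεx, hεx]
    ring
  -- powers of z
  have hzp : ∀ d, z ^ d = ((L x d).map (fun w => q w ⊗ₜ[ℚ] q w)).sum := by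
    intro d
    induction d with
    | zero => simp [L, Algebra.TensorProduct.one_def]
    | succ d ih =>
      rw [pow_succ, ih]
      show _ * (_ + _ + _) = _
      rw [mul_add, mul_add, ← List.sum_map_mul_right, ← List.sum_map_mul_right,
        ← List.sum_map_mul_right, L, List.map_append, List.map_append, List.sum_append,
        List.sum_append, List.map_map, List.map_map, List.map_map]
      simp only [Function.comp_def, Algebra.TensorProduct.tmul_mul_tmul, map_mul]
  -- functionals
  have hfun : ∀ d, ∃ γ : T →ₗ[ℚ] ℚ, (∀ a ∈ I 𝒜 x ρ d, γ a = 0) ∧ ∃ w ∈ L x d, γ w ≠ 0 := by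
    intro d
    have h2 := I_ne h hρ h0 h1 d
    have h3 : ∃ w ∈ L x d, w ∉ I 𝒜 x ρ d := by
      by_contra hcon
      push Not at hcon
      apply h2
      refine (L_span h d).trans (Submodule.span_le.mpr ?_)
      intro w hw
      exact hcon w hw
    obtain ⟨w, hw, hw2⟩ := h3
    obtain ⟨γ, hγ1, hγ2⟩ := Submodule.exists_le_ker_of_notMem hw2
    exact ⟨γ, fun a ha => hγ2 ha, w, hw, hγ1⟩
  choose γ hγ1 hγ2 using hfun
  -- descend to the quotient
  have hg : ∀ d, ∃ g : (T ⧸ J) →ₗ[ℚ] ℚ, ∀ t, g (q t) = γ d (decompose 𝒜 t d : T) := by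
    intro d
    let G : T →ₗ[ℚ] ℚ := (γ d).comp (GradedAlgebra.proj 𝒜 d)
    have hG : J.restrictScalars ℚ ≤ LinearMap.ker G := by
      intro a ha
      have ha' : a ∈ ⨆ d, I 𝒜 x ρ d := ha
      rw [LinearMap.mem_ker]
      show γ d (decompose 𝒜 a d : T) = 0
      induction ha' using Submodule.iSup_induction' with
      | mem j y hy =>
        by_cases hj : j = d
        · subst hj
          rw [decompose_of_mem_same 𝒜 (I_le h hρ j hy)]
          exact hγ1 j y hy
        · rw [decompose_of_mem_ne 𝒜 (I_le h hρ j hy) hj, map_zero]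
      | zero => simp
      | add y z hy' hz' hy hz =>
        rw [decompose_add]
        show γ d ((decompose 𝒜 y d : T) + (decompose 𝒜 z d : T)) = 0
        rw [map_add, hy hy', hz hz', add_zero]
    refine ⟨((J.restrictScalars ℚ).liftQ G hG).comp
      (Submodule.Quotient.restrictScalarsEquiv ℚ J).symm.toLinearMap, fun t => rfl⟩
  choose g hg using hg
  let F : ℕ → (T ⧸ J) ⊗[ℚ] (T ⧸ J) →ₗ[ℚ] ℚ := fun d =>
    (LinearMap.mul' ℚ ℚ).comp (TensorProduct.map (g d) (g d))
  have hF : ∀ d r s, F d (r ⊗ₜ s) = g d r * g d s := by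
    intro d r s
    show (LinearMap.mul' ℚ ℚ) (TensorProduct.map (g d) (g d) (r ⊗ₜ s)) = _
    rw [TensorProduct.map_tmul, LinearMap.mul'_apply]
  have hFz : ∀ d e, F d (z ^ e) = ((L x e).map (fun w => (g d (q w)) ^ 2)).sum := by
    intro d e
    rw [hzp, map_list_sum, List.map_map]
    congr 1
    apply List.map_congr_left
    intro w _
    show F d (q w ⊗ₜ q w) = _
    rw [hF, pow_two]
  have hFz0 : ∀ d e, e ≠ d → F d (z ^ e) = 0 := by
    intro d e hed
    rw [hFz]
    apply List.sum_eq_zero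
    intro c hc
    obtain ⟨w, hw, rfl⟩ := List.mem_map.mp hc
    rw [hg, decompose_of_mem_ne 𝒜 (L_mem h e w hw) hed, map_zero]
    ring
  have hFzpos : ∀ d, 0 < F d (z ^ d) := by
    intro d
    rw [hFz]
    obtain ⟨w, hw, hw2⟩ := hγ2 d
    have h2 : 0 ≤ ((L x d).map (fun w => (g d (q w)) ^ 2)).sum := by
      apply List.sum_nonneg
      intro c hc
      obtain ⟨w, _, rfl⟩ := List.mem_map.mp hc
      positivity
    have h3 : (g d (q w)) ^ 2 ≤ ((L x d).map (fun w => (g d (q w)) ^ 2)).sum := by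
      apply List.single_le_sum
      · intro c hc
        obtain ⟨w, _, rfl⟩ := List.mem_map.mp hc
        positivity
      · exact List.mem_map.mpr ⟨w, hw, rfl⟩
    have h4 : g d (q w) ≠ 0 := by
      rw [hg, decompose_of_mem_same 𝒜 (L_mem h d w hw)]
      exact hw2
    have h5 : 0 < (g d (q w)) ^ 2 := by positivity
    linarith
  -- eventually zero
  have hev : ∀ y, ∃ D, ∀ d, D ≤ d → F d y = 0 := by
    intro y
    induction y using TensorProduct.induction_on with
    | zero => exact ⟨0, fun d _ => map_zero _⟩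
    | tmul r s =>
      obtain ⟨t, rfl⟩ := hq r
      refine ⟨(decompose 𝒜 t).support.sup id + 1, fun d hd => ?_⟩
      rw [hF, hg]
      have h2 : d ∉ (decompose 𝒜 t).support := by
        intro h3
        have h4 : d ≤ (decompose 𝒜 t).support.sup id := Finset.le_sup (f := id) h3
        omega
      rw [DFinsupp.notMem_support_iff] at h2
      rw [h2]
      simp
    | add y z hy hz =>
      obtain ⟨D, hD⟩ := hy
      obtain ⟨E, hE⟩ := hz
      refine ⟨max D E, fun d hd => ?_⟩
      rw [map_add, hD d (le_trans (le_max_left _ _) hd), hE d (le_trans (le_max_right _ _) hd),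
        add_zero]
  have hmul : ∀ d y, F d (y * z ^ d) = εA y * F d (z ^ d) := by
    intro d y
    induction y using TensorProduct.induction_on with
    | zero => simp
    | tmul r s =>
      obtain ⟨t, rfl⟩ := hq r
      obtain ⟨u, rfl⟩ := hq s
      rw [hFz, hzp, ← List.sum_map_mul_left, map_list_sum, List.map_map, ← List.sum_map_mul_left]
      congr 1
      apply List.map_congr_left
      intro w hw
      show F d (q t ⊗ₜ q u * q w ⊗ₜ q w) = _
      have key : ∀ t : T, g d (q t * q w) = ε t * g d (q w) := by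
        intro t
        have h2 := coe_decompose_mul_add_of_right_mem 𝒜 (a := t) (i := 0) (L_mem h d w hw)
        rw [zero_add, hε] at h2
        rw [← map_mul, hg, hg, h2, decompose_of_mem_same 𝒜 (L_mem h d w hw),
          ← Algebra.smul_def, map_smul, smul_eq_mul]
      rw [Algebra.TensorProduct.tmul_mul_tmul, hF, key, key, hεA, heq, heq]
      ring
    | add y z hy hz => rw [add_mul, map_add, hy, hz, map_add, add_mul]
  refine ⟨T ⧸ J, inferInstance, inferInstance, e, ?_, z, hz, ?_⟩
  · intro r hr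
    obtain ⟨t, rfl⟩ := hq r
    rw [heq] at hr
    obtain ⟨n, hn⟩ := hnil t (by rw [hε, hr, map_zero])
    refine ⟨n, ?_⟩
    rw [← map_pow]
    exact Ideal.Quotient.eq_zero_iff_mem.mpr hn
  · intro htop
    have h2 : (1 : (T ⧸ J) ⊗[ℚ] (T ⧸ J)) ∈ Ideal.span {1 - z} := by rw [htop]; trivial
    obtain ⟨y, hy⟩ := Ideal.mem_span_singleton'.mp h2
    have h3 : ∀ d, y = (∑ k ∈ Finset.range d, z ^ k) + y * z ^ d := by
      intro d
      induction d with
      | zero => simp
      | succ d ih =>
        have h4 : y * z ^ d = z ^ d + y * z ^ (d + 1) := by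
          have h5 : y = 1 + y * z := by
            have h6 : y * (1 - z) = y - y * z := by rw [mul_sub, mul_one]
            rw [h6] at hy
            rw [← hy]; abel
          conv_lhs => rw [h5]
          rw [add_mul, one_mul, mul_assoc, ← pow_succ']
        rw [Finset.sum_range_succ, add_assoc, ← h4]
        exact ih
    obtain ⟨D, hD⟩ := hev y
    have h4 := congrArg (F D) (h3 D)
    rw [hD D le_rfl, map_add, map_sum, hmul] at h4
    have h5 : ∑ k ∈ Finset.range D, F D (z ^ k) = 0 := by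
      apply Finset.sum_eq_zero
      intro k hk
      apply hFz0
      rw [Finset.mem_range] at hk
      omega
    have h6 : εA y = 1 := by
      have h7 := congrArg εA hy
      rw [map_mul, map_sub, map_one, hz, sub_zero, mul_one] at h7
      exact h7
    rw [h5, h6, zero_add, one_mul] at h4
    exact absurd h4 (hFzpos D).ne

end Pool.Agent.H8Gs
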