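import Mathlib
import Pool.Agent.H8.GsRep

set_option autoImplicit false
set_option linter.style.haveILetI false

open Module
open scoped TensorProduct

namespace Pool.Agent.H8Gs

/-- from the algebra to the representation -/
theorem exists_rep (R : Type) [Ring R] [Algebra ℚ R] (e : R →ₐ[ℚ] ℚ)
    (hnil : ∀ r, e r = 0 → IsNilpotent r) (z : R ⊗[ℚ] R)
    (hz : (Algebra.TensorProduct.lift e e (fun _ _ => Commute.all _ _)) z = 0)
    (hne : Ideal.span {1 - z} ≠ (⊤ : Ideal (R ⊗[ℚ] R))) :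
    ∃ (G : Type) (_ : Group G) (V : Type) (_ : AddCommGroup V) (_ : Module ℚ V)
      (ρ : Representation ℚ G V), Nontrivial V ∧
      (∀ W : Submodule ℚ V, (∀ g : G, ∀ v ∈ W, ρ g v ∈ W) → W = ⊥ ∨ W = ⊤) ∧
      (∀ g : G, ∀ v : V, ∃ n : ℕ, ((ρ g - 1) ^ n) v = 0) ∧ ¬ ∀ g : G, ρ g = 1 := by
  obtain ⟨M, hM, hle⟩ := Ideal.exists_le_maximal _ hne
  let A := R ⊗[ℚ] R
  let V := A ⧸ M
  haveI hsimple : IsSimpleModule A V := isSimpleModule_iff_isCoatom.mpr hM.out
  let U : Subgroup Rˣ := (Units.map (e : R →* ℚ)).ker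
  have hU : ∀ u : U, e ((u : Rˣ) : R) = 1 := by
    intro u
    have h1 : Units.map (e : R →* ℚ) u = 1 := u.2
    exact congrArg Units.val h1
  let G := U × U
  let φ : G →* A :=
    { toFun := fun g => ((g.1 : Rˣ) : R) ⊗ₜ[ℚ] ((g.2 : Rˣ) : R)
      map_one' := rfl
      map_mul' := fun g k => by
        rw [Algebra.TensorProduct.tmul_mul_tmul]; rfl }
  let S : A →ₐ[ℚ] Module.End ℚ V := Algebra.lsmul ℚ ℚ V
  have hS : ∀ a v, S a v = a • v := fun a v => rfl
  let ρ : Representation ℚ G V := (S : A →* Module.End ℚ V).comp φ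
  have hρ : ∀ g, ρ g = S (φ g) := fun g => rfl
  -- units from elements of the augmentation ideal
  have hunit : ∀ r : R, e r = 0 → ∃ u : U, ((u : Rˣ) : R) = 1 + r := by
    intro r hr
    obtain ⟨u, hu⟩ := (hnil r hr).isUnit_one_add
    refine ⟨⟨u, ?_⟩, hu⟩
    show Units.map (e : R →* ℚ) u = 1
    apply Units.ext
    show e (u : R) = 1
    rw [hu, map_add, map_one, hr, add_zero]
  refine ⟨G, inferInstance, V, inferInstance, inferInstance, ρ, ?_, ?_, ?_, ?_⟩
  · exact IsSimpleModule.nontrivial A V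
  · intro W hW
    have h1 : ∀ r : R, ∀ v ∈ W, ((r ⊗ₜ[ℚ] (1 : R) : A)) • v ∈ W := by
      intro r v hv
      obtain ⟨u, hu⟩ := hunit (r - algebraMap ℚ R (e r)) (by simp)
      have h2 := hW (u, 1) v hv
      have h3 : ρ (u, 1) v = ((u : Rˣ) : R) ⊗ₜ[ℚ] (1 : R) • v := rfl
      have h4 : (r ⊗ₜ[ℚ] (1 : R) : A) = ((u : Rˣ) : R) ⊗ₜ[ℚ] (1 : R) +
          algebraMap ℚ A (e r - 1) := by
        rw [hu, Algebra.TensorProduct.algebraMap_apply, ← TensorProduct.add_tmul]
        congr 1
        rw [map_sub, map_one]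
        abel
      rw [h4, add_smul, ← h3, algebraMap_smul]
      exact W.add_mem h2 (W.smul_mem _ hv)
    have h2 : ∀ r : R, ∀ v ∈ W, (((1 : R) ⊗ₜ[ℚ] r : A)) • v ∈ W := by
      intro r v hv
      obtain ⟨u, hu⟩ := hunit (r - algebraMap ℚ R (e r)) (by simp)
      have h2 := hW (1, u) v hv
      have h3 : ρ (1, u) v = (1 : R) ⊗ₜ[ℚ] ((u : Rˣ) : R) • v := rfl
      have h4 : ((1 : R) ⊗ₜ[ℚ] r : A) = (1 : R) ⊗ₜ[ℚ] ((u : Rˣ) : R) +
          algebraMap ℚ A (e r - 1) := by
        rw [hu, Algebra.TensorProduct.algebraMap_apply', ← TensorProduct.tmul_add]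
        congr 1
        rw [map_sub, map_one]
        abel
      rw [h4, add_smul, ← h3, algebraMap_smul]
      exact W.add_mem h2 (W.smul_mem _ hv)
    let W' : Submodule A V :=
      { carrier := W
        add_mem' := fun ha hb => W.add_mem ha hb
        zero_mem' := W.zero_mem
        smul_mem' := by
          intro a v hv
          show a • v ∈ W
          induction a using TensorProduct.induction_on with
          | zero => rw [zero_smul]; exact W.zero_mem
          | tmul r s =>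
            have h3 : (r ⊗ₜ[ℚ] s : A) = (r ⊗ₜ[ℚ] (1 : R)) * ((1 : R) ⊗ₜ[ℚ] s) := by
              rw [Algebra.TensorProduct.tmul_mul_tmul, mul_one, one_mul]
            rw [h3, mul_smul]
            exact h1 r _ (h2 s _ hv)
          | add a b ha hb => rw [add_smul]; exact W.add_mem ha hb }
    rcases eq_bot_or_eq_top W' with h3 | h3
    · left
      rw [eq_bot_iff]
      intro v hv
      have : v ∈ W' := hv
      rw [h3] at this
      exact this
    · right
      rw [eq_top_iff]
      intro v _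
      have : v ∈ W' := by rw [h3]; trivial
      exact this
  · intro g v
    have h1 : IsNilpotent (φ g - 1) := by
      have e1 : φ g - 1 = (((g.1 : Rˣ) : R) - 1) ⊗ₜ[ℚ] ((g.2 : Rˣ) : R) +
          (1 : R) ⊗ₜ[ℚ] (((g.2 : Rˣ) : R) - 1) := by
        show ((g.1 : Rˣ) : R) ⊗ₜ[ℚ] ((g.2 : Rˣ) : R) - (1 : R) ⊗ₜ[ℚ] (1 : R) = _
        rw [TensorProduct.sub_tmul, TensorProduct.tmul_sub]
        abel
      rw [e1]
      apply Commute.isNilpotent_add
      · show _ * _ = _ * _
        rw [Algebra.TensorProduct.tmul_mul_tmul, Algebra.TensorProduct.tmul_mul_tmul, mul_one,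
          one_mul]
        congr 1
        rw [mul_sub, sub_mul, mul_one, one_mul]
      · obtain ⟨n, hn⟩ := hnil (((g.1 : Rˣ) : R) - 1) (by rw [map_sub, map_one, hU, sub_self])
        exact ⟨n, by rw [Algebra.TensorProduct.tmul_pow, hn, TensorProduct.zero_tmul]⟩
      · obtain ⟨n, hn⟩ := hnil (((g.2 : Rˣ) : R) - 1) (by rw [map_sub, map_one, hU, sub_self])
        exact ⟨n, by rw [Algebra.TensorProduct.tmul_pow, hn, TensorProduct.tmul_zero]⟩
    obtain ⟨n, hn⟩ := h1
    refine ⟨n, ?_⟩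
    have h2 : ρ g - 1 = S (φ g - 1) := by rw [map_sub, map_one, hρ]
    rw [h2, ← map_pow, hn, map_zero]
    rfl
  · intro htriv
    -- every element acts through the augmentation
    have h1 : ∀ r : R, ∀ v : V, ((r ⊗ₜ[ℚ] (1 : R) : A)) • v = e r • v := by
      intro r v
      obtain ⟨u, hu⟩ := hunit (r - algebraMap ℚ R (e r)) (by simp)
      have h2 := congrArg (fun f => f v) (htriv (u, 1))
      have h3 : ((u : Rˣ) : R) ⊗ₜ[ℚ] (1 : R) • v = v := h2
      have h4 : (r ⊗ₜ[ℚ] (1 : R) : A) = ((u : Rˣ) : R) ⊗ₜ[ℚ] (1 : R) +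
          algebraMap ℚ A (e r - 1) := by
        rw [hu, Algebra.TensorProduct.algebraMap_apply, ← TensorProduct.add_tmul]
        congr 1
        rw [map_sub, map_one]
        abel
      rw [h4, add_smul, h3, algebraMap_smul, sub_smul, one_smul]
      abel
    have h2 : ∀ r : R, ∀ v : V, (((1 : R) ⊗ₜ[ℚ] r : A)) • v = e r • v := by
      intro r v
      obtain ⟨u, hu⟩ := hunit (r - algebraMap ℚ R (e r)) (by simp)
      have h2 := congrArg (fun f => f v) (htriv (1, u))
      have h3 : (1 : R) ⊗ₜ[ℚ] ((u : Rˣ) : R) • v = v := h2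
      have h4 : ((1 : R) ⊗ₜ[ℚ] r : A) = (1 : R) ⊗ₜ[ℚ] ((u : Rˣ) : R) +
          algebraMap ℚ A (e r - 1) := by
        rw [hu, Algebra.TensorProduct.algebraMap_apply', ← TensorProduct.tmul_add]
        congr 1
        rw [map_sub, map_one]
        abel
      rw [h4, add_smul, h3, algebraMap_smul, sub_smul, one_smul]
      abel
    let εA : A →ₐ[ℚ] ℚ := Algebra.TensorProduct.lift e e (fun _ _ => Commute.all _ _)
    have h3 : ∀ a : A, ∀ v : V, a • v = εA a • v := by
      intro a v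
      induction a using TensorProduct.induction_on with
      | zero => rw [zero_smul, map_zero, zero_smul]
      | tmul r s =>
        have h3 : (r ⊗ₜ[ℚ] s : A) = (r ⊗ₜ[ℚ] (1 : R)) * ((1 : R) ⊗ₜ[ℚ] s) := by
          rw [Algebra.TensorProduct.tmul_mul_tmul, mul_one, one_mul]
        have h4 : εA (r ⊗ₜ[ℚ] s) = e r * e s := Algebra.TensorProduct.lift_tmul _ _ _ _ _
        rw [h4, h3, mul_smul, h2, h1, smul_smul]
      | add a b ha hb => rw [add_smul, map_add, add_smul, ha, hb]
    have h4 := h3 z (Submodule.Quotient.mk 1)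
    have h5 : εA z = 0 := hz
    rw [h5, zero_smul] at h4
    have h6 : z • (Submodule.Quotient.mk (1 : A) : V) = Submodule.Quotient.mk z := by
      rw [← Submodule.Quotient.mk_smul, smul_eq_mul, mul_one]
    rw [h6, Submodule.Quotient.mk_eq_zero] at h4
    have h7 : (1 : A) - z ∈ M := hle (Ideal.subset_span rfl)
    have h8 : (1 : A) ∈ M := by
      have := M.add_mem h7 h4
      rwa [sub_add_cancel] at this
    exact hM.ne_top ((Ideal.eq_top_iff_one M).mpr h8)

end Pool.Agent.H8Gs
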