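import Mathlib
import Pool.Agent.H8.GsMod

set_option autoImplicit false
set_option linter.style.haveILetI false

open Module DirectSum AddMonoidAlgebra

namespace Pool.Agent.H8Gs

noncomputable section

/-- the free algebra on three generators -/
abbrev TT : Type := AddMonoidAlgebra ℚ (FreeAddMonoid (Fin 3))

/-- degree -/
def dg : FreeAddMonoid (Fin 3) →+ ℕ := FreeAddMonoid.lift (fun _ => 1)

lemma dg_of (i : Fin 3) : dg (FreeAddMonoid.of i) = 1 := FreeAddMonoid.lift_eval_of _ _

lemma dg_list (l : List (Fin 3)) : dg (FreeAddMonoid.ofList l) = l.length := by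
  induction l with
  | nil => exact map_zero dg
  | cons i l ih =>
    rw [FreeAddMonoid.ofList_cons, map_add, dg_of, ih, List.length_cons, add_comm]

lemma dg_length (m : FreeAddMonoid (Fin 3)) : dg m = (FreeAddMonoid.toList m).length := by
  rw [← dg_list, FreeAddMonoid.ofList_toList]

/-- generators -/
def xx (i : Fin 3) : TT := single (FreeAddMonoid.of i) 1

lemma mem_iff (d : ℕ) (a : TT) : a ∈ gradeBy ℚ dg d ↔ ∀ m ∈ a.coeff.support, dg m = d := Iff.rfl

lemma eq_sum (a : TT) : a = ∑ m ∈ a.coeff.support, single m (a.coeff m) := by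
  apply AddMonoidAlgebra.ext
  rw [AddMonoidAlgebra.coeff_sum]
  exact (Finsupp.sum_single a.coeff).symm

/-- the graded piece as functions on words -/
def pieceEquiv (d : ℕ) : gradeBy ℚ dg d ≃ₗ[ℚ] Finsupp.supported ℚ ℚ {m | dg m = d} where
  toFun a := ⟨a.1.coeff, fun m hm => a.2 m hm⟩
  invFun f := ⟨AddMonoidAlgebra.ofCoeff f.1, fun m hm => f.2 hm⟩
  left_inv a := rfl
  right_inv f := rfl
  map_add' a b := rfl
  map_smul' c a := rfl

lemma card_words (d : ℕ) : Finite {m : FreeAddMonoid (Fin 3) // dg m = d} ∧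
    Nat.card {m : FreeAddMonoid (Fin 3) // dg m = d} = 3 ^ d := by
  let e : {m : FreeAddMonoid (Fin 3) // dg m = d} ≃ List.Vector (Fin 3) d :=
    { toFun := fun m => ⟨FreeAddMonoid.toList m.1, by rw [← dg_length]; exact m.2⟩
      invFun := fun l => ⟨FreeAddMonoid.ofList l.1, by rw [dg_list]; exact l.2⟩
      left_inv := fun m => rfl
      right_inv := fun l => rfl }
  refine ⟨Finite.of_equiv _ e.symm, ?_⟩
  rw [Nat.card_congr e, Nat.card_eq_fintype_card, card_vector, Fintype.card_fin]

theorem fr : Fr TT (gradeBy ℚ dg) xx where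
  one := SetLike.GradedOne.one_mem
  zero_le := by
    intro a ha
    rw [eq_sum a]
    apply Submodule.sum_mem
    intro m hm
    have h1 : dg m = 0 := ha m hm
    rw [dg_length] at h1
    have h2 : m = 0 := List.length_eq_zero_iff.mp h1
    rw [h2]
    have h3 : (single 0 (a.coeff 0) : TT) = (a.coeff 0) • (1 : TT) := by
      rw [AddMonoidAlgebra.one_def, smul_single, smul_eq_mul, mul_one]
    rw [h3]
    exact Submodule.smul_mem _ _ (Submodule.mem_span_singleton_self _)
  mul := fun i j a b ha hb => SetLike.mul_mem_graded ha hb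
  gen := fun i => by
    have := single_mem_gradeBy (R := ℚ) (⇑dg) (FreeAddMonoid.of i) 1
    rwa [dg_of] at this
  succ := by
    intro d a ha
    rw [eq_sum a]
    apply Submodule.sum_mem
    intro m hm
    have h1 : dg m = d + 1 := ha m hm
    rcases List.eq_nil_or_concat' (FreeAddMonoid.toList m) with h2 | ⟨l, i, h2⟩
    · rw [dg_length, h2] at h1
      simp at h1
    · have h3 : m = FreeAddMonoid.ofList l + FreeAddMonoid.of i := by
        have : m = FreeAddMonoid.ofList (l ++ [i]) := by rw [← h2, FreeAddMonoid.ofList_toList]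
        rw [this, FreeAddMonoid.ofList_append]; rfl
      have h4 : (single m (a.coeff m) : TT) =
          single (FreeAddMonoid.ofList l) (a.coeff m) * xx i := by
        rw [xx, single_mul_single, mul_one, ← h3]
      rw [h4]
      apply le_iSup (fun i => (gradeBy ℚ dg d).map (LinearMap.mulRight ℚ (xx i))) i
      refine ⟨single (FreeAddMonoid.ofList l) (a.coeff m), ?_, rfl⟩
      have h5 := single_mem_gradeBy (R := ℚ) (⇑dg) (FreeAddMonoid.ofList l) (a.coeff m)
      have h6 : dg (FreeAddMonoid.ofList l) = d := by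
        rw [h3, map_add, dg_of] at h1
        omega
      rwa [h6] at h5
  fin := by
    intro d
    haveI : Finite ↑{m : FreeAddMonoid (Fin 3) | dg m = d} := (card_words d).1
    exact Module.Finite.equiv ((Finsupp.supportedEquivFinsupp (M := ℚ) (R := ℚ)
      {m : FreeAddMonoid (Fin 3) | dg m = d}).symm.trans (pieceEquiv d).symm)
  rank := by
    intro d
    haveI := (card_words d).1
    haveI := Fintype.ofFinite {m : FreeAddMonoid (Fin 3) // dg m = d}
    rw [((pieceEquiv d).trans (Finsupp.supportedEquivFinsupp (M := ℚ) (R := ℚ)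
      {m : FreeAddMonoid (Fin 3) | dg m = d})).finrank_eq]
    have h1 := Module.finrank_finsupp_self ℚ (ι := {m : FreeAddMonoid (Fin 3) // dg m = d})
    rw [← Nat.card_eq_fintype_card, (card_words d).2] at h1
    exact h1

/-- the augmentation -/
def eps : TT →ₐ[ℚ] ℚ := AddMonoidAlgebra.lift ℚ ℚ (FreeAddMonoid (Fin 3))
  { toFun := fun m => if dg m.toAdd = 0 then 1 else 0
    map_one' := by simp
    map_mul' := by
      intro a b
      rw [toAdd_mul, map_add]
      by_cases h1 : dg a.toAdd = 0 <;> by_cases h2 : dg b.toAdd = 0 <;> simp [h1, h2] }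

lemma eps_single (m : FreeAddMonoid (Fin 3)) (c : ℚ) :
    eps (single m c) = if dg m = 0 then c else 0 := by
  rw [eps, lift_single]
  show c • (if dg m = 0 then (1 : ℚ) else 0) = _
  by_cases h : dg m = 0 <;> simp [h]

lemma eps_spec (t : TT) : (decompose (gradeBy ℚ dg) t 0 : TT) = algebraMap ℚ TT (eps t) := by
  rw [eq_sum t]
  apply Finset.sum_induction _
    (fun t : TT => (decompose (gradeBy ℚ dg) t 0 : TT) = algebraMap ℚ TT (eps t))
  · intro a b ha hb
    rw [decompose_add, map_add, map_add, ← ha, ← hb]; rfl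
  · rw [decompose_zero, map_zero, map_zero]; rfl
  · intro m _
    rw [eps_single]
    by_cases h : dg m = 0
    · rw [if_pos h]
      have h2 := single_mem_gradeBy (R := ℚ) (⇑dg) m (t.coeff m)
      rw [h] at h2
      rw [decompose_of_mem_same _ h2]
      rw [dg_length] at h
      have h3 : m = 0 := List.length_eq_zero_iff.mp h
      rw [h3]; rfl
    · rw [if_neg h, map_zero]
      exact decompose_of_mem_ne _ (single_mem_gradeBy (R := ℚ) (⇑dg) m (t.coeff m)) h

instance : Countable TT := (AddMonoidAlgebra.coeffEquiv (R := ℚ) (M := FreeAddMonoid (Fin 3))).injective.countable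

theorem final : ∃ (G : Type) (_ : Group G) (V : Type) (_ : AddCommGroup V) (_ : Module ℚ V)
      (ρ : Representation ℚ G V), Nontrivial V ∧
      (∀ W : Submodule ℚ V, (∀ g : G, ∀ v ∈ W, ρ g v ∈ W) → W = ⊥ ∨ W = ⊤) ∧
      (∀ g : G, ∀ v : V, ∃ n : ℕ, ((ρ g - 1) ^ n) v = 0) ∧ ¬ ∀ g : G, ρ g = 1 := by
  obtain ⟨R, _, _, e, h1, z, h2, h3⟩ := main_alg fr eps eps_spec
  exact exists_rep R e h1 z h2 h3

end

end Pool.Agent.H8Gs
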