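import Mathlib

set_option autoImplicit false

universe u

open Ordinal Cardinal Order

namespace Pool.Agent.H8Hom

/-- `x` is `β`-coded at `l`: zeros are cofinal below `l`, and eventually each zero is followed
by exactly `β + 2` ones and then by a zero. -/
def Coded (β : Ordinal.{u}) (x : Ordinal.{u} → Bool) (l : Ordinal.{u}) : Prop :=
  (∀ ξ < l, ∃ ζ, ξ ≤ ζ ∧ ζ < l ∧ x ζ = false) ∧
  ∃ ξ₀ < l, ∀ ξ, ξ₀ ≤ ξ → ξ < l → x ξ = false →
    ξ + 1 + (β + 2) < l ∧ x (ξ + 1 + (β + 2)) = false ∧ ∀ η < β + 2, x (ξ + 1 + η) = true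

def Bad (C : Set (Ordinal.{u} × Ordinal.{u})) (x : Ordinal.{u} → Bool) (l : Ordinal.{u}) : Prop :=
  ∃ p ∈ C, l.cof = ℵ_ p.1 ∧ Coded p.2 x l ∧ ∀ ξ < ω_ p.2, x (l + ξ) = false

/-- concatenation -/
noncomputable def cat (v : Ordinal.{u} → Bool) (ρ : Ordinal.{u}) (y : Ordinal.{u} → Bool) :
    Ordinal.{u} → Bool := fun ξ => if ξ < ρ then v ξ else y (ξ - ρ)

def tail (x : Ordinal.{u} → Bool) (ρ : Ordinal.{u}) : Ordinal.{u} → Bool := fun η => x (ρ + η)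

lemma cat_of_lt (v : Ordinal.{u} → Bool) {ρ ξ : Ordinal.{u}} (y : Ordinal.{u} → Bool)
    (h : ξ < ρ) : cat v ρ y ξ = v ξ := by
  unfold cat; rw [if_pos h]

lemma cat_add (v : Ordinal.{u} → Bool) (ρ η : Ordinal.{u}) (y : Ordinal.{u} → Bool) :
    cat v ρ y (ρ + η) = y η := by
  unfold cat
  rw [if_neg (not_lt.mpr le_self_add), Ordinal.add_sub_cancel]

lemma cat_of_le (v : Ordinal.{u} → Bool) {ρ ξ : Ordinal.{u}} (y : Ordinal.{u} → Bool)
    (h : ρ ≤ ξ) : cat v ρ y ξ = y (ξ - ρ) := by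
  unfold cat; rw [if_neg (not_lt.mpr h)]

lemma tail_cat (v : Ordinal.{u} → Bool) (ρ : Ordinal.{u}) (y : Ordinal.{u} → Bool) :
    tail (cat v ρ y) ρ = y := by
  ext η
  unfold tail
  rw [cat_add]

lemma cat_tail (v x : Ordinal.{u} → Bool) (ρ : Ordinal.{u}) (h : ∀ ξ < ρ, x ξ = v ξ) :
    cat v ρ (tail x ρ) = x := by
  ext ξ
  rcases lt_or_ge ξ ρ with h1 | h1
  · rw [cat_of_lt _ _ h1, h ξ h1]
  · rw [cat_of_le _ _ h1]
    unfold tail
    rw [Ordinal.add_sub_cancel_of_le h1]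

lemma coded_congr {β l : Ordinal.{u}} {x y : Ordinal.{u} → Bool} (h : ∀ ξ < l, x ξ = y ξ)
    (hx : Coded β x l) : Coded β y l := by
  obtain ⟨h1, ξ₀, h2, h3⟩ := hx
  refine ⟨?_, ξ₀, h2, ?_⟩
  · intro ξ hξ
    obtain ⟨ζ, h4, h5, h6⟩ := h1 ξ hξ
    exact ⟨ζ, h4, h5, by rw [← h ζ h5]; exact h6⟩
  · intro ξ hξ0 hξ hy
    rw [← h ξ hξ] at hy
    obtain ⟨h4, h5, h6⟩ := h3 ξ hξ0 hξ hy
    refine ⟨h4, by rw [← h _ h4]; exact h5, ?_⟩
    intro η hη
    rw [← h _ (lt_trans (by gcongr) h4)]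
    exact h6 η hη

lemma coded_tail {β ρ l : Ordinal.{u}} {x : Ordinal.{u} → Bool} (hl : 0 < l) :
    Coded β x (ρ + l) ↔ Coded β (tail x ρ) l := by
  constructor
  · rintro ⟨h1, ξ₀, h2, h3⟩
    refine ⟨?_, ξ₀ - ρ, Ordinal.sub_lt_of_lt_add h2 hl, ?_⟩
    · intro ξ hξ
      obtain ⟨ζ, h4, h5, h6⟩ := h1 (ρ + ξ) (by gcongr)
      have h7 : ρ ≤ ζ := le_trans le_self_add h4
      refine ⟨ζ - ρ, ?_, ?_, ?_⟩
      · rw [Ordinal.le_sub_of_le h7]; exact h4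
      · rw [Ordinal.sub_lt_of_le h7]; exact h5
      · unfold tail
        rw [Ordinal.add_sub_cancel_of_le h7]; exact h6
    · intro ξ hξ0 hξ hx
      rw [Ordinal.sub_le] at hξ0
      obtain ⟨h4, h5, h6⟩ := h3 (ρ + ξ) hξ0 (by gcongr) hx
      refine ⟨?_, ?_, ?_⟩
      · have : ρ + (ξ + 1 + (β + 2)) < ρ + l := by
          simpa only [add_assoc] using h4
        exact (add_lt_add_iff_left ρ).mp this
      · unfold tail
        have : ρ + (ξ + 1 + (β + 2)) = ρ + ξ + 1 + (β + 2) := by simp only [add_assoc]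
        rw [this]; exact h5
      · intro η hη
        unfold tail
        have : ρ + (ξ + 1 + η) = ρ + ξ + 1 + η := by simp only [add_assoc]
        rw [this]; exact h6 η hη
  · rintro ⟨h1, ξ₀, h2, h3⟩
    refine ⟨?_, ρ + ξ₀, by gcongr, ?_⟩
    · intro ξ hξ
      obtain ⟨ζ, h4, h5, h6⟩ := h1 (ξ - ρ) (Ordinal.sub_lt_of_lt_add hξ hl)
      exact ⟨ρ + ζ, Ordinal.sub_le.mp h4, by gcongr, h6⟩
    · intro ξ hξ0 hξ hx
      have h7 : ρ ≤ ξ := le_trans le_self_add hξ0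
      obtain ⟨ξ', rfl⟩ : ∃ ξ', ξ = ρ + ξ' := ⟨ξ - ρ, (Ordinal.add_sub_cancel_of_le h7).symm⟩
      have h8 : ξ₀ ≤ ξ' := (add_le_add_iff_left ρ).mp hξ0
      have h9 : ξ' < l := (add_lt_add_iff_left ρ).mp hξ
      obtain ⟨h4, h5, h6⟩ := h3 ξ' h8 h9 hx
      refine ⟨?_, ?_, ?_⟩
      · have : ρ + (ξ' + 1 + (β + 2)) < ρ + l := by gcongr
        simpa only [add_assoc] using this
      · unfold tail at h5
        have : ρ + (ξ' + 1 + (β + 2)) = ρ + ξ' + 1 + (β + 2) := by simp only [add_assoc]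
        rw [this] at h5; exact h5
      · intro η hη
        have := h6 η hη
        unfold tail at this
        have e : ρ + (ξ' + 1 + η) = ρ + ξ' + 1 + η := by simp only [add_assoc]
        rw [e] at this; exact this

lemma coded_unique {β β' l : Ordinal.{u}} {x : Ordinal.{u} → Bool} (h : Coded β x l)
    (h' : Coded β' x l) : β = β' := by
  have key : ∀ β β' : Ordinal.{u}, Coded β x l → Coded β' x l → ¬ β < β' := by
    rintro β β' ⟨h1, ξ₀, h2, h3⟩ ⟨h1', ξ₀', h2', h3'⟩ hlt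
    obtain ⟨ζ, h4, h5, h6⟩ := h1 (max ξ₀ ξ₀') (max_lt h2 h2')
    obtain ⟨-, h7, -⟩ := h3 ζ ((le_max_left _ _).trans h4) h5 h6
    obtain ⟨-, -, h8⟩ := h3' ζ ((le_max_right _ _).trans h4) h5 h6
    have h9 := h8 (β + 2) (by
      have : β + 1 ≤ β' := Order.add_one_le_of_lt hlt
      calc β + 2 = β + 1 + 1 := by rw [add_assoc, one_add_one_eq_two]
        _ ≤ β' + 1 := by gcongr
        _ < β' + 1 + 1 := lt_add_one _
        _ = β' + 2 := by rw [add_assoc, one_add_one_eq_two])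
    rw [h7] at h9
    exact absurd h9 (by simp)
  rcases lt_trichotomy β β' with hlt | heq | hgt
  · exact absurd hlt (key _ _ h h')
  · exact heq
  · exact absurd hgt (key _ _ h' h)

/-- not coded if alternating -/
lemma not_coded_of_alt {β l ξ₀ : Ordinal.{u}} {x : Ordinal.{u} → Bool} (h0 : ξ₀ < l)
    (h : ∀ ξ, ξ₀ ≤ ξ → ξ < l → x (ξ + 1) = !x ξ) : ¬ Coded β x l := by
  rintro ⟨h1, ξ₁, h2, h3⟩
  obtain ⟨ζ, h4, h5, h6⟩ := h1 (max ξ₀ ξ₁) (max_lt h0 h2)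
  obtain ⟨h7, h8, h9⟩ := h3 ζ ((le_max_right _ _).trans h4) h5 h6
  have h10 := h9 0 (lt_of_lt_of_le two_pos le_add_self)
  have h11 := h9 1 (by
    calc (1 : Ordinal.{u}) < 1 + 1 := lt_add_one 1
      _ = 2 := one_add_one_eq_two
      _ ≤ β + 2 := le_add_self)
  rw [add_zero] at h10
  have hlt : ζ + 1 < l := lt_of_le_of_lt le_self_add h7
  have h12 := h (ζ + 1) ((le_max_left _ _).trans (h4.trans le_self_add)) hlt
  rw [h10] at h12
  rw [h11] at h12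
  exact absurd h12 (by simp)

/-- not coded if eventually zero -/
lemma not_coded_of_zero {β l ξ₀ : Ordinal.{u}} {x : Ordinal.{u} → Bool} (h0 : ξ₀ < l)
    (h : ∀ ξ, ξ₀ ≤ ξ → ξ < l → x ξ = false) : ¬ Coded β x l := by
  rintro ⟨h1, ξ₁, h2, h3⟩
  obtain ⟨ζ, h4, h5, h6⟩ := h1 (max ξ₀ ξ₁) (max_lt h0 h2)
  obtain ⟨h7, h8, h9⟩ := h3 ζ ((le_max_right _ _).trans h4) h5 h6
  have h10 := h9 0 (lt_of_lt_of_le two_pos le_add_self)
  rw [add_zero] at h10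
  have hlt : ζ + 1 < l := lt_of_le_of_lt le_self_add h7
  rw [h (ζ + 1) ((le_max_left _ _).trans (h4.trans le_self_add)) hlt] at h10
  exact absurd h10 (by simp)

/-- not coded if eventually one -/
lemma not_coded_of_one {β l ξ₀ : Ordinal.{u}} {x : Ordinal.{u} → Bool} (h0 : ξ₀ < l)
    (h : ∀ ξ, ξ₀ ≤ ξ → ξ < l → x ξ = true) : ¬ Coded β x l := by
  rintro ⟨h1, -⟩
  obtain ⟨ζ, h4, h5, h6⟩ := h1 ξ₀ h0
  rw [h ζ h4 h5] at h6
  exact absurd h6 (by simp)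

lemma cof_ne_zero_of_aleph {l α : Ordinal.{u}} (h : l.cof = ℵ_ α) : 0 < l := by
  rw [pos_iff_ne_zero]
  rintro rfl
  rw [cof_zero] at h
  exact (aleph_pos α).ne h

lemma isSuccLimit_of_aleph {l α : Ordinal.{u}} (h : l.cof = ℵ_ α) : IsSuccLimit l := by
  rw [← aleph0_le_cof, h]
  exact aleph0_le_aleph α

lemma bad_tail {C : Set (Ordinal.{u} × Ordinal.{u})} {x : Ordinal.{u} → Bool}
    {ρ l : Ordinal.{u}} (hl : 0 < l) : Bad C x (ρ + l) ↔ Bad C (tail x ρ) l := by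
  unfold Bad
  constructor
  · rintro ⟨p, hp, h1, h2, h3⟩
    refine ⟨p, hp, ?_, (coded_tail hl).mp h2, ?_⟩
    · rw [cof_add _ hl.ne'] at h1; exact h1
    · intro ξ hξ
      have := h3 ξ hξ
      unfold tail
      rw [← add_assoc]; exact this
  · rintro ⟨p, hp, h1, h2, h3⟩
    refine ⟨p, hp, ?_, (coded_tail hl).mpr h2, ?_⟩
    · rw [cof_add _ hl.ne']; exact h1
    · intro ξ hξ
      have := h3 ξ hξ
      unfold tail at this
      rw [← add_assoc] at this; exact this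

end Pool.Agent.H8Hom
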