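import Mathlib
import Pool.Agent.H8.HomSeq

set_option autoImplicit false

universe u

open Ordinal Cardinal Order

namespace Pool.Agent.H8Hom

structure Par (c : Cardinal.{u}) (C : Set (Ordinal.{u} × Ordinal.{u})) : Prop where
  reg : c.IsRegular
  small : ∀ p ∈ C, ℵ_ p.2 < c
  reg2 : ∀ p ∈ C, (ℵ_ p.2).IsRegular
  small1 : ∀ p ∈ C, ℵ_ p.1 < c
  reg1 : ∀ p ∈ C, (ℵ_ p.1).IsRegular

variable {c : Cardinal.{u}} {C : Set (Ordinal.{u} × Ordinal.{u})}

lemma Par.add_lt (P : Par c C) {a b : Ordinal.{u}} (ha : a < c.ord) (hb : b < c.ord) :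
    a + b < c.ord := isPrincipal_add_ord P.reg.1 ha hb

lemma Par.pos (P : Par c C) : 0 < c.ord := by
  rw [← ord_zero, ord_lt_ord]
  exact lt_of_lt_of_le aleph0_pos P.reg.1

lemma Par.one_lt (P : Par c C) : 1 < c.ord := by
  rw [← ord_one, ord_lt_ord]
  exact lt_of_lt_of_le one_lt_aleph0 P.reg.1

lemma Par.succ_lt (P : Par c C) {a : Ordinal.{u}} (ha : a < c.ord) : a + 1 < c.ord :=
  P.add_lt ha P.one_lt

lemma Par.two_lt (P : Par c C) : 2 < c.ord := by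
  rw [← one_add_one_eq_two]; exact P.add_lt P.one_lt P.one_lt

lemma Par.omega_lt (P : Par c C) {p : Ordinal.{u} × Ordinal.{u}} (hp : p ∈ C) :
    ω_ p.2 < c.ord := by
  rw [← ord_aleph, ord_lt_ord]
  exact P.small p hp

structure Mem (c : Cardinal.{u}) (C : Set (Ordinal.{u} × Ordinal.{u}))
    (x : Ordinal.{u} → Bool) : Prop where
  supp : ∀ ξ, c.ord ≤ ξ → x ξ = false
  alt : ∃ ξ₀ < c.ord, ∀ ξ, ξ₀ ≤ ξ → ξ < c.ord → x (ξ + 1) = !x ξ
  nbad : ∀ l < c.ord, ¬ Bad C x l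

def Safe (C : Set (Ordinal.{u} × Ordinal.{u})) (v : Ordinal.{u} → Bool) (ρ : Ordinal.{u}) :
    Prop :=
  ∀ l < ρ, ∀ p ∈ C, l.cof = ℵ_ p.1 → Coded p.2 v l → ∃ ξ < ω_ p.2, l + ξ < ρ ∧ v (l + ξ) = true

def NC (C : Set (Ordinal.{u} × Ordinal.{u})) (v : Ordinal.{u} → Bool) (ρ : Ordinal.{u}) :
    Prop :=
  ∀ p ∈ C, ρ.cof = ℵ_ p.1 → ¬ Coded p.2 v ρ

lemma mem_cat'' (P : Par c C) {v y : Ordinal.{u} → Bool} {ρ : Ordinal.{u}} (hρ : ρ < c.ord)
    (hy : Mem c C y)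
    (hb : ∀ l ≤ ρ, ∀ p ∈ C, l.cof = ℵ_ p.1 → Coded p.2 v l →
      ∃ ξ < ω_ p.2, cat v ρ y (l + ξ) = true) :
    Mem c C (cat v ρ y) := by
  refine ⟨?_, ?_, ?_⟩
  · intro ξ hξ
    have h1 : ρ ≤ ξ := hρ.le.trans hξ
    rw [cat_of_le _ _ h1]
    apply hy.supp
    by_contra hcon
    push Not at hcon
    have := P.add_lt hρ hcon
    rw [Ordinal.add_sub_cancel_of_le h1] at this
    exact absurd hξ (not_le.mpr this)
  · obtain ⟨ξ₀, h1, h2⟩ := hy.alt
    refine ⟨ρ + ξ₀, P.add_lt hρ h1, ?_⟩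
    intro ξ h3 h4
    obtain ⟨ξ', rfl⟩ : ∃ ξ', ξ = ρ + ξ' :=
      ⟨ξ - ρ, (Ordinal.add_sub_cancel_of_le (le_trans le_self_add h3)).symm⟩
    rw [add_assoc, cat_add, cat_add]
    exact h2 ξ' ((add_le_add_iff_left ρ).mp h3) (lt_of_le_of_lt le_add_self h4)
  · rintro l hl ⟨p, hp, h1, h2, h3⟩
    rcases le_or_gt l ρ with h | h
    · obtain ⟨ξ, h4, h5⟩ := hb l h p hp h1
        (coded_congr (fun η hη => cat_of_lt _ _ (lt_of_lt_of_le hη h)) h2)
      rw [h3 ξ h4] at h5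
      exact absurd h5 (by simp)
    · obtain ⟨l', rfl⟩ : ∃ l', l = ρ + l' := ⟨l - ρ, (Ordinal.add_sub_cancel_of_le h.le).symm⟩
      have hl' : 0 < l' := by
        rw [pos_iff_ne_zero]
        rintro rfl
        simp at h
      have hbad : Bad C (cat v ρ y) (ρ + l') := ⟨p, hp, h1, h2, h3⟩
      rw [bad_tail hl', tail_cat] at hbad
      exact hy.nbad l' (lt_of_le_of_lt le_add_self hl) hbad

lemma mem_cat (P : Par c C) {v y : Ordinal.{u} → Bool} {ρ : Ordinal.{u}} (hρ : ρ < c.ord)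
    (hs : Safe C v ρ) (hy : Mem c C y)
    (hb : ∀ p ∈ C, ρ.cof = ℵ_ p.1 → Coded p.2 v ρ → ∃ ξ < ω_ p.2, y ξ = true) :
    Mem c C (cat v ρ y) := by
  apply mem_cat'' P hρ hy
  intro l hl p hp h1 h2
  rcases hl.lt_or_eq with h | h
  · obtain ⟨ξ, h4, h5, h6⟩ := hs l h p hp h1 h2
    exact ⟨ξ, h4, by rw [cat_of_lt _ _ h5, h6]⟩
  · subst h
    obtain ⟨ξ, h4, h5⟩ := hb p hp h1 h2
    exact ⟨ξ, h4, by rw [cat_add, h5]⟩

lemma mem_cat_of_clean (P : Par c C) {v y : Ordinal.{u} → Bool} {ρ : Ordinal.{u}}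
    (hρ : ρ < c.ord) (hs : Safe C v ρ) (hn : NC C v ρ) (hy : Mem c C y) :
    Mem c C (cat v ρ y) :=
  mem_cat P hρ hs hy (fun p hp h1 h2 => absurd h2 (hn p hp h1))

lemma mem_tail (P : Par c C) {x : Ordinal.{u} → Bool} (hx : Mem c C x) {ρ : Ordinal.{u}}
    (hρ : ρ < c.ord) : Mem c C (tail x ρ) := by
  refine ⟨?_, ?_, ?_⟩
  · intro ξ hξ
    exact hx.supp _ (hξ.trans le_add_self)
  · obtain ⟨ξ₀, h1, h2⟩ := hx.alt
    refine ⟨ξ₀, h1, ?_⟩
    intro ξ h3 h4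
    unfold tail
    rw [← add_assoc]
    exact h2 _ (h3.trans le_add_self) (P.add_lt hρ h4)
  · intro l hl hb
    have hl0 : 0 < l := by
      obtain ⟨p, -, h1, -⟩ := hb
      exact cof_ne_zero_of_aleph h1
    exact hx.nbad _ (P.add_lt hρ hl) ((bad_tail hl0).mpr hb)

lemma cof_succ_ne (ρ α : Ordinal.{u}) : (ρ + 1).cof ≠ ℵ_ α := by
  rw [cof_add_one]
  exact (one_lt_aleph0.trans_le (aleph0_le_aleph α)).ne

lemma nc_succ (v : Ordinal.{u} → Bool) (ρ : Ordinal.{u}) : NC C v (ρ + 1) :=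
  fun _ _ h => absurd h (cof_succ_ne _ _)

lemma nbad_exists {x : Ordinal.{u} → Bool} (hx : Mem c C x) {l : Ordinal.{u}} (hl : l < c.ord)
    {p : Ordinal.{u} × Ordinal.{u}} (hp : p ∈ C) (h1 : l.cof = ℵ_ p.1) (h2 : Coded p.2 x l) :
    ∃ η < ω_ p.2, x (l + η) = true := by
  by_contra hcon
  push Not at hcon
  apply hx.nbad l hl
  refine ⟨p, hp, h1, h2, ?_⟩
  intro ξ hξ
  have := hcon ξ hξ
  simpa using this

/-- a node ending with a one is clean -/
lemma safe_one {x v : Ordinal.{u} → Bool} (hx : Mem c C x) {ξ : Ordinal.{u}}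
    (hξ : ξ < c.ord) (hv : ∀ η < ξ, v η = x η) (hv1 : v ξ = true) : Safe C v (ξ + 1) := by
  intro l hl p hp h1 h2
  rw [lt_add_one_iff] at hl
  obtain ⟨η, h3, h4⟩ := nbad_exists hx (lt_of_le_of_lt hl hξ) hp h1
    (coded_congr (fun ζ hζ => hv ζ (lt_of_lt_of_le hζ hl)) h2)
  rcases lt_or_ge (l + η) ξ with h5 | h5
  · exact ⟨η, h3, lt_of_lt_of_le h5 le_self_add, by rw [hv _ h5]; exact h4⟩
  · refine ⟨ξ - l, ?_, ?_, ?_⟩
    · exact lt_of_le_of_lt (Ordinal.sub_le.mpr h5) h3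
    · rw [Ordinal.add_sub_cancel_of_le hl]; exact lt_add_one ξ
    · rw [Ordinal.add_sub_cancel_of_le hl]; exact hv1

/-- a node in the alternating zone is clean -/
lemma safe_zero {b v : Ordinal.{u} → Bool} (P : Par c C) (hb : Mem c C b) {ξ ξ₀ : Ordinal.{u}}
    (hξ : ξ < c.ord) (hv : ∀ η < ξ, v η = b η)
    (halt : ∀ ζ, ξ₀ ≤ ζ → ζ < c.ord → b (ζ + 1) = !b ζ) (hlt : ξ₀ + 1 < ξ) :
    Safe C v (ξ + 1) := by
  intro l hl p hp h1 h2
  rw [lt_add_one_iff] at hl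
  have h2' : Coded p.2 b l := coded_congr (fun ζ hζ => hv ζ (lt_of_lt_of_le hζ hl)) h2
  have hl0 : l ≤ ξ₀ := by
    by_contra hcon
    push Not at hcon
    exact not_coded_of_alt hcon
      (fun ζ hζ1 hζ2 => halt ζ hζ1 (lt_of_lt_of_le hζ2 (hl.trans hξ.le))) h2'
  obtain ⟨η, h3, h4⟩ := nbad_exists hb (lt_of_le_of_lt hl hξ) hp h1 h2'
  obtain ⟨ζ, hζ0, hζ1, hζ2⟩ : ∃ ζ, ξ₀ ≤ ζ ∧ ζ < ξ ∧ b ζ = true := by
    have h5 := halt ξ₀ le_rfl (lt_of_le_of_lt le_self_add (hlt.trans hξ))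
    cases h6 : b ξ₀ with
    | true => exact ⟨ξ₀, le_rfl, lt_of_le_of_lt le_self_add hlt, h6⟩
    | false =>
      rw [h6] at h5
      exact ⟨ξ₀ + 1, le_self_add, hlt, by simpa using h5⟩
  have hlζ : l ≤ ζ := hl0.trans hζ0
  rcases le_or_gt (l + η) ζ with h7 | h7
  · have h8 : l + η < ξ := lt_of_le_of_lt h7 hζ1
    exact ⟨η, h3, lt_of_lt_of_le h8 le_self_add, by rw [hv _ h8]; exact h4⟩
  · refine ⟨ζ - l, ?_, ?_, ?_⟩
    · exact lt_of_le_of_lt (Ordinal.sub_le.mpr h7.le) h3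
    · rw [Ordinal.add_sub_cancel_of_le hlζ]; exact lt_of_lt_of_le hζ1 le_self_add
    · rw [Ordinal.add_sub_cancel_of_le hlζ, hv _ hζ1]; exact hζ2

/-! ### basic sequences -/

noncomputable def par (ξ : Ordinal.{u}) : Bool := by
  classical exact decide (ξ % 2 = 0)

lemma par_zero : par (0 : Ordinal.{u}) = true := by
  unfold par; simp

lemma par_succ (ξ : Ordinal.{u}) : par (ξ + 1) = !par ξ := by
  have h := div_add_mod ξ 2
  have h2 : ξ % 2 < 1 + 1 := by rw [one_add_one_eq_two]; exact mod_lt ξ two_ne_zero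
  have h3 : ξ % 2 = 0 ∨ ξ % 2 = 1 := by
    rw [lt_add_one_iff] at h2
    rcases h2.lt_or_eq with h4 | h4
    · left; exact Ordinal.lt_one_iff_zero.mp h4
    · right; exact h4
  unfold par
  rcases h3 with h3 | h3
  · have e : ξ + 1 = 2 * (ξ / 2) + 1 := by
      nth_rewrite 1 [← h]
      rw [h3, add_zero]
    have e2 : (ξ + 1) % 2 = 1 := by
      rw [e, mul_add_mod_self, mod_eq_of_lt]
      rw [← one_add_one_eq_two]; exact lt_add_one 1
    simp [e2, h3]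
  · have e : ξ + 1 = 2 * (ξ / 2 + 1) := by
      nth_rewrite 1 [← h]
      rw [h3, mul_add, mul_one, add_assoc, one_add_one_eq_two]
    have e2 : (ξ + 1) % 2 = 0 := by
      rw [e, mul_mod]
    simp [e2, h3]

/-- alternating sequence starting with `s` -/
noncomputable def altq (c : Cardinal.{u}) (s : Bool) : Ordinal.{u} → Bool := fun ξ => by
  classical exact if ξ < c.ord then (par ξ == s) else false

lemma altq_zero (P : Par c C) (s : Bool) : altq c s 0 = s := by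
  unfold altq
  rw [if_pos P.pos, par_zero]
  cases s <;> rfl

lemma altq_succ (P : Par c C) (s : Bool) {ξ : Ordinal.{u}} (h : ξ < c.ord) :
    altq c s (ξ + 1) = !altq c s ξ := by
  unfold altq
  rw [if_pos h, if_pos (P.succ_lt h), par_succ]
  cases s <;> cases par ξ <;> rfl

lemma mem_altq (P : Par c C) (s : Bool) : Mem c C (altq c s) := by
  refine ⟨?_, ⟨0, P.pos, ?_⟩, ?_⟩
  · intro ξ hξ
    unfold altq
    rw [if_neg (not_lt.mpr hξ)]
  · intro ξ _ h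
    exact altq_succ P s h
  · rintro l hl ⟨p, hp, h1, h2, h3⟩
    exact not_coded_of_alt (cof_ne_zero_of_aleph h1)
      (fun ξ _ hξ => altq_succ P s (hξ.trans hl)) h2

lemma safe_const_false (ρ : Ordinal.{u}) : Safe C (fun _ => false) ρ := by
  intro l _ p _ h1 h2
  exact absurd h2 (not_coded_of_zero (cof_ne_zero_of_aleph h1) (fun _ _ _ => rfl))

lemma safe_const_true (ρ : Ordinal.{u}) : Safe C (fun _ => true) ρ := by
  intro l _ p _ h1 h2
  exact absurd h2 (not_coded_of_one (cof_ne_zero_of_aleph h1) (fun _ _ _ => rfl))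

/-- `0^η ⌢ 1 0 1 0 ...` -/
noncomputable def zrun (c : Cardinal.{u}) (η : Ordinal.{u}) : Ordinal.{u} → Bool :=
  cat (fun _ => false) η (altq c true)

/-- `1^η ⌢ 0 1 0 1 ...` -/
noncomputable def orun (c : Cardinal.{u}) (η : Ordinal.{u}) : Ordinal.{u} → Bool :=
  cat (fun _ => true) η (altq c false)

lemma mem_zrun (P : Par c C) {η : Ordinal.{u}} (h : η < c.ord) : Mem c C (zrun c η) :=
  mem_cat_of_clean P h (safe_const_false η)
    (fun p _ h1 h2 => not_coded_of_zero (cof_ne_zero_of_aleph h1) (fun _ _ _ => rfl) h2)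
    (mem_altq P true)

lemma mem_orun (P : Par c C) {η : Ordinal.{u}} (h : η < c.ord) : Mem c C (orun c η) :=
  mem_cat_of_clean P h (safe_const_true η)
    (fun p _ h1 h2 => not_coded_of_one (cof_ne_zero_of_aleph h1) (fun _ _ _ => rfl) h2)
    (mem_altq P false)

lemma zrun_of_lt {η ξ : Ordinal.{u}} (h : ξ < η) : zrun c η ξ = false := cat_of_lt _ _ h

lemma orun_of_lt {η ξ : Ordinal.{u}} (h : ξ < η) : orun c η ξ = true := cat_of_lt _ _ h

lemma zrun_self (P : Par c C) (η : Ordinal.{u}) : zrun c η η = true := by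
  unfold zrun
  have := cat_add (fun _ => false) η 0 (altq c true)
  rw [add_zero, altq_zero P] at this
  exact this

lemma orun_self (P : Par c C) (η : Ordinal.{u}) : orun c η η = false := by
  unfold orun
  have := cat_add (fun _ => true) η 0 (altq c false)
  rw [add_zero, altq_zero P] at this
  exact this

end Pool.Agent.H8Hom
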