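import Mathlib
import Pool.Agent.H8.HomMem

set_option autoImplicit false

universe u

open Ordinal Cardinal Order Set

namespace Pool.Agent.H8Hom

variable {c : Cardinal.{u}} {C : Set (Ordinal.{u} × Ordinal.{u})}

/-- The chain. -/
def T (c : Cardinal.{u}) (C : Set (Ordinal.{u} × Ordinal.{u})) : Type (u + 1) :=
  {x : Lex (Ordinal.{u} → Bool) // Mem c C (ofLex x)}

noncomputable instance : LinearOrder (T c C) :=
  inferInstanceAs (LinearOrder {x : Lex (Ordinal.{u} → Bool) // Mem c C (ofLex x)})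

/-- underlying sequence -/
def T.seq (x : T c C) : Ordinal.{u} → Bool := ofLex x.1

lemma T.mem (x : T c C) : Mem c C x.seq := x.2

def T.mk (x : Ordinal.{u} → Bool) (h : Mem c C x) : T c C := ⟨toLex x, h⟩

@[simp] lemma T.seq_mk (x : Ordinal.{u} → Bool) (h : Mem c C x) : (T.mk x h).seq = x := rfl

lemma T.ext {x y : T c C} (h : ∀ ξ, x.seq ξ = y.seq ξ) : x = y := by
  apply Subtype.ext
  exact funext h

/-- `x` is below `y` with first difference at `ξ` -/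
def DiffAt (x y : Ordinal.{u} → Bool) (ξ : Ordinal.{u}) : Prop :=
  (∀ η < ξ, x η = y η) ∧ x ξ = false ∧ y ξ = true

lemma T.lt_iff (x y : T c C) : x < y ↔ ∃ ξ, DiffAt x.seq y.seq ξ := by
  have : x < y ↔ ∃ i, (∀ j < i, x.seq j = y.seq j) ∧ x.seq i < y.seq i := Iff.rfl
  rw [this]
  constructor
  · rintro ⟨i, h1, h2⟩
    refine ⟨i, h1, ?_⟩
    cases hx : x.seq i <;> cases hy : y.seq i <;> rw [hx, hy] at h2 <;>
      first | exact ⟨rfl, rfl⟩ | exact absurd h2 (by decide)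
  · rintro ⟨i, h1, h2, h3⟩
    refine ⟨i, h1, ?_⟩
    rw [h2, h3]
    decide

lemma T.exists_diff {x y : T c C} (h : x < y) :
    ∃ ξ < c.ord, DiffAt x.seq y.seq ξ := by
  obtain ⟨ξ, hξ⟩ := (T.lt_iff x y).mp h
  refine ⟨ξ, ?_, hξ⟩
  by_contra hcon
  push Not at hcon
  have := y.mem.supp ξ hcon
  rw [hξ.2.2] at this
  exact absurd this (by simp)

lemma T.lt_of_diff {x y : T c C} {ξ : Ordinal.{u}} (h : DiffAt x.seq y.seq ξ) : x < y :=
  (T.lt_iff x y).mpr ⟨ξ, h⟩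

/-- gluing -/
lemma glue {α : Type*} [LinearOrder α] (S₁ S₂ : Set α) (h : ∀ x ∈ S₁, ∀ y ∈ S₂, x < y) :
    Nonempty ((S₁ ∪ S₂ : Set α) ≃o (S₁ ⊕ₗ S₂)) := by
  classical
  let f : (S₁ ⊕ₗ S₂) → (S₁ ∪ S₂ : Set α) := fun z =>
    match ofLex z with
    | Sum.inl x => ⟨x.1, Or.inl x.2⟩
    | Sum.inr y => ⟨y.1, Or.inr y.2⟩
  have hf : StrictMono f := by
    intro a b hab
    induction a using Lex.rec with
    | h a =>
    induction b using Lex.rec with
    | h b =>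
    rcases a with a | a <;> rcases b with b | b
    · exact (Sum.Lex.inl_lt_inl_iff (α := S₁) (β := S₂)).mp hab
    · exact h a.1 a.2 b.1 b.2
    · exact absurd hab Sum.Lex.not_inr_lt_inl
    · exact (Sum.Lex.inr_lt_inr_iff (α := S₁) (β := S₂)).mp hab
  have hs : Function.Surjective f := by
    rintro ⟨x, hx | hx⟩
    · exact ⟨toLex (Sum.inl ⟨x, hx⟩), rfl⟩
    · exact ⟨toLex (Sum.inr ⟨x, hx⟩), rfl⟩
  exact ⟨(hf.orderIsoOfSurjective f hs).symm⟩

/-- attach a node -/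
noncomputable def att (P : Par c C) (v : Ordinal.{u} → Bool) (ρ : Ordinal.{u}) (hρ : ρ < c.ord)
    (hs : Safe C v ρ) (hn : NC C v ρ) (y : T c C) : T c C :=
  T.mk (cat v ρ y.seq) (mem_cat_of_clean P hρ hs hn y.mem)

lemma att_strictMono (P : Par c C) (v : Ordinal.{u} → Bool) (ρ : Ordinal.{u}) (hρ : ρ < c.ord)
    (hs : Safe C v ρ) (hn : NC C v ρ) : StrictMono (att P v ρ hρ hs hn) := by
  intro y z hyz
  obtain ⟨ξ, h1, h2, h3, h4⟩ := T.exists_diff hyz
  apply T.lt_of_diff (ξ := ρ + ξ)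
  refine ⟨?_, ?_, ?_⟩
  · intro η hη
    simp only [att, T.seq_mk]
    rcases lt_or_ge η ρ with h | h
    · rw [cat_of_lt _ _ h, cat_of_lt _ _ h]
    · rw [cat_of_le _ _ h, cat_of_le _ _ h]
      exact h2 _ (by rw [Ordinal.sub_lt_of_le h]; exact hη)
  · simp only [att, T.seq_mk]; rw [cat_add]; exact h3
  · simp only [att, T.seq_mk]; rw [cat_add]; exact h4

/-- take the tail -/
noncomputable def tl (P : Par c C) (ρ : Ordinal.{u}) (hρ : ρ < c.ord) (x : T c C) : T c C :=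
  T.mk (tail x.seq ρ) (mem_tail P x.mem hρ)

lemma att_tl (P : Par c C) (v : Ordinal.{u} → Bool) (ρ : Ordinal.{u}) (hρ : ρ < c.ord)
    (hs : Safe C v ρ) (hn : NC C v ρ) (x : T c C) (hx : ∀ η < ρ, x.seq η = v η) :
    att P v ρ hρ hs hn (tl P ρ hρ x) = x := by
  apply T.ext
  intro ξ
  simp only [att, tl, T.seq_mk]
  rw [cat_tail _ _ _ hx]

lemma att_agree (P : Par c C) (v : Ordinal.{u} → Bool) (ρ : Ordinal.{u}) (hρ : ρ < c.ord)
    (hs : Safe C v ρ) (hn : NC C v ρ) (y : T c C) : ∀ η < ρ, (att P v ρ hρ hs hn y).seq η = v η := by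
  intro η hη
  simp only [att, T.seq_mk]
  exact cat_of_lt _ _ hη

lemma iso_image {α β : Type*} [LinearOrder α] [LinearOrder β] (f : α → β) (hf : StrictMono f)
    (s : Set α) (t : Set β) (h : f '' s = t) : Nonempty (s ≃o t) := by
  subst h
  exact ⟨StrictMonoOn.orderIso f s (hf.strictMonoOn s)⟩

/-- extension sets below an element, via tails -/
lemma ext_le_iso (P : Par c C) (b : T c C) (ρ : Ordinal.{u}) (hρ : ρ < c.ord)
    (hs : Safe C b.seq ρ) (hn : NC C b.seq ρ) :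
    Nonempty ({x : T c C | (∀ η < ρ, x.seq η = b.seq η) ∧ x ≤ b} ≃o Iic (tl P ρ hρ b)) := by
  have hmono := att_strictMono P b.seq ρ hρ hs hn
  have hb : att P b.seq ρ hρ hs hn (tl P ρ hρ b) = b := att_tl P b.seq ρ hρ hs hn b (fun _ _ => rfl)
  obtain ⟨e⟩ := iso_image (att P b.seq ρ hρ hs hn) hmono (Iic (tl P ρ hρ b))
    {x : T c C | (∀ η < ρ, x.seq η = b.seq η) ∧ x ≤ b} (by
      ext x
      constructor
      · rintro ⟨y, hy, rfl⟩
        refine ⟨att_agree P _ _ _ _ _ y, ?_⟩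
        exact (hmono.monotone hy).trans_eq hb
      · rintro ⟨h1, h2⟩
        refine ⟨tl P ρ hρ x, ?_, att_tl P b.seq ρ hρ hs hn x h1⟩
        rw [mem_Iic, ← hmono.le_iff_le, hb, att_tl P b.seq ρ hρ hs hn x h1]
        exact h2)
  exact ⟨e.symm⟩

/-- elements below `b` agreeing with `b` below `ρ` -/
def Lt (b : T c C) (ρ : Ordinal.{u}) : Set (T c C) :=
  {x | (∀ η < ρ, x.seq η = b.seq η) ∧ x < b}

def Rt (a : T c C) (ρ : Ordinal.{u}) : Set (T c C) :=
  {x | (∀ η < ρ, x.seq η = a.seq η) ∧ a < x}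

lemma Lt_zero (b : T c C) : Lt b 0 = Iio b := by
  ext x
  simp [Lt]

lemma Rt_zero (b : T c C) : Rt b 0 = Ioi b := by
  ext x
  simp [Rt]

lemma ext_lt_iso (P : Par c C) (b : T c C) (ρ : Ordinal.{u}) (hρ : ρ < c.ord)
    (hs : Safe C b.seq ρ) (hn : NC C b.seq ρ) :
    Nonempty (Lt b ρ ≃o Iio (tl P ρ hρ b)) := by
  have hmono := att_strictMono P b.seq ρ hρ hs hn
  have hb : att P b.seq ρ hρ hs hn (tl P ρ hρ b) = b := att_tl P b.seq ρ hρ hs hn b (fun _ _ => rfl)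
  obtain ⟨e⟩ := iso_image (att P b.seq ρ hρ hs hn) hmono (Iio (tl P ρ hρ b))
    (Lt b ρ) (by
      ext x
      constructor
      · rintro ⟨y, hy, rfl⟩
        refine ⟨att_agree P _ _ _ _ _ y, ?_⟩
        exact (hmono hy).trans_eq hb
      · rintro ⟨h1, h2⟩
        refine ⟨tl P ρ hρ x, ?_, att_tl P b.seq ρ hρ hs hn x h1⟩
        rw [mem_Iio, ← hmono.lt_iff_lt, hb, att_tl P b.seq ρ hρ hs hn x h1]
        exact h2)
  exact ⟨e.symm⟩

lemma regularOrder (hc : c.IsRegular) : IsRegularCardinalOrder (Iio c.ord) where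
  type_lt_le_ord_cof := by
    rw [Ordinal.cof_Iio, ← lift_cof, hc.cof_ord, Ordinal.type_Iio_lt, ← Cardinal.lift_ord]
    simp

end Pool.Agent.H8Hom
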