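import Mathlib
import Pool.Agent.H8.HomChain

set_option autoImplicit false

universe u

open Ordinal Cardinal Order Set

namespace Pool.Agent.H8Hom

variable {c : Cardinal.{u}} {C : Set (Ordinal.{u} × Ordinal.{u})}

lemma enum_pos (P : Par c C) (S : Ordinal.{u} → Prop)
    (hcof : ∀ ξ < c.ord, ∃ ζ, ξ ≤ ζ ∧ ζ < c.ord ∧ S ζ) :
    ∃ pos : Iio c.ord → Ordinal.{u}, StrictMono pos ∧ (∀ ξ, pos ξ < c.ord ∧ S (pos ξ)) ∧
      ∀ ζ < c.ord, S ζ → ∃ ξ, pos ξ = ζ := by
  haveI := regularOrder P.reg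
  let D : Set (Iio c.ord) := {ξ | S ξ.1}
  have hD : IsCofinal D := by
    intro ξ
    obtain ⟨ζ, h1, h2, h3⟩ := hcof ξ.1 ξ.2
    exact ⟨⟨ζ, h2⟩, h3, h1⟩
  let e := Order.enum D hD
  refine ⟨fun ξ => (e ξ).1.1, ?_, ?_, ?_⟩
  · intro a b hab
    exact e.strictMono hab
  · intro ξ
    exact ⟨(e ξ).1.2, (e ξ).2⟩
  · intro ζ h1 h2
    refine ⟨e.symm ⟨⟨ζ, h1⟩, h2⟩, ?_⟩
    simp

lemma exists_val (P : Par c C) (a : T c C) (s : Bool) (ξ : Ordinal.{u}) (hξ : ξ < c.ord) :
    ∃ ζ, ξ ≤ ζ ∧ ζ < c.ord ∧ a.seq ζ = s := by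
  obtain ⟨ξ₀, h1, h2⟩ := a.mem.alt
  have hm : max ξ ξ₀ < c.ord := max_lt hξ h1
  have h3 := h2 (max ξ ξ₀) (le_max_right _ _) hm
  by_cases h : a.seq (max ξ ξ₀) = s
  · exact ⟨_, le_max_left _ _, hm, h⟩
  · refine ⟨max ξ ξ₀ + 1, (le_max_left _ _).trans le_self_add, P.succ_lt hm, ?_⟩
    rw [h3]
    cases s <;> cases h4 : a.seq (max ξ ξ₀) <;> simp_all

lemma clean_one (a : T c C) {ξ : Ordinal.{u}} (hξ : ξ < c.ord) :
    Safe C (Function.update a.seq ξ true) (ξ + 1) :=
  safe_one a.mem hξ (fun η hη => Function.update_of_ne hη.ne _ _) (Function.update_self _ _ _)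

lemma clean_self (a : T c C) {ξ : Ordinal.{u}} (hξ : ξ < c.ord) (h : a.seq ξ = true) :
    Safe C a.seq (ξ + 1) :=
  safe_one a.mem hξ (fun _ _ => rfl) h

lemma Rt_iso (P : Par c C) (a : T c C) (ρ : Ordinal.{u}) (hρ : ρ < c.ord) :
    Nonempty (Rt a ρ ≃o ((Iio c.ord)ᵒᵈ ×ₗ T c C)) := by
  obtain ⟨pos, hpos, hpos1, hpos2⟩ := enum_pos P (fun ζ => ρ ≤ ζ ∧ a.seq ζ = false) (by
    intro ξ hξ
    obtain ⟨ζ, h1, h2, h3⟩ := exists_val P a false (max ξ ρ) (max_lt hξ hρ)
    exact ⟨ζ, (le_max_left _ _).trans h1, h2, (le_max_right _ _).trans h1, h3⟩)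
  let F : ((Iio c.ord)ᵒᵈ ×ₗ T c C) → T c C := fun z =>
    att P (Function.update a.seq (pos (OrderDual.ofDual (ofLex z).1)) true)
      (pos (OrderDual.ofDual (ofLex z).1) + 1) (P.succ_lt (hpos1 _).1)
      (clean_one a (hpos1 _).1) (nc_succ _ _) (ofLex z).2
  have hFlt : ∀ z, ∀ η < pos (OrderDual.ofDual (ofLex z).1), (F z).seq η = a.seq η := by
    intro z η hη
    have : (F z).seq η = Function.update a.seq (pos (OrderDual.ofDual (ofLex z).1)) true η :=
      att_agree P _ _ _ _ _ _ η (hη.trans (lt_add_one _))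
    rw [this, Function.update_of_ne hη.ne]
  have hFeq : ∀ z, (F z).seq (pos (OrderDual.ofDual (ofLex z).1)) = true := by
    intro z
    have : (F z).seq (pos (OrderDual.ofDual (ofLex z).1)) =
      Function.update a.seq (pos (OrderDual.ofDual (ofLex z).1)) true
        (pos (OrderDual.ofDual (ofLex z).1)) :=
      att_agree P _ _ _ _ _ _ _ (lt_add_one _)
    rw [this, Function.update_self]
  have hF : StrictMono F := by
    intro y z hyz
    rw [Prod.Lex.lt_iff] at hyz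
    rcases hyz with h | ⟨h1, h2⟩
    · have h' : pos (OrderDual.ofDual (ofLex z).1) < pos (OrderDual.ofDual (ofLex y).1) := hpos h
      apply T.lt_of_diff (ξ := pos (OrderDual.ofDual (ofLex z).1))
      refine ⟨?_, ?_, hFeq z⟩
      · intro η hη
        rw [hFlt y η (hη.trans h'), hFlt z η hη]
      · rw [hFlt y _ h']
        exact (hpos1 _).2.2
    · have : F y = att P (Function.update a.seq (pos (OrderDual.ofDual (ofLex z).1)) true)
          (pos (OrderDual.ofDual (ofLex z).1) + 1) (P.succ_lt (hpos1 _).1)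
          (clean_one a (hpos1 _).1) (nc_succ _ _) (ofLex y).2 := by
        simp only [F, h1]
      rw [this]
      exact att_strictMono P _ _ _ _ _ h2
  have hrange : range F = Rt a ρ := by
    ext x
    constructor
    · rintro ⟨z, rfl⟩
      refine ⟨?_, ?_⟩
      · intro η hη
        exact hFlt z η (lt_of_lt_of_le hη (hpos1 _).2.1)
      · exact T.lt_of_diff (ξ := pos (OrderDual.ofDual (ofLex z).1))
          ⟨fun η hη => (hFlt z η hη).symm, (hpos1 _).2.2, hFeq z⟩
    · rintro ⟨h1, h2⟩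
      obtain ⟨ζ, h3, h4, h5, h6⟩ := T.exists_diff h2
      have h7 : ρ ≤ ζ := by
        by_contra hcon
        push Not at hcon
        rw [h1 ζ hcon, h5] at h6
        exact absurd h6 (by simp)
      obtain ⟨ξ, rfl⟩ := hpos2 ζ h3 ⟨h7, h5⟩
      refine ⟨toLex (OrderDual.toDual ξ, tl P (pos ξ + 1) (P.succ_lt h3) x), ?_⟩
      apply att_tl
      intro η hη
      rw [lt_add_one_iff] at hη
      rcases hη.lt_or_eq with h | h
      · have h' : η < pos ξ := h
        show x.seq η = Function.update a.seq (pos ξ) true η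
        rw [Function.update_of_ne h'.ne, h4 η h']
      · have h' : η = pos ξ := h
        show x.seq η = Function.update a.seq (pos ξ) true η
        rw [h', Function.update_self, h6]
  exact ⟨((hF.orderIso F).trans (OrderIso.setCongr _ _ hrange)).symm⟩

lemma Lt_iso_zone (P : Par c C) (b : T c C) (ξ₀ : Ordinal.{u})
    (halt : ∀ ζ, ξ₀ ≤ ζ → ζ < c.ord → b.seq (ζ + 1) = !b.seq ζ)
    (ρ : Ordinal.{u}) (hρ : ρ < c.ord) (hz : ξ₀ + 1 < ρ) :
    Nonempty (Lt b ρ ≃o ((Iio c.ord) ×ₗ T c C)) := by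
  obtain ⟨pos, hpos, hpos1, hpos2⟩ := enum_pos P (fun ζ => ρ ≤ ζ ∧ b.seq ζ = true) (by
    intro ξ hξ
    obtain ⟨ζ, h1, h2, h3⟩ := exists_val P b true (max ξ ρ) (max_lt hξ hρ)
    exact ⟨ζ, (le_max_left _ _).trans h1, h2, (le_max_right _ _).trans h1, h3⟩)
  have hclean : ∀ ξ, Safe C (Function.update b.seq (pos ξ) false) (pos ξ + 1) := fun ξ =>
    safe_zero P b.mem (hpos1 ξ).1 (fun η hη => Function.update_of_ne hη.ne _ _) halt
      (lt_of_lt_of_le hz (hpos1 ξ).2.1)
  let F : ((Iio c.ord) ×ₗ T c C) → T c C := fun z =>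
    att P (Function.update b.seq (pos (ofLex z).1) false)
      (pos (ofLex z).1 + 1) (P.succ_lt (hpos1 _).1)
      (hclean _) (nc_succ _ _) (ofLex z).2
  have hFlt : ∀ z, ∀ η < pos (ofLex z).1, (F z).seq η = b.seq η := by
    intro z η hη
    have : (F z).seq η = Function.update b.seq (pos (ofLex z).1) false η :=
      att_agree P _ _ _ _ _ _ η (hη.trans (lt_add_one _))
    rw [this, Function.update_of_ne hη.ne]
  have hFeq : ∀ z, (F z).seq (pos (ofLex z).1) = false := by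
    intro z
    have : (F z).seq (pos (ofLex z).1) =
      Function.update b.seq (pos (ofLex z).1) false (pos (ofLex z).1) :=
      att_agree P _ _ _ _ _ _ _ (lt_add_one _)
    rw [this, Function.update_self]
  have hF : StrictMono F := by
    intro y z hyz
    rw [Prod.Lex.lt_iff] at hyz
    rcases hyz with h | ⟨h1, h2⟩
    · have h' : pos (ofLex y).1 < pos (ofLex z).1 := hpos h
      apply T.lt_of_diff (ξ := pos (ofLex y).1)
      refine ⟨?_, hFeq y, ?_⟩
      · intro η hη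
        rw [hFlt z η (hη.trans h'), hFlt y η hη]
      · rw [hFlt z _ h']
        exact (hpos1 _).2.2
    · have : F y = att P (Function.update b.seq (pos (ofLex z).1) false)
          (pos (ofLex z).1 + 1) (P.succ_lt (hpos1 _).1)
          (hclean _) (nc_succ _ _) (ofLex y).2 := by
        simp only [F, h1]
      rw [this]
      exact att_strictMono P _ _ _ _ _ h2
  have hrange : range F = Lt b ρ := by
    ext x
    constructor
    · rintro ⟨z, rfl⟩
      refine ⟨?_, ?_⟩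
      · intro η hη
        exact hFlt z η (lt_of_lt_of_le hη (hpos1 _).2.1)
      · exact T.lt_of_diff (ξ := pos (ofLex z).1)
          ⟨fun η hη => (hFlt z η hη), hFeq z, (hpos1 _).2.2⟩
    · rintro ⟨h1, h2⟩
      obtain ⟨ζ, h3, h4, h5, h6⟩ := T.exists_diff h2
      have h7 : ρ ≤ ζ := by
        by_contra hcon
        push Not at hcon
        rw [h1 ζ hcon, h6] at h5
        exact absurd h5 (by simp)
      obtain ⟨ξ, rfl⟩ := hpos2 ζ h3 ⟨h7, h6⟩
      refine ⟨toLex (ξ, tl P (pos ξ + 1) (P.succ_lt h3) x), ?_⟩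
      apply att_tl
      intro η hη
      rw [lt_add_one_iff] at hη
      rcases hη.lt_or_eq with h | h
      · have h' : η < pos ξ := h
        show x.seq η = Function.update b.seq (pos ξ) false η
        rw [Function.update_of_ne h'.ne, h4 η h']
      · have h' : η = pos ξ := h
        show x.seq η = Function.update b.seq (pos ξ) false η
        rw [h', Function.update_self, h5]
  exact ⟨((hF.orderIso F).trans (OrderIso.setCongr _ _ hrange)).symm⟩

/-- the whole type as a set -/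
lemma univ_iso : Nonempty ((Set.univ : Set (T c C)) ≃o T c C) := ⟨OrderIso.Set.univ⟩

/-- `T + κ·T ≃ κ·T` -/
lemma absorb (P : Par c C) :
    Nonempty ((T c C ⊕ₗ ((Iio c.ord) ×ₗ T c C)) ≃o ((Iio c.ord) ×ₗ T c C)) := by
  let b : T c C := T.mk (altq c true) (mem_altq P true)
  have halt : ∀ ζ, (0 : Ordinal.{u}) ≤ ζ → ζ < c.ord → b.seq (ζ + 1) = !b.seq ζ :=
    fun ζ _ h => altq_succ P true h
  have h01 : (0 : Ordinal.{u}) + 1 < 2 := by
    rw [zero_add, ← one_add_one_eq_two]; exact lt_add_one 1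
  have hb2 : b.seq 2 = true := by
    have e1 := halt 1 zero_le_one P.one_lt
    have e0 := halt 0 le_rfl P.pos
    rw [zero_add] at e0
    rw [one_add_one_eq_two] at e1
    rw [e1, e0, Bool.not_not]
    exact altq_zero P true
  have h3lt : (2 : Ordinal.{u}) + 1 < c.ord := P.succ_lt P.two_lt
  obtain ⟨e2⟩ := Lt_iso_zone P b 0 halt 2 P.two_lt h01
  obtain ⟨e3⟩ := Lt_iso_zone P b 0 halt (2 + 1) h3lt (h01.trans (lt_add_one _))
  have hclean : Safe C (Function.update b.seq 2 false) (2 + 1) :=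
    safe_zero P b.mem P.two_lt (fun η hη => Function.update_of_ne hη.ne _ _) halt h01
  let M : Set (T c C) := range (att P (Function.update b.seq 2 false) (2 + 1) h3lt hclean
    (nc_succ _ _))
  have hM : Nonempty (M ≃o T c C) :=
    ⟨(StrictMono.orderIso _ (att_strictMono P _ _ h3lt hclean (nc_succ _ _))).symm⟩
  obtain ⟨eM⟩ := hM
  have hMlt : ∀ x ∈ M, ∀ η < 2, x.seq η = b.seq η := by
    rintro _ ⟨y, rfl⟩ η hη
    rw [att_agree P _ _ _ _ _ _ η (hη.trans (lt_add_one _)), Function.update_of_ne hη.ne]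
  have hMeq : ∀ x ∈ M, x.seq 2 = false := by
    rintro _ ⟨y, rfl⟩
    rw [att_agree P _ _ _ _ _ _ 2 (lt_add_one _), Function.update_self]
  have hlt : ∀ x ∈ M, ∀ y ∈ Lt b (2 + 1), x < y := by
    intro x hx y hy
    apply T.lt_of_diff (ξ := 2)
    refine ⟨?_, hMeq x hx, ?_⟩
    · intro η hη
      rw [hMlt x hx η hη, hy.1 η (hη.trans (lt_add_one _))]
    · rw [hy.1 2 (lt_add_one _), hb2]
  have hunion : M ∪ Lt b (2 + 1) = Lt b 2 := by
    ext x
    constructor
    · rintro (hx | hx)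
      · refine ⟨hMlt x hx, ?_⟩
        exact T.lt_of_diff (ξ := 2) ⟨hMlt x hx, hMeq x hx, hb2⟩
      · exact ⟨fun η hη => hx.1 η (hη.trans (lt_add_one _)), hx.2⟩
    · rintro ⟨h1, h2⟩
      cases h : x.seq 2 with
      | true =>
        right
        refine ⟨?_, h2⟩
        intro η hη
        rw [lt_add_one_iff] at hη
        rcases hη.lt_or_eq with h' | h'
        · exact h1 η h'
        · rw [h', h, hb2]
      | false =>
        left
        refine ⟨tl P (2 + 1) h3lt x, ?_⟩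
        apply att_tl
        intro η hη
        rw [lt_add_one_iff] at hη
        rcases hη.lt_or_eq with h' | h'
        · rw [Function.update_of_ne h'.ne, h1 η h']
        · rw [h', Function.update_self, h]
  obtain ⟨eg⟩ := glue M (Lt b (2 + 1)) hlt
  exact ⟨((eM.symm.sumLexCongr e3.symm).trans eg.symm).trans
    ((OrderIso.setCongr _ _ hunion).trans e2)⟩

/-- all left rays are isomorphic -/
lemma Iio_iso (P : Par c C) (b : T c C) :
    Nonempty (Iio b ≃o ((Iio c.ord) ×ₗ T c C)) := by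
  obtain ⟨ξ₀, h1, halt⟩ := b.mem.alt
  have h2 : ξ₀ + 1 + 1 < c.ord := P.succ_lt (P.succ_lt h1)
  obtain ⟨ξ₁, h3, h4, h5⟩ := exists_val P b true (ξ₀ + 1 + 1) h2
  have hρ : ξ₁ + 1 < c.ord := P.succ_lt h4
  have hz : ξ₀ + 1 < ξ₁ + 1 := lt_of_lt_of_le (lt_add_one _) (h3.trans le_self_add)
  have hsafe := clean_self b h4 h5
  obtain ⟨eL⟩ := Lt_iso_zone P b ξ₀ halt (ξ₁ + 1) hρ hz
  let Q : Set (T c C) := {x | x < b ∧ ¬ (∀ η < ξ₁ + 1, x.seq η = b.seq η)}
  let E : Set (T c C) := {x | (∀ η < ξ₁ + 1, x.seq η = b.seq η) ∧ x ≤ b}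
  -- elements of Q are below everything agreeing with b
  have hQ : ∀ x ∈ Q, ∀ y : T c C, (∀ η < ξ₁ + 1, y.seq η = b.seq η) → x < y := by
    rintro x ⟨hx1, hx2⟩ y hy
    obtain ⟨ζ, h6, h7, h8, h9⟩ := T.exists_diff hx1
    have h10 : ζ < ξ₁ + 1 := by
      by_contra hcon
      push Not at hcon
      exact hx2 (fun η hη => h7 η (lt_of_lt_of_le hη hcon))
    apply T.lt_of_diff (ξ := ζ)
    refine ⟨fun η hη => ?_, h8, ?_⟩
    · rw [h7 η hη, hy η (hη.trans h10)]
    · rw [hy ζ h10, h9]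
  have hu1 : Q ∪ Lt b (ξ₁ + 1) = Iio b := by
    ext x
    constructor
    · rintro (hx | hx)
      · exact hx.1
      · exact hx.2
    · intro hx
      by_cases h : ∀ η < ξ₁ + 1, x.seq η = b.seq η
      · exact Or.inr ⟨h, hx⟩
      · exact Or.inl ⟨hx, h⟩
  obtain ⟨g1⟩ := glue Q (Lt b (ξ₁ + 1)) (fun x hx y hy => hQ x hx y hy.1)
  obtain ⟨g2⟩ := glue E (Ioi b) (fun x hx y hy => lt_of_le_of_lt hx.2 hy)
  have hu2 : Q ∪ (E ∪ Ioi b) = Set.univ := by
    ext x
    constructor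
    · intro _; trivial
    · intro _
      rcases lt_or_ge b x with h | h
      · exact Or.inr (Or.inr h)
      · by_cases h' : ∀ η < ξ₁ + 1, x.seq η = b.seq η
        · exact Or.inr (Or.inl ⟨h', h⟩)
        · refine Or.inl ⟨lt_of_le_of_ne h ?_, h'⟩
          rintro rfl
          exact h' (fun _ _ => rfl)
  obtain ⟨g3⟩ := glue Q (E ∪ Ioi b) (by
    rintro x hx y (hy | hy)
    · exact hQ x hx y hy.1
    · exact lt_trans hx.1 hy)
  obtain ⟨g4⟩ := ext_le_iso P b (ξ₁ + 1) hρ hsafe (nc_succ _ _)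
  set c' := tl P (ξ₁ + 1) hρ b with hc'
  obtain ⟨r1⟩ := Rt_iso P b 0 P.pos
  obtain ⟨r2⟩ := Rt_iso P c' 0 P.pos
  rw [Rt_zero] at r1 r2
  obtain ⟨g5⟩ := glue (Iic c') (Ioi c') (fun x hx y hy => lt_of_le_of_lt hx hy)
  have hu3 : Iic c' ∪ Ioi c' = Set.univ := Set.Iic_union_Ioi
  -- E ∪ Ioi b ≃ T
  have hR : Nonempty ((E ∪ Ioi b : Set (T c C)) ≃o T c C) := by
    obtain ⟨eu⟩ := univ_iso (c := c) (C := C)
    exact ⟨g2.trans (((g4.sumLexCongr (r1.trans r2.symm)).trans g5.symm).trans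
      ((OrderIso.setCongr _ _ hu3).trans eu))⟩
  obtain ⟨eR⟩ := hR
  obtain ⟨ab⟩ := absorb P
  obtain ⟨eu⟩ := univ_iso (c := c) (C := C)
  -- Q + T ≃ T
  have hQT : Nonempty ((Q ⊕ₗ T c C) ≃o T c C) :=
    ⟨((OrderIso.refl Q).sumLexCongr eR.symm).trans (g3.symm.trans
      ((OrderIso.setCongr _ _ hu2).trans eu))⟩
  obtain ⟨eQ⟩ := hQT
  refine ⟨(OrderIso.setCongr _ _ hu1).symm.trans (g1.trans ?_)⟩
  refine ((OrderIso.refl Q).sumLexCongr eL).trans ?_
  refine ((OrderIso.refl Q).sumLexCongr ab.symm).trans ?_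
  refine (OrderIso.sumLexAssoc _ _ _).symm.trans ?_
  exact (eQ.sumLexCongr (OrderIso.refl _)).trans ab

/-- the common type of all nondegenerate closed intervals -/
abbrev Box (c : Cardinal.{u}) (C : Set (Ordinal.{u} × Ordinal.{u})) : Type (u + 1) :=
  (PUnit.{u + 2} ⊕ₗ ((Iio c.ord)ᵒᵈ ×ₗ T c C)) ⊕ₗ (((Iio c.ord) ×ₗ T c C) ⊕ₗ PUnit.{u + 2})

lemma singleton_iso {α : Type*} [LinearOrder α] (a : α) :
    Nonempty (({a} : Set α) ≃o PUnit.{u + 2}) :=
  ⟨OrderIso.ofUnique _ _⟩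

lemma Icc_iso (P : Par c C) (a b : T c C) (hab : a < b) : Nonempty (Icc a b ≃o Box c C) := by
  obtain ⟨s, h1, h2, h3, h4⟩ := T.exists_diff hab
  have hs : s + 1 < c.ord := P.succ_lt h1
  have hA : ∀ x ∈ ({a} : Set (T c C)), ∀ y ∈ Rt a (s + 1), x < y := by
    intro x hx y hy
    rw [mem_singleton_iff] at hx
    rw [hx]; exact hy.2
  have hB : ∀ x ∈ Lt b (s + 1), ∀ y ∈ ({b} : Set (T c C)), x < y := by
    intro x hx y hy
    rw [mem_singleton_iff] at hy
    rw [hy]; exact hx.2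
  have hAs : ∀ x ∈ ({a} ∪ Rt a (s + 1) : Set (T c C)), (∀ η < s, x.seq η = b.seq η) ∧
      x.seq s = false := by
    rintro x (hx | hx)
    · rw [mem_singleton_iff] at hx
      rw [hx]; exact ⟨h2, h3⟩
    · refine ⟨fun η hη => ?_, ?_⟩
      · rw [hx.1 η (hη.trans (lt_add_one _)), h2 η hη]
      · rw [hx.1 s (lt_add_one _), h3]
  have hBs : ∀ x ∈ (Lt b (s + 1) ∪ {b} : Set (T c C)), (∀ η < s, x.seq η = b.seq η) ∧
      x.seq s = true := by
    rintro x (hx | hx)
    · refine ⟨fun η hη => ?_, ?_⟩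
      · rw [hx.1 η (hη.trans (lt_add_one _))]
      · rw [hx.1 s (lt_add_one _), h4]
    · rw [mem_singleton_iff] at hx
      rw [hx]; exact ⟨fun _ _ => rfl, h4⟩
  have hAB : ∀ x ∈ ({a} ∪ Rt a (s + 1) : Set (T c C)), ∀ y ∈ (Lt b (s + 1) ∪ {b} : Set (T c C)),
      x < y := by
    intro x hx y hy
    obtain ⟨x1, x2⟩ := hAs x hx
    obtain ⟨y1, y2⟩ := hBs y hy
    exact T.lt_of_diff (ξ := s) ⟨fun η hη => by rw [x1 η hη, y1 η hη], x2, y2⟩
  have hunion : ({a} ∪ Rt a (s + 1)) ∪ (Lt b (s + 1) ∪ {b}) = Icc a b := by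
    ext x
    constructor
    · rintro (hx | hx)
      · refine ⟨?_, (hAB x hx b (Or.inr rfl)).le⟩
        rcases hx with hx | hx
        · rw [mem_singleton_iff] at hx; exact hx.ge
        · exact hx.2.le
      · refine ⟨(hAB a (Or.inl rfl) x hx).le, ?_⟩
        rcases hx with hx | hx
        · exact hx.2.le
        · rw [mem_singleton_iff] at hx; exact hx.le
    · rintro ⟨hx1, hx2⟩
      rcases hx1.eq_or_lt with h | h
      · left; left; rw [mem_singleton_iff]; exact h.symm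
      · rcases hx2.eq_or_lt with h' | h'
        · right; right; rw [mem_singleton_iff]; exact h'
        · -- a < x < b
          obtain ⟨m, m1, m2, m3, m4⟩ := T.exists_diff h
          obtain ⟨n, n1, n2, n3, n4⟩ := T.exists_diff h'
          have hagree : ∀ η < s, x.seq η = a.seq η := by
            have hm : s ≤ m := by
              by_contra hcon
              push Not at hcon
              -- m < s: a m = false = b m, x m = true so b < x
              have : b < x := T.lt_of_diff (ξ := m)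
                ⟨fun η hη => by rw [← h2 η (hη.trans hcon), m2 η hη],
                  by rw [← h2 m hcon, m3], m4⟩
              exact absurd this (not_lt.mpr h'.le)
            intro η hη
            exact (m2 η (lt_of_lt_of_le hη hm)).symm
          cases hxs : x.seq s with
          | true =>
            right; left
            refine ⟨fun η hη => ?_, h'⟩
            rw [lt_add_one_iff] at hη
            rcases hη.lt_or_eq with h5 | h5
            · rw [hagree η h5, h2 η h5]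
            · rw [h5, hxs, h4]
          | false =>
            left; right
            refine ⟨fun η hη => ?_, h⟩
            rw [lt_add_one_iff] at hη
            rcases hη.lt_or_eq with h5 | h5
            · exact hagree η h5
            · rw [h5, hxs, h3]
  obtain ⟨sa⟩ := singleton_iso.{u} a
  obtain ⟨sb⟩ := singleton_iso.{u} b
  obtain ⟨ra⟩ := Rt_iso P a (s + 1) hs
  obtain ⟨lb⟩ := ext_lt_iso P b (s + 1) hs (clean_self b h1 h4) (nc_succ _ _)
  obtain ⟨lb'⟩ := Iio_iso P (tl P (s + 1) hs b)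
  obtain ⟨g1⟩ := glue {a} (Rt a (s + 1)) hA
  obtain ⟨g2⟩ := glue (Lt b (s + 1)) {b} hB
  obtain ⟨g3⟩ := glue _ _ hAB
  exact ⟨(OrderIso.setCongr _ _ hunion).symm.trans (g3.trans
    ((g1.trans (sa.sumLexCongr ra)).sumLexCongr (g2.trans ((lb.trans lb').sumLexCongr sb))))⟩

lemma two_hom (P : Par c C) (a b d e : T c C) (hab : a < b) (hde : d < e) :
    Nonempty (Icc a b ≃o Icc d e) := by
  obtain ⟨f⟩ := Icc_iso P a b hab
  obtain ⟨g⟩ := Icc_iso P d e hde
  exact ⟨f.trans g.symm⟩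

lemma dense (P : Par c C) (a b : T c C) (hab : a < b) : ∃ x, a < x ∧ x < b := by
  obtain ⟨s, h1, h2, h3, h4⟩ := T.exists_diff hab
  have hs : s + 1 < c.ord := P.succ_lt h1
  obtain ⟨ra⟩ := Rt_iso P a (s + 1) hs
  let z := ra.symm (toLex (OrderDual.toDual ⟨0, P.pos⟩, a))
  refine ⟨z.1, z.2.2, T.lt_of_diff (ξ := s) ⟨?_, ?_, h4⟩⟩
  · intro η hη
    rw [z.2.1 η (hη.trans (lt_add_one _)), h2 η hη]
  · rw [z.2.1 s (lt_add_one _), h3]

end Pool.Agent.H8Hom
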