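import Mathlib
import Pool.Agent.H8.HomIso

set_option autoImplicit false

universe u v

open Ordinal Cardinal Order Set

namespace Pool.Agent.H8Hom

lemma cof_of_monotone {A L : Type v} [LinearOrder A] [LinearOrder L] [NoMaxOrder L] (f : A → L)
    (hf : Monotone f) (hc : ∀ l, ∃ a, l ≤ f a) : Order.cof A = Order.cof L := by
  apply le_antisymm
  · obtain ⟨S, hS, hSc⟩ := Order.exists_cof_eq L
    choose g hg using hc
    rw [← hSc]
    refine (Order.cof_le (s := g '' S) ?_).trans mk_image_le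
    intro a
    obtain ⟨l, hl⟩ := exists_gt (f a)
    obtain ⟨s, hs, hls⟩ := hS l
    refine ⟨g s, ⟨s, hs, rfl⟩, ?_⟩
    by_contra hcon
    push Not at hcon
    have h1 := hf hcon.le
    have h2 := hg s
    exact absurd (lt_of_lt_of_le hl (hls.trans (h2.trans h1))) (lt_irrefl _)
  · obtain ⟨S, hS, hSc⟩ := Order.exists_cof_eq A
    rw [← hSc]
    refine (Order.cof_le (s := f '' S) ?_).trans mk_image_le
    intro l
    obtain ⟨a, ha⟩ := hc l
    obtain ⟨s, hs, has⟩ := hS a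
    exact ⟨f s, ⟨s, hs, rfl⟩, ha.trans (hf has)⟩

variable {c : Cardinal.{u}} {C : Set (Ordinal.{u} × Ordinal.{u})}

lemma DiffAt.unique {x y : Ordinal.{u} → Bool} {ξ ζ : Ordinal.{u}} (h : DiffAt x y ξ)
    (h' : DiffAt x y ζ) : ξ = ζ := by
  rcases lt_trichotomy ξ ζ with h1 | h1 | h1
  · have := h'.1 ξ h1
    rw [h.2.1, h.2.2] at this
    exact absurd this (by simp)
  · exact h1
  · have := h.1 ζ h1
    rw [h'.2.1, h'.2.2] at this
    exact absurd this (by simp)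

lemma noMax_of_limit {δ : Ordinal.{u}} (hδ : IsSuccLimit δ) : NoMaxOrder (Iio δ) := by
  refine ⟨fun ξ => ?_⟩
  exact ⟨⟨ξ.1 + 1, by
    have := hδ.succ_lt ξ.2
    rwa [← Order.succ_eq_add_one]⟩, by
    show ξ.1 < ξ.1 + 1
    exact lt_add_one _⟩

lemma cofA (w : Ordinal.{u} → Bool) (δ : Ordinal.{u}) (hδ : IsSuccLimit δ) (A : Set (T c C))
    (h1 : ∀ a ∈ A, ∃ ξ < δ, DiffAt a.seq w ξ)
    (h2 : ∀ ξ < δ, ∃ a ∈ A, ∃ ζ, ξ ≤ ζ ∧ DiffAt a.seq w ζ) :
    Order.cof A = Cardinal.lift.{u + 1} δ.cof := by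
  haveI := noMax_of_limit hδ
  choose d hd1 hd2 using h1
  rw [Ordinal.lift_cof, ← Ordinal.cof_Iio]
  refine cof_of_monotone (fun a : A => (⟨d a.1 a.2, hd1 a.1 a.2⟩ : Iio δ)) ?_ ?_
  · intro a b hab
    show d a.1 a.2 ≤ d b.1 b.2
    by_contra hcon
    push Not at hcon
    have ha := hd2 a.1 a.2
    have hb := hd2 b.1 b.2
    have : b.1 < a.1 := T.lt_of_diff (ξ := d b.1 b.2)
      ⟨fun η hη => by rw [hb.1 η hη, ha.1 η (hη.trans hcon)], hb.2.1,
        by rw [ha.1 _ hcon]; exact hb.2.2⟩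
    exact absurd this (not_lt.mpr hab)
  · intro ξ
    obtain ⟨a, ha, ζ, hζ, hdiff⟩ := h2 ξ.1 ξ.2
    refine ⟨⟨a, ha⟩, ?_⟩
    show ξ.1 ≤ d a ha
    rw [(hd2 a ha).unique hdiff]
    exact hζ

lemma cofB (w : Ordinal.{u} → Bool) (δ : Ordinal.{u}) (hδ : IsSuccLimit δ) (B : Set (T c C))
    (h1 : ∀ b ∈ B, ∃ ξ < δ, DiffAt w b.seq ξ)
    (h2 : ∀ ξ < δ, ∃ b ∈ B, ∃ ζ, ξ ≤ ζ ∧ DiffAt w b.seq ζ) :
    Order.cof (↥B)ᵒᵈ = Cardinal.lift.{u + 1} δ.cof := by
  haveI := noMax_of_limit hδ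
  choose d hd1 hd2 using h1
  rw [Ordinal.lift_cof, ← Ordinal.cof_Iio]
  refine cof_of_monotone (fun b : (↥B)ᵒᵈ => (⟨d (OrderDual.ofDual b).1 (OrderDual.ofDual b).2,
    hd1 _ _⟩ : Iio δ)) ?_ ?_
  · intro a b hab
    show d (OrderDual.ofDual a).1 (OrderDual.ofDual a).2 ≤
      d (OrderDual.ofDual b).1 (OrderDual.ofDual b).2
    by_contra hcon
    push Not at hcon
    have ha := hd2 (OrderDual.ofDual a).1 (OrderDual.ofDual a).2
    have hb := hd2 (OrderDual.ofDual b).1 (OrderDual.ofDual b).2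
    have : (OrderDual.ofDual a).1 < (OrderDual.ofDual b).1 := T.lt_of_diff
      (ξ := d (OrderDual.ofDual b).1 (OrderDual.ofDual b).2)
      ⟨fun η hη => by rw [← hb.1 η hη, ← ha.1 η (hη.trans hcon)],
        by rw [← ha.1 _ hcon]; exact hb.2.1, hb.2.2⟩
    have hab' : (OrderDual.ofDual b).1 ≤ (OrderDual.ofDual a).1 := hab
    exact absurd this (not_lt.mpr hab')
  · intro ξ
    obtain ⟨a, ha, ζ, hζ, hdiff⟩ := h2 ξ.1 ξ.2
    refine ⟨OrderDual.toDual ⟨a, ha⟩, ?_⟩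
    show ξ.1 ≤ d a ha
    rw [(hd2 a ha).unique hdiff]
    exact hζ

/-- A cut of a linear order, in the sense of the problem. -/
structure Cut {α : Type v} [LinearOrder α] (A B : Set α) : Prop where
  neA : A.Nonempty
  neB : B.Nonempty
  lt : ∀ a ∈ A, ∀ b ∈ B, a < b
  noMax : ∀ a ∈ A, ∃ a' ∈ A, a < a'
  noMin : ∀ b ∈ B, ∃ b' ∈ B, b' < b
  cover : A ∪ B = Set.univ ∨
    ∃ r, (∀ a ∈ A, a < r) ∧ (∀ b ∈ B, r < b) ∧ A ∪ {r} ∪ B = Set.univ

lemma limit_ord (P : Par c C) : IsSuccLimit c.ord := by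
  rw [← aleph0_le_cof, P.reg.cof_ord]
  exact P.reg.1

lemma DiffAt.of_congr {x y x' y' : Ordinal.{u} → Bool} {ξ : Ordinal.{u}} (h : DiffAt x y ξ)
    (hx : ∀ η ≤ ξ, x' η = x η) (hy : ∀ η ≤ ξ, y' η = y η) : DiffAt x' y' ξ :=
  ⟨fun η hη => by rw [hx η hη.le, hy η hη.le, h.1 η hη], by rw [hx ξ le_rfl, h.2.1],
    by rw [hy ξ le_rfl, h.2.2]⟩

/-- least position satisfying a property -/
lemma least (p : Ordinal.{u} → Prop) (h : ∃ ξ, p ξ) : ∃ ξ, p ξ ∧ ∀ η < ξ, ¬ p η := by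
  refine ⟨sInf {ξ | p ξ}, csInf_mem (s := {ξ | p ξ}) h, ?_⟩
  intro η hη hp
  exact absurd (csInf_le' (s := {ξ | p ξ}) hp) (not_le.mpr hη)

/-- case of a cut filled by a point -/
lemma cut_point (P : Par c C) {A B : Set (T c C)} (r : T c C) (hA : ∀ a ∈ A, a < r)
    (hB : ∀ b ∈ B, r < b) (hcov : A ∪ {r} ∪ B = Set.univ) :
    Order.cof A = Cardinal.lift.{u + 1} c := by
  have key := cofA (c := c) (C := C) r.seq c.ord (limit_ord P) A
    (fun a ha => T.exists_diff (hA a ha)) (by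
      intro ξ hξ
      obtain ⟨ξ₀, h1, halt⟩ := r.mem.alt
      have h2 : ξ₀ + 1 + 1 < c.ord := P.succ_lt (P.succ_lt h1)
      obtain ⟨ζ, h3, h4, h5⟩ := exists_val P r true (max ξ (ξ₀ + 1 + 1)) (max_lt hξ h2)
      have hz : ξ₀ + 1 < ζ := lt_of_lt_of_le (lt_add_one _) ((le_max_right _ _).trans h3)
      have hcl : Safe C (Function.update r.seq ζ false) (ζ + 1) :=
        safe_zero P r.mem h4 (fun η hη => Function.update_of_ne hη.ne _ _) halt hz
      let a : T c C := att P (Function.update r.seq ζ false) (ζ + 1) (P.succ_lt h4) hcl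
        (nc_succ _ _) r
      have hag : ∀ η < ζ + 1, a.seq η = Function.update r.seq ζ false η :=
        att_agree P _ _ _ _ _ _
      have hdiff : DiffAt a.seq r.seq ζ := by
        refine ⟨fun η hη => ?_, ?_, h5⟩
        · rw [hag η (hη.trans (lt_add_one _)), Function.update_of_ne hη.ne]
        · rw [hag ζ (lt_add_one _), Function.update_self]
      have har : a < r := T.lt_of_diff hdiff
      have hmem : a ∈ A ∪ {r} ∪ B := by rw [hcov]; trivial
      refine ⟨a, ?_, ζ, (le_max_left _ _).trans h3, hdiff⟩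
      rcases hmem with (h | h) | h
      · exact h
      · rw [mem_singleton_iff] at h
        exact absurd har (by rw [h]; exact lt_irrefl _)
      · exact absurd (hB a h) (not_lt.mpr har.le))
  rw [key, P.reg.cof_ord]

end Pool.Agent.H8Hom
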