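import Mathlib
import Pool.Agent.H8.HomCof

set_option autoImplicit false

universe u v

open Ordinal Cardinal Order Set

namespace Pool.Agent.H8Hom

variable {c : Cardinal.{u}} {C : Set (Ordinal.{u} × Ordinal.{u})}

lemma diff_zero {w x : Ordinal.{u} → Bool} {ρ ζ : Ordinal.{u}} (h : ∀ η < ρ, x η = w η)
    (hζ : ρ ≤ ζ) (hx : x ζ = true) : ∃ ξ ≤ ζ, DiffAt (cat w ρ (fun _ => false)) x ξ := by
  obtain ⟨ξ, ⟨h1, h2⟩, h3⟩ := least (fun ξ => ρ ≤ ξ ∧ x ξ = true) ⟨ζ, hζ, hx⟩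
  refine ⟨ξ, ?_, ?_, ?_, h2⟩
  · by_contra hcon
    push Not at hcon
    exact h3 ζ hcon ⟨hζ, hx⟩
  · intro η hη
    rcases lt_or_ge η ρ with h4 | h4
    · rw [cat_of_lt _ _ h4, h η h4]
    · rw [cat_of_le _ _ h4]
      have := h3 η hη
      push Not at this
      simpa using (this h4)
  · rw [cat_of_le _ _ h1]

lemma diff_one {w x : Ordinal.{u} → Bool} {ρ ζ : Ordinal.{u}} (h : ∀ η < ρ, x η = w η)
    (hζ : ρ ≤ ζ) (hx : x ζ = false) : ∃ ξ ≤ ζ, DiffAt x (cat w ρ (fun _ => true)) ξ := by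
  obtain ⟨ξ, ⟨h1, h2⟩, h3⟩ := least (fun ξ => ρ ≤ ξ ∧ x ξ = false) ⟨ζ, hζ, hx⟩
  refine ⟨ξ, ?_, ?_, h2, ?_⟩
  · by_contra hcon
    push Not at hcon
    exact h3 ζ hcon ⟨hζ, hx⟩
  · intro η hη
    rcases lt_or_ge η ρ with h4 | h4
    · rw [cat_of_lt _ _ h4, h η h4]
    · rw [cat_of_le _ _ h4]
      have := h3 η hη
      push Not at this
      simpa using (this h4)
  · rw [cat_of_le _ _ h1]

lemma DiffAt.cat_left {w b y : Ordinal.{u} → Bool} {ρ ξ : Ordinal.{u}} (h : DiffAt w b ξ)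
    (hξ : ξ < ρ) : DiffAt (cat w ρ y) b ξ :=
  h.of_congr (fun _ hη => cat_of_lt _ _ (lt_of_le_of_lt hη hξ)) (fun _ _ => rfl)

lemma DiffAt.cat_right {w a y : Ordinal.{u} → Bool} {ρ ξ : Ordinal.{u}} (h : DiffAt a w ξ)
    (hξ : ξ < ρ) : DiffAt a (cat w ρ y) ξ :=
  h.of_congr (fun _ _ => rfl) (fun _ hη => cat_of_lt _ _ (lt_of_le_of_lt hη hξ))

lemma diff_cat_zrun (P : Par c C) (w : Ordinal.{u} → Bool) (ρ η : Ordinal.{u}) :
    DiffAt (cat w ρ (fun _ => false)) (cat w ρ (zrun c η)) (ρ + η) := by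
  refine ⟨?_, ?_, ?_⟩
  · intro ζ hζ
    rcases lt_or_ge ζ ρ with h4 | h4
    · rw [cat_of_lt _ _ h4, cat_of_lt _ _ h4]
    · rw [cat_of_le _ _ h4, cat_of_le _ _ h4, zrun_of_lt]
      rw [Ordinal.sub_lt_of_le h4]; exact hζ
  · rw [cat_add]
  · rw [cat_add]; exact zrun_self P η

lemma diff_cat_orun (P : Par c C) (w : Ordinal.{u} → Bool) (ρ η : Ordinal.{u}) :
    DiffAt (cat w ρ (orun c η)) (cat w ρ (fun _ => true)) (ρ + η) := by
  refine ⟨?_, ?_, ?_⟩
  · intro ζ hζ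
    rcases lt_or_ge ζ ρ with h4 | h4
    · rw [cat_of_lt _ _ h4, cat_of_lt _ _ h4]
    · rw [cat_of_le _ _ h4, cat_of_le _ _ h4, orun_of_lt]
      rw [Ordinal.sub_lt_of_le h4]; exact hζ
  · rw [cat_add]; exact orun_self P η
  · rw [cat_add]

/-- some pair agrees below `ξ` -/
def Ag (A B : Set (T c C)) (ξ : Ordinal.{u}) : Prop :=
  ∃ a ∈ A, ∃ b ∈ B, ∀ η < ξ, a.seq η = b.seq η

lemma pair_agree {A B : Set (T c C)} (hlt : ∀ a ∈ A, ∀ b ∈ B, a < b) {a b a' b' : T c C}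
    (ha : a ∈ A) (hb : b ∈ B) (ha' : a' ∈ A) (hb' : b' ∈ B) {ξ : Ordinal.{u}}
    (h : ∀ η < ξ, a.seq η = b.seq η) (h' : ∀ η < ξ, a'.seq η = b'.seq η) :
    ∀ η < ξ, a.seq η = a'.seq η := by
  by_contra hcon
  push Not at hcon
  obtain ⟨ξ₀, ⟨h1, h2⟩, h3⟩ := least (fun η => η < ξ ∧ a.seq η ≠ a'.seq η) hcon
  have h4 : ∀ η < ξ₀, a.seq η = a'.seq η := by
    intro η hη
    by_contra hne
    exact h3 η hη ⟨hη.trans h1, hne⟩
  cases ha0 : a.seq ξ₀ <;> cases ha1 : a'.seq ξ₀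
  · exact h2 (by rw [ha0, ha1])
  · -- a ξ₀ = 0, a' ξ₀ = 1 : b < a'
    have : b < a' := T.lt_of_diff (ξ := ξ₀)
      ⟨fun η hη => by rw [← h η (hη.trans h1), h4 η hη], by rw [← h ξ₀ h1, ha0], ha1⟩
    exact absurd (hlt a' ha' b hb) (not_lt.mpr this.le)
  · have : b' < a := T.lt_of_diff (ξ := ξ₀)
      ⟨fun η hη => by rw [← h' η (hη.trans h1), ← h4 η hη], by rw [← h' ξ₀ h1, ha1], ha0⟩
    exact absurd (hlt a ha b' hb') (not_lt.mpr this.le)
  · exact h2 (by rw [ha0, ha1])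

open Classical in
/-- the common word -/
noncomputable def cw (A B : Set (T c C)) : Ordinal.{u} → Bool := fun ξ =>
  decide (∃ a ∈ A, ∃ b ∈ B, (∀ η < ξ + 1, a.seq η = b.seq η) ∧ a.seq ξ = true)

lemma cw_eq {A B : Set (T c C)} (hlt : ∀ a ∈ A, ∀ b ∈ B, a < b) {a b : T c C}
    (ha : a ∈ A) (hb : b ∈ B) {ξ : Ordinal.{u}} (h : ∀ η < ξ, a.seq η = b.seq η) :
    ∀ η < ξ, a.seq η = cw A B η := by
  intro η hη
  have h1 : ∀ ζ < η + 1, a.seq ζ = b.seq ζ := fun ζ hζ =>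
    h ζ (lt_of_le_of_lt (lt_add_one_iff.mp hζ) hη)
  cases h2 : a.seq η
  · symm
    simp only [cw, decide_eq_false_iff_not]
    rintro ⟨a', ha', b', hb', h3, h4⟩
    have := pair_agree hlt ha hb ha' hb' h1 h3 η (lt_add_one _)
    rw [h2, h4] at this
    exact absurd this (by simp)
  · symm
    simp only [cw, decide_eq_true_eq]
    exact ⟨a, ha, b, hb, h1, h2⟩

/-- elements of `A` against the common word -/
lemma elemA {A B : Set (T c C)} (hlt : ∀ a ∈ A, ∀ b ∈ B, a < b) {δ : Ordinal.{u}}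
    (hδ : IsSuccLimit δ) (hAg : ∀ ξ < δ, Ag A B ξ) {a : T c C} (ha : a ∈ A) :
    (∀ η < δ, a.seq η = cw A B η) ∨ ∃ ξ < δ, DiffAt a.seq (cw A B) ξ := by
  by_cases hall : ∀ η < δ, a.seq η = cw A B η
  · exact Or.inl hall
  · right
    push Not at hall
    obtain ⟨ξ, ⟨h1, h2⟩, h3⟩ := least (fun η => η < δ ∧ a.seq η ≠ cw A B η) hall
    have h4 : ∀ η < ξ, a.seq η = cw A B η := by
      intro η hη
      by_contra hne
      exact h3 η hη ⟨hη.trans h1, hne⟩
    refine ⟨ξ, h1, h4, ?_⟩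
    have h5 : ξ + 1 < δ := by
      rw [← Order.succ_eq_add_one]; exact hδ.succ_lt h1
    obtain ⟨a', ha', b', hb', h6⟩ := hAg (ξ + 1) h5
    have h7 := cw_eq hlt ha' hb' h6
    cases ha0 : a.seq ξ <;> cases hw : cw A B ξ
    · exact absurd (by rw [ha0, hw]) h2
    · exact ⟨rfl, rfl⟩
    · have : b' < a := T.lt_of_diff (ξ := ξ)
        ⟨fun η hη => by
          rw [← h6 η (hη.trans (lt_add_one _)), h7 η (hη.trans (lt_add_one _)), h4 η hη],
          by rw [← h6 ξ (lt_add_one _), h7 ξ (lt_add_one _), hw], ha0⟩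
      exact absurd (hlt a ha b' hb') (not_lt.mpr this.le)
    · exact absurd (by rw [ha0, hw]) h2

lemma elemB {A B : Set (T c C)} (hlt : ∀ a ∈ A, ∀ b ∈ B, a < b) {δ : Ordinal.{u}}
    (hδ : IsSuccLimit δ) (hAg : ∀ ξ < δ, Ag A B ξ) {b : T c C} (hb : b ∈ B) :
    (∀ η < δ, b.seq η = cw A B η) ∨ ∃ ξ < δ, DiffAt (cw A B) b.seq ξ := by
  by_cases hall : ∀ η < δ, b.seq η = cw A B η
  · exact Or.inl hall
  · right
    push Not at hall
    obtain ⟨ξ, ⟨h1, h2⟩, h3⟩ := least (fun η => η < δ ∧ b.seq η ≠ cw A B η) hall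
    have h4 : ∀ η < ξ, b.seq η = cw A B η := by
      intro η hη
      by_contra hne
      exact h3 η hη ⟨hη.trans h1, hne⟩
    refine ⟨ξ, h1, fun η hη => (h4 η hη).symm, ?_⟩
    have h5 : ξ + 1 < δ := by
      rw [← Order.succ_eq_add_one]; exact hδ.succ_lt h1
    obtain ⟨a', ha', b', hb', h6⟩ := hAg (ξ + 1) h5
    have h7 := cw_eq hlt ha' hb' h6
    cases hb0 : b.seq ξ <;> cases hw : cw A B ξ
    · exact absurd (by rw [hb0, hw]) h2
    · have : b < a' := T.lt_of_diff (ξ := ξ)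
        ⟨fun η hη => by
          rw [h7 η (hη.trans (lt_add_one _)), h4 η hη],
          hb0, by rw [h7 ξ (lt_add_one _), hw]⟩
      exact absurd (hlt a' ha' b hb) (not_lt.mpr this.le)
    · exact ⟨rfl, rfl⟩
    · exact absurd (by rw [hb0, hw]) h2

/-- successor case -/
lemma cut_succ (P : Par c C) {A B : Set (T c C)} (hlt : ∀ a ∈ A, ∀ b ∈ B, a < b)
    (hcov : A ∪ B = Set.univ) {m : Ordinal.{u}} (hm : Ag A B m) (hm' : ¬ Ag A B (m + 1)) :
    Order.cof (↥B)ᵒᵈ = Cardinal.lift.{u + 1} c := by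
  obtain ⟨a₀, ha₀, b₀, hb₀, hab⟩ := hm
  have hpair : ∀ a ∈ A, ∀ b ∈ B, (∀ η < m, a.seq η = b.seq η) →
      a.seq m = false ∧ b.seq m = true := by
    intro a ha b hb h
    obtain ⟨ξ, h1, h2⟩ := (T.lt_iff a b).mp (hlt a ha b hb)
    rcases lt_trichotomy ξ m with h3 | h3 | h3
    · have := h ξ h3
      rw [h2.1, h2.2] at this
      exact absurd this (by simp)
    · subst h3; exact h2
    · exfalso
      apply hm'
      exact ⟨a, ha, b, hb, fun η hη => h1 η (lt_of_le_of_lt (lt_add_one_iff.mp hη) h3)⟩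
  have hmc : m < c.ord := by
    by_contra hcon
    push Not at hcon
    have := (hpair a₀ ha₀ b₀ hb₀ hab).2
    rw [b₀.mem.supp m hcon] at this
    exact absurd this (by simp)
  have hb0 : b₀.seq m = true := (hpair a₀ ha₀ b₀ hb₀ hab).2
  have hinB : ∀ x : T c C, (∀ η < m, x.seq η = b₀.seq η) → x.seq m = true → x ∈ B := by
    intro x hx hxm
    have : x ∈ A ∪ B := by rw [hcov]; trivial
    rcases this with h | h
    · have := (hpair x h b₀ hb₀ hx).1
      rw [hxm] at this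
      exact absurd this (by simp)
    · exact h
  have key := cofB (c := c) (C := C) (cat b₀.seq (m + 1) (fun _ => false)) c.ord (limit_ord P) B
    (by
      intro b hb
      by_cases hag : ∀ η < m, b.seq η = b₀.seq η
      · have hbm : b.seq m = true :=
          (hpair a₀ ha₀ b hb (fun η hη => by rw [hab η hη, hag η hη])).2
        have hag' : ∀ η < m + 1, b.seq η = b₀.seq η := by
          intro η hη
          rcases (lt_add_one_iff.mp hη).lt_or_eq with h | h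
          · exact hag η h
          · rw [h, hbm, hb0]
        obtain ⟨ζ, h3, h4, h5⟩ := exists_val P b true (m + 1) (P.succ_lt hmc)
        obtain ⟨ξ, h6, h7⟩ := diff_zero hag' h3 h5
        exact ⟨ξ, lt_of_le_of_lt h6 h4, h7⟩
      · obtain ⟨ξ, h1, h2⟩ := (T.lt_iff a₀ b).mp (hlt a₀ ha₀ b hb)
        have hξ : ξ < m := by
          by_contra hcon
          push Not at hcon
          apply hag
          intro η hη
          rw [← h1 η (lt_of_lt_of_le hη hcon), hab η hη]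
        refine ⟨ξ, hξ.trans hmc, ?_⟩
        apply DiffAt.of_congr (x := a₀.seq) (y := b.seq) ⟨h1, h2⟩ _ (fun _ _ => rfl)
        intro η hη
        rw [cat_of_lt _ _ (lt_of_le_of_lt hη (hξ.trans (lt_add_one _))),
          hab η (lt_of_le_of_lt hη hξ)])
    (by
      intro ξ hξ
      let x : T c C := T.mk (cat b₀.seq (m + 1) (zrun c ξ))
        (mem_cat_of_clean P (P.succ_lt hmc) (clean_self b₀ hmc hb0) (nc_succ _ _) (mem_zrun P hξ))
      refine ⟨x, hinB x ?_ ?_, m + 1 + ξ, le_add_self, diff_cat_zrun P _ _ _⟩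
      · intro η hη
        exact cat_of_lt _ _ (hη.trans (lt_add_one _))
      · rw [← hb0]
        exact cat_of_lt _ _ (lt_add_one _))
  rw [key, P.reg.cof_ord]

/-- limit case, some element of `A` agrees with the common word -/
lemma cut_limA (P : Par c C) {A B : Set (T c C)} (hlt : ∀ a ∈ A, ∀ b ∈ B, a < b)
    (hmax : ∀ a ∈ A, ∃ a' ∈ A, a < a')
    (hcov : A ∪ B = Set.univ) {δ : Ordinal.{u}} (hδ : IsSuccLimit δ) (hδc : δ ≤ c.ord)
    (hAg : ∀ ξ < δ, Ag A B ξ)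
    (hδ' : ¬ Ag A B δ) {a₀ : T c C} (ha₀ : a₀ ∈ A) (hag₀ : ∀ η < δ, a₀.seq η = cw A B η) :
    Order.cof A = Cardinal.lift.{u + 1} c := by
  have hδlt : δ < c.ord := by
    rcases hδc.lt_or_eq with h | h
    · exact h
    · exfalso
      obtain ⟨a, ha, haa⟩ := hmax a₀ ha₀
      rcases elemA hlt hδ hAg ha with h1 | ⟨ξ, h1, h2⟩
      · apply haa.ne
        apply T.ext
        intro ξ
        rcases lt_or_ge ξ δ with h3 | h3
        · rw [h1 ξ h3, hag₀ ξ h3]
        · rw [h] at h3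
          rw [a.mem.supp ξ h3, a₀.mem.supp ξ h3]
      · have : a < a₀ := T.lt_of_diff (ξ := ξ)
          (h2.of_congr (fun _ _ => rfl) (fun η hη => hag₀ η (lt_of_le_of_lt hη h1)))
        exact absurd haa (not_lt.mpr this.le)
  have key := cofA (c := c) (C := C) (cat (cw A B) δ (fun _ => true)) c.ord (limit_ord P) A
    (by
      intro a ha
      rcases elemA hlt hδ hAg ha with h1 | ⟨ξ, h1, h2⟩
      · obtain ⟨ζ, h3, h4, h5⟩ := exists_val P a false δ hδlt
        obtain ⟨ξ, h6, h7⟩ := diff_one h1 h3 h5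
        exact ⟨ξ, lt_of_le_of_lt h6 h4, h7⟩
      · exact ⟨ξ, h1.trans hδlt, h2.cat_right h1⟩)
    (by
      intro ξ hξ
      let x : T c C := T.mk (cat (cw A B) δ (orun c (ξ + 1)))
        (mem_cat'' P hδlt (mem_orun P (P.succ_lt hξ)) (by
          intro l hl p hp h1 h2
          have h3 : Coded p.2 a₀.seq l :=
            coded_congr (fun η hη => (hag₀ η (lt_of_lt_of_le hη hl)).symm) h2
          obtain ⟨η, h4, h5⟩ := nbad_exists a₀.mem (lt_of_le_of_lt hl hδlt) hp h1 h3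
          rcases lt_or_ge (l + η) δ with h6 | h6
          · exact ⟨η, h4, by rw [cat_of_lt _ _ h6, ← hag₀ _ h6]; exact h5⟩
          · refine ⟨δ - l, lt_of_le_of_lt (Ordinal.sub_le.mpr h6) h4, ?_⟩
            rw [Ordinal.add_sub_cancel_of_le hl]
            have h7 := cat_add (cw A B) δ 0 (orun c (ξ + 1))
            rw [add_zero] at h7
            rw [h7]
            exact orun_of_lt (lt_of_lt_of_le zero_lt_one le_add_self)))
      have hag : ∀ η < δ, x.seq η = cw A B η := fun η hη => cat_of_lt _ _ hη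
      refine ⟨x, ?_, δ + (ξ + 1), ?_, diff_cat_orun P _ _ _⟩
      · have : x ∈ A ∪ B := by rw [hcov]; trivial
        rcases this with h | h
        · exact h
        · exfalso
          exact hδ' ⟨a₀, ha₀, x, h, fun η hη => by rw [hag₀ η hη, hag η hη]⟩
      · exact le_self_add.trans le_add_self)
  rw [key, P.reg.cof_ord]

/-- the forward theorem -/
theorem forward (P : Par c C) {A B : Set (T c C)} (hcut : Cut A B) {α β : Ordinal.{u}}
    (hα : ℵ_ α < c) (hβ : ℵ_ β < c)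
    (h1 : Order.cof A = Cardinal.lift.{u + 1} (ℵ_ α))
    (h2 : Order.cof (↥B)ᵒᵈ = Cardinal.lift.{u + 1} (ℵ_ β)) : (α, β) ∈ C := by
  have noA : Order.cof A ≠ Cardinal.lift.{u + 1} c := by
    rw [h1]
    intro h
    exact hα.ne (Cardinal.lift_inj.mp h)
  have noB : Order.cof (↥B)ᵒᵈ ≠ Cardinal.lift.{u + 1} c := by
    rw [h2]
    intro h
    exact hβ.ne (Cardinal.lift_inj.mp h)
  rcases hcut.cover with hcov | ⟨r, hr1, hr2, hr3⟩
  swap
  · exact absurd (cut_point P r hr1 hr2 hr3) noA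
  have hlt := hcut.lt
  have hc : ¬ Ag A B c.ord := by
    rintro ⟨a, ha, b, hb, h⟩
    apply (hlt a ha b hb).ne
    apply T.ext
    intro ξ
    rcases lt_or_ge ξ c.ord with h3 | h3
    · exact h ξ h3
    · rw [a.mem.supp ξ h3, b.mem.supp ξ h3]
  obtain ⟨δ, hδ', hAg⟩ := least (fun ξ => ¬ Ag A B ξ) ⟨c.ord, hc⟩
  have hAg : ∀ ξ < δ, Ag A B ξ := fun ξ hξ => not_not.mp (hAg ξ hξ)
  have hδc : δ ≤ c.ord := by
    by_contra hcon
    push Not at hcon
    exact hc (hAg _ hcon)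
  rcases Ordinal.zero_or_succ_or_isSuccLimit δ with hz | ⟨m, hm⟩ | hδ
  · exfalso
    apply hδ'
    obtain ⟨a, ha⟩ := hcut.neA
    obtain ⟨b, hb⟩ := hcut.neB
    refine ⟨a, ha, b, hb, fun η hη => ?_⟩
    rw [hz] at hη
    exact absurd hη (not_lt.mpr zero_le)
  · exfalso
    have hm1 : δ = m + 1 := by
      first
      | exact hm
      | exact hm.symm
    apply noB
    apply cut_succ P hlt hcov (hAg m (by rw [hm1]; exact lt_add_one _))
    rw [← hm1]; exact hδ'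
  by_cases hex : ∃ a₀ ∈ A, ∀ η < δ, a₀.seq η = cw A B η
  · obtain ⟨a₀, ha₀, hag₀⟩ := hex
    exact absurd (cut_limA P hlt hcut.noMax hcov hδ hδc hAg hδ' ha₀ hag₀) noA
  have hex' : ∀ a ∈ A, ∃ ξ < δ, DiffAt a.seq (cw A B) ξ := by
    intro a ha
    rcases elemA hlt hδ hAg ha with h | h
    · exact absurd ⟨a, ha, h⟩ hex
    · exact h
  have hfar : ∀ ξ < δ, ∃ a ∈ A, ∃ ζ, ξ ≤ ζ ∧ ζ < δ ∧ DiffAt a.seq (cw A B) ζ := by
    intro ξ hξ
    obtain ⟨a, ha, b, hb, hab⟩ := hAg ξ hξ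
    have h3 := cw_eq hlt ha hb hab
    obtain ⟨ζ, h4, h5⟩ := hex' a ha
    refine ⟨a, ha, ζ, ?_, h4, h5⟩
    by_contra hcon
    push Not at hcon
    have := h3 ζ hcon
    rw [h5.2.1, h5.2.2] at this
    exact absurd this (by simp)
  have keyA := cofA (c := c) (C := C) (cw A B) δ hδ A hex' (by
    intro ξ hξ
    obtain ⟨a, ha, ζ, h3, -, h4⟩ := hfar ξ hξ
    exact ⟨a, ha, ζ, h3, h4⟩)
  have hcofδ : δ.cof = ℵ_ α := by
    rw [h1] at keyA
    exact (Cardinal.lift_inj.mp keyA).symm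
  have hδlt : δ < c.ord := by
    rcases hδc.lt_or_eq with h | h
    · exact h
    · exfalso
      rw [h, P.reg.cof_ord] at hcofδ
      exact hα.ne hcofδ.symm
  have hsafe : Safe C (cw A B) δ := by
    intro l hl p hp h3 h4
    have hl1 : l + 1 < δ := by
      rw [← Order.succ_eq_add_one]; exact hδ.succ_lt hl
    obtain ⟨a, ha, ξ, h5, h6, h7⟩ := hfar (l + 1) hl1
    have hlξ : l < ξ := lt_of_lt_of_le (lt_add_one l) h5
    have h8 : Coded p.2 a.seq l := coded_congr (fun η hη => (h7.1 η (hη.trans hlξ)).symm) h4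
    obtain ⟨η, h9, h10⟩ := nbad_exists a.mem (hl.trans hδlt) hp h3 h8
    rcases lt_or_ge (l + η) ξ with h11 | h11
    · exact ⟨η, h9, h11.trans h6, by rw [← h7.1 _ h11]; exact h10⟩
    · refine ⟨ξ - l, lt_of_le_of_lt (Ordinal.sub_le.mpr h11) h9, ?_, ?_⟩
      · rw [Ordinal.add_sub_cancel_of_le hlξ.le]; exact h6
      · rw [Ordinal.add_sub_cancel_of_le hlξ.le]; exact h7.2.2
  have hinB : ∀ x : T c C, (∀ η < δ, x.seq η = cw A B η) → x ∈ B := by
    intro x hx
    have : x ∈ A ∪ B := by rw [hcov]; trivial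
    rcases this with h | h
    · exact absurd ⟨x, h, hx⟩ hex
    · exact h
  by_cases hp : ∃ p ∈ C, δ.cof = ℵ_ p.1 ∧ Coded p.2 (cw A B) δ
  · obtain ⟨p, hp, hp1, hp2⟩ := hp
    have hω : IsSuccLimit (ω_ p.2) := by
      rw [← ord_aleph]; exact isSuccLimit_ord (aleph0_le_aleph _)
    have hlim : IsSuccLimit (δ + ω_ p.2) := isSuccLimit_add δ hω
    have keyB := cofB (c := c) (C := C) (cat (cw A B) δ (fun _ => false)) (δ + ω_ p.2) hlim B
      (by
        intro b hb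
        rcases elemB hlt hδ hAg hb with h | ⟨ξ, h3, h4⟩
        · have h5 : Coded p.2 b.seq δ := coded_congr (fun η hη => (h η hη).symm) hp2
          obtain ⟨η, h6, h7⟩ := nbad_exists b.mem hδlt hp hp1 h5
          obtain ⟨ξ, h8, h9⟩ := diff_zero h le_self_add h7
          exact ⟨ξ, lt_of_le_of_lt h8 (by gcongr), h9⟩
        · exact ⟨ξ, h3.trans_le le_self_add, h4.cat_left h3⟩)
      (by
        intro ξ hξ
        have hη : ξ - δ < ω_ p.2 := Ordinal.sub_lt_of_lt_add hξ (Ordinal.omega_pos p.2)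
        let x : T c C := T.mk (cat (cw A B) δ (zrun c (ξ - δ)))
          (mem_cat P hδlt hsafe (mem_zrun P (hη.trans (P.omega_lt hp))) (by
            intro q hq h3 h4
            have : q.2 = p.2 := coded_unique h4 hp2
            rw [this]
            exact ⟨ξ - δ, hη, zrun_self P _⟩))
        refine ⟨x, hinB x (fun η hη => cat_of_lt _ _ hη), δ + (ξ - δ), ?_, diff_cat_zrun P _ _ _⟩
        rw [← Ordinal.sub_le])
    rw [h2] at keyB
    have h3 := Cardinal.lift_inj.mp keyB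
    rw [cof_add _ (Ordinal.omega_pos p.2).ne'] at h3
    rw [← ord_aleph, (P.reg2 p hp).cof_ord] at h3
    have e2 : β = p.2 := by simpa using h3
    have e1 : α = p.1 := by
      have := hcofδ.symm.trans hp1
      simpa using this
    rw [e1, e2]
    exact hp
  · exfalso
    push Not at hp
    apply noB
    have keyB := cofB (c := c) (C := C) (cat (cw A B) δ (fun _ => false)) c.ord (limit_ord P) B
      (by
        intro b hb
        rcases elemB hlt hδ hAg hb with h | ⟨ξ, h3, h4⟩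
        · obtain ⟨ζ, h5, h6, h7⟩ := exists_val P b true δ hδlt
          obtain ⟨ξ, h8, h9⟩ := diff_zero h h5 h7
          exact ⟨ξ, lt_of_le_of_lt h8 h6, h9⟩
        · exact ⟨ξ, h3.trans hδlt, h4.cat_left h3⟩)
      (by
        intro ξ hξ
        let x : T c C := T.mk (cat (cw A B) δ (zrun c ξ))
          (mem_cat_of_clean P hδlt hsafe (fun p hp' h3 h4 => hp p hp' h3 h4) (mem_zrun P hξ))
        exact ⟨x, hinB x (fun η hη => cat_of_lt _ _ hη), δ + ξ, le_add_self,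
          diff_cat_zrun P _ _ _⟩)
    rw [keyB, P.reg.cof_ord]

end Pool.Agent.H8Hom
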