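import Mathlib
import Pool.Agent.H8.HomFwd

set_option autoImplicit false

universe u v

open Ordinal Cardinal Order Set

namespace Pool.Agent.H8Hom

variable {c : Cardinal.{u}} {C : Set (Ordinal.{u} × Ordinal.{u})}

lemma DiffAt.trans {x w y : Ordinal.{u} → Bool} {ξ ζ : Ordinal.{u}} (h : DiffAt x w ξ)
    (h' : DiffAt w y ζ) : ∃ θ, DiffAt x y θ := by
  rcases lt_trichotomy ξ ζ with h1 | h1 | h1
  · exact ⟨ξ, fun η hη => by rw [h.1 η hη, h'.1 η (hη.trans h1)], h.2.1,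
      by rw [← h'.1 ξ h1]; exact h.2.2⟩
  · subst h1
    have := h.2.2
    rw [h'.2.1] at this
    exact absurd this (by simp)
  · exact ⟨ζ, fun η hη => by rw [h.1 η (hη.trans h1), h'.1 η hη],
      by rw [h.1 ζ h1]; exact h'.2.1, h'.2.2⟩

open Classical in
/-- periodic word: `0` followed by `β + 2` ones, repeated -/
noncomputable def pw (β : Ordinal.{u}) : Ordinal.{u} → Bool := fun ξ =>
  decide (ξ % (1 + (β + 2)) ≠ 0)

lemma Lpos (β : Ordinal.{u}) : (1 + (β + 2) : Ordinal.{u}) ≠ 0 :=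
  (lt_of_lt_of_le zero_lt_one le_self_add).ne'

lemma pw_mul (β q : Ordinal.{u}) : pw β ((1 + (β + 2)) * q) = false := by
  simp [pw]

lemma pw_mul_add (β q η : Ordinal.{u}) (h : η < β + 2) :
    pw β ((1 + (β + 2)) * q + 1 + η) = true := by
  have h1 : (1 + η : Ordinal.{u}) < 1 + (β + 2) := by gcongr
  simp only [pw, decide_eq_true_eq]
  rw [add_assoc, mul_add_mod_self, mod_eq_of_lt h1]
  exact (lt_of_lt_of_le zero_lt_one le_self_add).ne'

lemma pw_false {β ξ : Ordinal.{u}} (h : pw β ξ = false) : ∃ q, ξ = (1 + (β + 2)) * q := by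
  simp only [pw, decide_eq_false_iff_not, not_not] at h
  refine ⟨ξ / (1 + (β + 2)), ?_⟩
  have := div_add_mod ξ (1 + (β + 2))
  rw [h, add_zero] at this
  exact this.symm

lemma zero_lt_add_two (β : Ordinal.{u}) : 0 < β + 2 := lt_of_lt_of_le two_pos le_add_self

lemma one_lt_add_two (β : Ordinal.{u}) : 1 < β + 2 := by
  calc (1 : Ordinal.{u}) < 1 + 1 := lt_add_one 1
    _ = 2 := one_add_one_eq_two
    _ ≤ β + 2 := le_add_self

/-- of two consecutive letters one is a one -/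
lemma pw_two (β ξ : Ordinal.{u}) : pw β ξ = true ∨ pw β (ξ + 1) = true := by
  cases h : pw β ξ
  · right
    obtain ⟨q, rfl⟩ := pw_false h
    have := pw_mul_add β q 0 (zero_lt_add_two β)
    rwa [add_zero] at this
  · left; rfl

lemma pw_coded (β γ : Ordinal.{u}) (hγ : IsSuccLimit γ) : Coded β (pw β) ((1 + (β + 2)) * γ) := by
  have hL : 0 < 1 + (β + 2) := lt_of_lt_of_le zero_lt_one le_self_add
  have hstep : ∀ q, (1 + (β + 2)) * q < (1 + (β + 2)) * γ →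
      (1 + (β + 2)) * (q + 1) < (1 + (β + 2)) * γ := by
    intro q hq
    have h1 : q < γ := (mul_lt_mul_iff_right₀ hL).mp hq
    have h2 : q + 1 < γ := by rw [← Order.succ_eq_add_one]; exact hγ.succ_lt h1
    exact (mul_lt_mul_iff_right₀ hL).mpr h2
  have hpos : 0 < (1 + (β + 2)) * γ := mul_pos hL (pos_iff_ne_zero.mpr hγ.ne_bot)
  refine ⟨?_, 0, hpos, ?_⟩
  · intro ξ hξ
    have h1 := div_add_mod ξ (1 + (β + 2))
    have h2 : (1 + (β + 2)) * (ξ / (1 + (β + 2))) < (1 + (β + 2)) * γ :=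
      lt_of_le_of_lt (by
        calc (1 + (β + 2)) * (ξ / (1 + (β + 2)))
            ≤ (1 + (β + 2)) * (ξ / (1 + (β + 2))) + ξ % (1 + (β + 2)) := le_self_add
          _ = ξ := h1) hξ
    refine ⟨(1 + (β + 2)) * (ξ / (1 + (β + 2)) + 1), ?_, hstep _ h2, pw_mul _ _⟩
    rw [mul_add, mul_one]
    calc ξ = (1 + (β + 2)) * (ξ / (1 + (β + 2))) + ξ % (1 + (β + 2)) := h1.symm
      _ ≤ _ := by gcongr; exact (mod_lt ξ hL.ne').le
  · intro ξ _ hξ hx
    obtain ⟨q, rfl⟩ := pw_false hx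
    have e : (1 + (β + 2)) * q + 1 + (β + 2) = (1 + (β + 2)) * (q + 1) := by
      rw [mul_add ((1 + (β + 2)) : Ordinal.{u}) q 1, mul_one, add_assoc]
    refine ⟨?_, ?_, ?_⟩
    · rw [e]; exact hstep q hξ
    · rw [e]; exact pw_mul _ _
    · intro η hη
      exact pw_mul_add β q η hη

lemma pw_safe_limit (β δ : Ordinal.{u}) (hδ : IsSuccLimit δ) : Safe C (pw β) δ := by
  intro l hl p _ h1 _
  have h2 : l + 1 < δ := by rw [← Order.succ_eq_add_one]; exact hδ.succ_lt hl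
  rcases pw_two β l with h3 | h3
  · exact ⟨0, Ordinal.omega_pos _, by rw [add_zero]; exact hl, by rw [add_zero]; exact h3⟩
  · refine ⟨1, ?_, h2, h3⟩
    exact lt_of_lt_of_le one_lt_omega0 (Ordinal.omega0_le_omega _)

lemma pw_safe_two (β ρ : Ordinal.{u}) : Safe C (pw β) (ρ + 1 + 1) := by
  intro l hl p _ h1 _
  have hlim := isSuccLimit_of_aleph h1
  have h2 : l ≤ ρ := by
    rw [lt_add_one_iff] at hl
    rcases hl.lt_or_eq with h | h
    · exact lt_add_one_iff.mp h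
    · exfalso
      rw [h] at h1
      exact cof_succ_ne _ _ h1
  have h3 : l + 1 < ρ + 1 + 1 := lt_add_one_iff.mpr (by gcongr)
  rcases pw_two β l with h4 | h4
  · exact ⟨0, Ordinal.omega_pos _, by rw [add_zero]; exact hl, by rw [add_zero]; exact h4⟩
  · refine ⟨1, ?_, h3, h4⟩
    exact lt_of_lt_of_le one_lt_omega0 (Ordinal.omega0_le_omega _)

theorem converse (P : Par c C) {α β : Ordinal.{u}} (hp : (α, β) ∈ C) :
    ∃ A B : Set (T c C), Cut A B ∧ Order.cof A = Cardinal.lift.{u + 1} (ℵ_ α) ∧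
      Order.cof (↥B)ᵒᵈ = Cardinal.lift.{u + 1} (ℵ_ β) := by
  have hL : 0 < 1 + (β + 2) := lt_of_lt_of_le zero_lt_one le_self_add
  have hωα : IsSuccLimit (ω_ α) := by
    rw [← ord_aleph]; exact isSuccLimit_ord (aleph0_le_aleph _)
  have hωβ : IsSuccLimit (ω_ β) := by
    rw [← ord_aleph]; exact isSuccLimit_ord (aleph0_le_aleph _)
  obtain ⟨δ, hδdef⟩ : ∃ δ, δ = (1 + (β + 2)) * ω_ α := ⟨_, rfl⟩
  have hδ : IsSuccLimit δ := by
    rw [hδdef]; exact isSuccLimit_mul_right hL hωα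
  have hδcof : δ.cof = ℵ_ α := by
    rw [hδdef, cof_mul hL.ne' hωα.isSuccPrelimit, ← ord_aleph, (P.reg1 _ hp).cof_ord]
  have hβc : β < c.ord := lt_of_le_of_lt (Ordinal.le_omega_self β) (P.omega_lt hp)
  have hLc : 1 + (β + 2) < c.ord := P.add_lt P.one_lt (P.add_lt hβc P.two_lt)
  have hαc : ω_ α < c.ord := by
    rw [← ord_aleph, ord_lt_ord]; exact P.small1 _ hp
  have hδc : δ < c.ord := by
    rw [hδdef]; exact isPrincipal_mul_ord P.reg.1 hLc hαc
  have hcoded : Coded β (pw β) δ := by rw [hδdef]; exact pw_coded β _ hωα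
  have hcoded' : Coded β (cat (pw β) δ (fun _ => false)) δ :=
    coded_congr (fun ξ hξ => (cat_of_lt _ _ hξ).symm) hcoded
  have hlim2 : IsSuccLimit (δ + ω_ β) := isSuccLimit_add δ hωβ
  -- elements of A
  have elA : ∀ ξ < δ, ∃ x : T c C, ∃ ζ, ξ ≤ ζ ∧ ζ < δ ∧
      DiffAt x.seq (cat (pw β) δ (fun _ => false)) ζ := by
    intro ξ hξ
    obtain ⟨ζ, hζ1, hζ2, hζ3⟩ := hcoded.1 ξ hξ
    obtain ⟨q, rfl⟩ := pw_false hζ3
    have h1 : (1 + (β + 2)) * q + 1 < δ := by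
      rw [← Order.succ_eq_add_one]; exact hδ.succ_lt hζ2
    have h2 : (1 + (β + 2)) * q + 1 + 1 < δ := by
      rw [← Order.succ_eq_add_one]; exact hδ.succ_lt h1
    refine ⟨T.mk (cat (pw β) ((1 + (β + 2)) * q + 1 + 1) (altq c false))
      (mem_cat_of_clean P (h2.trans hδc) (pw_safe_two β _) (nc_succ _ _) (mem_altq P false)),
      (1 + (β + 2)) * q + 1 + 1, ?_, h2, ?_, ?_, ?_⟩
    · exact hζ1.trans (le_self_add.trans le_self_add)
    · intro η hη
      rw [T.seq_mk, cat_of_lt _ _ hη, cat_of_lt _ _ (hη.trans h2)]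
    · rw [T.seq_mk]
      have := cat_add (pw β) ((1 + (β + 2)) * q + 1 + 1) 0 (altq c false)
      rw [add_zero, altq_zero P] at this
      exact this
    · rw [cat_of_lt _ _ h2]
      exact pw_mul_add β q 1 (one_lt_add_two β)
  have elB : ∀ ξ < δ + ω_ β, ∃ x : T c C, ∃ ζ, ξ ≤ ζ ∧ ζ < δ + ω_ β ∧
      DiffAt (cat (pw β) δ (fun _ => false)) x.seq ζ := by
    intro ξ hξ
    have hη : ξ - δ < ω_ β := Ordinal.sub_lt_of_lt_add hξ (Ordinal.omega_pos β)
    refine ⟨T.mk (cat (pw β) δ (zrun c (ξ - δ)))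
      (mem_cat P hδc (pw_safe_limit β δ hδ) (mem_zrun P (hη.trans (P.omega_lt hp))) ?_),
      δ + (ξ - δ), ?_, ?_, diff_cat_zrun P _ _ _⟩
    · intro q hq h3 h4
      have : q.2 = β := coded_unique h4 hcoded
      rw [this]
      exact ⟨ξ - δ, hη, zrun_self P _⟩
    · rw [← Ordinal.sub_le]
    · gcongr
  refine ⟨{x | ∃ ξ < δ, DiffAt x.seq (cat (pw β) δ (fun _ => false)) ξ},
    {x | ∃ ξ < δ + ω_ β, DiffAt (cat (pw β) δ (fun _ => false)) x.seq ξ}, ?_, ?_, ?_⟩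
  · refine ⟨?_, ?_, ?_, ?_, ?_, Or.inl ?_⟩
    · obtain ⟨x, ζ, -, h1, h2⟩ := elA 0 (pos_iff_ne_zero.mpr hδ.ne_bot)
      exact ⟨x, ζ, h1, h2⟩
    · obtain ⟨x, ζ, -, h1, h2⟩ := elB 0 (pos_iff_ne_zero.mpr hlim2.ne_bot)
      exact ⟨x, ζ, h1, h2⟩
    · rintro a ⟨ξ, -, h1⟩ b ⟨ζ, -, h2⟩
      obtain ⟨θ, h3⟩ := h1.trans h2
      exact T.lt_of_diff h3
    · rintro a ⟨ξ, h1, h2⟩
      have h3 : ξ + 1 < δ := by rw [← Order.succ_eq_add_one]; exact hδ.succ_lt h1
      obtain ⟨x, ζ, h4, h5, h6⟩ := elA (ξ + 1) h3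
      refine ⟨x, ⟨ζ, h5, h6⟩, ?_⟩
      have hξζ : ξ < ζ := lt_of_lt_of_le (lt_add_one ξ) h4
      exact T.lt_of_diff (ξ := ξ) ⟨fun η hη => by rw [h2.1 η hη, h6.1 η (hη.trans hξζ)],
        h2.2.1, by rw [h6.1 ξ hξζ]; exact h2.2.2⟩
    · rintro b ⟨ξ, h1, h2⟩
      have h3 : ξ + 1 < δ + ω_ β := by rw [← Order.succ_eq_add_one]; exact hlim2.succ_lt h1
      obtain ⟨x, ζ, h4, h5, h6⟩ := elB (ξ + 1) h3
      refine ⟨x, ⟨ζ, h5, h6⟩, ?_⟩
      have hξζ : ξ < ζ := lt_of_lt_of_le (lt_add_one ξ) h4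
      exact T.lt_of_diff (ξ := ξ) ⟨fun η hη => by rw [← h6.1 η (hη.trans hξζ), h2.1 η hη],
        by rw [← h6.1 ξ hξζ]; exact h2.2.1, h2.2.2⟩
    · rw [Set.eq_univ_iff_forall]
      intro x
      by_cases h : ∃ ξ, ξ < δ + ω_ β ∧ x.seq ξ ≠ cat (pw β) δ (fun _ => false) ξ
      · obtain ⟨ξ, ⟨h1, h2⟩, h3⟩ := least _ h
        have h4 : ∀ η < ξ, x.seq η = cat (pw β) δ (fun _ => false) η := by
          intro η hη
          by_contra hne
          exact h3 η hη ⟨hη.trans h1, hne⟩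
        cases hx : x.seq ξ <;> cases hw : cat (pw β) δ (fun _ => false) ξ
        · exact absurd (by rw [hx, hw]) h2
        · left
          refine ⟨ξ, ?_, h4, hx, hw⟩
          by_contra hcon
          push Not at hcon
          rw [cat_of_le _ _ hcon] at hw
          exact absurd hw (by simp)
        · right
          exact ⟨ξ, h1, fun η hη => (h4 η hη).symm, hw, hx⟩
        · exact absurd (by rw [hx, hw]) h2
      · exfalso
        push Not at h
        apply x.mem.nbad δ hδc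
        refine ⟨(α, β), hp, hδcof, ?_, ?_⟩
        · exact coded_congr (fun ξ hξ => (h ξ (hξ.trans_le le_self_add)).symm) hcoded'
        · intro ξ hξ
          rw [h (δ + ξ) (by gcongr), cat_add]
  · have := cofA (c := c) (C := C) (cat (pw β) δ (fun _ => false)) δ hδ
      {x | ∃ ξ < δ, DiffAt x.seq (cat (pw β) δ (fun _ => false)) ξ} (fun a ha => ha)
      (by
        intro ξ hξ
        obtain ⟨x, ζ, h1, h2, h3⟩ := elA ξ hξ
        exact ⟨x, ⟨ζ, h2, h3⟩, ζ, h1, h3⟩)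
    rw [this, hδcof]
  · have := cofB (c := c) (C := C) (cat (pw β) δ (fun _ => false)) (δ + ω_ β) hlim2
      {x | ∃ ξ < δ + ω_ β, DiffAt (cat (pw β) δ (fun _ => false)) x.seq ξ} (fun a ha => ha)
      (by
        intro ξ hξ
        obtain ⟨x, ζ, h1, h2, h3⟩ := elB ξ hξ
        exact ⟨x, ⟨ζ, h2, h3⟩, ζ, h1, h3⟩)
    rw [this, cof_add _ (Ordinal.omega_pos β).ne', ← ord_aleph, (P.reg2 _ hp).cof_ord]

end Pool.Agent.H8Hom
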