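import Mathlib
import Pool.Agent.H8.HomConv

set_option autoImplicit false

universe u v

open Ordinal Cardinal Order Set

namespace Pool.Agent.H8Hom

variable {c : Cardinal.{u}} {C : Set (Ordinal.{u} × Ordinal.{u})}

instance : Small.{u} (T c C) := by
  have hinj : Function.Injective (fun (x : T c C) (ξ : Iio c.ord) => x.seq ξ.1) := by
    intro x y hxy
    apply T.ext
    intro ξ
    rcases lt_or_ge ξ c.ord with h | h
    · exact congrFun hxy ⟨ξ, h⟩
    · rw [x.mem.supp ξ h, y.mem.supp ξ h]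
  exact small_of_injective hinj

/-- transport of a cut along an isomorphism -/
lemma Cut.preimage {α : Type u} {β : Type v} [LinearOrder α] [LinearOrder β] (e : α ≃o β)
    {A B : Set β} (h : Cut A B) : Cut (e ⁻¹' A) (e ⁻¹' B) := by
  refine ⟨?_, ?_, ?_, ?_, ?_, ?_⟩
  · obtain ⟨a, ha⟩ := h.neA
    exact ⟨e.symm a, by simpa using ha⟩
  · obtain ⟨a, ha⟩ := h.neB
    exact ⟨e.symm a, by simpa using ha⟩
  · intro a ha b hb
    exact e.lt_iff_lt.mp (h.lt _ ha _ hb)
  · intro a ha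
    obtain ⟨a', ha', h'⟩ := h.noMax _ ha
    exact ⟨e.symm a', by simpa using ha', by rw [← e.lt_iff_lt]; simpa using h'⟩
  · intro a ha
    obtain ⟨a', ha', h'⟩ := h.noMin _ ha
    exact ⟨e.symm a', by simpa using ha', by rw [← e.lt_iff_lt]; simpa using h'⟩
  · rcases h.cover with h1 | ⟨r, h1, h2, h3⟩
    · left
      rw [← preimage_union, h1, preimage_univ]
    · right
      refine ⟨e.symm r, ?_, ?_, ?_⟩
      · intro a ha
        rw [← e.lt_iff_lt]
        simpa using h1 _ ha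
      · intro a ha
        rw [← e.lt_iff_lt]
        simpa using h2 _ ha
      · have : ({e.symm r} : Set α) = e ⁻¹' {r} := by
          ext x
          simp only [mem_singleton_iff, mem_preimage]
          constructor
          · rintro rfl; simp
          · intro hx; rw [← hx]; simp
        rw [this, ← preimage_union, ← preimage_union, h3, preimage_univ]

lemma preimage_iso {α : Type u} {β : Type v} [LinearOrder α] [LinearOrder β] (e : α ≃o β)
    (A : Set β) : Nonempty ((e ⁻¹' A : Set α) ≃o A) :=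
  iso_image e e.strictMono _ _ (by
    ext x
    constructor
    · rintro ⟨y, hy, rfl⟩; exact hy
    · intro hx; exact ⟨e.symm x, by simpa using hx, by simp⟩)

lemma lid (a : Cardinal.{u + 1}) : Cardinal.lift.{u, u + 1} a = a :=
  Cardinal.lift_id'.{u, u + 1} a

theorem forward' (P : Par c C) {A B : Set (Shrink.{u} (T c C))} (hcut : Cut A B)
    {α β : Ordinal.{u}} (hα : ℵ_ α < c) (hβ : ℵ_ β < c)
    (h1 : Order.cof A = ℵ_ α) (h2 : Order.cof (↥B)ᵒᵈ = ℵ_ β) : (α, β) ∈ C := by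
  let e : T c C ≃o Shrink.{u} (T c C) := orderIsoShrink _
  obtain ⟨f⟩ := preimage_iso e A
  obtain ⟨g⟩ := preimage_iso e B
  have hf := f.lift_cof_congr
  have hg := g.dual.lift_cof_congr
  rw [h1] at hf
  rw [h2] at hg
  apply forward P (hcut.preimage e) hα hβ
  · rw [← hf, lid]
  · rw [← hg, lid]

theorem converse' (P : Par c C) {α β : Ordinal.{u}} (hp : (α, β) ∈ C) :
    ∃ A B : Set (Shrink.{u} (T c C)), Cut A B ∧ Order.cof A = ℵ_ α ∧
      Order.cof (↥B)ᵒᵈ = ℵ_ β := by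
  obtain ⟨A, B, h1, h2, h3⟩ := converse P hp
  let e : Shrink.{u} (T c C) ≃o T c C := (orderIsoShrink _).symm
  obtain ⟨f⟩ := preimage_iso e A
  obtain ⟨g⟩ := preimage_iso e B
  have hf := f.lift_cof_congr
  have hg := g.dual.lift_cof_congr
  rw [h2] at hf
  rw [h3] at hg
  refine ⟨e ⁻¹' A, e ⁻¹' B, h1.preimage e, ?_, ?_⟩
  · apply Cardinal.lift_injective.{u + 1}
    rw [hf, lid]
  · apply Cardinal.lift_injective.{u + 1}
    rw [hg, lid]

lemma icc_iso {α : Type u} {β : Type v} [LinearOrder α] [LinearOrder β] (e : α ≃o β)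
    (a b : α) : Nonempty (Icc a b ≃o Icc (e a) (e b)) :=
  iso_image e e.strictMono _ _ (by
    ext x
    constructor
    · rintro ⟨y, hy, rfl⟩; exact ⟨e.le_iff_le.mpr hy.1, e.le_iff_le.mpr hy.2⟩
    · intro hx
      refine ⟨e.symm x, ⟨?_, ?_⟩, by simp⟩
      · rw [← e.le_iff_le]; simpa using hx.1
      · rw [← e.le_iff_le]; simpa using hx.2)

theorem two_hom' (P : Par c C) (a b d e : Shrink.{u} (T c C)) (hab : a < b) (hde : d < e) :
    Nonempty (Icc a b ≃o Icc d e) := by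
  let i : Shrink.{u} (T c C) ≃o T c C := (orderIsoShrink _).symm
  obtain ⟨f⟩ := icc_iso i a b
  obtain ⟨g⟩ := icc_iso i d e
  obtain ⟨h⟩ := two_hom P (i a) (i b) (i d) (i e) (i.lt_iff_lt.mpr hab) (i.lt_iff_lt.mpr hde)
  exact ⟨f.trans (h.trans g.symm)⟩

theorem dense' (P : Par c C) (a b : Shrink.{u} (T c C)) (hab : a < b) : ∃ x, a < x ∧ x < b := by
  let i : Shrink.{u} (T c C) ≃o T c C := (orderIsoShrink _).symm
  obtain ⟨x, h1, h2⟩ := dense P (i a) (i b) (i.lt_iff_lt.mpr hab)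
  refine ⟨i.symm x, ?_, ?_⟩
  · rw [← i.lt_iff_lt]; simpa using h1
  · rw [← i.lt_iff_lt]; simpa using h2

theorem nontriv (P : Par c C) : Nontrivial (Shrink.{u} (T c C)) := by
  let i : T c C ≃o Shrink.{u} (T c C) := orderIsoShrink _
  refine ⟨i (T.mk _ (mem_altq P false)), i (T.mk _ (mem_altq P true)), ?_⟩
  intro h
  have h1 := i.injective h
  have h2 := congrArg (fun x : T c C => x.seq 0) h1
  simp only [T.seq_mk, altq_zero P] at h2
  exact absurd h2 (by simp)

/-- a suitable parameter for a bounded set of indices -/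
lemma exists_par (X : Set Ordinal.{u}) (hX : BddAbove X)
    (hreg : ∀ x ∈ X, (ℵ_ x).IsRegular) (C : Set (Ordinal.{u} × Ordinal.{u})) (hC : C ⊆ X ×ˢ X) :
    ∃ c : Cardinal.{u}, Par c C ∧ ∀ x ∈ X, ℵ_ x < c := by
  obtain ⟨b, hb⟩ := hX
  have hlt : ∀ x ∈ X, ℵ_ x < ℵ_ (b + 1) := fun x hx =>
    aleph_lt_aleph.mpr (lt_add_one_iff.mpr (hb hx))
  refine ⟨ℵ_ (b + 1), ⟨isRegular_aleph_add_one b, ?_, ?_, ?_, ?_⟩, hlt⟩
  · intro p hp; exact hlt _ (hC hp).2
  · intro p hp; exact hreg _ (hC hp).2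
  · intro p hp; exact hlt _ (hC hp).1
  · intro p hp; exact hreg _ (hC hp).1

end Pool.Agent.H8Hom
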