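import Mathlib

set_option autoImplicit false

/-! A maximal intersecting family of 25 six-element sets on 31 points: 24 lines of `PG(2,5)` and
one further set. -/

namespace Pool.Agent.H8.MIF

/-- the family: the first set, and the 24 lines of `PG(2,5)` that meet it -/
def L : List (List ℕ) := [
  [1, 3, 18, 19, 21, 30],
  [25, 26, 27, 28, 29, 30],
  [4, 9, 14, 19, 24, 25],
  [3, 8, 13, 18, 23, 25],
  [1, 6, 11, 16, 21, 25],
  [20, 21, 22, 23, 24, 30],
  [2, 9, 11, 18, 20, 27],
  [3, 6, 14, 17, 20, 28],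
  [1, 7, 13, 19, 20, 26],
  [10, 11, 12, 13, 14, 30],
  [4, 7, 10, 18, 21, 28],
  [2, 6, 10, 19, 23, 29],
  [3, 9, 10, 16, 22, 26],
  [1, 8, 10, 17, 24, 27],
  [15, 16, 17, 18, 19, 30],
  [2, 8, 14, 15, 21, 26],
  [3, 7, 11, 15, 24, 29],
  [1, 9, 12, 15, 23, 28],
  [5, 6, 7, 8, 9, 30],
  [3, 5, 12, 19, 21, 27],
  [1, 5, 14, 18, 22, 29],
  [0, 1, 2, 3, 4, 30],
  [0, 9, 13, 17, 21, 29],
  [0, 8, 11, 19, 22, 28],
  [0, 6, 12, 18, 24, 26]]

def has (x : ℕ) : List ℕ → Bool
  | [] => false
  | a :: l => Nat.beq x a || has x l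

lemma has_iff (x : ℕ) (l : List ℕ) : has x l = true ↔ x ∈ l := by
  induction l with
  | nil => simp [has]
  | cons a l ih => rw [has, Bool.or_eq_true, ih, List.mem_cons, Nat.beq_eq]

def rem (x : ℕ) : List (List ℕ) → List (List ℕ)
  | [] => []
  | A :: R => match has x A with
    | true => rem x R
    | false => A :: rem x R

lemma mem_rem (x : ℕ) (R : List (List ℕ)) (A : List ℕ) : A ∈ rem x R ↔ A ∈ R ∧ x ∉ A := by
  induction R with
  | nil => simp [rem]
  | cons B R ih =>
    have hB := has_iff x B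
    rw [rem]
    cases h : has x B with
    | true =>
      have h1 : x ∈ B := hB.1 h
      simp only [List.mem_cons, ih]
      constructor
      · rintro ⟨h2, h3⟩; exact ⟨Or.inr h2, h3⟩
      · rintro ⟨h2 | h2, h3⟩
        · subst h2; exact absurd h1 h3
        · exact ⟨h2, h3⟩
    | false =>
      have h1 : x ∉ B := fun h2 => by
        rw [hB.2 h2] at h
        exact absurd h (by simp)
      simp only [List.mem_cons, ih]
      constructor
      · rintro (h2 | ⟨h2, h3⟩)
        · subst h2; exact ⟨Or.inl rfl, h1⟩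
        · exact ⟨Or.inr h2, h3⟩
      · rintro ⟨h2 | h2, h3⟩
        · exact Or.inl h2
        · exact Or.inr ⟨h2, h3⟩

/-- every element of `cur` lies in `A` -/
def sub (A : List ℕ) : List ℕ → Bool
  | [] => true
  | a :: l => has a A && sub A l

lemma sub_iff (A l : List ℕ) : sub A l = true ↔ ∀ x ∈ l, x ∈ A := by
  induction l with
  | nil => simp [sub]
  | cons a l ih => rw [sub, Bool.and_eq_true, ih, has_iff, List.forall_mem_cons]

def anySub (cur : List ℕ) : List (List ℕ) → Bool
  | [] => false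
  | A :: R => sub A cur || anySub cur R

lemma anySub_iff (cur : List ℕ) (R : List (List ℕ)) :
    anySub cur R = true ↔ ∃ A ∈ R, ∀ x ∈ cur, x ∈ A := by
  induction R with
  | nil => simp [anySub]
  | cons A R ih =>
    rw [anySub, Bool.or_eq_true, ih, sub_iff]
    simp

def allB (p : ℕ → Bool) : List ℕ → Bool
  | [] => true
  | a :: l => p a && allB p l

lemma allB_iff (p : ℕ → Bool) (l : List ℕ) : allB p l = true ↔ ∀ x ∈ l, p x = true := by
  induction l with
  | nil => simp [allB]
  | cons a l ih => rw [allB, Bool.and_eq_true, ih, List.forall_mem_cons]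

/-- search for a set of `f` more points meeting all the sets in `R` -/
def chk : ℕ → List ℕ → List (List ℕ) → Bool
  | 0, cur, [] => anySub cur L
  | 0, _, _ :: _ => true
  | _ + 1, _, [] => false
  | f + 1, cur, A :: R => allB (fun x => chk f (x :: cur) (rem x R)) A

lemma chk_sound : ∀ (f : ℕ) (cur : List ℕ) (R : List (List ℕ)), chk f cur R = true →
    cur.Nodup → (∀ A ∈ R, ∀ x ∈ cur, x ∉ A) → ∀ B : Finset ℕ, (∀ x ∈ cur, x ∈ B) →
    B.card = cur.length + f → (∀ A ∈ R, ∃ x ∈ A, x ∈ B) →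
    ∃ A ∈ L, ∀ x ∈ B, x ∈ A := by
  intro f
  induction f with
  | zero =>
    intro cur R h hnd hR B hB hcard hhit
    have hBe : B = cur.toFinset := by
      symm
      apply Finset.eq_of_subset_of_card_le
      · intro x hx; exact hB x (List.mem_toFinset.1 hx)
      · rw [hcard, List.toFinset_card_of_nodup hnd]; omega
    cases R with
    | nil =>
      rw [chk, anySub_iff] at h
      obtain ⟨A, hA, hsub⟩ := h
      refine ⟨A, hA, fun x hx => hsub x ?_⟩
      rw [hBe] at hx
      exact List.mem_toFinset.1 hx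
    | cons A R =>
      obtain ⟨x, hxA, hxB⟩ := hhit A (by simp)
      rw [hBe] at hxB
      exact absurd hxA (hR A (by simp) x (List.mem_toFinset.1 hxB))
  | succ f ih =>
    intro cur R h hnd hR B hB hcard hhit
    cases R with
    | nil => rw [chk] at h; exact absurd h (by simp)
    | cons A R =>
      rw [chk, allB_iff] at h
      obtain ⟨x, hxA, hxB⟩ := hhit A (by simp)
      have hxc : x ∉ cur := fun hx => hR A (by simp) x hx hxA
      refine ih (x :: cur) (rem x R) (h x hxA) (List.nodup_cons.2 ⟨hxc, hnd⟩) ?_ B ?_ ?_ ?_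
      · intro A' hA' y hy
        rw [mem_rem] at hA'
        rcases List.mem_cons.1 hy with rfl | hy
        · exact hA'.2
        · exact hR A' (List.mem_cons_of_mem _ hA'.1) y hy
      · intro y hy
        rcases List.mem_cons.1 hy with rfl | hy
        · exact hxB
        · exact hB y hy
      · rw [hcard, List.length_cons]; omega
      · intro A' hA'
        rw [mem_rem] at hA'
        exact hhit A' (List.mem_cons_of_mem _ hA'.1)

lemma chk_L : chk 6 [] L = true := by decide +kernel

/-- the family as a finset of finsets -/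
def F : Finset (Finset ℕ) := (L.map List.toFinset).toFinset

lemma mem_F (A : Finset ℕ) : A ∈ F ↔ ∃ l ∈ L, l.toFinset = A := by
  rw [F, List.mem_toFinset, List.mem_map]

lemma L_nodup : ∀ l ∈ L, l.Nodup ∧ l.length = 6 := by decide +kernel

lemma L_inter : ∀ l ∈ L, ∀ l' ∈ L, ∃ x ∈ l, x ∈ l' := by decide +kernel

lemma card_mem (A : Finset ℕ) (hA : A ∈ F) : A.card = 6 := by
  obtain ⟨l, hl, rfl⟩ := (mem_F A).1 hA
  obtain ⟨h1, h2⟩ := L_nodup l hl
  rw [List.toFinset_card_of_nodup h1, h2]

lemma inter (A : Finset ℕ) (hA : A ∈ F) (B : Finset ℕ) (hB : B ∈ F) : (A ∩ B).Nonempty := by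
  obtain ⟨l, hl, rfl⟩ := (mem_F A).1 hA
  obtain ⟨l', hl', rfl⟩ := (mem_F B).1 hB
  obtain ⟨x, h1, h2⟩ := L_inter l hl l' hl'
  exact ⟨x, Finset.mem_inter.2 ⟨List.mem_toFinset.2 h1, List.mem_toFinset.2 h2⟩⟩

lemma maximal (B : Finset ℕ) (hB : B.card = 6) (h : ∀ A ∈ F, (A ∩ B).Nonempty) : B ∈ F := by
  obtain ⟨A, hA, hsub⟩ := chk_sound 6 [] L chk_L List.nodup_nil (by simp) B (by simp)
    (by rw [hB]; simp) (by
      intro A hA
      obtain ⟨x, hx⟩ := h A.toFinset ((mem_F _).2 ⟨A, hA, rfl⟩)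
      rw [Finset.mem_inter, List.mem_toFinset] at hx
      exact ⟨x, hx⟩)
  obtain ⟨h1, h2⟩ := L_nodup A hA
  rw [mem_F]
  refine ⟨A, hA, ?_⟩
  symm
  apply Finset.eq_of_subset_of_card_le
  · intro x hx; exact List.mem_toFinset.2 (hsub x hx)
  · rw [List.toFinset_card_of_nodup h1, h2, hB]

lemma card_F : F.card ≤ 25 := by
  refine (List.toFinset_card_le _).trans ?_
  rw [List.length_map]
  decide +kernel

lemma cover : ∀ x ∈ List.range 31, ∃ l ∈ L, x ∈ l := by decide +kernel

lemma card_union : 31 ≤ (F.biUnion id).card := by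
  have h : Finset.range 31 ⊆ F.biUnion id := by
    intro x hx
    obtain ⟨l, hl, hxl⟩ := cover x (List.mem_range.2 (Finset.mem_range.1 hx))
    rw [Finset.mem_biUnion]
    exact ⟨l.toFinset, (mem_F _).2 ⟨l, hl, rfl⟩, List.mem_toFinset.2 hxl⟩
  have := Finset.card_le_card h
  rwa [Finset.card_range] at this

end Pool.Agent.H8.MIF
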