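import Mathlib

namespace Pool.H8.Orb

variable {G X : Type} [Group G] [MulAction G X]

/-- two points moved by `z` are linked by an arc or by `z` -/
def Lk (A : X → X → Prop) (z : G) (x y : X) : Prop :=
  z • x ≠ x ∧ z • y ≠ y ∧ (A x y ∨ A y x ∨ y = z • x ∨ x = z • y)

def Comp (A : X → X → Prop) (z : G) (x0 : X) : Set X :=
  {y | Relation.ReflTransGen (Lk A z) x0 y}

variable {A : X → X → Prop} {z : G} {x0 : X}

lemma Lk.symm {x y : X} (h : Lk A z x y) : Lk A z y x :=
  ⟨h.2.1, h.1, by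
    rcases h.2.2 with h | h | h | h
    · exact Or.inr (Or.inl h)
    · exact Or.inl h
    · exact Or.inr (Or.inr (Or.inr h))
    · exact Or.inr (Or.inr (Or.inl h))⟩

lemma comp_moved (hx0 : z • x0 ≠ x0) {y : X} (hy : y ∈ Comp A z x0) : z • y ≠ y := by
  induction hy with
  | refl => exact hx0
  | tail _ h _ => exact h.2.1

lemma comp_step {y y' : X} (hy : y ∈ Comp A z x0) (h : Lk A z y y') : y' ∈ Comp A z x0 :=
  Relation.ReflTransGen.tail hy h

lemma moved_smul {y : X} (hy : z • y ≠ y) : z • z • y ≠ z • y := by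
  intro h
  exact hy (smul_left_cancel z h)

lemma comp_z (hx0 : z • x0 ≠ x0) {y : X} : z • y ∈ Comp A z x0 ↔ y ∈ Comp A z x0 := by
  constructor
  · intro h
    have h1 := comp_moved hx0 h
    have h2 : z • y ≠ y := by
      intro h3
      rw [h3] at h1
      exact h1 h3
    exact comp_step h ⟨h1, h2, Or.inr (Or.inr (Or.inr rfl))⟩
  · intro h
    have h1 := comp_moved hx0 h
    exact comp_step h ⟨h1, moved_smul h1, Or.inr (Or.inr (Or.inl rfl))⟩

open Classical in
/-- the permutation acting as `z` on the component and trivially elsewhere -/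
noncomputable def piK (A : X → X → Prop) (z : G) (x0 : X) (hx0 : z • x0 ≠ x0) : Equiv.Perm X where
  toFun x := if x ∈ Comp A z x0 then z • x else x
  invFun x := if x ∈ Comp A z x0 then z⁻¹ • x else x
  left_inv x := by
    by_cases h : x ∈ Comp A z x0
    · simp only [if_pos h]
      rw [if_pos ((comp_z hx0).mpr h), inv_smul_smul]
    · simp only [if_neg h]
  right_inv x := by
    by_cases h : x ∈ Comp A z x0
    · simp only [if_pos h]
      have h1 : z⁻¹ • x ∈ Comp A z x0 := by
        rw [← comp_z hx0, smul_inv_smul]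
        exact h
      rw [if_pos h1, smul_inv_smul]
    · simp only [if_neg h]

lemma piK_pos {hx0 : z • x0 ≠ x0} {x : X} (h : x ∈ Comp A z x0) :
    piK A z x0 hx0 x = z • x := if_pos h
lemma piK_neg {hx0 : z • x0 ≠ x0} {x : X} (h : x ∉ Comp A z x0) :
    piK A z x0 hx0 x = x := if_neg h

lemma piK_aut (hA : ∀ (g : G) x y, A (g • x) (g • y) ↔ A x y) (hx0 : z • x0 ≠ x0) (x y : X) :
    A (piK A z x0 hx0 x) (piK A z x0 hx0 y) ↔ A x y := by
  by_cases hx : x ∈ Comp A z x0 <;> by_cases hy : y ∈ Comp A z x0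
  · rw [piK_pos hx, piK_pos hy, hA]
  · rw [piK_pos hx, piK_neg hy]
    have hxm := comp_moved hx0 hx
    by_cases hym : z • y = y
    · conv_lhs => rw [← hym]
      exact hA z x y
    · constructor
      · intro h
        exact absurd (comp_step ((comp_z hx0).mpr hx) ⟨moved_smul hxm, hym, Or.inl h⟩) hy
      · intro h
        exact absurd (comp_step hx ⟨hxm, hym, Or.inl h⟩) hy
  · rw [piK_neg hx, piK_pos hy]
    have hyM := comp_moved hx0 hy
    by_cases hxm : z • x = x
    · conv_lhs => rw [← hxm]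
      exact hA z x y
    · constructor
      · intro h
        exact absurd (comp_step ((comp_z hx0).mpr hy) ⟨moved_smul hyM, hxm, Or.inr (Or.inl h)⟩) hx
      · intro h
        exact absurd (comp_step hy ⟨hyM, hxm, Or.inr (Or.inl h)⟩) hx
  · rw [piK_neg hx, piK_neg hy]

lemma lk_smul (hA : ∀ (g : G) x y, A (g • x) (g • y) ↔ A x y) (hz : ∀ g, z * g = g * z)
    (g : G) {x y : X} (h : Lk A z x y) : Lk A z (g • x) (g • y) := by
  have hc : ∀ w : X, z • g • w = g • z • w := by
    intro w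
    rw [← mul_smul, hz, mul_smul]
  refine ⟨?_, ?_, ?_⟩
  · rw [hc]; exact fun h' => h.1 (smul_left_cancel g h')
  · rw [hc]; exact fun h' => h.2.1 (smul_left_cancel g h')
  · rcases h.2.2 with h | h | h | h
    · exact Or.inl ((hA g x y).mpr h)
    · exact Or.inr (Or.inl ((hA g y x).mpr h))
    · exact Or.inr (Or.inr (Or.inl (by rw [hc, h])))
    · exact Or.inr (Or.inr (Or.inr (by rw [hc, h])))

lemma rtg_symm {x y : X} (h : Relation.ReflTransGen (Lk A z) x y) :
    Relation.ReflTransGen (Lk A z) y x := by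
  induction h with
  | refl => exact Relation.ReflTransGen.refl
  | tail _ h ih => exact Relation.ReflTransGen.head (Lk.symm h) ih

lemma comp_smul_mem (hA : ∀ (g : G) x y, A (g • x) (g • y) ↔ A x y) (hz : ∀ g, z * g = g * z)
    (g : G) {x y : X} (hx : x ∈ Comp A z x0) (hgx : g • x ∈ Comp A z x0)
    (hy : y ∈ Comp A z x0) : g • y ∈ Comp A z x0 := by
  have h1 : Relation.ReflTransGen (Lk A z) x x0 :=
    rtg_symm hx
  have h2 : Relation.ReflTransGen (Lk A z) x y := h1.trans hy
  have h3 : Relation.ReflTransGen (Lk A z) (g • x) (g • y) :=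
    h2.lift (fun w => g • w) (fun _ _ h => lk_smul hA hz g h)
  exact Relation.ReflTransGen.trans hgx h3

lemma comp_inv (hA : ∀ (g : G) x y, A (g • x) (g • y) ↔ A x y)
    (hfull : ∀ π : Equiv.Perm X, (∀ x y, A (π x) (π y) ↔ A x y) → ∃ g : G, ∀ x, g • x = π x)
    (hcl : ∀ x g : G, (x * g * x⁻¹ * g⁻¹) * g = g * (x * g * x⁻¹ * g⁻¹))
    (hz : ∀ g, z * g = g * z) (hz3 : z ^ 3 = 1) (hx0 : z • x0 ≠ x0) (g : G) {x : X}
    (hx : x ∈ Comp A z x0) : g • x ∈ Comp A z x0 := by
  by_contra hgx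
  have hall : ∀ y ∈ Comp A z x0, g • y ∉ Comp A z x0 := fun y hy hgy =>
    hgx (comp_smul_mem hA hz g hy hgy hx)
  have hginv : g⁻¹ • x ∉ Comp A z x0 := by
    intro h
    have := hall _ h
    rw [smul_inv_smul] at this
    exact this hx
  obtain ⟨p, hp⟩ := hfull (piK A z x0 hx0) (piK_aut hA hx0)
  have hpinv_neg : ∀ y, y ∉ Comp A z x0 → p⁻¹ • y = y := by
    intro y hy
    rw [inv_smul_eq_iff, hp, piK_neg hy]
  have hpinv_x : p⁻¹ • x = z⁻¹ • x := by
    rw [inv_smul_eq_iff, hp]
    have h1 : z⁻¹ • x ∈ Comp A z x0 := by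
      rw [← comp_z hx0, smul_inv_smul]
      exact hx
    rw [piK_pos h1, smul_inv_smul]
  set c := p * g * p⁻¹ * g⁻¹ with hc
  have hcx : c • x = z • x := by
    rw [hc, mul_smul, mul_smul, mul_smul, hpinv_neg _ hginv, smul_inv_smul, hp, piK_pos hx]
  have hcgx : c • g • x = z⁻¹ • g • x := by
    rw [hc, mul_smul, mul_smul, mul_smul, inv_smul_smul, hpinv_x]
    have h1 : g • z⁻¹ • x = z⁻¹ • g • x := by
      rw [← mul_smul, ← mul_smul]
      congr 1
      have := hz g
      rw [eq_inv_mul_iff_mul_eq, ← mul_assoc, this, mul_assoc, mul_inv_cancel, mul_one]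
    rw [h1, hp, piK_neg]
    intro h2
    have h3 := (comp_z hx0).mpr h2
    rw [smul_inv_smul] at h3
    exact hgx h3
  have hcomm : c • g • x = g • c • x := by
    rw [← mul_smul, ← mul_smul, hc, hcl p g]
  rw [hcgx, hcx] at hcomm
  have h4 : g • z • x = z • g • x := by
    rw [← mul_smul, ← mul_smul, hz]
  rw [h4, inv_smul_eq_iff] at hcomm
  -- g • x = z • z • g • x
  have h5 : z • g • x = z • z • z • g • x := by rw [← hcomm]
  have h6 : z • z • z • g • x = g • x := by
    rw [← mul_smul, ← mul_smul]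
    have : z * z * z = 1 := by rw [← hz3, pow_succ, pow_succ, pow_one]
    rw [this, one_smul]
  rw [h6] at h5
  rw [← h4] at h5
  exact comp_moved hx0 hx (smul_left_cancel g h5)

theorem gen (hA : ∀ (g : G) x y, A (g • x) (g • y) ↔ A x y)
    (hfull : ∀ π : Equiv.Perm X, (∀ x y, A (π x) (π y) ↔ A x y) → ∃ g : G, ∀ x, g • x = π x)
    (hcl : ∀ x g : G, (x * g * x⁻¹ * g⁻¹) * g = g * (x * g * x⁻¹ * g⁻¹))
    (hz : ∀ g, z * g = g * z) (hz3 : z ^ 3 = 1) (hx0 : z • x0 ≠ x0)
    (L : Subgroup G) (hzL : z ∈ L) (rep : X → X)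
    (hrep2 : ∀ x (g : G), rep (g • x) = rep x)
    (hst : ∀ x, z • x ≠ x → ∀ h : G, h • rep x = rep x → h ∈ L)
    (tr : X → G) (htr : ∀ y, tr y • rep y = y)
    (hout : ∀ x y, z • x ≠ x → A (rep x) y → tr y ∈ L) (g : G) : g ∈ L := by
  have hrr : ∀ x, rep (rep x) = rep x := by
    intro x
    conv_rhs => rw [← htr x]
    rw [hrep2]
  have hmv : ∀ x, z • x ≠ x → z • rep x ≠ rep x := by
    intro x hx h
    apply hx
    rw [← htr x, ← mul_smul, hz, mul_smul, h]
  have hx1 : z • rep x0 ≠ rep x0 := hmv x0 hx0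
  have key : ∀ y ∈ Comp A z (rep x0), ∃ l ∈ L, y = l • rep y := by
    intro y hy
    induction hy with
    | refl => exact ⟨1, L.one_mem, by rw [one_smul, hrr]⟩
    | @tail y y' hy h ih =>
      obtain ⟨l, hl, hly⟩ := ih
      obtain ⟨hm1, hm2, h⟩ := h
      rcases h with h | h | h | h
      · rw [hly] at h
        have h1 : A (rep y) (l⁻¹ • y') := by
          rw [← hA l, smul_inv_smul]; exact h
        have h2 := hout y _ hm1 h1
        refine ⟨l * tr (l⁻¹ • y'), L.mul_mem hl h2, ?_⟩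
        have h3 := htr (l⁻¹ • y')
        rw [hrep2] at h3
        rw [mul_smul, h3, smul_inv_smul]
      · have h1 : A (rep y') ((tr y')⁻¹ • y) := by
          rw [← hA (tr y'), smul_inv_smul, htr]; exact h
        have h2 := hout y' _ hm2 h1
        have h3 := htr ((tr y')⁻¹ • y)
        rw [hrep2] at h3
        set t := tr ((tr y')⁻¹ • y) with ht
        have h4 : (l⁻¹ * tr y' * t) • rep y = rep y := by
          rw [mul_smul, mul_smul, h3, smul_inv_smul]
          rw [inv_smul_eq_iff]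
          exact hly
        have h5 := hst y hm1 _ h4
        have h6 : tr y' ∈ L := by
          have : tr y' = l * (l⁻¹ * tr y' * t) * t⁻¹ := by group
          rw [this]
          exact L.mul_mem (L.mul_mem hl h5) (L.inv_mem h2)
        exact ⟨tr y', h6, (htr y').symm⟩
      · refine ⟨z * l, L.mul_mem hzL hl, ?_⟩
        rw [h, hrep2, mul_smul, ← hly]
      · have h1 : y' = z⁻¹ • y := by rw [h, inv_smul_smul]
        refine ⟨z⁻¹ * l, L.mul_mem (L.inv_mem hzL) hl, ?_⟩
        rw [h1, hrep2, mul_smul, ← hly]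
  have h1 : rep x0 ∈ Comp A z (rep x0) := Relation.ReflTransGen.refl
  have h2 := comp_inv hA hfull hcl hz hz3 hx1 g h1
  obtain ⟨l, hl, hlg⟩ := key _ h2
  rw [hrep2, hrr] at hlg
  have h3 : (l⁻¹ * g) • rep x0 = rep x0 := by
    rw [mul_smul, hlg, inv_smul_smul]
  have h4 := hst x0 hx0 _ h3
  have : g = l * (l⁻¹ * g) := by group
  rw [this]
  exact L.mul_mem hl h4

end Pool.H8.Orb
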