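import Mathlib

namespace Pool.H8.Orb

open Finset

lemma card_ker {A T : Type} [AddCommGroup A] [AddCommGroup T] [Fintype A] [Fintype T]
    [DecidableEq T] (f : A →+ T) (hf : Function.Surjective f) :
    (univ.filter (fun a => f a = 0)).card * Fintype.card T = Fintype.card A := by
  have h1 : ∀ t ∈ (univ : Finset T), (univ.filter (fun a => f a = t)).card =
      (univ.filter (fun a => f a = 0)).card := by
    intro t _
    exact AddMonoidHom.card_fiber_eq_of_mem_range f (Set.mem_range.mpr (hf t))
      (Set.mem_range.mpr (hf 0))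
  have h2 := Finset.card_eq_sum_card_fiberwise (f := f) (s := (univ : Finset A))
    (t := (univ : Finset T)) (fun _ _ => mem_coe.mpr (mem_univ _))
  rw [Finset.sum_congr rfl h1, Finset.sum_const, smul_eq_mul] at h2
  rw [← Finset.card_univ (α := A), h2, mul_comm]
  rfl

lemma cover {A T Q : Type} [AddCommGroup A] [AddCommGroup T] [Fintype A] [Fintype T]
    [Fintype Q] (E : Q → A →+ T) (good : Q → Prop)
    (hs : ∀ q, good q → Function.Surjective (E q)) (hcard : Fintype.card Q < Fintype.card T) :
    ∃ a, ∀ q, good q → E q a ≠ 0 := by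
  classical
  by_contra hcon
  push Not at hcon
  have h1 : (univ : Finset A) ⊆ (univ.filter good).biUnion
      (fun q => univ.filter (fun a => E q a = 0)) := by
    intro a _
    obtain ⟨q, hq, ha⟩ := hcon a
    simp only [mem_biUnion, mem_filter, mem_univ, true_and]
    exact ⟨q, hq, ha⟩
  have h2 : Fintype.card A ≤ ∑ q ∈ univ.filter good, (univ.filter (fun a => E q a = 0)).card :=
    (Finset.card_le_card h1).trans Finset.card_biUnion_le
  have h3 : Fintype.card A * Fintype.card T ≤ Fintype.card Q * Fintype.card A := by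
    calc Fintype.card A * Fintype.card T
        ≤ (∑ q ∈ univ.filter good, (univ.filter (fun a => E q a = 0)).card) * Fintype.card T :=
          Nat.mul_le_mul_right _ h2
      _ = ∑ q ∈ univ.filter good, (univ.filter (fun a => E q a = 0)).card * Fintype.card T := by
          rw [Finset.sum_mul]
      _ = ∑ q ∈ univ.filter good, Fintype.card A := by
          refine Finset.sum_congr rfl fun q hq => ?_
          exact card_ker (E q) (hs q (by simpa using hq))
      _ = (univ.filter good).card * Fintype.card A := by rw [Finset.sum_const, smul_eq_mul]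
      _ ≤ Fintype.card Q * Fintype.card A :=
          Nat.mul_le_mul_right _ (Finset.card_le_univ _)
  have h4 : 0 < Fintype.card A := Fintype.card_pos_iff.mpr ⟨0⟩
  nlinarith

abbrev F3 := ZMod 3

instance : Fact (Nat.Prime 3) := ⟨Nat.prime_three⟩

abbrev VV (d : ℕ) := Fin d → F3

noncomputable instance (d m : ℕ) : Fintype (VV d →ₗ[F3] VV d →ₗ[F3] VV m) :=
  Fintype.ofInjective (fun f => fun i j => f (Pi.single i 1) (Pi.single j 1) :
    (VV d →ₗ[F3] VV d →ₗ[F3] VV m) → Fin d → Fin d → VV m) (by
      intro f g h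
      apply LinearMap.pi_ext'
      intro i
      apply LinearMap.ext_ring
      apply LinearMap.pi_ext'
      intro j
      apply LinearMap.ext_ring
      exact congrFun (congrFun h i) j)

/-- evaluation map -/
noncomputable def Ev {s r m d : ℕ} (q : (Fin s → VV d) × (Fin s → VV d) × (Fin r → Fin m → F3)) :
    (VV d →ₗ[F3] VV d →ₗ[F3] VV m) →+ (Fin s → Fin s → Fin r → F3) where
  toFun β := fun i j => (Matrix.of q.2.2).mulVec (β (q.1 i) (q.2.1 j) - β (q.2.1 j) (q.1 i))
  map_zero' := by
    funext i j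
    simp
  map_add' β γ := by
    funext i j
    have e : ∀ x y : VV d, (β + γ) x y = β x y + γ x y := fun x y => rfl
    change (Matrix.of q.2.2).mulVec ((β + γ) (q.1 i) (q.2.1 j) - (β + γ) (q.2.1 j) (q.1 i)) =
      (Matrix.of q.2.2).mulVec (β (q.1 i) (q.2.1 j) - β (q.2.1 j) (q.1 i)) +
      (Matrix.of q.2.2).mulVec (γ (q.1 i) (q.2.1 j) - γ (q.2.1 j) (q.1 i))
    rw [e, e, ← Matrix.mulVec_add]
    congr 1
    abel

lemma exists_dual {s d : ℕ} {a b : Fin s → VV d} (h : LinearIndependent F3 (Sum.elim a b)) :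
    ∃ g : VV d →ₗ[F3] (Fin s ⊕ Fin s → F3), (∀ i, g (a i) = Pi.single (Sum.inl i) 1) ∧
      ∀ i, g (b i) = Pi.single (Sum.inr i) 1 := by
  rw [linearIndependent_iff_injective_fintypeLinearCombination] at h
  obtain ⟨g, hg⟩ := LinearMap.exists_leftInverse_of_injective _ (LinearMap.ker_eq_bot.mpr h)
  refine ⟨g, fun i => ?_, fun i => ?_⟩
  · have := LinearMap.congr_fun hg (Pi.single (Sum.inl i) 1)
    simpa [Fintype.linearCombination_apply] using this
  · have := LinearMap.congr_fun hg (Pi.single (Sum.inr i) 1)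
    simpa [Fintype.linearCombination_apply] using this

lemma Ev_surj {s r m d : ℕ} (q : (Fin s → VV d) × (Fin s → VV d) × (Fin r → Fin m → F3))
    (h1 : LinearIndependent F3 (Sum.elim q.1 q.2.1))
    (h2 : Function.Surjective (Matrix.of q.2.2).mulVec) : Function.Surjective (Ev q) := by
  intro t
  obtain ⟨g, hga, hgb⟩ := exists_dual h1
  choose w hw using fun i j => h2 (t i j)
  let β : VV d →ₗ[F3] VV d →ₗ[F3] VV m := LinearMap.mk₂ F3
    (fun x y => ∑ i, ∑ j, (g x (Sum.inl i) * g y (Sum.inr j)) • w i j)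
    (by intro x x' y
        simp only [map_add, Pi.add_apply, add_mul, add_smul, Finset.sum_add_distrib])
    (by intro c x y
        simp only [map_smul, Pi.smul_apply, smul_eq_mul, Finset.smul_sum, smul_smul, mul_assoc])
    (by intro x y y'
        simp only [map_add, Pi.add_apply, mul_add, add_smul, Finset.sum_add_distrib])
    (by intro c x y
        simp only [map_smul, Pi.smul_apply, smul_eq_mul, Finset.smul_sum, smul_smul]
        refine Finset.sum_congr rfl fun i _ => Finset.sum_congr rfl fun j _ => ?_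
        congr 1
        ring)
  have hβ : ∀ x y, β x y = ∑ i, ∑ j, (g x (Sum.inl i) * g y (Sum.inr j)) • w i j :=
    fun x y => rfl
  refine ⟨β, ?_⟩
  funext i j
  change (Matrix.of q.2.2).mulVec (β (q.1 i) (q.2.1 j) - β (q.2.1 j) (q.1 i)) = t i j
  have e1 : β (q.1 i) (q.2.1 j) = w i j := by
    rw [hβ, hga, hgb]
    rw [Finset.sum_eq_single i, Finset.sum_eq_single j]
    · simp
    · intro j' _ hj'
      simp [Pi.single_apply, hj']
    · simp
    · intro i' _ hi'
      refine Finset.sum_eq_zero fun j' _ => ?_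
      simp [Pi.single_apply, hi']
    · simp
  have e2 : β (q.2.1 j) (q.1 i) = 0 := by
    rw [hβ, hga, hgb]
    refine Finset.sum_eq_zero fun i' _ => Finset.sum_eq_zero fun j' _ => ?_
    simp [Pi.single_apply]
  rw [e1, e2, sub_zero, hw]

theorem exists_beta {s r m d : ℕ} (h : d * s + (d * s + m * r) < r * (s * s)) :
    ∃ β : VV d →ₗ[F3] VV d →ₗ[F3] VV m, ∀ (a b : Fin s → VV d)
      (_ : LinearIndependent F3 (Sum.elim a b)) (Λ : VV m →ₗ[F3] (Fin r → F3))
      (_ : Function.Surjective Λ), ∃ i j, Λ (β (a i) (b j) - β (b j) (a i)) ≠ 0 := by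
  obtain ⟨β, hβ⟩ := cover (Q := (Fin s → VV d) × (Fin s → VV d) × (Fin r → Fin m → F3))
    (T := Fin s → Fin s → Fin r → F3) (A := VV d →ₗ[F3] VV d →ₗ[F3] VV m)
    Ev (fun q => LinearIndependent F3 (Sum.elim q.1 q.2.1) ∧
      Function.Surjective (Matrix.of q.2.2).mulVec) (fun q hq => Ev_surj q hq.1 hq.2) (by
      simp only [Fintype.card_prod, Fintype.card_fun, Fintype.card_fin, ZMod.card]
      rw [← pow_mul, ← pow_mul, ← pow_mul, ← pow_mul, ← pow_add, ← pow_add]
      apply Nat.pow_lt_pow_right (by norm_num)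
      exact h)
  refine ⟨β, fun a b hab Λ hΛ => ?_⟩
  by_contra hcon
  push Not at hcon
  have hM : ∀ x, (Matrix.of (LinearMap.toMatrix' Λ : Fin r → Fin m → F3)).mulVec x = Λ x := by
    intro x
    exact LinearMap.toMatrix'_mulVec Λ x
  refine hβ (a, b, LinearMap.toMatrix' Λ) ⟨hab, ?_⟩ ?_
  · intro y
    obtain ⟨x, hx⟩ := hΛ y
    exact ⟨x, (hM x).trans hx⟩
  · funext i j
    change (Matrix.of (LinearMap.toMatrix' Λ : Fin r → Fin m → F3)).mulVec
      (β (a i) (b j) - β (b j) (a i)) = 0
    rw [hM, hcon]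

end Pool.H8.Orb
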