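import Pool.Agent.H8.OrbA
import Pool.Agent.H8.OrbC

namespace Pool.H8.Orb

open Finset

variable {d m : ℕ}

@[ext] structure Gp (β : VV d →ₗ[F3] VV d →ₗ[F3] VV m) where
  v : VV d
  w : VV m

variable {β : VV d →ₗ[F3] VV d →ₗ[F3] VV m}

instance : Mul (Gp β) := ⟨fun a b => ⟨a.v + b.v, a.w + b.w + β a.v b.v⟩⟩
instance : One (Gp β) := ⟨⟨0, 0⟩⟩
instance : Inv (Gp β) := ⟨fun a => ⟨-a.v, -a.w + β a.v a.v⟩⟩

@[simp] lemma mul_v (a b : Gp β) : (a * b).v = a.v + b.v := rfl
@[simp] lemma mul_w (a b : Gp β) : (a * b).w = a.w + b.w + β a.v b.v := rfl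
@[simp] lemma one_v : (1 : Gp β).v = 0 := rfl
@[simp] lemma one_w : (1 : Gp β).w = 0 := rfl
@[simp] lemma inv_v (a : Gp β) : (a⁻¹).v = -a.v := rfl
@[simp] lemma inv_w (a : Gp β) : (a⁻¹).w = -a.w + β a.v a.v := rfl

instance : Group (Gp β) := Group.ofLeftAxioms
  (by
    intro a b c
    apply Gp.ext
    · simp only [mul_v]; abel
    · simp only [mul_v, mul_w, map_add, LinearMap.add_apply]; abel)
  (by
    intro a
    apply Gp.ext
    · simp
    · simp)
  (by
    intro a
    apply Gp.ext
    · simp
    · simp)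

instance : Finite (Gp β) := Finite.of_injective (fun g => (g.v, g.w)) (by
  intro a b h
  rw [Prod.mk.injEq] at h
  exact Gp.ext h.1 h.2)

lemma comm_eq (x g : Gp β) : x * g * x⁻¹ * g⁻¹ = ⟨0, β x.v g.v - β g.v x.v⟩ := by
  apply Gp.ext
  · simp
  · simp
    abel

lemma central {c : Gp β} (hc : c.v = 0) (g : Gp β) : c * g = g * c := by
  apply Gp.ext
  · simp [add_comm]
  · simp [hc, add_comm]

lemma cl2 (x g : Gp β) : (x * g * x⁻¹ * g⁻¹) * g = g * (x * g * x⁻¹ * g⁻¹) := by
  apply central
  rw [comm_eq]

def zz (β : VV d →ₗ[F3] VV d →ₗ[F3] VV m) (w : VV m) : Gp β := ⟨0, w⟩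

lemma zz_mul (w w' : VV m) : zz β w * zz β w' = zz β (w + w') := by
  apply Gp.ext
  · simp [zz]
  · simp [zz]

lemma zz_inv (w : VV m) : (zz β w)⁻¹ = zz β (-w) := by
  apply Gp.ext
  · simp [zz]
  · simp [zz]

lemma zz_zero : zz β 0 = 1 := rfl

lemma zz_cube (w : VV m) : (zz β w) ^ 3 = 1 := by
  rw [pow_succ, pow_succ, pow_one, zz_mul, zz_mul]
  have : w + w + w = 0 := by
    funext i
    simp only [Pi.add_apply, Pi.zero_apply]
    generalize w i = t
    revert t
    decide
  rw [this, zz_zero]

variable {X : Type} [MulAction (Gp β) X]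

/-- span of the projections of the stabiliser -/
def UU (r : X) : Submodule F3 (VV d) := Submodule.span F3 {v | ∃ h : Gp β, h • r = r ∧ h.v = v}

def WA (β : VV d →ₗ[F3] VV d →ₗ[F3] VV m) [MulAction (Gp β) X] (r : X) : AddSubgroup (VV m) where
  carrier := {w | zz β w • r = r}
  zero_mem' := by
    change zz β 0 • r = r
    rw [zz_zero, one_smul]
  add_mem' := by
    intro a b ha hb
    change zz β (a + b) • r = r
    rw [← zz_mul, mul_smul]
    rw [show zz β b • r = r from hb, show zz β a • r = r from ha]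
  neg_mem' := by
    intro a ha
    change zz β (-a) • r = r
    rw [← zz_inv, inv_smul_eq_iff]
    exact (show zz β a • r = r from ha).symm

def WW (β : VV d →ₗ[F3] VV d →ₗ[F3] VV m) [MulAction (Gp β) X] (r : X) : Submodule F3 (VV m) :=
  AddSubgroup.toZModSubmodule 3 (WA β r)

lemma mem_WW {r : X} {w : VV m} : w ∈ WW β r ↔ zz β w • r = r := by
  unfold WW
  rw [AddSubgroup.mem_toZModSubmodule]
  rfl

lemma comm_mem {r : X} {u v : VV d} (hu : u ∈ UU (β := β) r) (hv : v ∈ UU (β := β) r) :
    β u v - β v u ∈ WW β r := by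
  unfold UU at hu hv
  induction hu using Submodule.span_induction with
  | mem u hu =>
    obtain ⟨h, hh, rfl⟩ := hu
    induction hv using Submodule.span_induction with
    | mem v hv =>
      obtain ⟨h', hh', rfl⟩ := hv
      rw [mem_WW]
      have : zz β (β h.v h'.v - β h'.v h.v) = h * h' * h⁻¹ * h'⁻¹ := (comm_eq h h').symm
      rw [this, mul_smul, mul_smul, mul_smul]
      have e1 : h'⁻¹ • r = r := by rw [inv_smul_eq_iff]; exact hh'.symm
      have e2 : h⁻¹ • r = r := by rw [inv_smul_eq_iff]; exact hh.symm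
      rw [e1, e2, hh', hh]
    | zero => simp
    | add a b _ _ ha hb =>
      have : β h.v (a + b) - β (a + b) h.v = (β h.v a - β a h.v) + (β h.v b - β b h.v) := by
        simp only [map_add, LinearMap.add_apply]; abel
      rw [this]
      exact Submodule.add_mem _ ha hb
    | smul c a _ ha =>
      have : β h.v (c • a) - β (c • a) h.v = c • (β h.v a - β a h.v) := by
        simp only [map_smul, LinearMap.smul_apply, smul_sub]
      rw [this]
      exact Submodule.smul_mem _ _ ha
  | zero => simp
  | add a b _ _ ha hb =>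
    have : β (a + b) v - β v (a + b) = (β a v - β v a) + (β b v - β v b) := by
      simp only [map_add, LinearMap.add_apply]; abel
    rw [this]
    exact Submodule.add_mem _ ha hb
  | smul c a _ ha =>
    have : β (c • a) v - β v (c • a) = c • (β a v - β v a) := by
      simp only [map_smul, LinearMap.smul_apply, smul_sub]
    rw [this]
    exact Submodule.smul_mem _ _ ha

lemma finrank_sup_le' {ι : Type} (S : Finset ι) (U : ι → Submodule F3 (VV d)) :
    Module.finrank F3 (S.sup U : Submodule F3 (VV d)) ≤ ∑ r ∈ S, Module.finrank F3 (U r) := by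
  classical
  induction S using Finset.induction_on with
  | empty => simp
  | insert a S ha ih =>
    rw [Finset.sup_insert, Finset.sum_insert ha]
    exact (Submodule.finrank_add_le_finrank_add_finrank _ _).trans (Nat.add_le_add_left ih _)

lemma finrank_inf_ge {ι : Type} (S : Finset ι) (U : ι → Submodule F3 (VV m)) :
    m ≤ Module.finrank F3 (S.inf U : Submodule F3 (VV m)) +
      ∑ r ∈ S, (m - Module.finrank F3 (U r)) := by
  classical
  induction S using Finset.induction_on with
  | empty => rw [Finset.inf_empty, finrank_top]; simp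
  | insert a S ha ih =>
    rw [Finset.inf_insert, Finset.sum_insert ha]
    have h1 := Submodule.finrank_sup_add_finrank_inf_eq (U a) (S.inf U)
    have h2 : Module.finrank F3 (U a ⊔ S.inf U : Submodule F3 (VV m)) ≤ m := by
      have := Submodule.finrank_le (U a ⊔ S.inf U)
      simpa using this
    have h3 : Module.finrank F3 (U a) ≤ m := by
      have := Submodule.finrank_le (U a)
      simpa using this
    omega

lemma exists_indep {s : ℕ} (U : Submodule F3 (VV d)) (h : s + s ≤ Module.finrank F3 U) :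
    ∃ a b : Fin s → VV d, (∀ i, a i ∈ U) ∧ (∀ i, b i ∈ U) ∧
      LinearIndependent F3 (Sum.elim a b) := by
  let B := Module.finBasis F3 U
  let c : Fin s ⊕ Fin s → Fin (Module.finrank F3 U) := fun p => Fin.castLE h (finSumFinEquiv p)
  have hc : Function.Injective c := (Fin.castLE_injective h).comp finSumFinEquiv.injective
  refine ⟨fun i => B (c (Sum.inl i)), fun i => B (c (Sum.inr i)), fun i => (B _).2,
    fun i => (B _).2, ?_⟩
  have h1 : LinearIndependent F3 (fun p => (B (c p) : VV d)) :=
    (B.linearIndependent.comp c hc).map' U.subtype U.ker_subtype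
  convert h1 using 1
  funext p
  rcases p with i | i <;> rfl

lemma exists_surj {r : ℕ} (U : Submodule F3 (VV m)) (h : r ≤ m - Module.finrank F3 U) :
    ∃ Λ : VV m →ₗ[F3] (Fin r → F3), Function.Surjective Λ ∧ ∀ x ∈ U, Λ x = 0 := by
  have h1 : Module.finrank F3 (VV m ⧸ U) = m - Module.finrank F3 U := by
    have := Submodule.finrank_quotient_add_finrank U
    simp only [Module.finrank_fintype_fun_eq_card, Fintype.card_fin] at this
    omega
  have h' : r ≤ Module.finrank F3 (VV m ⧸ U) := by omega
  let B := Module.finBasis F3 (VV m ⧸ U)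
  let Λ' : (VV m ⧸ U) →ₗ[F3] (Fin r → F3) :=
    (LinearMap.funLeft F3 F3 (Fin.castLE h')).comp B.equivFun.toLinearMap
  refine ⟨Λ'.comp U.mkQ, ?_, ?_⟩
  · rw [LinearMap.coe_comp]
    refine Function.Surjective.comp ?_ U.mkQ_surjective
    change Function.Surjective ((LinearMap.funLeft F3 F3 (Fin.castLE h')).comp
      B.equivFun.toLinearMap)
    rw [LinearMap.coe_comp]
    exact (LinearMap.funLeft_surjective_of_injective F3 F3 _ (Fin.castLE_injective h')).comp
      B.equivFun.surjective
  · intro x hx
    rw [LinearMap.comp_apply]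
    have : U.mkQ x = 0 := by simpa using hx
    rw [this, map_zero]

end Pool.H8.Orb
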