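import Pool.Agent.H8.OrbB

namespace Pool.H8.Orb

open Finset

variable {d m : ℕ} {β : VV d →ₗ[F3] VV d →ₗ[F3] VV m} {X : Type} [MulAction (Gp β) X]

/-- subgroup of elements whose projection lies in a subspace -/
def LL (β : VV d →ₗ[F3] VV d →ₗ[F3] VV m) (M : Submodule F3 (VV d)) : Subgroup (Gp β) where
  carrier := {g | g.v ∈ M}
  mul_mem' := fun ha hb => M.add_mem ha hb
  one_mem' := M.zero_mem
  inv_mem' := fun ha => M.neg_mem ha

open Classical in
/-- if a central element moves something then some stabiliser avoiding it is large -/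
lemma big_stab [Fintype X] {A : X → X → Prop} {k C s : ℕ}
    (hA : ∀ (g : Gp β) x y, A (g • x) (g • y) ↔ A x y)
    (hfull : ∀ π : Equiv.Perm X, (∀ x y, A (π x) (π y) ↔ A x y) → ∃ g : Gp β, ∀ x, g • x = π x)
    (hfaith : ∀ g : Gp β, (∀ x : X, g • x = x) → g = 1)
    (hk : ∀ x, (univ.filter (fun y => A x y)).card ≤ k)
    (rep : X → X) (hrep2 : ∀ x (g : Gp β), rep (g • x) = rep x)
    (tr : X → Gp β) (htr : ∀ y, tr y • rep y = y)
    (hC : (univ.image rep).card ≤ C) (hd : d = C * (s + s) + C * k) (hs : 0 < s)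
    {w : VV m} (hw : w ≠ 0) :
    ∃ r ∈ univ.image rep, w ∉ WW β r ∧ s + s ≤ Module.finrank F3 (UU (β := β) r) := by
  by_contra hcon
  push Not at hcon
  have hz1 : zz β w ≠ 1 := by
    intro h
    exact hw (congrArg Gp.w h)
  obtain ⟨x0, hx0⟩ : ∃ x0 : X, zz β w • x0 ≠ x0 := by
    by_contra h
    push Not at h
    exact hz1 (hfaith _ h)
  set R := univ.image rep with hR
  set S := R.filter (fun r => w ∉ WW β r) with hS
  set N := (R.biUnion (fun r => univ.filter (fun y => A r y))).image (fun y => (tr y).v) with hN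
  have hNcard : N.card ≤ C * k := by
    calc N.card ≤ (R.biUnion (fun r => univ.filter (fun y => A r y))).card := card_image_le
      _ ≤ ∑ r ∈ R, (univ.filter (fun y => A r y)).card := card_biUnion_le
      _ ≤ ∑ r ∈ R, k := Finset.sum_le_sum fun r _ => hk r
      _ = R.card * k := by rw [Finset.sum_const, smul_eq_mul]
      _ ≤ C * k := Nat.mul_le_mul_right _ hC
  set M : Submodule F3 (VV d) := S.sup (fun r => UU (β := β) r) ⊔ Submodule.span F3 (N : Set (VV d))
    with hM
  have hzc : ∀ g : Gp β, zz β w * g = g * zz β w := fun g => central rfl g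
  have hgen : ∀ g : Gp β, g ∈ LL β M := by
    refine gen (A := A) hA hfull cl2 hzc (zz_cube w) hx0 (LL β M) M.zero_mem rep hrep2 ?_ tr htr ?_
    · intro x hx h hh
      have hmv : zz β w • rep x ≠ rep x := by
        intro h'
        apply hx
        rw [← htr x, ← mul_smul, hzc, mul_smul, h']
      have h1 : rep x ∈ S := by
        rw [hS, mem_filter]
        exact ⟨mem_image_of_mem _ (mem_univ _), fun h2 => hmv (mem_WW.mp h2)⟩
      have h2 : UU (β := β) (rep x) ≤ M :=
        (Finset.le_sup (f := fun r => UU (β := β) r) h1).trans le_sup_left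
      exact h2 (Submodule.subset_span ⟨h, hh, rfl⟩)
    · intro x y _ hxy
      have h1 : (tr y).v ∈ N := by
        rw [hN]
        refine mem_image_of_mem (fun y => (tr y).v) (mem_biUnion.mpr ⟨rep x, mem_image_of_mem _ (mem_univ _), ?_⟩)
        exact mem_filter.mpr ⟨mem_univ _, hxy⟩
      exact (le_sup_right : Submodule.span F3 (N : Set (VV d)) ≤ M)
        (Submodule.subset_span (by exact_mod_cast h1))
  have htop : M = ⊤ := by
    rw [eq_top_iff]
    intro v _
    exact hgen ⟨v, 0⟩
  have h1 : Module.finrank F3 M = d := by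
    rw [htop, finrank_top]
    simp
  have h2 : Module.finrank F3 M ≤ ∑ r ∈ S, Module.finrank F3 (UU (β := β) r) + C * k := by
    refine (Submodule.finrank_add_le_finrank_add_finrank _ _).trans (Nat.add_le_add ?_ ?_)
    · exact finrank_sup_le' S _
    · exact (finrank_span_finset_le_card N).trans hNcard
  have h3 : ∑ r ∈ S, Module.finrank F3 (UU (β := β) r) ≤ S.card * (s + s - 1) := by
    refine (Finset.sum_le_card_nsmul S _ (s + s - 1) ?_)
    intro r hr
    rw [hS, mem_filter] at hr
    have := hcon r hr.1 hr.2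
    omega
  have h4 : S.card ≤ C := (Finset.card_filter_le _ _).trans hC
  have h5 : 0 < C := by
    refine lt_of_lt_of_le ?_ hC
    rw [card_pos]
    exact ⟨rep x0, mem_image_of_mem _ (mem_univ _)⟩
  have h6 : S.card * (s + s - 1) ≤ C * (s + s - 1) := Nat.mul_le_mul_right _ h4
  have h7 : C * (s + s - 1) < C * (s + s) := Nat.mul_lt_mul_of_pos_left (by omega) h5
  omega

open Classical in
theorem contra [Fintype X] {A : X → X → Prop} {k C s q : ℕ}
    (hβ : ∀ (a b : Fin s → VV d) (_ : LinearIndependent F3 (Sum.elim a b))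
      (Λ : VV m →ₗ[F3] (Fin q → F3)) (_ : Function.Surjective Λ),
      ∃ i j, Λ (β (a i) (b j) - β (b j) (a i)) ≠ 0)
    (hA : ∀ (g : Gp β) x y, A (g • x) (g • y) ↔ A x y)
    (hfull : ∀ π : Equiv.Perm X, (∀ x y, A (π x) (π y) ↔ A x y) → ∃ g : Gp β, ∀ x, g • x = π x)
    (hfaith : ∀ g : Gp β, (∀ x : X, g • x = x) → g = 1)
    (hk : ∀ x, (univ.filter (fun y => A x y)).card ≤ k)
    (rep : X → X) (hrep2 : ∀ x (g : Gp β), rep (g • x) = rep x)
    (tr : X → Gp β) (htr : ∀ y, tr y • rep y = y)
    (hC : (univ.image rep).card ≤ C) (hd : d = C * (s + s) + C * k) (hs : 0 < s)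
    (hm : m = C * q) (hq : 0 < q) (hC0 : 0 < C) : False := by
  set R := univ.image rep with hR
  set J := R.filter (fun r => s + s ≤ Module.finrank F3 (UU (β := β) r)) with hJ
  have h1 : (J.inf (fun r => WW β r) : Submodule F3 (VV m)) = ⊥ := by
    rw [Submodule.eq_bot_iff]
    intro w hw
    by_contra hw0
    obtain ⟨r, hr, hr1, hr2⟩ := big_stab hA hfull hfaith hk rep hrep2 tr htr hC hd hs hw0
    have h2 : r ∈ J := by
      rw [hJ, mem_filter]
      exact ⟨hr, hr2⟩
    exact hr1 ((Finset.inf_le h2 : J.inf (fun r => WW β r) ≤ WW β r) hw)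
  have h2 := finrank_inf_ge J (fun r => WW β r)
  rw [h1, finrank_bot, zero_add] at h2
  obtain ⟨r, hr, hrq⟩ : ∃ r ∈ J, q ≤ m - Module.finrank F3 (WW β r) := by
    by_contra hcon
    push Not at hcon
    have h3 : ∑ r ∈ J, (m - Module.finrank F3 (WW β r)) ≤ J.card * (q - 1) := by
      refine Finset.sum_le_card_nsmul J _ (q - 1) ?_
      intro r hr
      have := hcon r hr
      omega
    have h4 : J.card ≤ C := (Finset.card_filter_le _ _).trans hC
    have h6 : J.card * (q - 1) ≤ C * (q - 1) := Nat.mul_le_mul_right _ h4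
    have h7 : C * (q - 1) < C * q := Nat.mul_lt_mul_of_pos_left (by omega) hC0
    omega
  rw [hJ, mem_filter] at hr
  obtain ⟨a, b, ha, hb, hab⟩ := exists_indep (UU (β := β) r) hr.2
  obtain ⟨Λ, hΛ, hΛ0⟩ := exists_surj (WW β r) hrq
  obtain ⟨i, j, hij⟩ := hβ a b hab Λ hΛ
  exact hij (hΛ0 _ (comm_mem (ha i) (hb j)))

end Pool.H8.Orb
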