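import Pool.Agent.H8.PSTspec

namespace Pool.H8.PST

open Matrix Complex Finset

/-- size of a layer -/
def S (N : ℕ) : ℕ := 2 * N * N
/-- number of neighbours in the next layer -/
def bb (N n : ℕ) : ℕ := 2 * (n + 1) * (N - n)
/-- half of the number of neighbours in the same layer -/
def hh (N n : ℕ) : ℕ := 2 * n * (N - n)

abbrev Vx (N : ℕ) := Fin 2 ⊕ (Fin N × ZMod (S N))

def rel (N : ℕ) : Vx N → Vx N → Prop
  | .inl _, .inl _ => False
  | .inl _, .inr p => p.1.val = 0
  | .inr p, .inl _ => p.1.val = 0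
  | .inr p, .inr q => (q.1.val = p.1.val + 1 ∧ (q.2 - p.2).val < bb N (p.1.val + 1)) ∨
      (p.1.val = q.1.val + 1 ∧ (p.2 - q.2).val < bb N (q.1.val + 1)) ∨
      (p.1.val = q.1.val ∧ (q.2 - p.2).val ≠ 0 ∧ ((q.2 - p.2).val ≤ hh N (p.1.val + 1) ∨
        S N - hh N (p.1.val + 1) ≤ (q.2 - p.2).val))

instance (N : ℕ) [NeZero N] : NeZero (S N) := ⟨by
  have := NeZero.pos N
  unfold S
  positivity⟩

lemma hh_lt {N n : ℕ} (hN : 0 < N) (hn : n ≤ N) : 2 * hh N n < S N := by
  obtain ⟨r, rfl⟩ := Nat.exists_eq_add_of_le hn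
  unfold hh S
  rw [Nat.add_sub_cancel_left]
  rcases Nat.eq_zero_or_pos n with h | h
  · subst h; simp at hN ⊢; positivity
  · nlinarith [Nat.zero_le r, mul_pos h h]

lemma bb_le {N n : ℕ} (hn : n ≤ N) : bb N n ≤ S N := by
  obtain ⟨r, rfl⟩ := Nat.exists_eq_add_of_le hn
  unfold bb S
  rw [Nat.add_sub_cancel_left]
  have : r ≤ r * r := Nat.le_mul_self r
  nlinarith [Nat.zero_le n, Nat.zero_le r, mul_nonneg (Nat.zero_le n) (Nat.zero_le r)]

lemma neg_val' {M : ℕ} [NeZero M] (z : ZMod M) (hz : z.val ≠ 0) : (-z).val = M - z.val := by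
  rw [ZMod.neg_val]
  split_ifs with h
  · rw [h, ZMod.val_zero] at hz
    exact absurd rfl hz
  · rfl

def gr (N : ℕ) [NeZero N] : SimpleGraph (Vx N) where
  Adj := rel N
  symm := ⟨by
    rintro (i | p) (j | q) h
    · exact h
    · exact h
    · exact h
    · rcases h with h | h | ⟨h1, h2, h3⟩
      · exact Or.inr (Or.inl h)
      · exact Or.inl h
      · refine Or.inr (Or.inr ⟨h1.symm, ?_, ?_⟩)
        · rw [← neg_sub, neg_val' _ h2]
          have := ZMod.val_lt (q.2 - p.2)
          omega
        · rw [← neg_sub, neg_val' _ h2, ← h1]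
          have := ZMod.val_lt (q.2 - p.2)
          rcases h3 with h3 | h3
          · right; omega
          · left; omega⟩
  loopless := ⟨by
    rintro (i | p) h
    · exact h
    · rcases h with ⟨h, -⟩ | ⟨h, -⟩ | ⟨-, h, -⟩
      · omega
      · omega
      · simp at h⟩

lemma sum_zmod {M : ℕ} [NeZero M] (P : ℕ → Prop) [DecidablePred P] :
    (∑ z : ZMod M, if P z.val then (1 : ℂ) else 0) = (((range M).filter P).card : ℂ) := by
  rw [Finset.sum_boole]
  congr 1
  refine Finset.card_nbij' (fun z => z.val) (fun n => (n : ZMod M)) ?_ ?_ ?_ ?_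
  · intro z hz
    simp only [coe_filter, mem_univ, true_and, Set.mem_ofPred_eq, mem_range] at hz ⊢
    exact ⟨ZMod.val_lt z, hz⟩
  · intro n hn
    simp only [coe_filter, mem_univ, true_and, Set.mem_ofPred_eq, mem_range] at hn ⊢
    rw [ZMod.val_cast_of_lt hn.1]
    exact hn.2
  · intro z _
    exact ZMod.natCast_zmod_val z
  · intro n hn
    simp only [coe_filter, Set.mem_ofPred_eq, mem_range] at hn
    exact ZMod.val_cast_of_lt hn.1

lemma card_lt {M b : ℕ} (h : b ≤ M) : ((range M).filter (fun z => z < b)).card = b := by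
  have : (range M).filter (fun z => z < b) = range b := by
    ext z; simp only [mem_filter, mem_range]; omega
  rw [this, card_range]

lemma card_mid {M h : ℕ} (hM : 2 * h < M) :
    ((range M).filter (fun z => z ≠ 0 ∧ (z ≤ h ∨ M - h ≤ z))).card = 2 * h := by
  have : (range M).filter (fun z => z ≠ 0 ∧ (z ≤ h ∨ M - h ≤ z)) = Icc 1 h ∪ Ico (M - h) M := by
    ext z; simp only [mem_filter, mem_range, mem_union, mem_Icc, mem_Ico]; omega
  rw [this, card_union_of_disjoint]
  · simp; omega
  · rw [Finset.disjoint_left]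
    intro z hz hz'
    simp only [mem_Icc, mem_Ico] at hz hz'
    omega

noncomputable def cnt (N l l' : ℕ) : ℂ :=
  (if l' = l + 1 then (bb N (l + 1) : ℂ) else 0) + (if l = l' + 1 then (bb N (l' + 1) : ℂ) else 0) +
    (if l = l' then (2 * hh N (l + 1) : ℂ) else 0)

open Classical in
lemma sum_rel {N : ℕ} [NeZero N] (l l' : Fin N) (s : ZMod (S N)) :
    (∑ y : ZMod (S N), if rel N (Sum.inr (l, s)) (Sum.inr (l', y)) then (1 : ℂ) else 0) =
      cnt N l l' := by
  have hN := NeZero.pos N
  unfold cnt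
  rcases (show (l'.val = l.val + 1) ∨ (l.val = l'.val + 1) ∨ (l.val = l'.val) ∨
    (l'.val ≠ l.val + 1 ∧ l.val ≠ l'.val + 1 ∧ l.val ≠ l'.val) by omega) with h | h | h | ⟨h1, h2, h3⟩
  · rw [if_pos h, if_neg (by omega), if_neg (by omega), add_zero, add_zero]
    have e : ∀ y : ZMod (S N), (if rel N (Sum.inr (l, s)) (Sum.inr (l', y)) then (1 : ℂ) else 0) =
        if (Equiv.subRight s y).val < bb N (l.val + 1) then (1 : ℂ) else 0 := by
      intro y
      congr 1
      simp only [rel, Equiv.subRight_apply, eq_iff_iff]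
      constructor
      · rintro (⟨-, h'⟩ | ⟨h', -⟩ | ⟨h', -⟩)
        · exact h'
        · omega
        · omega
      · intro h'
        exact Or.inl ⟨h, h'⟩
    rw [Finset.sum_congr rfl (fun y _ => e y), Equiv.sum_comp (Equiv.subRight s)
      (fun z : ZMod (S N) => if z.val < bb N (l.val + 1) then (1 : ℂ) else 0),
      sum_zmod (fun z => z < bb N (l.val + 1)), card_lt (bb_le (by omega))]
  · rw [if_neg (by omega), if_pos h, if_neg (by omega), add_zero, zero_add]
    have e : ∀ y : ZMod (S N), (if rel N (Sum.inr (l, s)) (Sum.inr (l', y)) then (1 : ℂ) else 0) =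
        if (Equiv.subLeft s y).val < bb N (l'.val + 1) then (1 : ℂ) else 0 := by
      intro y
      congr 1
      simp only [rel, Equiv.subLeft_apply, eq_iff_iff]
      constructor
      · rintro (⟨h', -⟩ | ⟨-, h'⟩ | ⟨h', -⟩)
        · omega
        · exact h'
        · omega
      · intro h'
        exact Or.inr (Or.inl ⟨h, h'⟩)
    rw [Finset.sum_congr rfl (fun y _ => e y), Equiv.sum_comp (Equiv.subLeft s)
      (fun z : ZMod (S N) => if z.val < bb N (l'.val + 1) then (1 : ℂ) else 0),
      sum_zmod (fun z => z < bb N (l'.val + 1)), card_lt (bb_le (by omega))]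
  · rw [if_neg (by omega), if_neg (by omega), if_pos h, zero_add, zero_add]
    have e : ∀ y : ZMod (S N), (if rel N (Sum.inr (l, s)) (Sum.inr (l', y)) then (1 : ℂ) else 0) =
        if ((Equiv.subRight s y).val ≠ 0 ∧ ((Equiv.subRight s y).val ≤ hh N (l.val + 1) ∨
          S N - hh N (l.val + 1) ≤ (Equiv.subRight s y).val)) then (1 : ℂ) else 0 := by
      intro y
      congr 1
      simp only [rel, Equiv.subRight_apply, eq_iff_iff]
      constructor
      · rintro (⟨h', -⟩ | ⟨h', -⟩ | ⟨-, h'⟩)
        · omega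
        · omega
        · exact h'
      · intro h'
        exact Or.inr (Or.inr ⟨h, h'⟩)
    rw [Finset.sum_congr rfl (fun y _ => e y), Equiv.sum_comp (Equiv.subRight s)
      (fun z : ZMod (S N) => if (z.val ≠ 0 ∧ (z.val ≤ hh N (l.val + 1) ∨
          S N - hh N (l.val + 1) ≤ z.val)) then (1 : ℂ) else 0),
      sum_zmod (fun z => z ≠ 0 ∧ (z ≤ hh N (l.val + 1) ∨ S N - hh N (l.val + 1) ≤ z)),
      card_mid (hh_lt hN (by omega))]
    push_cast
    rfl
  · rw [if_neg h1, if_neg h2, if_neg h3, add_zero, add_zero]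
    refine Finset.sum_eq_zero fun y _ => if_neg ?_
    simp only [rel]
    rintro (⟨h', -⟩ | ⟨h', -⟩ | ⟨h', -⟩)
    · exact h1 h'
    · exact h2 h'
    · exact h3 h'

/-- function constant on layers -/
noncomputable def lift (N : ℕ) (f : ℕ → ℂ) : Vx N → ℂ
  | .inl _ => N * f 0
  | .inr p => f (p.1.val + 1)

/-- action on layer functions -/
noncomputable def MM (N : ℕ) (f : ℕ → ℂ) (n : ℕ) : ℂ :=
  (if n = 0 then 0 else bb N (n - 1) * f (n - 1)) + 2 * hh N n * f n + bb N n * f (n + 1)

lemma sum_cnt {N : ℕ} (l : ℕ) (hl : l < N) (f : ℕ → ℂ) :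
    ∑ j ∈ range N, cnt N l j * f (j + 1) =
      (if l = 0 then 0 else bb N l * f l) + 2 * hh N (l + 1) * f (l + 1) +
        bb N (l + 1) * f (l + 2) := by
  unfold cnt
  simp only [add_mul, ite_mul, zero_mul, Finset.sum_add_distrib]
  have e1 : (∑ j ∈ range N, if j = l + 1 then (bb N (l + 1) : ℂ) * f (j + 1) else 0) =
      bb N (l + 1) * f (l + 2) := by
    rw [Finset.sum_ite_eq']
    split_ifs with h
    · rfl
    · rw [mem_range] at h
      have : bb N (l + 1) = 0 := by
        unfold bb
        rw [Nat.sub_eq_zero_of_le (by omega)]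
        simp
      rw [this]
      simp
  have e2 : (∑ j ∈ range N, if l = j + 1 then (bb N (j + 1) : ℂ) * f (j + 1) else 0) =
      if l = 0 then 0 else bb N l * f l := by
    rcases Nat.eq_zero_or_pos l with h | h
    · subst h
      rw [if_pos rfl]
      exact Finset.sum_eq_zero fun j _ => if_neg (by omega)
    · obtain ⟨k, rfl⟩ : ∃ k, l = k + 1 := ⟨l - 1, by omega⟩
      rw [if_neg (by omega)]
      have : ∀ j ∈ range N, (if k + 1 = j + 1 then (bb N (j + 1) : ℂ) * f (j + 1) else 0) =
          if k = j then (bb N (j + 1) : ℂ) * f (j + 1) else 0 := by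
        intro j _
        congr 1
        simp
      rw [Finset.sum_congr rfl this, Finset.sum_ite_eq, if_pos (mem_range.mpr (by omega))]
  have e3 : (∑ j ∈ range N, if l = j then (2 * hh N (l + 1) : ℂ) * f (j + 1) else 0) =
      2 * hh N (l + 1) * f (l + 1) := by
    rw [Finset.sum_ite_eq, if_pos (mem_range.mpr hl)]
  rw [e1, e2, e3]
  ring

open Classical in
lemma mulVec_lift {N : ℕ} [NeZero N] (f : ℕ → ℂ) :
    ((gr N).adjMatrix ℂ).mulVec (lift N f) = lift N (MM N f) := by
  have hN := NeZero.pos N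
  funext x
  have h0 : ((gr N).adjMatrix ℂ).mulVec (lift N f) x =
      ∑ y, if (gr N).Adj x y then lift N f y else 0 := by
    simp only [Matrix.mulVec, dotProduct, SimpleGraph.adjMatrix_apply, ite_mul, one_mul, zero_mul]
  rw [h0, Fintype.sum_sum_type, Fintype.sum_prod_type]
  rcases x with i | ⟨l, s⟩
  · have e1 : ∑ j : Fin 2, (if (gr N).Adj (Sum.inl i) (Sum.inl j) then lift N f (Sum.inl j) else 0) = 0 :=
      Finset.sum_eq_zero fun j _ => if_neg (fun h : False => h)
    have e2 : ∀ l' : Fin N, (∑ y : ZMod (S N), if (gr N).Adj (Sum.inl i) (Sum.inr (l', y)) then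
        lift N f (Sum.inr (l', y)) else 0) = if l'.val = 0 then (S N : ℂ) * f 1 else 0 := by
      intro l'
      have : ∀ y : ZMod (S N), (if (gr N).Adj (Sum.inl i) (Sum.inr (l', y)) then
        lift N f (Sum.inr (l', y)) else 0) = if l'.val = 0 then f 1 else 0 := by
        intro y
        by_cases h : l'.val = 0
        · rw [if_pos (show (gr N).Adj (Sum.inl i) (Sum.inr (l', y)) from h), if_pos h]
          simp only [lift]
          rw [h]
        · rw [if_neg (show ¬ (gr N).Adj (Sum.inl i) (Sum.inr (l', y)) from h), if_neg h]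
      rw [Finset.sum_congr rfl (fun y _ => this y)]
      by_cases h : l'.val = 0
      · simp [h, ZMod.card]
      · simp [h]
    rw [e1, Finset.sum_congr rfl (fun l' _ => e2 l'), zero_add]
    rw [Fin.sum_univ_eq_sum_range (fun j => if j = 0 then (S N : ℂ) * f 1 else 0) N,
      Finset.sum_ite_eq', if_pos (mem_range.mpr hN)]
    simp only [lift, MM, hh, bb, S]
    push_cast
    simp
    ring
  · have e1 : ∑ j : Fin 2, (if (gr N).Adj (Sum.inr (l, s)) (Sum.inl j) then
        lift N f (Sum.inl j) else 0) = if l.val = 0 then 2 * (N * f 0) else 0 := by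
      by_cases h : l.val = 0
      · rw [if_pos h]
        have : ∀ j : Fin 2, (if (gr N).Adj (Sum.inr (l, s)) (Sum.inl j) then
          lift N f (Sum.inl j) else 0) = N * f 0 := fun j =>
            if_pos (show (gr N).Adj (Sum.inr (l, s)) (Sum.inl j) from h)
        rw [Finset.sum_congr rfl (fun j _ => this j)]
        simp
      · rw [if_neg h]
        exact Finset.sum_eq_zero fun j _ =>
          if_neg (show ¬ (gr N).Adj (Sum.inr (l, s)) (Sum.inl j) from h)
    have e2 : ∀ l' : Fin N, (∑ y : ZMod (S N), if (gr N).Adj (Sum.inr (l, s)) (Sum.inr (l', y)) then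
        lift N f (Sum.inr (l', y)) else 0) = cnt N l l' * f (l' + 1) := by
      intro l'
      rw [← sum_rel l l' s, Finset.sum_mul]
      refine Finset.sum_congr rfl fun y _ => ?_
      rw [ite_mul, one_mul, zero_mul]
      rfl
    rw [e1, Finset.sum_congr rfl (fun l' _ => e2 l'),
      Fin.sum_univ_eq_sum_range (fun j => cnt N l j * f (j + 1)) N, sum_cnt l.val l.2]
    simp only [lift, MM]
    rw [if_neg (by omega : ¬ (l.val + 1 = 0)), Nat.add_sub_cancel]
    by_cases h : l.val = 0
    · rw [if_pos h, if_pos h, h]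
      simp only [bb]
      push_cast
      simp
      ring
    · rw [if_neg h, if_neg h]
      ring

end Pool.H8.PST
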