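import Pool.Agent.H8.PSTgraph

namespace Pool.H8.PST

open Matrix Complex Finset

noncomputable def ff (k n : ℕ) : ℂ := (-1) ^ n * (n.choose k : ℂ)

lemma chA (n k : ℕ) : ((n : ℂ) + 1) * (n.choose k : ℂ) = ((n : ℂ) + 1 - k) * ((n + 1).choose k : ℂ) := by
  have h := Nat.choose_mul_succ_eq n k
  rcases Nat.lt_or_ge (n + 1) k with hk | hk
  · rw [Nat.choose_eq_zero_of_lt hk, Nat.choose_eq_zero_of_lt (by omega)]
    simp
  · have h2 : ((n.choose k * (n + 1) : ℕ) : ℂ) = (((n + 1).choose k * (n + 1 - k) : ℕ) : ℂ) := by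
      rw [h]
    push_cast [Nat.cast_sub hk] at h2
    linear_combination h2

lemma chB (n k : ℕ) : ((k : ℂ) + 1) * (n.choose (k + 1) : ℂ) = ((n : ℂ) - k) * (n.choose k : ℂ) := by
  have h := Nat.choose_succ_right_eq n k
  rcases Nat.lt_or_ge n k with hk | hk
  · rw [Nat.choose_eq_zero_of_lt hk, Nat.choose_eq_zero_of_lt (by omega)]
    simp
  · have h2 : ((n.choose (k + 1) * (k + 1) : ℕ) : ℂ) = ((n.choose k * (n - k) : ℕ) : ℂ) := by
      rw [h]
    push_cast [Nat.cast_sub hk] at h2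
    linear_combination h2

lemma MM_zero {N n : ℕ} (hn : n ≤ N) : MM N (ff 0) n = 2 * mu N 0 * ff 0 n := by
  unfold MM mu ff bb hh
  rcases n with _ | p
  · simp
  · rw [if_neg (Nat.succ_ne_zero p)]
    simp only [Nat.choose_zero_right, Nat.add_sub_cancel]
    push_cast [Nat.cast_sub hn, Nat.cast_sub (show p ≤ N by omega)]
    ring

lemma MM_succ {N n k : ℕ} (hn : n ≤ N) : MM N (ff (k + 1)) n =
    2 * mu N (k + 1) * ff (k + 1) n - 2 * ((k : ℂ) + 1) * ((N : ℂ) - k) * ff k n := by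
  unfold MM mu ff bb hh
  rcases n with _ | p
  · rcases k with _ | k
    · simp
    · simp [Nat.choose_eq_zero_of_lt]
  · rw [if_neg (Nat.succ_ne_zero p)]
    have hA := chA p (k + 1)
    have hB := chB (p + 1) k
    have hC : ((p + 1 + 1).choose (k + 1) : ℂ) =
        ((p + 1).choose k : ℂ) + ((p + 1).choose (k + 1) : ℂ) := by
      rw [Nat.choose_succ_succ]
      push_cast
      rfl
    simp only [Nat.add_sub_cancel]
    rw [hC]
    push_cast [Nat.cast_sub hn, Nat.cast_sub (show p ≤ N by omega)] at *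
    rw [pow_succ, pow_succ]
    linear_combination (2 * ((N : ℂ) - p) * (-1) ^ p) * hA +
      ((-1) * (-1) ^ p * 2 * ((N : ℂ) - (p + 1) - k - 1)) * hB

noncomputable def Phi (N k : ℕ) : Vx N → ℂ := lift N (ff k)

open Classical in
lemma Phi_zero {N : ℕ} [NeZero N] :
    ((gr N).adjMatrix ℂ).mulVec (Phi N 0) = (2 * mu N 0) • Phi N 0 := by
  unfold Phi
  rw [mulVec_lift]
  funext x
  rcases x with i | p
  · simp only [lift, Pi.smul_apply, smul_eq_mul]
    rw [MM_zero (Nat.zero_le N)]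
    ring
  · simp only [lift, Pi.smul_apply, smul_eq_mul]
    rw [MM_zero (by omega)]

open Classical in
lemma Phi_succ {N : ℕ} [NeZero N] (k : ℕ) :
    ((gr N).adjMatrix ℂ).mulVec (Phi N (k + 1)) = (2 * mu N (k + 1)) • Phi N (k + 1) -
      (2 * ((k : ℂ) + 1) * ((N : ℂ) - k)) • Phi N k := by
  unfold Phi
  rw [mulVec_lift]
  funext x
  rcases x with i | p
  · simp only [lift, Pi.smul_apply, smul_eq_mul, Pi.sub_apply]
    rw [MM_succ (Nat.zero_le N)]
    ring
  · simp only [lift, Pi.smul_apply, smul_eq_mul, Pi.sub_apply]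
    rw [MM_succ (by omega)]

lemma alt_sum {N n : ℕ} (hn : n ≤ N) :
    ∑ k ∈ range (N + 1), (-1 : ℂ) ^ k * (n.choose k : ℂ) = if n = 0 then 1 else 0 := by
  have h1 : ∑ k ∈ range (N + 1), (-1 : ℂ) ^ k * (n.choose k : ℂ) =
      ∑ k ∈ range (n + 1), (-1 : ℂ) ^ k * (n.choose k : ℂ) := by
    symm
    refine Finset.sum_subset (Finset.range_mono (by omega)) ?_
    intro k _ hk
    rw [mem_range, not_lt] at hk
    rw [Nat.choose_eq_zero_of_lt (by omega)]
    simp
  rw [h1]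
  have h2 := Int.alternating_sum_range_choose (n := n)
  have h3 : ((∑ m ∈ range (n + 1), ((-1 : ℤ) ^ m * (n.choose m : ℤ)) : ℤ) : ℂ) =
      ((if n = 0 then (1 : ℤ) else 0 : ℤ) : ℂ) := by rw [h2]
  push_cast at h3
  rw [h3]

lemma plus_eq {N : ℕ} [NeZero N] :
    (Pi.single (Sum.inl 0) 1 + Pi.single (Sum.inl 1) 1 : Vx N → ℂ) =
      ∑ k ∈ range (N + 1), ((-1 : ℂ) ^ k / N) • Phi N k := by
  have hN : (N : ℂ) ≠ 0 := by exact_mod_cast NeZero.ne N
  funext x
  rw [Finset.sum_apply]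
  rcases x with i | p
  · have e : ∀ k ∈ range (N + 1), (((-1 : ℂ) ^ k / N) • Phi N k) (Sum.inl i) =
        (-1 : ℂ) ^ k * ((0 : ℕ).choose k : ℂ) := by
      intro k _
      simp only [Phi, lift, ff, Pi.smul_apply, smul_eq_mul, pow_zero, one_mul]
      field_simp
    rw [Finset.sum_congr rfl e, alt_sum (Nat.zero_le N), if_pos rfl]
    fin_cases i
    · simp
    · simp
  · have e : ∀ k ∈ range (N + 1), (((-1 : ℂ) ^ k / N) • Phi N k) (Sum.inr p) =
        ((-1) ^ (p.1.val + 1) / N) * ((-1 : ℂ) ^ k * ((p.1.val + 1).choose k : ℂ)) := by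
      intro k _
      simp only [Phi, lift, ff, Pi.smul_apply, smul_eq_mul]
      field_simp
    rw [Finset.sum_congr rfl e, ← Finset.mul_sum, alt_sum (by omega), if_neg (by omega)]
    simp

open Classical in
lemma minus_eq {N : ℕ} [NeZero N] : ((gr N).adjMatrix ℂ).mulVec
    (Pi.single (Sum.inl 0) 1 + (-1 : ℂ) • Pi.single (Sum.inl 1) 1 : Vx N → ℂ) = 0 := by
  funext x
  rw [Matrix.mulVec_add, Matrix.mulVec_smul]
  simp only [Matrix.mulVec_single_one, Pi.add_apply, Pi.smul_apply, Matrix.col_apply,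
    SimpleGraph.adjMatrix_apply, smul_eq_mul, Pi.zero_apply]
  have h : (gr N).Adj x (Sum.inl 0) ↔ (gr N).Adj x (Sum.inl 1) := by
    rcases x with i | p
    · exact Iff.rfl
    · exact Iff.rfl
  by_cases h1 : (gr N).Adj x (Sum.inl 0)
  · rw [if_pos h1, if_pos (h.mp h1)]
    ring
  · rw [if_neg h1, if_neg (fun h2 => h1 (h.mpr h2))]
    ring

open Classical in
theorem pst_gr {N : ℕ} [NeZero N] (hN : Odd N) :
    ‖∑' m : ℕ, ((-((Real.pi / 2 : ℝ) : ℂ) * Complex.I) ^ m / (m.factorial : ℂ)) *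
      (((gr N).adjMatrix ℂ) ^ m) (Sum.inl 0) (Sum.inl 1)‖ = 1 :=
  pst hN Phi_zero (fun k _ => Phi_succ k) (by simp) plus_eq minus_eq

end Pool.H8.PST
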