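import Mathlib

namespace Pool.H8.PST

open Matrix Complex

/-- coefficient of the exponential series -/
noncomputable def tm (t : ℝ) (m : ℕ) : ℂ := (-(t : ℂ) * Complex.I) ^ m / (m.factorial : ℂ)

variable {W : Type} [Fintype W] [DecidableEq W]

def Good (A : Matrix W W ℂ) (t : ℝ) (c : ℂ) (F : W → ℂ) : Prop :=
  ∀ x, HasSum (fun m : ℕ => tm t m * ((A ^ m).mulVec F) x) (c * F x)

lemma pow_mulVec_eig {A : Matrix W W ℂ} {μ : ℂ} {F : W → ℂ} (h : A.mulVec F = μ • F) (m : ℕ) :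
    (A ^ m).mulVec F = μ ^ m • F := by
  induction m with
  | zero => simp
  | succ m ih =>
    rw [pow_succ, ← Matrix.mulVec_mulVec, h, Matrix.mulVec_smul, ih, smul_smul, pow_succ, mul_comm]

lemma good_of_eig {A : Matrix W W ℂ} {t : ℝ} {μ : ℂ} {F : W → ℂ} (h : A.mulVec F = μ • F) :
    Good A t (Complex.exp (-(t : ℂ) * Complex.I * μ)) F := by
  intro x
  have h1 : HasSum (fun m : ℕ => (-(t : ℂ) * Complex.I * μ) ^ m / (m.factorial : ℂ))
      (Complex.exp (-(t : ℂ) * Complex.I * μ)) := by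
    rw [Complex.exp_eq_exp_ℂ]
    exact NormedSpace.expSeries_div_hasSum_exp _
  have h2 := h1.mul_right (F x)
  refine h2.congr_fun ?_ |> fun h => h
  intro m
  rw [pow_mulVec_eig h m]
  unfold tm
  simp only [Pi.smul_apply, smul_eq_mul, mul_pow]
  ring

lemma Good.add {A : Matrix W W ℂ} {t : ℝ} {c : ℂ} {F G : W → ℂ} (hF : Good A t c F)
    (hG : Good A t c G) : Good A t c (F + G) := by
  intro x
  have := (hF x).add (hG x)
  rw [Pi.add_apply, mul_add]
  refine this.congr_fun ?_ |> fun h => h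
  intro m
  rw [Matrix.mulVec_add, Pi.add_apply, mul_add]

lemma Good.smul {A : Matrix W W ℂ} {t : ℝ} {c : ℂ} {F : W → ℂ} (hF : Good A t c F) (r : ℂ) :
    Good A t c (r • F) := by
  intro x
  have := (hF x).mul_left r
  have e : c * (r • F) x = r * (c * F x) := by simp; ring
  rw [e]
  refine this.congr_fun ?_ |> fun h => h
  intro m
  rw [Matrix.mulVec_smul, Pi.smul_apply, smul_eq_mul]
  ring

lemma Good.sum {A : Matrix W W ℂ} {t : ℝ} {c : ℂ} {s : Finset ℕ} {F : ℕ → W → ℂ}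
    (hF : ∀ k ∈ s, Good A t c (F k)) : Good A t c (∑ k ∈ s, F k) := by
  classical
  induction s using Finset.induction_on with
  | empty =>
    intro x
    simp
  | insert a s ha ih =>
    rw [Finset.sum_insert ha]
    exact (hF a (Finset.mem_insert_self _ _)).add
      (ih fun k hk => hF k (Finset.mem_insert_of_mem hk))

/-- eigenvalues (halved) -/
noncomputable def mu (N k : ℕ) : ℂ := (k : ℂ) * (k + 1) - N

lemma mu_sub {d k : ℕ} (h : k < d) : (d : ℂ) * (d + 1) - k * (k + 1) ≠ 0 := by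
  have h1 : (k : ℕ) * (k + 1) < d * (d + 1) := Nat.mul_lt_mul'' h (by omega)
  intro h2
  rw [sub_eq_zero] at h2
  have : d * (d + 1) = k * (k + 1) := by exact_mod_cast h2
  omega

/-- coefficients of the eigenvectors -/
noncomputable def cf (N d : ℕ) : ℕ → ℂ
  | 0 => 1
  | k + 1 => -(((d : ℂ) * (d + 1) - k * (k + 1)) / ((k + 1) * ((N : ℂ) - k))) * cf N d k

lemma cf_ne_zero {N d : ℕ} (hd : d ≤ N) : ∀ k, k ≤ d → cf N d k ≠ 0 := by
  intro k
  induction k with
  | zero => intro _; simp [cf]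
  | succ k ih =>
    intro hk
    have h1 := ih (by omega)
    have h2 : (d : ℂ) * (d + 1) - k * (k + 1) ≠ 0 := mu_sub (by omega)
    have h3 : (N : ℂ) - k ≠ 0 := by
      rw [sub_ne_zero]
      intro h
      have : N = k := by exact_mod_cast h
      omega
    have h4 : ((k : ℂ) + 1) ≠ 0 := by exact_mod_cast (Nat.succ_ne_zero k)
    unfold cf
    exact mul_ne_zero (neg_ne_zero.mpr (div_ne_zero h2 (mul_ne_zero h4 h3))) h1

lemma cf_rel {N d k : ℕ} (hk : k < N) :
    (k + 1) * ((N : ℂ) - k) * cf N d (k + 1) = -(((d : ℂ) * (d + 1) - k * (k + 1))) * cf N d k := by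
  have h3 : (N : ℂ) - k ≠ 0 := by
    rw [sub_ne_zero]
    intro h
    have : N = k := by exact_mod_cast h
    omega
  have h4 : ((k : ℂ) + 1) ≠ 0 := by exact_mod_cast (Nat.succ_ne_zero k)
  rw [cf]
  field_simp

variable {A : Matrix W W ℂ} {N : ℕ} {Φ : ℕ → W → ℂ}

lemma eig_psi (h0 : A.mulVec (Φ 0) = (2 * mu N 0) • Φ 0)
    (hs : ∀ k, k < N → A.mulVec (Φ (k + 1)) =
      (2 * mu N (k + 1)) • Φ (k + 1) - (2 * ((k : ℂ) + 1) * ((N : ℂ) - k)) • Φ k)
    {d : ℕ} (hd : d ≤ N) :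
    A.mulVec (∑ k ∈ Finset.range (d + 1), cf N d k • Φ k) =
      (2 * mu N d) • ∑ k ∈ Finset.range (d + 1), cf N d k • Φ k := by
  have h1 : A.mulVec (∑ k ∈ Finset.range (d + 1), cf N d k • Φ k) =
      ∑ k ∈ Finset.range (d + 1), cf N d k • A.mulVec (Φ k) := by
    rw [Matrix.mulVec_sum]
    refine Finset.sum_congr rfl fun k _ => ?_
    rw [Matrix.mulVec_smul]
  rw [h1, Finset.sum_range_succ', h0]
  have h2 : ∀ k ∈ Finset.range d, cf N d (k + 1) • A.mulVec (Φ (k + 1)) =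
      cf N d (k + 1) • (2 * mu N (k + 1)) • Φ (k + 1) +
      (2 * ((d : ℂ) * (d + 1) - k * (k + 1)) * cf N d k) • Φ k := by
    intro k hk
    rw [Finset.mem_range] at hk
    rw [hs k (by omega), smul_sub, smul_smul _ _ (Φ k), sub_eq_add_neg, ← neg_smul]
    congr 2
    have := cf_rel (N := N) (d := d) (k := k) (by omega)
    linear_combination (-2) * this
  rw [Finset.sum_congr rfl h2, Finset.sum_add_distrib]
  have h3 : ∑ k ∈ Finset.range d, cf N d (k + 1) • (2 * mu N (k + 1)) • Φ (k + 1) +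
      cf N d 0 • (2 * mu N 0) • Φ 0 = ∑ k ∈ Finset.range (d + 1), cf N d k • (2 * mu N k) • Φ k := by
    rw [Finset.sum_range_succ']
  have h4 : ∑ k ∈ Finset.range d, (2 * ((d : ℂ) * (d + 1) - k * (k + 1)) * cf N d k) • Φ k =
      ∑ k ∈ Finset.range (d + 1), (2 * ((d : ℂ) * (d + 1) - k * (k + 1)) * cf N d k) • Φ k := by
    rw [Finset.sum_range_succ]
    simp
  rw [add_right_comm, h3, h4, ← Finset.sum_add_distrib, Finset.smul_sum]
  refine Finset.sum_congr rfl fun k _ => ?_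
  rw [smul_smul, smul_smul, ← add_smul]
  congr 1
  unfold mu
  ring

lemma exp_mu (hN : Odd N) (d : ℕ) :
    Complex.exp (-((Real.pi / 2 : ℝ) : ℂ) * Complex.I * (2 * mu N d)) = -1 := by
  obtain ⟨r, hr⟩ := hN
  obtain ⟨q, hq⟩ : ∃ q, d * (d + 1) = 2 * q := by
    have := Nat.even_mul_succ_self d
    obtain ⟨q, hq⟩ := this
    exact ⟨q, by omega⟩
  have h1 : -((Real.pi / 2 : ℝ) : ℂ) * Complex.I * (2 * mu N d) =
      ((r : ℤ) - q : ℤ) * (2 * Real.pi * Complex.I) + Real.pi * Complex.I := by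
    unfold mu
    have h2 : (d : ℂ) * (d + 1) = 2 * q := by exact_mod_cast hq
    rw [h2, hr]
    push_cast
    ring
  rw [h1, Complex.exp_add, Complex.exp_int_mul_two_pi_mul_I, Complex.exp_pi_mul_I, one_mul]

lemma good_Phi (hN : Odd N) (h0 : A.mulVec (Φ 0) = (2 * mu N 0) • Φ 0)
    (hs : ∀ k, k < N → A.mulVec (Φ (k + 1)) =
      (2 * mu N (k + 1)) • Φ (k + 1) - (2 * ((k : ℂ) + 1) * ((N : ℂ) - k)) • Φ k)
    (d : ℕ) (hd : d ≤ N) : Good A (Real.pi / 2) (-1) (Φ d) := by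
  induction d using Nat.strong_induction_on with
  | _ d ih =>
    have h1 := good_of_eig (t := Real.pi / 2) (eig_psi h0 hs hd)
    rw [exp_mu hN d] at h1
    have h2 : Good A (Real.pi / 2) (-1) (∑ k ∈ Finset.range d, cf N d k • Φ k) :=
      Good.sum fun k hk => (ih k (Finset.mem_range.mp hk)
        (by rw [Finset.mem_range] at hk; omega)).smul _
    have h3 := cf_ne_zero hd d le_rfl
    have h4 : Φ d = (cf N d d)⁻¹ • ((∑ k ∈ Finset.range (d + 1), cf N d k • Φ k) +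
        (-1 : ℂ) • ∑ k ∈ Finset.range d, cf N d k • Φ k) := by
      rw [Finset.sum_range_succ]
      have : (∑ k ∈ Finset.range d, cf N d k • Φ k + cf N d d • Φ d) +
        (-1 : ℂ) • ∑ k ∈ Finset.range d, cf N d k • Φ k = cf N d d • Φ d := by
        rw [neg_one_smul]
        abel
      rw [this, smul_smul, inv_mul_cancel₀ h3, one_smul]
    rw [h4]
    exact (h1.add (h2.smul _)).smul _

theorem pst (hN : Odd N) (h0 : A.mulVec (Φ 0) = (2 * mu N 0) • Φ 0)
    (hs : ∀ k, k < N → A.mulVec (Φ (k + 1)) =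
      (2 * mu N (k + 1)) • Φ (k + 1) - (2 * ((k : ℂ) + 1) * ((N : ℂ) - k)) • Φ k)
    {u v : W} (huv : u ≠ v)
    (hplus : Pi.single u 1 + Pi.single v 1 = ∑ k ∈ Finset.range (N + 1), ((-1 : ℂ) ^ k / N) • Φ k)
    (hminus : A.mulVec (Pi.single u 1 + (-1 : ℂ) • Pi.single v 1) = 0) :
    ‖∑' m : ℕ, ((-((Real.pi / 2 : ℝ) : ℂ) * Complex.I) ^ m / (m.factorial : ℂ)) *
            (A ^ m) u v‖ = 1 := by
  have h1 : Good A (Real.pi / 2) (-1) (Pi.single u 1 + Pi.single v 1) := by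
    rw [hplus]
    exact Good.sum fun k hk => (good_Phi hN h0 hs k
      (by rw [Finset.mem_range] at hk; omega)).smul _
  have h2 : Good A (Real.pi / 2) 1 (Pi.single u 1 + (-1 : ℂ) • Pi.single v 1) := by
    have := good_of_eig (A := A) (t := Real.pi / 2) (μ := 0)
      (F := Pi.single u 1 + (-1 : ℂ) • Pi.single v 1) (by rw [hminus, zero_smul])
    rwa [mul_zero, Complex.exp_zero] at this
  have h3 := ((h1 u).mul_left (1 / 2)).add ((h2 u).mul_left (-1 / 2))
  have h4 : (1 / 2 : ℂ) * (-1 * (Pi.single u (1 : ℂ) + Pi.single v (1 : ℂ) : W → ℂ) u) +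
      -1 / 2 * (1 * (Pi.single u (1 : ℂ) + (-1 : ℂ) • Pi.single v (1 : ℂ) : W → ℂ) u) = -1 := by
    simp [Pi.single_eq_of_ne huv]
    norm_num
  rw [h4] at h3
  have h5 : (fun m : ℕ => ((-((Real.pi / 2 : ℝ) : ℂ) * Complex.I) ^ m / (m.factorial : ℂ)) *
      (A ^ m) u v) = fun m => 1 / 2 * (tm (Real.pi / 2) m *
        ((A ^ m).mulVec (Pi.single u 1 + Pi.single v 1)) u) + -1 / 2 * (tm (Real.pi / 2) m *
        ((A ^ m).mulVec (Pi.single u 1 + (-1 : ℂ) • Pi.single v 1)) u) := by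
    funext m
    have h6 : (A ^ m) u v = ((A ^ m).mulVec (Pi.single v 1)) u := by
      simp
    rw [h6, Matrix.mulVec_add, Matrix.mulVec_add, Matrix.mulVec_smul]
    unfold tm
    simp only [Pi.add_apply, Pi.smul_apply, smul_eq_mul]
    ring
  rw [h5, h3.tsum_eq]
  simp

end Pool.H8.PST
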