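import Mathlib

namespace Pool.Agent.H8.SP

open Matrix

variable {W : Type} [Fintype W] [DecidableEq W]

lemma exp_mulVec_eig {M : Matrix W W ℂ} {μ : ℂ} {F : W → ℂ} (h : M.mulVec F = μ • F) :
    (NormedSpace.exp M).mulVec F = Complex.exp μ • F := by
  let _ : SeminormedRing (Matrix W W ℂ) := Matrix.linftyOpSemiNormedRing
  let _ : NormedRing (Matrix W W ℂ) := Matrix.linftyOpNormedRing
  let _ : NormedAlgebra ℂ (Matrix W W ℂ) := Matrix.linftyOpNormedAlgebra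
  have h1 : HasSum (fun n : ℕ => ((n.factorial : ℂ)⁻¹) • M ^ n) (NormedSpace.exp M) :=
    NormedSpace.exp_series_hasSum_exp' M
  have hp : ∀ n : ℕ, (M ^ n).mulVec F = μ ^ n • F := by
    intro m
    induction m with
    | zero => simp
    | succ m ih =>
      rw [pow_succ, ← Matrix.mulVec_mulVec, h, Matrix.mulVec_smul, ih, smul_smul, pow_succ,
        mul_comm]
  funext x
  have h2 : HasSum (fun n : ℕ => (((n.factorial : ℂ)⁻¹) • M ^ n).mulVec F x)
      ((NormedSpace.exp M).mulVec F x) := by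
    refine h1.map (⟨⟨fun N => N.mulVec F x, ?_⟩, ?_⟩ : Matrix W W ℂ →+ ℂ) ?_
    · simp
    · intro a b; simp [Matrix.add_mulVec]
    · show Continuous (fun N : Matrix W W ℂ => N.mulVec F x)
      fun_prop
  have h3 : HasSum (fun n : ℕ => μ ^ n / (n.factorial : ℂ) * F x) (Complex.exp μ * F x) := by
    refine HasSum.mul_right _ ?_
    rw [Complex.exp_eq_exp_ℂ]
    exact NormedSpace.expSeries_div_hasSum_exp _
  have h4 : (fun n : ℕ => (((n.factorial : ℂ)⁻¹) • M ^ n).mulVec F x) =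
      fun n : ℕ => μ ^ n / (n.factorial : ℂ) * F x := by
    funext n
    rw [Matrix.smul_mulVec, Pi.smul_apply, hp n]
    simp only [Pi.smul_apply, smul_eq_mul]
    field_simp
  rw [h4] at h2
  rw [h2.unique h3]
  simp

lemma exp_mulVec_sq {A : Matrix W W ℂ} {l : ℂ} (hl : l ≠ 0) {F : W → ℂ}
    (h : A.mulVec (A.mulVec F) = (l * l) • F) {c τ : ℂ} (h1 : Complex.exp (τ * l) = c)
    (h2 : Complex.exp (τ * (-l)) = c) :
    (NormedSpace.exp (τ • A)).mulVec F = c • F := by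
  have e1 : (NormedSpace.exp (τ • A)).mulVec (A.mulVec F + l • F) = c • (A.mulVec F + l • F) := by
    rw [← h1]
    apply exp_mulVec_eig
    rw [Matrix.smul_mulVec, Matrix.mulVec_add, Matrix.mulVec_smul, h]
    funext x
    simp only [Pi.smul_apply, Pi.add_apply, smul_eq_mul]
    ring
  have e2 : (NormedSpace.exp (τ • A)).mulVec (A.mulVec F - l • F) = c • (A.mulVec F - l • F) := by
    rw [← h2]
    apply exp_mulVec_eig
    rw [Matrix.smul_mulVec, Matrix.mulVec_sub, Matrix.mulVec_smul, h]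
    funext x
    simp only [Pi.smul_apply, Pi.sub_apply, smul_eq_mul]
    ring
  have e3 : F = (1 / (2 * l)) • ((A.mulVec F + l • F) - (A.mulVec F - l • F)) := by
    funext x
    simp only [Pi.smul_apply, Pi.sub_apply, Pi.add_apply, smul_eq_mul]
    field_simp
    ring
  calc (NormedSpace.exp (τ • A)).mulVec F
      = (NormedSpace.exp (τ • A)).mulVec
          ((1 / (2 * l)) • ((A.mulVec F + l • F) - (A.mulVec F - l • F))) := by rw [← e3]
    _ = (1 / (2 * l)) • (c • (A.mulVec F + l • F) - c • (A.mulVec F - l • F)) := by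
        rw [Matrix.mulVec_smul, Matrix.mulVec_sub, e1, e2]
    _ = c • F := by
        rw [← smul_sub, smul_comm, ← e3]

lemma exp_mulVec_pst {A : Matrix W W ℂ} {τ : ℂ} {u v : W}
    (h1 : (NormedSpace.exp (τ • A)).mulVec (Pi.single u 1 + Pi.single v 1) =
      (-1 : ℂ) • (Pi.single u 1 + Pi.single v 1))
    (h2 : A.mulVec (Pi.single u 1 - Pi.single v 1) = 0) :
    (NormedSpace.exp (τ • A)).mulVec (Pi.single u 1) = (-1 : ℂ) • Pi.single v 1 := by
  have h3 : (NormedSpace.exp (τ • A)).mulVec (Pi.single u 1 - Pi.single v 1) =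
      (Pi.single u 1 - Pi.single v 1) := by
    have := exp_mulVec_eig (M := τ • A) (μ := 0) (F := Pi.single u 1 - Pi.single v 1)
      (by rw [Matrix.smul_mulVec, h2]; simp)
    rw [this]
    simp
  have e : (Pi.single u 1 : W → ℂ) = (1 / 2 : ℂ) • ((Pi.single u 1 + Pi.single v 1) +
      (Pi.single u 1 - Pi.single v 1)) := by
    funext x
    simp only [Pi.smul_apply, Pi.sub_apply, Pi.add_apply, smul_eq_mul]
    ring
  have e2 : (NormedSpace.exp (τ • A)).mulVec (Pi.single u 1) =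
      (1 / 2 : ℂ) • ((-1 : ℂ) • (Pi.single u 1 + Pi.single v 1) +
      (Pi.single u 1 - Pi.single v 1)) := by
    rw [← h1]
    conv_lhs => rw [e]
    rw [Matrix.mulVec_smul, Matrix.mulVec_add, h3]
  rw [e2]
  funext x
  simp only [Pi.smul_apply, Pi.sub_apply, Pi.add_apply, smul_eq_mul]
  ring

lemma exp_odd {p : ℕ} (hp : Odd p) {s : ℝ} (hs : s ≠ 0) :
    Complex.exp ((Complex.I * ((Real.pi / s : ℝ) : ℂ)) * ((p : ℂ) * (s : ℂ))) = -1 ∧
    Complex.exp ((Complex.I * ((Real.pi / s : ℝ) : ℂ)) * (-((p : ℂ) * (s : ℂ)))) = -1 := by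
  obtain ⟨r, hr⟩ := hp
  have hs' : (s : ℂ) ≠ 0 := by exact_mod_cast hs
  constructor
  · have h1 : (Complex.I * ((Real.pi / s : ℝ) : ℂ)) * ((p : ℂ) * (s : ℂ)) =
      ((r : ℤ) : ℂ) * (2 * Real.pi * Complex.I) + Real.pi * Complex.I := by
      rw [hr]
      push_cast
      field_simp
    rw [h1, Complex.exp_add, Complex.exp_int_mul_two_pi_mul_I, Complex.exp_pi_mul_I, one_mul]
  · have h1 : (Complex.I * ((Real.pi / s : ℝ) : ℂ)) * (-((p : ℂ) * (s : ℂ))) =
      ((-(r : ℤ) - 1 : ℤ) : ℂ) * (2 * Real.pi * Complex.I) + Real.pi * Complex.I := by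
      rw [hr]
      push_cast
      field_simp
      ring
    rw [h1, Complex.exp_add, Complex.exp_int_mul_two_pi_mul_I, Complex.exp_pi_mul_I, one_mul]

/-- star-like case: `A² X = 2k X` -/
lemma pst_two {A : Matrix W W ℂ} {u v : W} {k : ℕ} (hk : 0 < k)
    (h1 : A.mulVec (A.mulVec (Pi.single u 1 + Pi.single v 1)) =
      (2 * k : ℂ) • (Pi.single u 1 + Pi.single v 1))
    (h2 : A.mulVec (Pi.single u 1 - Pi.single v 1) = 0) :
    ∃ t : ℝ, (NormedSpace.exp ((Complex.I * (t : ℂ)) • A)).mulVec (Pi.single u 1) =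
      (-1 : ℂ) • Pi.single v 1 := by
  have hk' : (0 : ℝ) < 2 * k := by positivity
  have hs : Real.sqrt (2 * k) ≠ 0 := (Real.sqrt_pos.mpr hk').ne'
  refine ⟨Real.pi / Real.sqrt (2 * k), exp_mulVec_pst ?_ h2⟩
  have h3 := exp_odd (p := 1) odd_one hs
  refine exp_mulVec_sq (l := ((1 : ℕ) : ℂ) * (Real.sqrt (2 * k) : ℂ)) ?_ ?_ h3.1 h3.2
  · rw [Nat.cast_one, one_mul]; exact_mod_cast hs
  · rw [h1]
    congr 1
    rw [Nat.cast_one, one_mul, ← Complex.ofReal_mul, Real.mul_self_sqrt hk'.le]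
    push_cast
    ring

lemma pst_four {A : Matrix W W ℂ} {u v : W} {p : ℕ} (hp : Odd p) (hp3 : 3 ≤ p)
    {W0 Y0 Z0 : W → ℂ}
    (h1 : A.mulVec (Pi.single u 1 + Pi.single v 1) = (2 : ℂ) • W0)
    (h2 : A.mulVec W0 = (2 : ℂ) • (Pi.single u 1 + Pi.single v 1) + Y0)
    (h3 : A.mulVec Y0 = ((p : ℂ) ^ 2 - 2) • W0 + Z0)
    (h4 : A.mulVec Z0 = ((p : ℂ) ^ 2) • Y0)
    (h5 : A.mulVec (Pi.single u 1 - Pi.single v 1) = 0) :
    ∃ t : ℝ, (NormedSpace.exp ((Complex.I * (t : ℂ)) • A)).mulVec (Pi.single u 1) =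
      (-1 : ℂ) • Pi.single v 1 := by
  have hk' : (0 : ℝ) < 2 := by norm_num
  have hs : Real.sqrt 2 ≠ 0 := (Real.sqrt_pos.mpr hk').ne'
  refine ⟨Real.pi / Real.sqrt 2, exp_mulVec_pst ?_ h5⟩
  set X : W → ℂ := Pi.single u 1 + Pi.single v 1 with hX
  have o1 := exp_odd (p := 1) odd_one hs
  have o2 := exp_odd hp hs
  have hss : (Real.sqrt 2 : ℂ) * (Real.sqrt 2 : ℂ) = 2 := by
    rw [← Complex.ofReal_mul, Real.mul_self_sqrt hk'.le]; norm_num
  have hAX : A.mulVec (A.mulVec X) = (4 : ℂ) • X + (2 : ℂ) • Y0 := by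
    rw [h1, Matrix.mulVec_smul, h2]
    funext x
    simp only [Pi.smul_apply, Pi.add_apply, smul_eq_mul]
    ring
  have hAY : A.mulVec (A.mulVec Y0) = (2 * ((p : ℂ) ^ 2 - 2)) • X + (2 * (p : ℂ) ^ 2 - 2) • Y0 := by
    rw [h3, Matrix.mulVec_add, Matrix.mulVec_smul, h2, h4]
    funext x
    simp only [Pi.smul_apply, Pi.add_apply, smul_eq_mul]
    ring
  have g1 : (NormedSpace.exp ((Complex.I * ((Real.pi / Real.sqrt 2 : ℝ) : ℂ)) • A)).mulVec
      ((4 - 2 * (p : ℂ) ^ 2) • X + (2 : ℂ) • Y0) =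
      (-1 : ℂ) • ((4 - 2 * (p : ℂ) ^ 2) • X + (2 : ℂ) • Y0) := by
    refine exp_mulVec_sq (l := ((1 : ℕ) : ℂ) * (Real.sqrt 2 : ℂ)) ?_ ?_ o1.1 o1.2
    · rw [Nat.cast_one, one_mul]; exact_mod_cast hs
    · rw [Nat.cast_one, one_mul, hss]
      simp only [Matrix.mulVec_add, Matrix.mulVec_smul, hAX, hAY]
      funext x
      simp only [Pi.smul_apply, Pi.add_apply, smul_eq_mul]
      ring
  have g2 : (NormedSpace.exp ((Complex.I * ((Real.pi / Real.sqrt 2 : ℝ) : ℂ)) • A)).mulVec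
      ((2 : ℂ) • X + (2 : ℂ) • Y0) = (-1 : ℂ) • ((2 : ℂ) • X + (2 : ℂ) • Y0) := by
    refine exp_mulVec_sq (l := (p : ℂ) * (Real.sqrt 2 : ℂ)) ?_ ?_ o2.1 o2.2
    · refine mul_ne_zero ?_ (by exact_mod_cast hs)
      have : p ≠ 0 := by omega
      exact_mod_cast this
    · have : (p : ℂ) * (Real.sqrt 2 : ℂ) * ((p : ℂ) * (Real.sqrt 2 : ℂ)) = 2 * (p : ℂ) ^ 2 := by
        linear_combination (p : ℂ) ^ 2 * hss
      rw [this]
      simp only [Matrix.mulVec_add, Matrix.mulVec_smul, hAX, hAY]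
      funext x
      simp only [Pi.smul_apply, Pi.add_apply, smul_eq_mul]
      ring
  have hp2 : (2 * (p : ℂ) ^ 2 - 2) ≠ 0 := by
    intro h
    have h' : (p : ℂ) ^ 2 = 1 := by linear_combination h / 2
    have : p ^ 2 = 1 := by exact_mod_cast h'
    nlinarith
  have e : X = (1 / (2 * (p : ℂ) ^ 2 - 2)) • (((2 : ℂ) • X + (2 : ℂ) • Y0) -
      ((4 - 2 * (p : ℂ) ^ 2) • X + (2 : ℂ) • Y0)) := by
    funext x
    simp only [Pi.smul_apply, Pi.sub_apply, Pi.add_apply, smul_eq_mul]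
    have : (2 * X x + 2 * Y0 x - ((4 - 2 * (p : ℂ) ^ 2) * X x + 2 * Y0 x)) =
      (2 * (p : ℂ) ^ 2 - 2) * X x := by ring
    rw [this, one_div, inv_mul_cancel_left₀ hp2]
  conv_lhs => rw [e]
  rw [Matrix.mulVec_smul, Matrix.mulVec_sub, g1, g2, ← smul_sub, smul_comm, ← e]

end Pool.Agent.H8.SP
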