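import Mathlib

namespace Pool.Agent.H8.SP

open Classical in
/-- The transition matrix `U(t) = exp(i t A)` of the continuous-time quantum walk on `G`. -/
noncomputable def U {V : Type} [Fintype V] (G : SimpleGraph V) (t : ℝ) : Matrix V V ℂ :=
  NormedSpace.exp ((Complex.I * (t : ℂ)) • G.adjMatrix ℂ)

open Classical in
/-- Perfect state transfer between `u` and `v` at some time `t`:
`U(t) e_u = γ e_v` with `|γ| = 1`. -/
def PST {V : Type} [Fintype V] (G : SimpleGraph V) (u v : V) : Prop :=
  ∃ t : ℝ, ∃ γ : ℂ, ‖γ‖ = 1 ∧ (U G t).mulVec (Pi.single u 1) = γ • (Pi.single v 1 : V → ℂ)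

/-- There is a connected graph with `n` vertices and `e` edges that admits perfect state transfer
between some pair of distinct vertices. -/
def Attained (n e : ℕ) : Prop :=
  ∃ (V : Type) (_ : Fintype V) (G : SimpleGraph V), Fintype.card V = n ∧ G.Connected ∧
    (∃ u v : V, u ≠ v ∧ PST G u v) ∧ G.edgeSet.ncard = e

/-- The least number of edges of a connected graph on `n` vertices that admits perfect state
transfer between some pair of distinct vertices (`⊤` if there is none). -/
noncomputable def m (n : ℕ) : ℕ∞ := sInf ((fun e : ℕ => (e : ℕ∞)) '' {e | Attained n e})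

end Pool.Agent.H8.SP
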