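import Pool.Agent.H8.SPa
import Pool.Agent.H8.SPdef

namespace Pool.Agent.H8.SP

open Matrix

/-- bipartite graph of a relation -/
def bip {P Q : Type} (B : P → Q → Prop) : SimpleGraph (P ⊕ Q) where
  Adj x y := match x, y with
    | .inl p, .inr q => B p q
    | .inr q, .inl p => B p q
    | _, _ => False
  symm := by
    constructor
    rintro (x | x) (y | y) h <;> exact h
  loopless := by
    constructor
    rintro (x | x) h <;> exact h

lemma bip_card {P Q : Type} [Fintype P] [Fintype Q] (B : P → Q → Prop)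
    [∀ p q, Decidable (B p q)] :
    (bip B).edgeSet.ncard = ∑ q, ∑ p, if B p q then 1 else 0 := by
  classical
  have h1 : (bip B).edgeSet = (fun x : Q × P => s(Sum.inl x.2, Sum.inr x.1)) ''
      ((Finset.univ.filter fun x : Q × P => B x.2 x.1 : Finset (Q × P)) : Set (Q × P)) := by
    ext e
    induction e using Sym2.ind with
    | _ x y =>
      simp only [SimpleGraph.mem_edgeSet, Set.mem_image, Finset.coe_filter, Set.mem_setOf_eq,
        Finset.mem_univ, true_and]
      constructor
      · rcases x with x | x <;> rcases y with y | y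
        · exact fun h => h.elim
        · intro h; exact ⟨(y, x), h, rfl⟩
        · intro h; exact ⟨(x, y), h, Sym2.eq_swap⟩
        · exact fun h => h.elim
      · rintro ⟨⟨q, p⟩, h, he⟩
        rw [← SimpleGraph.mem_edgeSet, ← he]
        exact h
  rw [h1, Set.ncard_image_of_injective, Set.ncard_coe_finset, Finset.card_filter,
    Fintype.sum_prod_type]
  rintro ⟨q, p⟩ ⟨q', p'⟩ h
  simp only [Sym2.eq_iff, Sum.inl.injEq, Sum.inr.injEq, reduceCtorEq, and_false, false_and,
    or_false] at h
  simp [h.1, h.2]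

section
variable {P Q : Type} [Fintype P] [Fintype Q] [DecidableEq P] [DecidableEq Q] (B : P → Q → Prop)
  [∀ p q, Decidable (B p q)] [DecidableRel (bip B).Adj]

lemma mul_inl (F : P ⊕ Q → ℂ) (p : P) :
    ((bip B).adjMatrix ℂ).mulVec F (Sum.inl p) = ∑ q, if B p q then F (Sum.inr q) else 0 := by
  rw [Matrix.mulVec, dotProduct, Fintype.sum_sum_type]
  have h1 : ∀ x : P, (bip B).adjMatrix ℂ (Sum.inl p) (Sum.inl x) * F (Sum.inl x) = 0 := by
    intro x
    have : ¬ (bip B).Adj (Sum.inl p) (Sum.inl x) := fun h => h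
    simp [SimpleGraph.adjMatrix_apply, this]
  have h2 : ∀ q : Q, (bip B).adjMatrix ℂ (Sum.inl p) (Sum.inr q) * F (Sum.inr q) =
      if B p q then F (Sum.inr q) else 0 := by
    intro q
    have : (bip B).Adj (Sum.inl p) (Sum.inr q) ↔ B p q := Iff.rfl
    by_cases h : B p q
    · simp [SimpleGraph.adjMatrix_apply, this, h]
    · simp [SimpleGraph.adjMatrix_apply, this, h]
  simp only [h1, h2, Finset.sum_const_zero, zero_add]

lemma mul_inr (F : P ⊕ Q → ℂ) (q : Q) :
    ((bip B).adjMatrix ℂ).mulVec F (Sum.inr q) = ∑ p, if B p q then F (Sum.inl p) else 0 := by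
  rw [Matrix.mulVec, dotProduct, Fintype.sum_sum_type]
  have h1 : ∀ x : Q, (bip B).adjMatrix ℂ (Sum.inr q) (Sum.inr x) * F (Sum.inr x) = 0 := by
    intro x
    have : ¬ (bip B).Adj (Sum.inr q) (Sum.inr x) := fun h => h
    simp [SimpleGraph.adjMatrix_apply, this]
  have h2 : ∀ p : P, (bip B).adjMatrix ℂ (Sum.inr q) (Sum.inl p) * F (Sum.inl p) =
      if B p q then F (Sum.inl p) else 0 := by
    intro p
    have : (bip B).Adj (Sum.inr q) (Sum.inl p) ↔ B p q := Iff.rfl
    by_cases h : B p q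
    · simp [SimpleGraph.adjMatrix_apply, this, h]
    · simp [SimpleGraph.adjMatrix_apply, this, h]
  simp only [h1, h2, Finset.sum_const_zero, zero_add, add_zero]

end

/-- the relation of the graph -/
def Bq {Y Z : Type} (N : Y → Fin 2 → Prop) (R : Z → Finset Y) : Fin 2 ⊕ Y → Fin 2 ⊕ Z → Prop
  | .inl _, .inl _ => True
  | .inl _, .inr _ => False
  | .inr y, .inl j => N y j
  | .inr y, .inr z => y ∈ R z

variable {Y Z : Type} [Fintype Y] [Fintype Z] [DecidableEq Y] [DecidableEq Z]

instance BqDec (N : Y → Fin 2 → Prop) (R : Z → Finset Y) [∀ y j, Decidable (N y j)] :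
    ∀ p q, Decidable (Bq N R p q)
  | .inl _, .inl _ => isTrue trivial
  | .inl _, .inr _ => isFalse id
  | .inr y, .inl j => inferInstanceAs (Decidable (N y j))
  | .inr y, .inr z => inferInstanceAs (Decidable (y ∈ R z))

section
variable {α : Type} (N : Y → Fin 2 → Prop) (R : Z → Finset Y) [∀ y j, Decidable (N y j)]
omit [Fintype Y] [Fintype Z] [DecidableEq Z]
lemma q1 (i : Fin 2) (j : Fin 2) (a b : α) :
    (if Bq N R (Sum.inl i) (Sum.inl j) then a else b) = a := rfl
lemma q2 (i : Fin 2) (z : Z) (a b : α) :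
    (if Bq N R (Sum.inl i) (Sum.inr z) then a else b) = b := rfl
lemma q3 (y : Y) (j : Fin 2) (a b : α) :
    (if Bq N R (Sum.inr y) (Sum.inl j) then a else b) = if N y j then a else b := rfl
lemma q4 (y : Y) (z : Z) (a b : α) :
    (if Bq N R (Sum.inr y) (Sum.inr z) then a else b) = if y ∈ R z then a else b := rfl
end

lemma pst_graph (N : Y → Fin 2 → Prop) (R : Z → Finset Y) [∀ y j, Decidable (N y j)]
    {p : ℕ} (hp : Odd p) (hp3 : 3 ≤ p) (ω : Y → ℕ)
    (hω : ∀ y, (∑ j, if N y j then 1 else 0) = ω y)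
    (ha : ∀ j, (∑ y, if N y j then ω y else 0) + 2 = p ^ 2)
    (hb : ∀ y, (∑ z, if y ∈ R z then ∑ y' ∈ R z, ω y' else 0) = p ^ 2 * ω y)
    [DecidableRel (bip (Bq N R)).Adj] :
    ∃ t : ℝ, (NormedSpace.exp ((Complex.I * (t : ℂ)) • (bip (Bq N R)).adjMatrix ℂ)).mulVec
      (Pi.single (Sum.inl (Sum.inl 0)) 1) =
      (-1 : ℂ) • Pi.single (Sum.inl (Sum.inl 1)) 1 := by
  classical
  have hX : (Pi.single (Sum.inl (Sum.inl 0)) 1 + Pi.single (Sum.inl (Sum.inl 1)) 1 :
      (Fin 2 ⊕ Y) ⊕ (Fin 2 ⊕ Z) → ℂ) = Sum.elim (Sum.elim (fun _ => 1) (fun _ => 0))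
        (fun _ => 0) := by
    funext x
    rcases x with (x | x) | (x | x)
    · fin_cases x <;> simp [Pi.single_apply]
    · simp [Pi.single_apply]
    · simp [Pi.single_apply]
    · simp [Pi.single_apply]
  have hD : (Pi.single (Sum.inl (Sum.inl 0)) 1 - Pi.single (Sum.inl (Sum.inl 1)) 1 :
      (Fin 2 ⊕ Y) ⊕ (Fin 2 ⊕ Z) → ℂ) = Sum.elim (Sum.elim ![1, -1] (fun _ => 0))
        (fun _ => 0) := by
    funext x
    rcases x with (x | x) | (x | x)
    · fin_cases x <;> simp [Pi.single_apply]
    · simp [Pi.single_apply]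
    · simp [Pi.single_apply]
    · simp [Pi.single_apply]
  refine pst_four hp hp3 (W0 := Sum.elim (fun _ => 0) (Sum.elim (fun _ => 1) (fun _ => 0)))
    (Y0 := Sum.elim (Sum.elim (fun _ => 0) (fun y => (ω y : ℂ))) (fun _ => 0))
    (Z0 := Sum.elim (fun _ => 0) (Sum.elim (fun _ => 0)
      (fun z => ((∑ y ∈ R z, ω y : ℕ) : ℂ)))) ?_ ?_ ?_ ?_ ?_
  · rw [hX]
    funext x
    rcases x with x | x
    · rw [mul_inl]; simp
    · rw [mul_inr, Fintype.sum_sum_type]
      rcases x with x | x
      · simp only [q1, q2, q3, q4]; simp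
      · simp only [q1, q2, q3, q4]; simp
  · rw [hX]
    funext x
    rcases x with x | x
    · rw [mul_inl, Fintype.sum_sum_type]
      rcases x with x | x
      · simp only [q1, q2, q3, q4]; simp
      · have := hω x
        simp only [q1, q2, q3, q4]
        simp [← this]
    · rw [mul_inr]; simp
  · funext x
    rcases x with x | x
    · rw [mul_inl]; simp
    · rw [mul_inr, Fintype.sum_sum_type]
      rcases x with x | x
      · have := ha x
        have h2 : ((p : ℂ) ^ 2 - 2) = ((∑ y, if N y x then ω y else 0 : ℕ) : ℂ) := by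
          rw [eq_comm, eq_sub_iff_add_eq]
          exact_mod_cast this
        simp only [q1, q2, q3, q4]; simp [h2]
      · simp only [q1, q2, q3, q4]; simp [Finset.sum_ite_mem]
  · funext x
    rcases x with x | x
    · rw [mul_inl, Fintype.sum_sum_type]
      rcases x with x | x
      · simp only [q1, q2, q3, q4]; simp
      · have h2 : ((∑ z, if x ∈ R z then ∑ y' ∈ R z, ω y' else 0 : ℕ) : ℂ) =
          ((p ^ 2 * ω x : ℕ) : ℂ) := by rw [hb x]
        push_cast at h2
        simp only [q1, q2, q3, q4]; simp [h2]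
    · rw [mul_inr]; simp
  · rw [hD]
    funext x
    rcases x with x | x
    · rw [mul_inl]; simp
    · rw [mul_inr, Fintype.sum_sum_type]
      rcases x with x | x
      · simp only [q1, q2, q3, q4]; simp
      · simp only [q1, q2, q3, q4]; simp

end Pool.Agent.H8.SP
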