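import Pool.Agent.H8.SPb

namespace Pool.Agent.H8.SP

open Matrix

lemma PST_of {V : Type} [Fintype V] [i1 : DecidableEq V] (G : SimpleGraph V)
    [i2 : DecidableRel G.Adj] {u v : V}
    (h : ∃ t : ℝ, (NormedSpace.exp ((Complex.I * (t : ℂ)) • G.adjMatrix ℂ)).mulVec
      (Pi.single u 1) = (-1 : ℂ) • Pi.single v 1) : PST G u v := by
  obtain ⟨t, ht⟩ := h
  refine ⟨t, -1, by simp, ?_⟩
  unfold U
  obtain rfl : i1 = fun a b => Classical.propDecidable (a = b) := Subsingleton.elim _ _
  obtain rfl : i2 = fun a b => Classical.propDecidable (G.Adj a b) := Subsingleton.elim _ _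
  exact ht

lemma PST_of' {V : Type} [Fintype V] [i1 : DecidableEq V] (G : SimpleGraph V)
    [i2 : DecidableRel G.Adj] {u v : V} {γ : ℂ} (hγ : ‖γ‖ = 1)
    (h : ∃ t : ℝ, (NormedSpace.exp ((Complex.I * (t : ℂ)) • G.adjMatrix ℂ)).mulVec
      (Pi.single u 1) = γ • Pi.single v 1) : PST G u v := by
  obtain ⟨t, ht⟩ := h
  refine ⟨t, γ, hγ, ?_⟩
  unfold U
  obtain rfl : i1 = fun a b => Classical.propDecidable (a = b) := Subsingleton.elim _ _
  obtain rfl : i2 = fun a b => Classical.propDecidable (G.Adj a b) := Subsingleton.elim _ _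
  exact ht

section gen

variable {Y J : Type} [Fintype Y] [Fintype J] [DecidableEq Y] [DecidableEq J]
  (N : Y → Fin 2 → Prop) [∀ y j, Decidable (N y j)] (T : J → Finset Y) (b : ℕ)

def ld (T : J → Finset Y) (y : Y) : ℕ := ∑ j, if y ∈ T j then (T j).card else 0

def Rr : J ⊕ (Σ y : Y, Fin (b - ld T y)) → Finset Y
  | .inl j => T j
  | .inr z => {z.1}

omit [DecidableEq J] in
lemma sum_ld : ∑ y, ld T y = ∑ j, (T j).card ^ 2 := by
  unfold ld
  rw [Finset.sum_comm]
  refine Finset.sum_congr rfl fun j _ => ?_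
  rw [Finset.sum_ite_mem, Finset.univ_inter, Finset.sum_const, smul_eq_mul, sq]

omit [DecidableEq J] in
lemma sum_sub (h : ∀ y, ld T y ≤ b) :
    ∑ y, (b - ld T y) + ∑ j, (T j).card ^ 2 = Fintype.card Y * b := by
  rw [← sum_ld, ← Finset.sum_add_distrib]
  rw [Finset.sum_congr rfl fun y _ => Nat.sub_add_cancel (h y)]
  simp

theorem gen_attained {p : ℕ} (hp : Odd p) (hp3 : 3 ≤ p) (ω : Y → ℕ)
    (hN : ∀ y, ∃ j, N y j)
    (hω : ∀ y, (∑ j, if N y j then 1 else 0) = ω y)
    (ha : ∀ j, (∑ y, if N y j then ω y else 0) + 2 = p ^ 2)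
    (hT : ∀ j, ∀ y ∈ T j, ω y = 1) (hTn : ∀ j, (T j).Nonempty)
    (hl : ∀ y, ld T y ≤ p ^ 2) {n e : ℕ}
    (hn : n + ∑ j, (T j).card ^ 2 = 4 + Fintype.card Y * (1 + p ^ 2) + Fintype.card J)
    (he : e + ∑ j, (T j).card ^ 2 =
      4 + ∑ y, ω y + Fintype.card Y * p ^ 2 + ∑ j, (T j).card) :
    Attained n e := by
  classical
  let Z := J ⊕ (Σ y : Y, Fin (p ^ 2 - ld T y))
  let R : Z → Finset Y := Rr T (p ^ 2)
  have hS := sum_sub T (p ^ 2) hl
  have hZ : Fintype.card Z + ∑ j, (T j).card ^ 2 = Fintype.card J + Fintype.card Y * p ^ 2 := by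
    have : Fintype.card Z = Fintype.card J + ∑ y, (p ^ 2 - ld T y) := by
      simp [Z]
    rw [this, add_assoc, hS]
  have hR : ∑ z, (R z).card + ∑ j, (T j).card ^ 2 =
      ∑ j, (T j).card + Fintype.card Y * p ^ 2 := by
    have : ∑ z, (R z).card = ∑ j, (T j).card + ∑ y, (p ^ 2 - ld T y) := by
      rw [Fintype.sum_sum_type]
      congr 1
      rw [Fintype.sum_sigma]
      refine Finset.sum_congr rfl fun y _ => ?_
      simp [R, Rr]
    rw [this, add_assoc, hS]
  have hRn : ∀ z, (R z).Nonempty := by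
    rintro (z | z)
    · exact hTn z
    · exact Finset.singleton_nonempty _
  refine ⟨(Fin 2 ⊕ Y) ⊕ (Fin 2 ⊕ Z), inferInstance, bip (Bq N R), ?_, ?_, ?_, ?_⟩
  · simp only [Fintype.card_sum, Fintype.card_fin]
    nlinarith
  · have base : ∀ x, (bip (Bq N R)).Reachable x (Sum.inl (Sum.inl 0)) := by
      have a1 : ∀ i j : Fin 2, (bip (Bq N R)).Adj (Sum.inl (Sum.inl i)) (Sum.inr (Sum.inl j)) :=
        fun i j => trivial
      have r1 : ∀ j : Fin 2, (bip (Bq N R)).Reachable (Sum.inr (Sum.inl j)) (Sum.inl (Sum.inl 0)) :=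
        fun j => (a1 0 j).symm.reachable
      have r2 : ∀ y : Y, (bip (Bq N R)).Reachable (Sum.inl (Sum.inr y)) (Sum.inl (Sum.inl 0)) := by
        intro y
        obtain ⟨j, hj⟩ := hN y
        have : (bip (Bq N R)).Adj (Sum.inl (Sum.inr y)) (Sum.inr (Sum.inl j)) := hj
        exact this.reachable.trans (r1 j)
      rintro ((i | y) | (j | z))
      · exact (a1 i 0).reachable.trans (r1 0)
      · exact r2 y
      · exact r1 j
      · obtain ⟨y, hy⟩ := hRn z
        have : (bip (Bq N R)).Adj (Sum.inl (Sum.inr y)) (Sum.inr (Sum.inr z)) := hy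
        exact this.symm.reachable.trans (r2 y)
    haveI : Nonempty ((Fin 2 ⊕ Y) ⊕ (Fin 2 ⊕ Z)) := ⟨Sum.inl (Sum.inl 0)⟩
    exact ⟨fun x y => (base x).trans (base y).symm⟩
  · refine ⟨Sum.inl (Sum.inl 0), Sum.inl (Sum.inl 1), by simp, ?_⟩
    refine PST_of _ (pst_graph N R hp hp3 ω hω ha (by
      intro y
      rw [Fintype.sum_sum_type, Fintype.sum_sigma]
      have h1 : (∑ j, if y ∈ R (Sum.inl j) then ∑ y' ∈ R (Sum.inl j), ω y' else 0) = ld T y := by
        unfold ld
        refine Finset.sum_congr rfl fun j _ => ?_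
        show (if y ∈ T j then ∑ y' ∈ T j, ω y' else 0) = _
        split_ifs with h
        · rw [Finset.sum_congr rfl (hT j)]; simp
        · rfl
      have h2 : (∑ y'', ∑ z : Fin (p ^ 2 - ld T y''),
          if y ∈ R (Sum.inr ⟨y'', z⟩) then ∑ y' ∈ R (Sum.inr ⟨y'', z⟩), ω y' else 0) =
          (p ^ 2 - ld T y) * ω y := by
        have : ∀ y'', (∑ z : Fin (p ^ 2 - ld T y''),
          if y ∈ R (Sum.inr ⟨y'', z⟩) then ∑ y' ∈ R (Sum.inr ⟨y'', z⟩), ω y' else 0) =
          if y = y'' then (p ^ 2 - ld T y'') * ω y'' else 0 := by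
          intro y''
          have : ∀ z : Fin (p ^ 2 - ld T y''),
            (if y ∈ R (Sum.inr ⟨y'', z⟩) then ∑ y' ∈ R (Sum.inr ⟨y'', z⟩), ω y' else 0) =
            if y = y'' then ω y'' else 0 := by
            intro z
            simp [R, Rr]
          simp only [this]
          by_cases h : y = y''
          · simp [h]
          · simp [h]
        simp only [this]
        simp
      rw [h1, h2]
      by_cases h : ld T y = 0
      · rw [h]; simp
      · have : ω y = 1 := by
          by_contra hne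
          apply h
          unfold ld
          refine Finset.sum_eq_zero fun j _ => ?_
          rw [if_neg]
          intro hy
          exact hne (hT j y hy)
        rw [this, mul_one, mul_one]
        have := hl y
        omega))
  · rw [bip_card, Fintype.sum_sum_type]
    simp only [Fintype.sum_sum_type (α₁ := Fin 2) (α₂ := Y), q1, q2, q3, q4]
    have h1 : ∑ j : Fin 2, (∑ _i : Fin 2, 1 + ∑ y : Y, if N y j then 1 else 0) =
        4 + ∑ y, ω y := by
      rw [Finset.sum_add_distrib, Finset.sum_comm (s := Finset.univ (α := Fin 2))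
        (t := Finset.univ (α := Y))]
      rw [Finset.sum_congr rfl fun y _ => hω y]
      simp
    have h2 : ∑ z : Z, (∑ _i : Fin 2, 0 + ∑ y : Y, if y ∈ R z then 1 else 0) =
        ∑ z, (R z).card := by
      refine Finset.sum_congr rfl fun z _ => ?_
      simp
    rw [h1, h2]
    omega

end gen

end Pool.Agent.H8.SP
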