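import Pool.Agent.H8.SPc

namespace Pool.Agent.H8.SP

/-- sizes of the shared sets -/
def szf (c r s : ℕ) : Unit ⊕ (Fin r ⊕ Fin s) → ℕ
  | .inl _ => c
  | .inr (.inl _) => 3
  | .inr (.inr _) => 2

def emb (m' D : ℕ) : Fin m' ↪ (Fin 2 × Fin m') ⊕ Fin D :=
  ⟨fun i => Sum.inl (0, i), fun a b h => by simpa using h⟩

def Tf (m' D c r s : ℕ) (j : Unit ⊕ (Fin r ⊕ Fin s)) : Finset ((Fin 2 × Fin m') ⊕ Fin D) :=
  (Finset.univ.filter fun i : Fin m' => i.val < szf c r s j).map (emb m' D)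

lemma card_filter_lt {m' k : ℕ} (h : k ≤ m') :
    (Finset.univ.filter fun i : Fin m' => i.val < k).card = k := by
  rw [Fin.card_filter_val_lt]
  exact min_eq_right h

lemma Tf_card {m' D c r s : ℕ} (hc : c ≤ m') (h3 : 3 ≤ m') (j) :
    (Tf m' D c r s j).card = szf c r s j := by
  unfold Tf
  rw [Finset.card_map, card_filter_lt]
  rcases j with j | (j | j)
  · exact hc
  · exact h3
  · show 2 ≤ m'; omega

def Nf (m' D : ℕ) : (Fin 2 × Fin m') ⊕ Fin D → Fin 2 → Prop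
  | .inl y, j => y.1 = j
  | .inr _, _ => True

instance (m' D : ℕ) : ∀ y j, Decidable (Nf m' D y j)
  | .inl y, j => inferInstanceAs (Decidable (y.1 = j))
  | .inr _, _ => isTrue trivial

lemma n1 {m' D : ℕ} {α : Type} (y : Fin 2 × Fin m') (j : Fin 2) (a b : α) :
    (if Nf m' D (Sum.inl y) j then a else b) = if y.1 = j then a else b := rfl
lemma n2 {m' D : ℕ} {α : Type} (y : Fin D) (j : Fin 2) (a b : α) :
    (if Nf m' D (Sum.inr y) j then a else b) = a := rfl

def wf (m' D : ℕ) : (Fin 2 × Fin m') ⊕ Fin D → ℕ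
  | .inl _ => 1
  | .inr _ => 2

theorem attained_param {p m' D c r s n e : ℕ} (hp : Odd p) (hp3 : 3 ≤ p)
    (hm : m' + 2 * D + 2 = p ^ 2) (hc1 : 1 ≤ c) (hcm : c ≤ m') (hm3 : 3 ≤ m')
    (hload : c + 3 * r + 2 * s ≤ p ^ 2)
    (hn : n + (c ^ 2 + 9 * r + 4 * s) = 4 + (2 * m' + D) * (1 + p ^ 2) + (1 + r + s))
    (he : e + (c ^ 2 + 9 * r + 4 * s) =
      4 + (2 * m' + 2 * D) + (2 * m' + D) * p ^ 2 + (c + 3 * r + 2 * s)) :
    Attained n e := by
  have hsz : ∀ f : ℕ → ℕ, ∑ j, f ((Tf m' D c r s j).card) = f c + r * f 3 + s * f 2 := by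
    intro f
    simp only [Tf_card hcm hm3, Fintype.sum_sum_type, szf]
    simp
    ring
  have h2 : ∑ j, (Tf m' D c r s j).card ^ 2 = c ^ 2 + 9 * r + 4 * s := by
    rw [hsz (fun x => x ^ 2)]; ring
  have h1 : ∑ j, (Tf m' D c r s j).card = c + 3 * r + 2 * s := by
    rw [hsz (fun x => x)]; ring
  refine gen_attained (Nf m' D) (Tf m' D c r s) hp hp3 (wf m' D) ?_ ?_ ?_ ?_ ?_ ?_
    (n := n) (e := e) ?_ ?_
  · rintro (y | y)
    · exact ⟨y.1, rfl⟩
    · exact ⟨0, trivial⟩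
  · rintro (y | y)
    · simp [n1, wf]
    · simp [n2, wf]
  · intro j
    rw [Fintype.sum_sum_type]
    simp only [n1, n2, wf]
    rw [Fintype.sum_prod_type, ← hm]
    fin_cases j
    · simp; ring
    · simp; ring
  · intro j y hy
    unfold Tf at hy
    rw [Finset.mem_map] at hy
    obtain ⟨i, _, rfl⟩ := hy
    rfl
  · intro j
    rw [← Finset.card_pos, Tf_card hcm hm3]
    rcases j with j | (j | j) <;> simp [szf]
    omega
  · intro y
    calc ld (Tf m' D c r s) y ≤ ∑ j, (Tf m' D c r s j).card := by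
          unfold ld
          refine Finset.sum_le_sum fun j _ => ?_
          split_ifs
          · exact le_rfl
          · exact Nat.zero_le _
      _ = c + 3 * r + 2 * s := h1
      _ ≤ p ^ 2 := hload
  · rw [h2, hn]
    simp
    ring
  · rw [h2, h1, he]
    have : ∑ y, wf m' D y = 2 * m' + 2 * D := by
      rw [Fintype.sum_sum_type]
      simp [wf]
      ring
    rw [this]
    simp

end Pool.Agent.H8.SP
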