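import Pool.Agent.H8.SPd

namespace Pool.Agent.H8.SP

lemma arith1 (p R : ℕ) (hp : 17 ≤ p) (hR : 16 ≤ R) (hR2 : R ≤ 16 * p ^ 3) :
    ∃ m' D c r s : ℕ, m' + 2 * D + 2 = p ^ 2 ∧ 1 ≤ c ∧ c ≤ m' ∧ 3 ≤ m' ∧
      c + 3 * r + 2 * s ≤ p ^ 2 ∧
      R + 1 = 3 * D * (1 + p ^ 2) + c ^ 2 + 8 * r + 3 * s ∧ D + c + 2 * r + s ≤ 10 * p + 11 := by
  set B := 3 * (1 + p ^ 2) with hB
  have hBpos : 0 < B := by positivity
  set D := (R - 16) / B with hD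
  set R2 := (R - 16) % B with hR2'
  have e1 : B * D + R2 + 16 = R := by
    have : B * D + R2 = R - 16 := Nat.div_add_mod (R - 16) B
    omega
  have hlt : R2 < B := Nat.mod_lt _ hBpos
  set c := Nat.sqrt (R2 + 1) with hc
  have c1 : c * c ≤ R2 + 1 := Nat.sqrt_le _
  have c2 : R2 + 1 ≤ c * c + c + c := Nat.sqrt_le_add _
  have hc1 : 1 ≤ c := by
    rw [hc, Nat.one_le_iff_ne_zero]
    intro h
    rw [Nat.sqrt_eq_zero] at h
    omega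
  obtain ⟨w, hw⟩ : ∃ w, R2 + 1 = c * c + w := ⟨R2 + 1 - c * c, by omega⟩
  have hw2 : w ≤ 2 * c := by omega
  obtain ⟨r, s, hr, hrs⟩ : ∃ r s, r ≤ 2 ∧ 8 * r + 3 * s = w + 16 :=
    ⟨(2 * (w + 16)) % 3, ((w + 16) - 8 * ((2 * (w + 16)) % 3)) / 3, by omega, by omega⟩
  have hc2p : c ≤ 2 * p := by
    by_contra h
    have h' : 2 * p + 1 ≤ c := by omega
    have : (2 * p + 1) * (2 * p + 1) ≤ c * c := Nat.mul_le_mul h' h'
    nlinarith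
  have hD6 : D ≤ 6 * p := by
    by_contra h
    have h' : 6 * p + 1 ≤ D := by omega
    have h3 : B * (6 * p + 1) ≤ B * D := Nat.mul_le_mul le_rfl h'
    have h4 : B * (6 * p + 1) ≤ 16 * p ^ 3 := by omega
    rw [hB] at h4
    have : 3 * (1 + p ^ 2) * (6 * p + 1) = 18 * p ^ 3 + 3 * p ^ 2 + 18 * p + 3 := by ring
    have h5 : 0 ≤ p ^ 3 := Nat.zero_le _
    omega
  have hp2 : 17 * p ≤ p ^ 2 := by nlinarith
  obtain ⟨m', hm'⟩ : ∃ m', m' + 2 * D + 2 = p ^ 2 := ⟨p ^ 2 - 2 - 2 * D, by omega⟩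
  refine ⟨m', D, c, r, s, hm', hc1, by omega, by omega, by omega, ?_, by omega⟩
  have : 3 * D * (1 + p ^ 2) = B * D := by rw [hB]; ring
  rw [this]
  nlinarith

lemma exists_p (n : ℕ) (hn : 200000 ≤ n) : ∃ p R : ℕ, Odd p ∧ 17 ≤ p ∧ 16 ≤ R ∧
    R ≤ 16 * p ^ 3 ∧ n + R + 2 * p ^ 2 = 2 * p ^ 4 ∧ 2 * (p - 2) ^ 4 ≤ n + 2 * (p - 2) ^ 2 + 17 := by
  have hex : ∃ k : ℕ, n + 17 + 2 * (2 * k + 1) ^ 2 ≤ 2 * (2 * k + 1) ^ 4 := by
    refine ⟨n, ?_⟩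
    have h1 : (2 * n + 1) ^ 4 = (2 * n + 1) ^ 2 * (2 * n + 1) ^ 2 := by ring
    rw [h1]
    have h2 : n + 17 ≤ (2 * n + 1) ^ 2 := by nlinarith
    have h3 : 2 ≤ (2 * n + 1) ^ 2 := by nlinarith
    nlinarith
  classical
  set k := Nat.find hex with hk
  have h1 : n + 17 + 2 * (2 * k + 1) ^ 2 ≤ 2 * (2 * k + 1) ^ 4 := Nat.find_spec hex
  have hk8 : 8 ≤ k := by
    by_contra h
    have hk7 : k ≤ 7 := by omega
    have : (2 * k + 1) ^ 4 ≤ 15 ^ 4 := Nat.pow_le_pow_left (by omega) 4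
    norm_num at this
    omega
  have h2 : ¬ (n + 17 + 2 * (2 * (k - 1) + 1) ^ 2 ≤ 2 * (2 * (k - 1) + 1) ^ 4) :=
    Nat.find_min hex (by omega)
  obtain ⟨q, hq⟩ : ∃ q, q = 2 * (k - 1) + 1 := ⟨_, rfl⟩
  have hp : 2 * k + 1 = q + 2 := by omega
  rw [← hq] at h2
  rw [hp] at h1
  have hq15 : 15 ≤ q := by omega
  refine ⟨q + 2, 2 * (q + 2) ^ 4 - 2 * (q + 2) ^ 2 - n, ?_, by omega, by omega, ?_, by omega, ?_⟩
  · rw [← hp]; exact ⟨k, rfl⟩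
  · have e1 : 2 * (q + 2) ^ 4 = 2 * q ^ 4 + 16 * q ^ 3 + 48 * q ^ 2 + 64 * q + 32 := by ring
    have e2 : 2 * (q + 2) ^ 2 = 2 * q ^ 2 + 8 * q + 8 := by ring
    have e3 : 16 * (q + 2) ^ 3 = 16 * q ^ 3 + 96 * q ^ 2 + 192 * q + 128 := by ring
    omega
  · simp only [Nat.add_sub_cancel]
    omega

theorem large (n : ℕ) (hn : 200000 ≤ n) : ∃ e : ℕ, Attained n (n + e) ∧ e ^ 4 ≤ 40000 * n := by
  obtain ⟨p, R, hodd, hp17, hR, hR2, hn0, hlow⟩ := exists_p n hn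
  obtain ⟨m', D, c, r, s, hm, hc1, hcm, hm3, hload, hRe, hsum⟩ := arith1 p R hp17 hR hR2
  refine ⟨D + c + 2 * r + s - 1, ?_, ?_⟩
  · refine attained_param hodd (by omega) hm hc1 hcm hm3 hload ?_ ?_
    · have e1 : (2 * m' + D) * (1 + p ^ 2) + 3 * D * (1 + p ^ 2) = 2 * (p ^ 2 - 2) * (1 + p ^ 2) := by
        rw [← add_mul]
        congr 1
        omega
      have e2 : 2 * (p ^ 2 - 2) * (1 + p ^ 2) + 4 + 2 * p ^ 2 = 2 * p ^ 4 := by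
        obtain ⟨x, hx⟩ : ∃ x, p ^ 2 = x + 2 := ⟨p ^ 2 - 2, by omega⟩
        have : p ^ 4 = (p ^ 2) ^ 2 := by ring
        rw [this, hx]
        simp only [Nat.add_sub_cancel]
        ring
      omega
    · have e1 : (2 * m' + D) * (1 + p ^ 2) + 3 * D * (1 + p ^ 2) = 2 * (p ^ 2 - 2) * (1 + p ^ 2) := by
        rw [← add_mul]
        congr 1
        omega
      have e2 : 2 * (p ^ 2 - 2) * (1 + p ^ 2) + 4 + 2 * p ^ 2 = 2 * p ^ 4 := by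
        obtain ⟨x, hx⟩ : ∃ x, p ^ 2 = x + 2 := ⟨p ^ 2 - 2, by omega⟩
        have : p ^ 4 = (p ^ 2) ^ 2 := by ring
        rw [this, hx]
        simp only [Nat.add_sub_cancel]
        ring
      have e3 : (2 * m' + D) * (1 + p ^ 2) = (2 * m' + D) + (2 * m' + D) * p ^ 2 := by ring
      omega
  · obtain ⟨q, hq⟩ : ∃ q, p = q + 2 := ⟨p - 2, by omega⟩
    subst hq
    simp only [Nat.add_sub_cancel] at hlow
    have h1 : D + c + 2 * r + s - 1 ≤ 13 * q := by omega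
    have h2 : (D + c + 2 * r + s - 1) ^ 4 ≤ (13 * q) ^ 4 := Nat.pow_le_pow_left h1 4
    have h3 : (13 * q) ^ 4 = 28561 * q ^ 4 := by ring
    have h4 : 225 * q ^ 2 ≤ q ^ 4 := by
      have e4 : q ^ 4 = q ^ 2 * q ^ 2 := by ring
      rw [e4]
      have e5 : 15 * 15 ≤ q * q := Nat.mul_le_mul (by omega) (by omega)
      refine Nat.mul_le_mul_right _ ?_
      rw [sq]
      exact e5
    omega

end Pool.Agent.H8.SP
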