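import Pool.Agent.H8.SPe

namespace Pool.Agent.H8.SP

open Matrix

theorem attained_base {p : ℕ} (hp : Odd p) (hp3 : 3 ≤ p) :
    Attained (2 * p ^ 2 * (p ^ 2 - 1)) (2 * p ^ 2 * (p ^ 2 - 1)) := by
  have h9 : 3 * 3 ≤ p * p := Nat.mul_le_mul hp3 hp3
  obtain ⟨x, hx⟩ : ∃ x, p ^ 2 = x + 2 := ⟨p ^ 2 - 2, by rw [sq]; omega⟩
  have hx7 : 7 ≤ x := by rw [sq] at hx; omega
  have e1 : p ^ 2 - 1 = x + 1 := by omega
  refine attained_param (m' := x) (D := 0) (c := 1) (r := 0) (s := 0) hodd3 hp3 (by omega) le_rfl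
    (by omega) (by omega) (by omega) ?_ ?_
  · rw [e1, hx]; ring
  · rw [e1, hx]; ring
where hodd3 := hp

theorem attained_two (k : ℕ) (hk : 1 ≤ k) : Attained (k + 2) (2 * k) := by
  classical
  let B : Fin 2 → Fin k → Prop := fun _ _ => True
  refine ⟨Fin 2 ⊕ Fin k, inferInstance, bip B, by simp; ring, ?_, ?_, ?_⟩
  · have a1 : ∀ i j, (bip B).Adj (Sum.inl i) (Sum.inr j) := fun _ _ => trivial
    have j0 : Fin k := ⟨0, hk⟩
    have base : ∀ x, (bip B).Reachable x (Sum.inl 0) := by
      rintro (i | j)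
      · exact (a1 i j0).reachable.trans (a1 0 j0).symm.reachable
      · exact (a1 0 j).symm.reachable
    have : Nonempty (Fin 2 ⊕ Fin k) := ⟨Sum.inl 0⟩
    exact ⟨fun x y => (base x).trans (base y).symm⟩
  · refine ⟨Sum.inl 0, Sum.inl 1, by simp, PST_of _ (pst_two (k := k) hk ?_ ?_)⟩
    · have hX : (Pi.single (Sum.inl 0) 1 + Pi.single (Sum.inl 1) 1 : Fin 2 ⊕ Fin k → ℂ) =
          Sum.elim (fun _ => 1) (fun _ => 0) := by
        funext x
        rcases x with x | x
        · fin_cases x <;> simp [Pi.single_apply]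
        · simp [Pi.single_apply]
      have h1 : ((bip B).adjMatrix ℂ).mulVec (Sum.elim (fun _ => 1) (fun _ => 0)) =
          Sum.elim (fun _ => 0) (fun _ => 2) := by
        funext x
        rcases x with x | x
        · rw [mul_inl]; simp
        · rw [mul_inr]; simp [B]
      rw [hX, h1]
      funext x
      rcases x with x | x
      · rw [mul_inl]; simp [B]; ring
      · rw [mul_inr]; simp
    · have hX : (Pi.single (Sum.inl 0) 1 - Pi.single (Sum.inl 1) 1 : Fin 2 ⊕ Fin k → ℂ) =
          Sum.elim ![1, -1] (fun _ => 0) := by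
        funext x
        rcases x with x | x
        · fin_cases x <;> simp [Pi.single_apply]
        · simp [Pi.single_apply]
      rw [hX]
      funext x
      rcases x with x | x
      · rw [mul_inl]; simp
      · rw [mul_inr]; simp [B]
  · rw [bip_card]
    simp [B]
    ring

theorem attained_K2 : Attained 2 1 := by
  classical
  refine ⟨Fin 2, inferInstance, ⊤, by simp, ?_, ?_, ?_⟩
  · exact SimpleGraph.connected_top
  · refine ⟨0, 1, by simp, PST_of' _ (γ := Complex.I) (by simp) ⟨Real.pi / 2, ?_⟩⟩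
    have key : (NormedSpace.exp ((Complex.I * ((Real.pi / 2 : ℝ) : ℂ)) •
        (⊤ : SimpleGraph (Fin 2)).adjMatrix ℂ)).mulVec (Pi.single 0 1) =
        Complex.I • (Pi.single 1 1 : Fin 2 → ℂ) := by
      have hp := exp_mulVec_eig (M := (Complex.I * ((Real.pi / 2 : ℝ) : ℂ)) •
        (⊤ : SimpleGraph (Fin 2)).adjMatrix ℂ) (μ := Complex.I * ((Real.pi / 2 : ℝ) : ℂ))
        (F := ![1, 1]) (by
          rw [Matrix.smul_mulVec]
          congr 1
          funext x
          fin_cases x <;> simp [Matrix.mulVec, dotProduct, Fin.sum_univ_two])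
      have hm := exp_mulVec_eig (M := (Complex.I * ((Real.pi / 2 : ℝ) : ℂ)) •
        (⊤ : SimpleGraph (Fin 2)).adjMatrix ℂ) (μ := -(Complex.I * ((Real.pi / 2 : ℝ) : ℂ)))
        (F := ![1, -1]) (by
          have hA : ((⊤ : SimpleGraph (Fin 2)).adjMatrix ℂ).mulVec ![1, -1] =
              (-1 : ℂ) • ![1, -1] := by
            funext x
            rw [Matrix.mulVec, dotProduct, Fin.sum_univ_two]
            fin_cases x <;> simp [SimpleGraph.adjMatrix_apply]
          rw [Matrix.smul_mulVec, hA, smul_smul]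
          congr 1
          ring)
      have e1 : Complex.exp (Complex.I * ((Real.pi / 2 : ℝ) : ℂ)) = Complex.I := by
        rw [mul_comm]
        push_cast
        exact Complex.exp_pi_div_two_mul_I
      have e2 : Complex.exp (-(Complex.I * ((Real.pi / 2 : ℝ) : ℂ))) = -Complex.I := by
        rw [Complex.exp_neg, e1, Complex.inv_I]
      rw [e1] at hp
      rw [e2] at hm
      have e3 : (Pi.single 0 1 : Fin 2 → ℂ) = (1 / 2 : ℂ) • (![1, 1] + ![1, -1]) := by
        funext x
        fin_cases x <;> simp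
        norm_num
      rw [e3, Matrix.mulVec_smul, Matrix.mulVec_add, hp, hm]
      funext x
      fin_cases x <;> simp
      ring
    exact key
  · have : (⊤ : SimpleGraph (Fin 2)).edgeSet = {s(0, 1)} := by
      ext e
      induction e using Sym2.ind with
      | _ x y =>
        fin_cases x <;> fin_cases y <;> simp
    rw [this]
    simp

end Pool.Agent.H8.SP
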