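import Mathlib

set_option autoImplicit false

namespace Pool.Agent.H8Sdf

/-- locally normal -/
def LN (G : Type) [Group G] : Prop :=
  ∀ s : Finset G, ∃ N : Subgroup G, N.Normal ∧ (N : Set G).Finite ∧ (↑s : Set G) ⊆ (N : Set G)

/-- residually finite -/
def RF (G : Type) [Group G] : Prop :=
  ∀ g : G, g ≠ 1 → ∃ N : Subgroup G, N.Normal ∧ N.FiniteIndex ∧ g ∉ N

variable {G : Type} [Group G]

lemma RF.finset (h : RF G) (s : Finset G) (hs : (1 : G) ∉ s) :
    ∃ N : Subgroup G, N.Normal ∧ N.FiniteIndex ∧ ∀ g ∈ s, g ∉ N := by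
  classical
  induction s using Finset.induction_on with
  | empty => exact ⟨⊤, inferInstance, inferInstance, by simp⟩
  | insert a s ha ih =>
    obtain ⟨N₁, h1, h2, h3⟩ := ih (fun h' => hs (Finset.mem_insert_of_mem h'))
    obtain ⟨N₂, h4, h5, h6⟩ := h a (fun h' => hs (by rw [← h']; exact Finset.mem_insert_self _ _))
    refine ⟨N₁ ⊓ N₂, inferInstance, inferInstance, ?_⟩
    intro g hg hgN
    rcases Finset.mem_insert.mp hg with h7 | h7
    · subst h7; exact h6 hgN.2
    · exact h3 g h7 hgN.1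

lemma RF.sep (h : RF G) (N : Subgroup G) (hN : (N : Set G).Finite)
    (s : Set G) (hs : s.Finite) [N.Normal] :
    ∃ K : Subgroup G, K.Normal ∧ K.FiniteIndex ∧ N ≤ K ∧ ∀ g ∈ s, g ∉ N → g ∉ K := by
  classical
  have hfin : (Set.image2 (fun g n => g * n) (s \ N) (N : Set G)).Finite :=
    Set.Finite.image2 _ (hs.subset Set.sdiff_subset) hN
  obtain ⟨K, h1, h2, h3⟩ := h.finset hfin.toFinset (by
    rw [Set.Finite.mem_toFinset]
    rintro ⟨g, ⟨hg, hgN⟩, n, hn, h4⟩
    apply hgN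
    have : g = n⁻¹ := eq_inv_of_mul_eq_one_left h4
    rw [this]
    exact N.inv_mem hn)
  refine ⟨K ⊔ N, inferInstance, ?_, le_sup_right, ?_⟩
  · exact Subgroup.finiteIndex_of_le le_sup_left
  · intro g hg hgN hgK
    rw [← SetLike.mem_coe, Subgroup.mul_normal] at hgK
    obtain ⟨k, hk, n, hn, rfl⟩ := Set.mem_mul.mp hgK
    have hn' : n⁻¹ ∈ N := N.inv_mem hn
    apply h3 k ?_ hk
    rw [Set.Finite.mem_toFinset]
    exact ⟨k * n, ⟨hg, hgN⟩, n⁻¹, hn', by group⟩

/-- Hall's theorem in the countable case. -/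
lemma hall (hLN : LN G) (hRF : RF G) [Countable G] :
    ∃ K : ℕ → Subgroup G, (∀ n, (K n).Normal ∧ (K n).FiniteIndex) ∧
      (∀ x, {n | x ∉ K n}.Finite) ∧ ∀ x, x ≠ 1 → ∃ n, x ∉ K n := by
  classical
  obtain ⟨e, he⟩ := exists_surjective_nat G
  have step : ∀ (N : {N : Subgroup G // N.Normal ∧ (N : Set G).Finite}) (x : G),
      ∃ N' : {N : Subgroup G // N.Normal ∧ (N : Set G).Finite}, N.1 ≤ N'.1 ∧ x ∈ N'.1 := by
    rintro ⟨N, hN1, hN2⟩ x
    obtain ⟨N', h1, h2, h3⟩ := hLN (insert x hN2.toFinset)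
    refine ⟨⟨N', h1, h2⟩, ?_, ?_⟩
    · intro y hy
      apply h3
      simp only [Finset.coe_insert, Set.Finite.coe_toFinset]
      exact Or.inr hy
    · apply h3
      simp
  choose nxt hn1 hn2 using step
  let F : ℕ → {N : Subgroup G // N.Normal ∧ (N : Set G).Finite} := fun n =>
    Nat.rec ⟨⊥, inferInstance, by simp⟩ (fun n N => nxt N (e n)) n
  have hF0 : (F 0).1 = ⊥ := rfl
  have hF1 : ∀ n, (F n).1 ≤ (F (n + 1)).1 := fun n => hn1 (F n) (e n)
  have hF2 : ∀ n, e n ∈ (F (n + 1)).1 := fun n => hn2 (F n) (e n)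
  have hmono : Monotone (fun n => (F n).1) := monotone_nat_of_le_succ hF1
  have hsep : ∀ n, ∃ K : Subgroup G, K.Normal ∧ K.FiniteIndex ∧ (F n).1 ≤ K ∧
      ∀ g ∈ ((F (n + 1)).1 : Set G), g ∉ (F n).1 → g ∉ K := by
    intro n
    haveI := (F n).2.1
    exact hRF.sep (F n).1 (F n).2.2 _ (F (n + 1)).2.2
  choose K hK1 hK2 hK3 hK4 using hsep
  refine ⟨K, fun n => ⟨hK1 n, hK2 n⟩, ?_, ?_⟩
  · intro x
    obtain ⟨m, rfl⟩ := he x
    apply (Set.finite_Iic m).subset
    intro n hn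
    by_contra hcon
    have hmn : m + 1 ≤ n := by
      rw [Set.mem_Iic] at hcon
      omega
    exact hn (hK3 n (hmono hmn (hF2 m)))
  · intro x hx
    obtain ⟨m, rfl⟩ := he x
    have hex : ∃ n, e m ∈ (F n).1 := ⟨m + 1, hF2 m⟩
    have h1 := Nat.find_spec hex
    have h2 : Nat.find hex ≠ 0 := by
      intro h0
      rw [h0, hF0, Subgroup.mem_bot] at h1
      exact hx h1
    obtain ⟨n, hn⟩ := Nat.exists_eq_succ_of_ne_zero h2
    have h3 : e m ∉ (F n).1 := Nat.find_min hex (by rw [hn]; exact Nat.lt_succ_self n)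
    rw [hn] at h1
    exact ⟨n, hK4 n _ h1 h3⟩

/-- closing under countably valued operations on lists -/
lemma exists_closed {α : Type} (Op : List α → Set α) (hOp : ∀ l, (Op l).Countable)
    (A : Set α) (hA : A.Countable) :
    ∃ M : Set α, M.Countable ∧ A ⊆ M ∧ ∀ l : List α, (∀ x ∈ l, x ∈ M) → Op l ⊆ M := by
  have hlist : ∀ t : Set α, t.Countable → {l : List α | ∀ x ∈ l, x ∈ t}.Countable := by
    intro t ht
    haveI : Countable t := ht
    refine (Set.countable_range (fun l : List t => l.map Subtype.val)).mono ?_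
    intro l hl
    lift l to List t using hl
    exact ⟨l, rfl⟩
  let s : ℕ → Set α := fun n => Nat.rec A (fun _ t => t ∪ ⋃ l ∈ {l : List α | ∀ x ∈ l, x ∈ t}, Op l) n
  have hs0 : s 0 = A := rfl
  have hs1 : ∀ n, s (n + 1) = s n ∪ ⋃ l ∈ {l : List α | ∀ x ∈ l, x ∈ s n}, Op l := fun n => rfl
  have hmono : Monotone s := monotone_nat_of_le_succ (fun n => by
    rw [hs1]; exact Set.subset_union_left)
  have hcount : ∀ n, (s n).Countable := by
    intro n
    induction n with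
    | zero => rw [hs0]; exact hA
    | succ n ih =>
      rw [hs1]
      exact ih.union (Set.Countable.biUnion (hlist _ ih) (fun l _ => hOp l))
  refine ⟨⋃ n, s n, Set.countable_iUnion hcount, ?_, ?_⟩
  · rw [← hs0]; exact Set.subset_iUnion s 0
  · intro l hl
    have : ∃ n, ∀ x ∈ l, x ∈ s n := by
      induction l with
      | nil => exact ⟨0, by simp⟩
      | cons a l ih =>
        obtain ⟨n, hn⟩ := ih (fun x hx => hl x (List.mem_cons_of_mem _ hx))
        obtain ⟨m, hm⟩ := Set.mem_iUnion.mp (hl a List.mem_cons_self)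
        refine ⟨max n m, ?_⟩
        intro x hx
        rcases List.mem_cons.mp hx with h | h
        · subst h; exact hmono (le_max_right _ _) hm
        · exact hmono (le_max_left _ _) (hn x h)
    obtain ⟨n, hn⟩ := this
    intro y hy
    apply Set.mem_iUnion.mpr
    refine ⟨n + 1, ?_⟩
    rw [hs1]
    exact Or.inr (Set.mem_biUnion (show l ∈ {l : List α | ∀ x ∈ l, x ∈ s n} from hn) hy)

/-- extension property -/
def Ext (H : Subgroup G) : Prop :=
  ∀ (P : Type) [Group P] [Finite P] (φ : H →* P),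
    ∃ ψ : G →* P, (∀ x : H, ψ x = φ x) ∧ ∀ x : G, ∃ h : H, ψ x = φ h

/-- compactness criterion for extensions -/
lemma ext_of_finset {P : Type} [Group P] [Finite P] (H : Subgroup G) (φ : H →* P)
    (hf : ∀ E : Finset G, ∃ f : G → P, (∀ x ∈ E, ∀ y ∈ E, f (x * y) = f x * f y) ∧
      (∀ x : H, x.1 ∈ E → f x = φ x) ∧ ∀ x : G, ∃ h : H, f x = φ h) :
    ∃ ψ : G →* P, (∀ x : H, ψ x = φ x) ∧ ∀ x : G, ∃ h : H, ψ x = φ h := by
  classical
  choose f hf1 hf2 hf3 using hf
  let U : Ultrafilter (Finset G) := Ultrafilter.of Filter.atTop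
  have hU : (U : Filter (Finset G)) ≤ Filter.atTop := Ultrafilter.of_le _
  have hlim : ∀ x : G, ∃ p : P, ∀ᶠ E in (U : Filter (Finset G)), f E x = p := by
    intro x
    obtain ⟨p, hp⟩ := Ultrafilter.eq_pure_of_finite (U.map (fun E => f E x))
    refine ⟨p, ?_⟩
    have : {p} ∈ U.map (fun E => f E x) := by
      rw [hp]
      exact Set.mem_singleton p
    exact this
  choose ψ hψ using hlim
  have hge : ∀ E₀ : Finset G, ∀ᶠ E in (U : Filter (Finset G)), E₀ ⊆ E := by
    intro E₀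
    exact hU (Filter.eventually_ge_atTop E₀)
  refine ⟨MonoidHom.mk' ψ ?_, ?_, ?_⟩
  · intro x y
    obtain ⟨E, h1, h2, h3, h4⟩ := ((hψ (x * y)).and ((hψ x).and ((hψ y).and (hge {x, y})))).exists
    rw [← h1, ← h2, ← h3]
    exact hf1 E x (h4 (by simp)) y (h4 (by simp))
  · intro x
    obtain ⟨E, h1, h2⟩ := ((hψ x).and (hge {x.1})).exists
    show ψ x = _
    rw [← h1]
    exact hf2 E x (h2 (by simp))
  · intro x
    obtain ⟨E, h1⟩ := (hψ x).exists
    show ∃ h, ψ x = _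
    rw [← h1]
    exact hf3 E x

/-- Skolem functions for finite systems of equations `w i * w j = w k` -/
noncomputable def sk (c : Finset (ℕ × ℕ × ℕ) × Finset ℕ) (l : List G) : ℕ → G := by
  classical
  exact if h : ∃ w : ℕ → G, (∀ i ∈ c.2, w i = l.getD i 1) ∧
    ∀ t ∈ c.1, w t.1 * w t.2.1 = w t.2.2 then h.choose else fun _ => 1

lemma sk_spec (c : Finset (ℕ × ℕ × ℕ) × Finset ℕ) (l : List G)
    (h : ∃ w : ℕ → G, (∀ i ∈ c.2, w i = l.getD i 1) ∧ ∀ t ∈ c.1, w t.1 * w t.2.1 = w t.2.2) :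
    (∀ i ∈ c.2, sk c l i = l.getD i 1) ∧
      ∀ t ∈ c.1, sk c l t.1 * sk c l t.2.1 = sk c l t.2.2 := by
  unfold sk
  rw [dif_pos h]
  exact h.choose_spec

lemma ext_of_closed (M : Subgroup G)
    (hM : ∀ (l : List G), (∀ x ∈ l, x ∈ M) → ∀ c k, sk c l k ∈ M) : Ext M := by
  classical
  intro P _ _ φ
  apply ext_of_finset
  intro E
  let E' : Finset G := E ∪ Finset.image₂ (fun x y => x * y) E E
  let L : List G := E'.toList
  let z : ℕ → G := fun i => L.getD i 1
  let l : List G := L.map (fun x => if x ∈ M then x else 1)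
  let t : Finset (ℕ × ℕ × ℕ) :=
    (Finset.range L.length ×ˢ Finset.range L.length ×ˢ Finset.range L.length).filter
      (fun q => z q.1 * z q.2.1 = z q.2.2)
  let I₀ : Finset ℕ := (Finset.range L.length).filter (fun i => z i ∈ M)
  have hl : ∀ x ∈ l, x ∈ M := by
    intro x hx
    obtain ⟨y, _, rfl⟩ := List.mem_map.mp hx
    split_ifs with h
    · exact h
    · exact M.one_mem
  have hlz : ∀ i ∈ I₀, z i = l.getD i 1 := by
    intro i hi
    rw [Finset.mem_filter, Finset.mem_range] at hi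
    have h1 : i < l.length := by
      rw [List.length_map]; exact hi.1
    have h2 : l.getD i 1 = l[i] := List.getD_eq_getElem _ _ h1
    have h3 : z i = L[i]'hi.1 := List.getD_eq_getElem _ _ hi.1
    rw [h2, List.getElem_map, ← h3, if_pos hi.2]
  obtain ⟨h1, h2⟩ := sk_spec (t, I₀) l ⟨z, hlz, fun q hq => (Finset.mem_filter.mp hq).2⟩
  have hidx : ∀ x ∈ E', L.idxOf x < L.length ∧ z (L.idxOf x) = x := by
    intro x hx
    have hx' : x ∈ L := Finset.mem_toList.mpr hx
    have h3 : L.idxOf x < L.length := List.idxOf_lt_length_iff.mpr hx'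
    refine ⟨h3, ?_⟩
    show L.getD (L.idxOf x) 1 = x
    rw [List.getD_eq_getElem _ _ h3]
    exact List.getElem_idxOf h3
  refine ⟨fun x => φ ⟨sk (t, I₀) l (L.idxOf x), hM l hl _ _⟩, ?_, ?_, ?_⟩
  · intro x hx y hy
    obtain ⟨hx1, hx2⟩ := hidx x (Finset.mem_union_left _ hx)
    obtain ⟨hy1, hy2⟩ := hidx y (Finset.mem_union_left _ hy)
    obtain ⟨hxy1, hxy2⟩ := hidx (x * y)
      (Finset.mem_union_right _ (Finset.mem_image₂_of_mem hx hy))
    have := h2 (L.idxOf x, L.idxOf y, L.idxOf (x * y)) (by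
      rw [Finset.mem_filter, Finset.mem_product, Finset.mem_product, Finset.mem_range,
        Finset.mem_range, Finset.mem_range]
      refine ⟨⟨hx1, hy1, hxy1⟩, ?_⟩
      show z _ * z _ = z _
      rw [hx2, hy2, hxy2])
    rw [← map_mul]
    exact congrArg φ (Subtype.ext this.symm)
  · intro x hx
    obtain ⟨hx1, hx2⟩ := hidx x.1 (Finset.mem_union_left _ hx)
    have h3 : L.idxOf x.1 ∈ I₀ := by
      rw [Finset.mem_filter, Finset.mem_range]
      refine ⟨hx1, ?_⟩
      rw [hx2]; exact x.2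
    have h4 := h1 _ h3
    show φ _ = φ x
    congr 1
    apply Subtype.ext
    show sk (t, I₀) l (L.idxOf x.1) = x.1
    rw [h4, ← hlz _ h3, hx2]
  · intro x
    exact ⟨_, rfl⟩

end Pool.Agent.H8Sdf
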