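import Mathlib

set_option autoImplicit false
set_option linter.style.haveILetI false

open scoped Classical

namespace Pool.Agent.H8Sdf

lemma socle_data (A : Type) [AddCommGroup A] (p : ℕ) [hp : Fact p.Prime] :
    ∃ (ι : ℕ → Type) (y : ∀ k, ι k → A),
      (∀ k i, p ^ (k + 1) • y k i = 0) ∧
      (∀ (s : Finset (Σ k, ι k)) (c : (Σ k, ι k) → ℤ),
        ∑ x ∈ s, c x • (p ^ x.1 • y x.1 x.2) = 0 → ∀ x ∈ s, (p : ℤ) ∣ c x) ∧
      (∀ k (v : A), p • v = 0 → (∃ a, v = p ^ k • a) →
        ∃ (s : Finset (ι k)) (c : ι k → ℤ) (a' : A),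
          v = ∑ i ∈ s, c i • (p ^ k • y k i) + p ^ (k + 1) • a') := by
  let V : AddSubgroup A := (nsmulAddMonoidHom p : A →+ A).ker
  have hV : ∀ v : A, v ∈ V ↔ p • v = 0 := fun v => Iff.rfl
  letI : Module (ZMod p) V := AddCommGroup.zmodModule (n := p) (fun v => Subtype.ext v.2)
  let U : ℕ → AddSubgroup V := fun k =>
    { carrier := {v | ∃ a : A, v.1 = p ^ k • a}
      zero_mem' := ⟨0, by simp⟩
      add_mem' := by
        rintro v w ⟨a, ha⟩ ⟨b, hb⟩
        exact ⟨a + b, by rw [AddSubgroup.coe_add, ha, hb, smul_add]⟩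
      neg_mem' := by
        rintro v ⟨a, ha⟩
        exact ⟨-a, by rw [AddSubgroup.coe_neg, ha, smul_neg]⟩ }
  let Vk : ℕ → Submodule (ZMod p) V := fun k => AddSubgroup.toZModSubmodule p (U k)
  have hVk : ∀ k (v : V), v ∈ Vk k ↔ ∃ a : A, v.1 = p ^ k • a := fun k v => Iff.rfl
  have hanti : ∀ k l, k ≤ l → Vk l ≤ Vk k := by
    intro k l hkl v hv
    obtain ⟨a, ha⟩ := (hVk l v).mp hv
    refine (hVk k v).mpr ⟨p ^ (l - k) • a, ?_⟩
    rw [ha, ← mul_smul, ← pow_add, Nat.add_sub_cancel' hkl]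
  have hcompl : ∀ k, ∃ W : Submodule (ZMod p) V, W ≤ Vk k ∧ Disjoint W (Vk (k + 1)) ∧
      Vk k ≤ W ⊔ Vk (k + 1) := by
    intro k
    obtain ⟨C, hC⟩ := Submodule.exists_isCompl (Vk (k + 1))
    refine ⟨C ⊓ Vk k, inf_le_right, ?_, ?_⟩
    · exact hC.symm.disjoint.mono_left inf_le_left
    · have h1 : (C ⊓ Vk k) ⊔ Vk (k + 1) = (C ⊔ Vk (k + 1)) ⊓ Vk k := by
        rw [inf_comm, inf_sup_assoc_of_le C (hanti k (k + 1) (Nat.le_succ k)), inf_comm]
      rw [h1, hC.symm.sup_eq_top, top_inf_eq]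
  choose W hW1 hW2 hW3 using hcompl
  let b : ∀ k, Module.Basis _ (ZMod p) (W k) := fun k => Module.Basis.ofVectorSpace (ZMod p) (W k)
  have hy : ∀ k (i : Module.Basis.ofVectorSpaceIndex (ZMod p) (W k)),
      ∃ a : A, ((b k i : W k) : V).1 = p ^ k • a := fun k i => hW1 k (b k i).2
  choose y hy using hy
  have hli : LinearIndependent (ZMod p)
      (fun x : Σ k, Module.Basis.ofVectorSpaceIndex (ZMod p) (W k) => ((b x.1 x.2 : W x.1) : V)) := by
    rw [linearIndependent_iff']
    intro s g hsum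
    have key : ∀ k, ∀ x ∈ s, x.1 = k → g x = 0 := by
      intro k
      induction k using Nat.strong_induction_on with
      | _ k ih =>
      rintro ⟨k', i⟩ hx rfl
      rw [← Finset.sum_filter_add_sum_filter_not s (fun x => x.1 = k')] at hsum
      have h1 : ∑ x ∈ s with x.1 = k', g x • ((b x.1 x.2 : W x.1) : V) ∈ W k' := by
        apply Submodule.sum_mem
        rintro ⟨l, j⟩ hl
        obtain ⟨_, hl'⟩ := Finset.mem_filter.mp hl
        have hl'' : l = k' := hl'
        subst hl''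
        exact Submodule.smul_mem _ _ (b l j).2
      have h2 : ∑ x ∈ s with ¬ x.1 = k', g x • ((b x.1 x.2 : W x.1) : V) ∈ Vk (k' + 1) := by
        apply Submodule.sum_mem
        rintro ⟨l, j⟩ hl
        obtain ⟨hls, hl'⟩ := Finset.mem_filter.mp hl
        rcases lt_trichotomy l k' with h | h | h
        · rw [ih l h ⟨l, j⟩ hls rfl, zero_smul]
          exact Submodule.zero_mem _
        · exact absurd h hl'
        · exact Submodule.smul_mem _ _ (hanti (k' + 1) l h (hW1 l (b l j).2))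
      have h3 : ∑ x ∈ s with x.1 = k', g x • ((b x.1 x.2 : W x.1) : V) = 0 := by
        have h4 : ∑ x ∈ s with x.1 = k', g x • ((b x.1 x.2 : W x.1) : V) ∈ Vk (k' + 1) := by
          rw [eq_neg_of_add_eq_zero_left hsum]
          exact Submodule.neg_mem _ h2
        exact Submodule.disjoint_def.mp (hW2 k') _ h1 h4
      have hli' := (b k').linearIndependent.map' (W k').subtype (Submodule.ker_subtype _)
      rw [linearIndependent_iff'] at hli'
      have hset : (s.filter (fun x => x.1 = k')) =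
          (s.preimage (Sigma.mk k') (sigma_mk_injective.injOn)).image (Sigma.mk k') := by
        ext ⟨l, j⟩
        rw [Finset.mem_filter, Finset.mem_image]
        constructor
        · rintro ⟨h5, h6⟩
          have h6' : l = k' := h6
          subst h6'
          exact ⟨j, Finset.mem_preimage.mpr h5, rfl⟩
        · rintro ⟨j', h5, h6⟩
          rw [← h6]
          exact ⟨Finset.mem_preimage.mp h5, rfl⟩
      rw [hset, Finset.sum_image (fun a _ b _ hab => sigma_mk_injective hab)] at h3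
      exact hli' _ (fun j => g ⟨k', j⟩) h3 i (Finset.mem_preimage.mpr hx)
    intro x hx
    exact key x.1 x hx rfl
  refine ⟨fun k => Module.Basis.ofVectorSpaceIndex (ZMod p) (W k), y, ?_, ?_, ?_⟩
  · intro k i
    rw [pow_succ', mul_smul, ← hy]
    exact ((b k i : W k) : V).2
  · intro s c hsum x hx
    rw [linearIndependent_iff'] at hli
    have h1 : ∑ x ∈ s, ((c x : ℤ) : ZMod p) • ((b x.1 x.2 : W x.1) : V) = 0 := by
      apply Subtype.ext
      rw [AddSubgroup.val_finsetSum]
      rw [← hsum.trans (AddSubgroup.coe_zero V).symm]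
      apply Finset.sum_congr rfl
      intro z _
      rw [Int.cast_smul_eq_zsmul, AddSubgroup.coe_zsmul, hy]
    have h2 := hli s _ h1 x hx
    exact (ZMod.intCast_zmod_eq_zero_iff_dvd _ _).mp h2
  · intro k v hv hva
    have h1 : (⟨v, hv⟩ : V) ∈ Vk k := hva
    obtain ⟨w, hw, v', hv', hsum⟩ := Submodule.mem_sup.mp (hW3 k h1)
    obtain ⟨a', ha'⟩ := hv'
    refine ⟨((b k).repr ⟨w, hw⟩).support, fun i => (((b k).repr ⟨w, hw⟩ i).val : ℤ), a', ?_⟩
    have h2 : v = w.1 + v'.1 := congrArg Subtype.val hsum.symm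
    have h3 : w = ∑ i ∈ ((b k).repr ⟨w, hw⟩).support,
        ((((b k).repr ⟨w, hw⟩ i).val : ℤ)) • ((b k i : W k) : V) := by
      have h4 := (b k).linearCombination_repr ⟨w, hw⟩
      rw [Finsupp.linearCombination_apply, Finsupp.sum] at h4
      have h5 := congrArg (fun t : W k => (t : V)) h4
      simp only [Submodule.coe_sum, Submodule.coe_smul] at h5
      refine h5.symm.trans (Finset.sum_congr rfl ?_)
      intro i _
      rw [← Int.cast_smul_eq_zsmul (ZMod p)]
      congr 1
      simp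
    rw [h2, ha']
    congr 1
    have h6 := congrArg (fun t : V => (t : A)) h3
    rw [h6]
    simp only [AddSubgroup.val_finsetSum, AddSubgroup.coe_zsmul]
    apply Finset.sum_congr rfl
    intro i _
    rw [hy]

end Pool.Agent.H8Sdf
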