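import Mathlib
import Pool.Agent.H8.SdfBasicSub

set_option autoImplicit false
set_option linter.style.haveILetI false

open scoped Classical

namespace Pool.Agent.H8Sdf

/-- Every torsion abelian group has a subgroup that is a direct sum of finite cyclic groups with
divisible quotient. -/
lemma basic (A : Type) [AddCommGroup A] (ht : ∀ a : A, ∃ m : ℕ, 0 < m ∧ m • a = 0) :
    ∃ (J : Type) (n : J → ℕ) (β : (Π₀ j, ZMod (n j)) →+ A), (∀ j, n j ≠ 0) ∧
      Function.Injective β ∧ ∀ (m : ℕ) (a : A), 0 < m → ∃ b, a - m • b ∈ β.range := by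
  have hd : ∀ p : Nat.Primes, ∃ (ι : ℕ → Type) (y : ∀ k, ι k → A),
      (∀ k i, p.1 ^ (k + 1) • y k i = 0) ∧
      (∀ (s : Finset (Σ k, ι k)) (c : (Σ k, ι k) → ℤ),
        ∑ x ∈ s, c x • (p.1 ^ x.1 • y x.1 x.2) = 0 → ∀ x ∈ s, (p.1 : ℤ) ∣ c x) ∧
      (∀ k (v : A), p.1 • v = 0 → (∃ a, v = p.1 ^ k • a) →
        ∃ (s : Finset (ι k)) (c : ι k → ℤ) (a' : A),
          v = ∑ i ∈ s, c i • (p.1 ^ k • y k i) + p.1 ^ (k + 1) • a') := by
    intro p
    haveI : Fact p.1.Prime := ⟨p.2⟩
    exact socle_data A p.1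
  choose ι y h1 h2 h3 using hd
  let J : Type := Σ p : Nat.Primes, Σ k : ℕ, ι p k
  let n : J → ℕ := fun j => j.1.1 ^ (j.2.1 + 1)
  have hn : ∀ j, n j ≠ 0 := fun j => pow_ne_zero _ j.1.2.ne_zero
  let g : ∀ j : J, ZMod (n j) →+ A := fun j =>
    ZMod.lift (n j) ⟨zmultiplesHom A (y j.1 j.2.1 j.2.2), by
      show ((n j : ℕ) : ℤ) • y j.1 j.2.1 j.2.2 = 0
      rw [natCast_zsmul]; exact h1 _ _ _⟩
  have hg : ∀ (j : J) (e : ℤ), g j (e : ZMod (n j)) = e • y j.1 j.2.1 j.2.2 := by
    intro j e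
    show ZMod.lift (n j) _ _ = _
    rw [ZMod.lift_coe]
    rfl
  let β : (Π₀ j, ZMod (n j)) →+ A := DFinsupp.liftAddHom g
  have hβ : ∀ f : Π₀ j, ZMod (n j), β f = ∑ j ∈ f.support, g j (f j) := by
    intro f
    show DFinsupp.liftAddHom g f = _
    rw [DFinsupp.liftAddHom_apply, DFinsupp.sumAddHom_apply]
    rfl
  have hβ1 : ∀ (j : J) (e : ℤ), e • y j.1 j.2.1 j.2.2 ∈ β.range := by
    intro j e
    refine ⟨DFinsupp.single j (e : ZMod (n j)), ?_⟩
    show DFinsupp.liftAddHom g _ = _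
    rw [DFinsupp.liftAddHom_apply_single, hg]
  -- prime order elements of the kernel vanish
  have hker : ∀ (q : Nat.Primes) (f : Π₀ j, ZMod (n j)), q.1 • f = 0 → β f = 0 → f = 0 := by
    intro q f hqf hf
    haveI : ∀ j, NeZero (n j) := fun j => ⟨hn j⟩
    have hcoord : ∀ j, q.1 • f j = 0 := by
      intro j
      have := congrArg (fun f : Π₀ j, ZMod (n j) => f j) hqf
      simpa using this
    have hdvd : ∀ j, n j ∣ q.1 * (f j).val := by
      intro j
      rw [← ZMod.natCast_eq_zero_iff]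
      have h4 := hcoord j
      rw [nsmul_eq_mul] at h4
      rw [Nat.cast_mul, ZMod.natCast_zmod_val]
      exact h4
    have hq : ∀ j ∈ f.support, j.1 = q := by
      intro j hj
      rw [DFinsupp.mem_support_toFun] at hj
      by_contra hne
      apply hj
      have hcop : Nat.Coprime (n j) q.1 := by
        apply Nat.Coprime.pow_left
        exact (Nat.coprime_primes j.1.2 q.2).mpr (fun h => hne (Subtype.ext h))
      have h5 := hcop.dvd_of_dvd_mul_left (hdvd j)
      rw [← ZMod.natCast_eq_zero_iff, ZMod.natCast_zmod_val] at h5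
      exact h5
    have hc : ∀ j, ∃ c : ℤ, j ∈ f.support → ((f j).val : ℤ) = q.1 ^ j.2.1 * c := by
      intro j
      by_cases hj : j ∈ f.support
      · have h4 := hdvd j
        have h0 : j.1.1 = q.1 := congrArg Subtype.val (hq j hj)
        have h5 : q.1 * q.1 ^ j.2.1 = n j := by
          show _ = j.1.1 ^ (j.2.1 + 1)
          rw [h0, pow_succ']
        have h6 := Nat.dvd_of_mul_dvd_mul_left q.2.pos (h5.dvd.trans h4)
        obtain ⟨c, hc⟩ := h6
        exact ⟨c, fun _ => by rw [hc]; push_cast; rfl⟩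
      · exact ⟨0, fun h => absurd h hj⟩
    choose c hc using hc
    -- reindex
    have hsum : ∑ x ∈ f.support.preimage (Sigma.mk q) (sigma_mk_injective.injOn),
        c ⟨q, x⟩ • (q.1 ^ x.1 • y q x.1 x.2) = 0 := by
      rw [hβ] at hf
      rw [← hf]
      have hset : f.support =
          (f.support.preimage (Sigma.mk q) (sigma_mk_injective.injOn)).image (Sigma.mk q) := by
        ext ⟨l, j⟩
        rw [Finset.mem_image]
        constructor
        · intro h6
          have h7 : l = q := hq _ h6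
          subst h7
          exact ⟨j, Finset.mem_preimage.mpr h6, rfl⟩
        · rintro ⟨j', h5, h6⟩
          rw [← h6]
          exact Finset.mem_preimage.mp h5
      conv_rhs => rw [hset]
      rw [Finset.sum_image (fun a _ b _ hab => sigma_mk_injective hab)]
      apply Finset.sum_congr rfl
      intro x hx
      have hx' := Finset.mem_preimage.mp hx
      have h8 : f ⟨q, x⟩ = (((f ⟨q, x⟩).val : ℤ) : ZMod (n ⟨q, x⟩)) := by
        rw [Int.cast_natCast, ZMod.natCast_zmod_val]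
      rw [h8, hg, hc _ hx']
      show _ = ((q.1 : ℤ) ^ x.1 * c ⟨q, x⟩) • y q x.1 x.2
      rw [mul_comm, mul_smul, ← natCast_zsmul]
      push_cast
      rfl
    have h9 := h2 q _ (fun x => c ⟨q, x⟩) hsum
    ext j
    by_contra hj
    have hj' : j ∈ f.support := by rw [DFinsupp.mem_support_toFun]; exact hj
    obtain ⟨p, x⟩ := j
    have hp : p = q := hq _ hj'
    subst hp
    obtain ⟨d, hd⟩ := h9 x (Finset.mem_preimage.mpr hj')
    have hd' : c ⟨p, x⟩ = p.1 * d := hd
    have h10 := hc _ hj'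
    rw [hd'] at h10
    apply hj
    have h11 : f ⟨p, x⟩ = (((f ⟨p, x⟩).val : ℤ) : ZMod (n ⟨p, x⟩)) := by
      rw [Int.cast_natCast, ZMod.natCast_zmod_val]
    rw [h11, h10]
    have h12 : ((p.1 : ℤ) ^ x.1 * (p.1 * d)) = ((n ⟨p, x⟩ : ℕ) : ℤ) * d := by
      show _ = ((p.1 ^ (x.1 + 1) : ℕ) : ℤ) * d
      push_cast
      ring
    rw [h12]
    simp
  have hinj : Function.Injective β := by
    rw [injective_iff_map_eq_zero]
    intro f hf
    by_contra hne
    -- f has finite order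
    have htor : ∃ N : ℕ, 0 < N ∧ N • f = 0 := by
      refine ⟨∏ j ∈ f.support, n j, Finset.prod_pos (fun j _ => Nat.pos_of_ne_zero (hn j)), ?_⟩
      ext j
      by_cases hj : j ∈ f.support
      · have h4 : n j ∣ ∏ j ∈ f.support, n j := Finset.dvd_prod_of_mem _ hj
        obtain ⟨d, hd⟩ := h4
        rw [DFinsupp.coe_nsmul, Pi.smul_apply, hd, nsmul_eq_mul]
        simp
      · rw [DFinsupp.mem_support_toFun, not_not] at hj
        rw [DFinsupp.coe_nsmul, Pi.smul_apply, hj]
        simp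
    have hfin : IsOfFinAddOrder f := isOfFinAddOrder_iff_nsmul_eq_zero.mpr htor
    have h4 : addOrderOf f ≠ 1 := by
      intro h
      exact hne (AddMonoid.addOrderOf_eq_one_iff.mp h)
    obtain ⟨q, hq, hqd⟩ := Nat.exists_prime_and_dvd h4
    obtain ⟨t, ht'⟩ := hqd
    have h5 : t • f = 0 := by
      apply hker ⟨q, hq⟩
      · show q • (t • f) = 0
        rw [← mul_smul, ← ht']
        exact addOrderOf_nsmul_eq_zero f
      · rw [map_nsmul, hf, smul_zero]
    have h6 := addOrderOf_dvd_of_nsmul_eq_zero h5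
    rw [ht'] at h6
    have hpos : 0 < addOrderOf f := hfin.addOrderOf_pos
    have htpos : 0 < t := by
      rw [ht'] at hpos
      exact Nat.pos_of_mul_pos_left hpos
    have h7 := Nat.le_of_dvd htpos h6
    have h8 := hq.two_le
    nlinarith
  -- divisibility
  have hdiv1 : ∀ (p : Nat.Primes) (s : ℕ) (a : A), p.1 ^ s • a = 0 →
      ∃ b, a - p.1 • b ∈ β.range := by
    intro p s
    induction s with
    | zero =>
      intro a ha
      rw [pow_zero, one_smul] at ha
      exact ⟨0, by rw [ha]; simp⟩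
    | succ s ih =>
      intro a ha
      obtain ⟨S, c, a', hv⟩ := h3 p s (p.1 ^ s • a)
        (by rw [← mul_smul, ← pow_succ']; exact ha) ⟨a, rfl⟩
      obtain ⟨b, hb⟩ := ih (a - ∑ i ∈ S, c i • y p s i - p.1 • a') (by
        rw [smul_sub, smul_sub, hv, Finset.smul_sum, ← mul_smul, ← pow_succ]
        have : ∑ i ∈ S, c i • p.1 ^ s • y p s i = ∑ i ∈ S, p.1 ^ s • c i • y p s i := by
          apply Finset.sum_congr rfl
          intro i _
          rw [smul_comm]
        rw [this]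
        abel)
      refine ⟨a' + b, ?_⟩
      have h4 : ∑ i ∈ S, c i • y p s i ∈ β.range := by
        apply AddSubgroup.sum_mem
        intro i _
        exact hβ1 ⟨p, s, i⟩ (c i)
      have h5 := AddSubgroup.add_mem _ hb h4
      have h6 : a - ∑ i ∈ S, c i • y p s i - p.1 • a' - p.1 • b + ∑ i ∈ S, c i • y p s i =
          a - p.1 • (a' + b) := by
        rw [smul_add]; abel
      rw [h6] at h5
      exact h5
  have hdiv2 : ∀ (p : Nat.Primes) (a : A), ∃ b, a - p.1 • b ∈ β.range := by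
    intro p a
    obtain ⟨m, hm, hma⟩ := ht a
    obtain ⟨s, t, hpt, hmt⟩ := Nat.exists_eq_pow_mul_and_not_dvd hm.ne' p.1 p.2.ne_one
    have hcop : Nat.Coprime t (p.1 ^ (s + 1)) :=
      (Nat.Coprime.pow_right _ ((Nat.Prime.coprime_iff_not_dvd p.2).mpr hpt).symm)
    have hbez := Nat.gcd_eq_gcd_ab t (p.1 ^ (s + 1))
    rw [Nat.Coprime.gcd_eq_one hcop] at hbez
    obtain ⟨b, hb⟩ := hdiv1 p s (((t : ℤ) * Nat.gcdA t (p.1 ^ (s + 1))) • a) (by
      rw [mul_smul, ← natCast_zsmul, ← mul_smul, ← mul_smul]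
      have h4 : ((p.1 ^ s : ℕ) : ℤ) * (t : ℤ) * Nat.gcdA t (p.1 ^ (s + 1)) =
          Nat.gcdA t (p.1 ^ (s + 1)) * (m : ℤ) := by
        rw [hmt]; push_cast; ring
      rw [h4, mul_smul, natCast_zsmul, hma, smul_zero])
    refine ⟨b + (Nat.gcdB t (p.1 ^ (s + 1))) • (p.1 ^ s • a), ?_⟩
    have h5 : a - p.1 • (b + (Nat.gcdB t (p.1 ^ (s + 1))) • (p.1 ^ s • a)) =
        ((t : ℤ) * Nat.gcdA t (p.1 ^ (s + 1))) • a - p.1 • b := by
      have h6 : a = ((t : ℤ) * Nat.gcdA t (p.1 ^ (s + 1)) +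
          ((p.1 ^ (s + 1) : ℕ) : ℤ) * Nat.gcdB t (p.1 ^ (s + 1))) • a := by
        rw [← hbez]; simp
      have h7 : p.1 • ((Nat.gcdB t (p.1 ^ (s + 1))) • (p.1 ^ s • a)) =
          (((p.1 ^ (s + 1) : ℕ) : ℤ) * Nat.gcdB t (p.1 ^ (s + 1))) • a := by
        rw [← natCast_zsmul, ← natCast_zsmul, ← mul_smul, ← mul_smul]
        congr 1
        push_cast
        ring
      rw [smul_add, h7]
      nth_rewrite 1 [h6]
      rw [add_smul]
      abel
    rw [h5]
    exact hb
  refine ⟨J, n, β, hn, hinj, ?_⟩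
  intro m
  induction m using Nat.recOnMul with
  | zero => intro a h; exact absurd h (lt_irrefl 0)
  | one => intro a _; exact ⟨a, by rw [one_smul, sub_self]; exact AddSubgroup.zero_mem _⟩
  | prime p hp => intro a _; exact hdiv2 ⟨p, hp⟩ a
  | mul m k ihm ihk =>
    intro a hmk
    obtain ⟨b, hb⟩ := ihm a (Nat.pos_of_mul_pos_right hmk)
    obtain ⟨d, hd⟩ := ihk b (Nat.pos_of_mul_pos_left hmk)
    refine ⟨d, ?_⟩
    have h4 := AddSubgroup.add_mem _ hb (AddSubgroup.nsmul_mem _ hd m)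
    have h5 : a - m • b + m • (b - k • d) = a - (m * k) • d := by
      rw [smul_sub, mul_smul]; abel
    rw [h5] at h4
    exact h4

end Pool.Agent.H8Sdf
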