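import Mathlib
import Pool.Agent.H8.SdfBasic

set_option autoImplicit false

open scoped Classical

namespace Pool.Agent.H8Sdf

variable {G : Type} [Group G] {J : Type} {n : J → ℕ}

/-- `π` identifies the abelianisation with a direct sum of finite cyclic groups -/
structure Dec (π : G →* Multiplicative (Π₀ j, ZMod (n j))) : Prop where
  pos : ∀ j, n j ≠ 0
  surj : Function.Surjective π
  ker : ∀ x, π x = 1 → x ∈ commutator G

/-- the image of `H` is a sub-sum -/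
def SS (π : G →* Multiplicative (Π₀ j, ZMod (n j))) (H : Subgroup G) : Prop :=
  ∀ h ∈ H, ∀ j, (Multiplicative.toAdd (π h)) j ≠ 0 → ∀ c : ZMod (n j),
    ∃ h' ∈ H, π h' = Multiplicative.ofAdd (DFinsupp.single j c)

structure Good (π : G →* Multiplicative (Π₀ j, ZMod (n j))) (H : Subgroup G) : Prop where
  normal : H.Normal
  ext : Ext H
  ss : SS π H

lemma kappa {K P : Type} [Group K] [Group P] (H : Subgroup K) [H.Normal] (θ ψ : K →* P)
    (h1 : ∀ h ∈ H, ψ h = θ h) (h2 : ∀ x, ∃ h ∈ H, ψ x = θ h) :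
    ∃ κ : K →* P, (∀ x, κ x = (ψ x)⁻¹ * θ x) ∧ ∀ x y, κ x * ψ y = ψ y * κ x := by
  have key : ∀ x y, (ψ x)⁻¹ * θ x * ψ y = ψ y * ((ψ x)⁻¹ * θ x) := by
    intro x y
    obtain ⟨h, hh, he⟩ := h2 y
    rw [he]
    have h3 : x * h * x⁻¹ ∈ H := Subgroup.Normal.conj_mem inferInstance h hh x
    have h4 := h1 _ h3
    rw [map_mul, map_mul, map_mul, map_mul, map_inv, map_inv, h1 h hh] at h4
    calc (ψ x)⁻¹ * θ x * θ h = (ψ x)⁻¹ * (θ x * θ h * (θ x)⁻¹) * θ x := by group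
      _ = (ψ x)⁻¹ * (ψ x * θ h * (ψ x)⁻¹) * θ x := by rw [h4]
      _ = θ h * ((ψ x)⁻¹ * θ x) := by group
  refine ⟨MonoidHom.mk' (fun x => (ψ x)⁻¹ * θ x) ?_, fun x => rfl, key⟩
  intro x y
  show (ψ (x * y))⁻¹ * θ (x * y) = (ψ x)⁻¹ * θ x * ((ψ y)⁻¹ * θ y)
  have h5 := key x (y⁻¹)
  rw [map_inv] at h5
  calc (ψ (x * y))⁻¹ * θ (x * y) = (ψ y)⁻¹ * ((ψ x)⁻¹ * θ x) * θ y := by
        rw [map_mul, map_mul]; group
    _ = ((ψ x)⁻¹ * θ x * (ψ y)⁻¹) * θ y := by rw [← h5]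
    _ = _ := by group

lemma comm_finite (hLN : LN G) (g : G) (hg : g ∈ commutator G) :
    ∃ F : Subgroup G, F.Normal ∧ (F : Set G).Finite ∧ g ∈ ⁅F, F⁆ := by
  rw [commutator_eq_closure] at hg
  induction hg using Subgroup.closure_induction with
  | mem x hx =>
    obtain ⟨a, b, rfl⟩ := mem_commutatorSet_iff.mp hx
    obtain ⟨F, h1, h2, h3⟩ := hLN {a, b}
    exact ⟨F, h1, h2, Subgroup.commutator_mem_commutator (h3 (by simp)) (h3 (by simp))⟩
  | one => exact ⟨⊥, inferInstance, by simp, Subgroup.one_mem _⟩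
  | mul x y _ _ hx hy =>
    obtain ⟨F₁, h1, h2, h3⟩ := hx
    obtain ⟨F₂, h4, h5, h6⟩ := hy
    obtain ⟨F, h7, h8, h9⟩ := hLN (h2.toFinset ∪ h5.toFinset)
    rw [Finset.coe_union, Set.Finite.coe_toFinset, Set.Finite.coe_toFinset] at h9
    refine ⟨F, h7, h8, Subgroup.mul_mem _ ?_ ?_⟩
    · exact Subgroup.commutator_mono (fun z hz => h9 (Or.inl hz)) (fun z hz => h9 (Or.inl hz)) h3
    · exact Subgroup.commutator_mono (fun z hz => h9 (Or.inr hz)) (fun z hz => h9 (Or.inr hz)) h6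
  | inv x _ hx =>
    obtain ⟨F₁, h1, h2, h3⟩ := hx
    exact ⟨F₁, h1, h2, Subgroup.inv_mem _ h3⟩

variable {π : G →* Multiplicative (Π₀ j, ZMod (n j))}

/-- closedness for elements of the commutator subgroup -/
lemma closed_comm (hLN : LN G) (hRF : RF G) {H : Subgroup G} [H.Normal] (hext : Ext H)
    {g : G} (hg : g ∉ H) (hgc : g ∈ commutator G) :
    ∃ K : Subgroup G, K.Normal ∧ K.FiniteIndex ∧ H ≤ K ∧ g ∉ K := by
  obtain ⟨F, hF1, hF2, hF3⟩ := comm_finite hLN g hgc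
  have hgF : g ∈ F := Subgroup.commutator_le_left F F hF3
  obtain ⟨K₀, h1, h2, h3, h4⟩ := hRF.sep (H ⊓ F) (hF2.subset (fun x hx => hx.2)) F hF2
  let P := G ⧸ K₀
  have : Finite P := Subgroup.finite_quotient_of_finiteIndex
  let θ : G →* P := QuotientGroup.mk' K₀
  obtain ⟨ψ, h5, h6⟩ := hext P (θ.comp H.subtype)
  have h5' : ∀ h ∈ H, ψ h = θ h := fun h hh => h5 ⟨h, hh⟩
  obtain ⟨κ, h7, h8⟩ := kappa H θ ψ h5' (fun x => by
    obtain ⟨h, hh⟩ := h6 x
    exact ⟨h.1, h.2, hh⟩)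
  -- elements of F are mapped by ψ to central elements
  have hcent : ∀ x ∈ F, ∀ y, ψ x * ψ y = ψ y * ψ x := by
    intro x hx y
    obtain ⟨h, hh⟩ := h6 y
    have hh' : ψ y = θ h.1 := hh
    have hcomm : θ x * θ h.1 = θ h.1 * θ x := by
      have h9 : x * h.1 * x⁻¹ * h.1⁻¹ ∈ K₀ := by
        apply h3
        refine ⟨?_, ?_⟩
        · exact H.mul_mem (Subgroup.Normal.conj_mem inferInstance _ h.2 x) (H.inv_mem h.2)
        · have : x * h.1 * x⁻¹ * h.1⁻¹ = x * (h.1 * x⁻¹ * h.1⁻¹) := by group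
          rw [this]
          exact F.mul_mem hx (Subgroup.Normal.conj_mem inferInstance _ (F.inv_mem hx) h.1)
      have h10 : θ (x * h.1 * x⁻¹ * h.1⁻¹) = 1 := (QuotientGroup.eq_one_iff _).mpr h9
      rw [map_mul, map_mul, map_mul, map_inv, map_inv] at h10
      rw [mul_inv_eq_one, mul_inv_eq_iff_eq_mul] at h10
      exact h10
    have h11 := h8 x y
    rw [h7, hh'] at h11
    -- (ψ x)⁻¹ θ x commutes with θ h, θ x commutes with θ h
    rw [hh']
    have h12 : (ψ x)⁻¹ * θ h.1 * θ x = θ h.1 * (ψ x)⁻¹ * θ x := by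
      calc (ψ x)⁻¹ * θ h.1 * θ x = (ψ x)⁻¹ * θ x * θ h.1 := by
            rw [mul_assoc, ← hcomm, ← mul_assoc]
        _ = θ h.1 * ((ψ x)⁻¹ * θ x) := h11
        _ = _ := by group
    have h13 := mul_right_cancel h12
    calc ψ x * θ h.1 = ψ x * (θ h.1 * (ψ x)⁻¹) * ψ x := by group
      _ = ψ x * ((ψ x)⁻¹ * θ h.1) * ψ x := by rw [h13]
      _ = θ h.1 * ψ x := by group
  have hψg : ψ g = 1 := by
    have h9 : ⁅F, F⁆ ≤ ψ.ker := by
      rw [Subgroup.commutator_le]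
      intro a ha b _
      rw [MonoidHom.mem_ker, map_commutatorElement, commutatorElement_eq_one_iff_mul_comm]
      exact hcent a ha b
    exact h9 hF3
  refine ⟨κ.ker, inferInstance, inferInstance, ?_, ?_⟩
  · intro h hh
    rw [MonoidHom.mem_ker, h7, h5' h hh, inv_mul_cancel]
  · rw [MonoidHom.mem_ker, h7, hψg, inv_one, one_mul]
    intro h9
    have h10 : g ∈ K₀ := (QuotientGroup.eq_one_iff _).mp h9
    exact h4 g hgF (fun h => hg h.1) h10

lemma closed (D : Dec π) (hLN : LN G) (hRF : RF G) {H : Subgroup G} (hH : Good π H)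
    {g : G} (hg : g ∉ H) :
    ∃ K : Subgroup G, K.Normal ∧ K.FiniteIndex ∧ H ≤ K ∧ g ∉ K := by
  haveI := hH.normal
  by_cases hex : ∃ h ∈ H, π h = π g
  · obtain ⟨h, hh, he⟩ := hex
    have h1 : h⁻¹ * g ∈ commutator G := D.ker _ (by rw [map_mul, map_inv, he, inv_mul_cancel])
    have h2 : h⁻¹ * g ∉ H := fun h3 => hg (by
      have := H.mul_mem hh h3
      rwa [mul_inv_cancel_left] at this)
    obtain ⟨K, h4, h5, h6, h7⟩ := closed_comm hLN hRF hH.ext h2 h1
    exact ⟨K, h4, h5, h6, fun h8 => h7 (K.mul_mem (K.inv_mem (h6 hh)) h8)⟩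
  · let A : AddSubgroup (Π₀ j, ZMod (n j)) :=
      { carrier := {x | ∃ h ∈ H, π h = Multiplicative.ofAdd x}
        zero_mem' := ⟨1, H.one_mem, by rw [map_one]; rfl⟩
        add_mem' := by
          rintro x y ⟨a, ha, ha'⟩ ⟨b, hb, hb'⟩
          exact ⟨a * b, H.mul_mem ha hb, by rw [map_mul, ha', hb']; rfl⟩
        neg_mem' := by
          rintro x ⟨a, ha, ha'⟩
          exact ⟨a⁻¹, H.inv_mem ha, by rw [map_inv, ha']; rfl⟩ }
    have h1 : ∃ j, (Multiplicative.toAdd (π g)) j ≠ 0 ∧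
        ∀ h ∈ H, (Multiplicative.toAdd (π h)) j = 0 := by
      by_contra hcon
      push Not at hcon
      apply hex
      have h2 : Multiplicative.toAdd (π g) ∈ A := by
        rw [← DFinsupp.sum_single (f := Multiplicative.toAdd (π g))]
        apply AddSubgroup.sum_mem
        intro j hj
        rw [DFinsupp.mem_support_toFun] at hj
        obtain ⟨h, hh, hne⟩ := hcon j hj
        exact hH.ss h hh j hne _
      exact h2
    obtain ⟨j, hj1, hj2⟩ := h1
    haveI : NeZero (n j) := ⟨D.pos j⟩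
    let κ : G →* Multiplicative (ZMod (n j)) :=
      (AddMonoidHom.toMultiplicative (DFinsupp.evalAddMonoidHom j)).comp π
    have hκ : ∀ x, κ x = Multiplicative.ofAdd ((Multiplicative.toAdd (π x)) j) := fun x => rfl
    haveI : Finite (Multiplicative (ZMod (n j))) := inferInstanceAs (Finite (ZMod (n j)))
    refine ⟨κ.ker, inferInstance, inferInstance, ?_, ?_⟩
    · intro h hh
      rw [MonoidHom.mem_ker, hκ, hj2 h hh]; rfl
    · rw [MonoidHom.mem_ker, hκ]
      intro h3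
      exact hj1 h3

end Pool.Agent.H8Sdf
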