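import Mathlib
import Pool.Agent.H8.SdfGood

set_option autoImplicit false
set_option linter.style.haveILetI false

open scoped Classical

namespace Pool.Agent.H8Sdf

variable {G : Type} [Group G] {J : Type} {n : J → ℕ}
  {π : G →* Multiplicative (Π₀ j, ZMod (n j))}

/-- transitivity of the extension property -/
lemma ext_comap {H : Subgroup G} [H.Normal] (hH : Ext H) {M : Subgroup (G ⧸ H)} (hM : Ext M) :
    Ext (M.comap (QuotientGroup.mk' H)) := by
  intro P _ _ φ
  have hle : H ≤ M.comap (QuotientGroup.mk' H) := by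
    intro x hx
    rw [Subgroup.mem_comap]
    have : QuotientGroup.mk' H x = 1 := (QuotientGroup.eq_one_iff _).mpr hx
    rw [this]; exact M.one_mem
  obtain ⟨ψ, h1, h2⟩ := hH P (φ.comp (Subgroup.inclusion hle))
  obtain ⟨κ, h3, h4⟩ := kappa (H.subgroupOf (M.comap (QuotientGroup.mk' H))) φ
    (ψ.comp (M.comap (QuotientGroup.mk' H)).subtype)
    (by
      intro h hh
      exact h1 ⟨h.1, hh⟩)
    (by
      intro x
      obtain ⟨h, hh⟩ := h2 x.1
      exact ⟨Subgroup.inclusion hle h, h.2, hh⟩)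
  have h3' : ∀ x, κ x = (ψ x.1)⁻¹ * φ x := h3
  have h4' : ∀ x (y : G), κ x * ψ y = ψ y * κ x := by
    intro x y
    obtain ⟨h, hh⟩ := h2 y
    have h5 := h4 x (Subgroup.inclusion hle h)
    have h6 : (ψ.comp (M.comap (QuotientGroup.mk' H)).subtype) (Subgroup.inclusion hle h) = ψ y := by
      rw [hh]; exact h1 h
    rw [h6] at h5
    exact h5
  -- descend κ to M
  let f : M.comap (QuotientGroup.mk' H) →* M :=
    ((QuotientGroup.mk' H).comp (M.comap (QuotientGroup.mk' H)).subtype).codRestrict M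
      (fun x => x.2)
  have hf : Function.Surjective f := by
    rintro ⟨m, hm⟩
    obtain ⟨x, rfl⟩ := QuotientGroup.mk'_surjective H m
    exact ⟨⟨x, hm⟩, rfl⟩
  have hker : f.ker ≤ κ.ker := by
    intro x hx
    have h5 : QuotientGroup.mk' H x.1 = 1 := congrArg Subtype.val hx
    have h6 : x.1 ∈ H := (QuotientGroup.eq_one_iff _).mp h5
    have h7 : ψ x.1 = φ x := h1 ⟨x.1, h6⟩
    rw [MonoidHom.mem_ker, h3', h7, inv_mul_cancel]
  let κ' : M →* P := MonoidHom.liftOfSurjective f hf ⟨κ, hker⟩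
  have hκ' : ∀ x, κ' (f x) = κ x := fun x =>
    MonoidHom.liftOfRightInverse_comp_apply f _ _ ⟨κ, hker⟩ x
  obtain ⟨μ, h5, h6⟩ := hM P κ'
  have h6' : ∀ x : G ⧸ H, ∃ y : M.comap (QuotientGroup.mk' H), μ x = κ y := by
    intro x
    obtain ⟨m, hm⟩ := h6 x
    obtain ⟨y, rfl⟩ := hf m
    exact ⟨y, by rw [hm, hκ']⟩
  refine ⟨MonoidHom.mk' (fun x => ψ x * μ (QuotientGroup.mk' H x)) ?_, ?_, ?_⟩
  · intro x y
    show ψ (x * y) * μ (QuotientGroup.mk' H (x * y)) =
      ψ x * μ (QuotientGroup.mk' H x) * (ψ y * μ (QuotientGroup.mk' H y))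
    rw [map_mul, map_mul, map_mul]
    obtain ⟨z, hz⟩ := h6' (QuotientGroup.mk' H x)
    have h7 := h4' z y
    rw [← hz] at h7
    rw [mul_assoc, mul_assoc, ← mul_assoc (μ _) (ψ y), h7, mul_assoc]
  · intro x
    show ψ x.1 * μ (QuotientGroup.mk' H x.1) = φ x
    have h7 : μ (QuotientGroup.mk' H x.1) = κ x := by
      rw [← hκ' x]; exact h5 (f x)
    rw [h7, h3', mul_inv_cancel_left]
  · intro x
    obtain ⟨z, hz⟩ := h6' (QuotientGroup.mk' H x)
    obtain ⟨h, hh⟩ := h2 x
    obtain ⟨h', hh'⟩ := h2 z.1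
    refine ⟨Subgroup.inclusion hle h * ((Subgroup.inclusion hle h')⁻¹ * z), ?_⟩
    show ψ x * μ (QuotientGroup.mk' H x) = _
    rw [hz, h3', map_mul, map_mul, map_inv]
    rw [hh, hh']
    rfl

lemma Ext.bot : Ext (⊥ : Subgroup G) := by
  intro P _ _ φ
  refine ⟨1, ?_, ?_⟩
  · intro x
    have : x = 1 := Subsingleton.elim _ _
    rw [this]; simp
  · intro x
    exact ⟨1, by simp⟩

lemma good_bot : Good π ⊥ := by
  refine ⟨inferInstance, Ext.bot, ?_⟩
  intro h hh j hj
  rw [Subgroup.mem_bot] at hh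
  subst hh
  rw [map_one] at hj
  exact absurd rfl hj

lemma good_sSup (c : Set (Subgroup G)) (hc : c.Nonempty) (hdir : DirectedOn (· ≤ ·) c)
    (hg : ∀ H ∈ c, Good π H) : Good π (sSup c) := by
  have hmem : ∀ x, x ∈ sSup c ↔ ∃ H ∈ c, x ∈ H := fun x =>
    Subgroup.mem_sSup_of_directedOn hc hdir
  have hfin : ∀ E : Finset G, ∃ H ∈ c, ∀ x ∈ E, x ∈ sSup c → x ∈ H := by
    intro E
    induction E using Finset.induction_on with
    | empty =>
      obtain ⟨H, hH⟩ := hc
      exact ⟨H, hH, by simp⟩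
    | insert a s _ ih =>
      obtain ⟨H, hH, h1⟩ := ih
      by_cases ha : a ∈ sSup c
      · obtain ⟨H', hH', h2⟩ := (hmem a).mp ha
        obtain ⟨H'', hH'', h3, h4⟩ := hdir H hH H' hH'
        refine ⟨H'', hH'', ?_⟩
        intro x hx hx'
        rcases Finset.mem_insert.mp hx with h5 | h5
        · subst h5; exact h4 h2
        · exact h3 (h1 x h5 hx')
      · refine ⟨H, hH, ?_⟩
        intro x hx hx'
        rcases Finset.mem_insert.mp hx with h5 | h5
        · subst h5; exact absurd hx' ha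
        · exact h1 x h5 hx'
  refine ⟨⟨?_⟩, ?_, ?_⟩
  · intro x hx g
    obtain ⟨H, hH, h1⟩ := (hmem x).mp hx
    exact (hmem _).mpr ⟨H, hH, (hg H hH).normal.conj_mem x h1 g⟩
  · intro P _ _ φ
    apply ext_of_finset
    intro E
    obtain ⟨H, hH, h1⟩ := hfin E
    obtain ⟨ψ, h2, h3⟩ := (hg H hH).ext P (φ.comp (Subgroup.inclusion (le_sSup hH)))
    refine ⟨ψ, fun x _ y _ => map_mul ψ x y, ?_, ?_⟩
    · intro x hx
      exact h2 ⟨x.1, h1 x.1 hx x.2⟩
    · intro x
      obtain ⟨h, hh⟩ := h3 x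
      exact ⟨_, hh⟩
  · intro h hh j hj k
    obtain ⟨H, hH, h1⟩ := (hmem h).mp hh
    obtain ⟨h', h2, h3⟩ := (hg H hH).ss h h1 j hj k
    exact ⟨h', le_sSup hH h2, h3⟩

instance instCenterComm (R : Type) [Group R] : CommGroup (Subgroup.center R) :=
  { (inferInstance : Group (Subgroup.center R)) with
    mul_comm := by
      rintro ⟨a, ha⟩ ⟨b, hb⟩
      apply Subtype.ext
      exact (Subgroup.mem_center_iff.mp ha b).symm }

/-- extension of locally finite families -/
lemma ext_lf (D : Dec π) (hLN : LN G) {H : Subgroup G} (hH : Good π H) {I : Type}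
    (P : I → Type) [∀ i, Group (P i)] [∀ i, Finite (P i)] (φ : ∀ i, H →* P i)
    (hφ : ∀ h : H, {i | φ i h ≠ 1}.Finite) :
    ∃ ψ : ∀ i, G →* P i, (∀ i (x : H), ψ i x = φ i x) ∧ (∀ i x, ∃ h : H, ψ i x = φ i h) ∧
      ∀ x : G, {i | ψ i x ≠ 1}.Finite := by
  haveI := hH.normal
  choose ψ₀ h1 h2 using fun i => hH.ext (P i) (φ i)
  have hφ' : ∀ h : H, ∀ᶠ i in Filter.cofinite, φ i h = 1 := fun h =>
    Filter.eventually_cofinite.mpr (hφ h)
  -- images are eventually central
  have hcent : ∀ x : G, ∀ᶠ i in Filter.cofinite, ∀ y : G, ψ₀ i x * ψ₀ i y = ψ₀ i y * ψ₀ i x := by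
    intro x
    obtain ⟨N, hN1, hN2, hN3⟩ := hLN {x}
    have hxN : x ∈ N := hN3 (by simp)
    have hfinT : {t : H | t.1 ∈ N}.Finite :=
      Set.Finite.of_finite_image (f := Subtype.val) (hN2.subset (by
        rintro _ ⟨t, ht, rfl⟩; exact ht)) (Subtype.val_injective.injOn)
    have hall : ∀ᶠ i in Filter.cofinite, ∀ t ∈ {t : H | t.1 ∈ N}, φ i t = 1 :=
      (Filter.eventually_all_finite hfinT).mpr (fun t _ => hφ' t)
    filter_upwards [hall] with i hi y
    obtain ⟨h, hh⟩ := h2 i y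
    have hh' : ψ₀ i y = ψ₀ i h.1 := by rw [hh, h1]
    have hmemH : x * h.1 * x⁻¹ * h.1⁻¹ ∈ H :=
      H.mul_mem (Subgroup.Normal.conj_mem inferInstance _ h.2 x) (H.inv_mem h.2)
    have hmemN : x * h.1 * x⁻¹ * h.1⁻¹ ∈ N := by
      have : x * h.1 * x⁻¹ * h.1⁻¹ = x * (h.1 * x⁻¹ * h.1⁻¹) := by group
      rw [this]
      exact N.mul_mem hxN (Subgroup.Normal.conj_mem inferInstance _ (N.inv_mem hxN) h.1)
    have h10 : ψ₀ i (x * h.1 * x⁻¹ * h.1⁻¹) = 1 := by
      rw [h1 i ⟨_, hmemH⟩]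
      exact hi ⟨_, hmemH⟩ hmemN
    rw [map_mul, map_mul, map_mul, map_inv, map_inv] at h10
    rw [mul_inv_eq_one, mul_inv_eq_iff_eq_mul] at h10
    rw [hh']
    exact h10
  -- lifts of basis elements
  have hx : ∀ j, ∃ x : G, π x = Multiplicative.ofAdd (DFinsupp.single j (1 : ZMod (n j))) :=
    fun j => D.surj _
  choose xj hxj using hx
  let SH : J → Prop := fun j => ∃ h ∈ H, (Multiplicative.toAdd (π h)) j ≠ 0
  let cond : I → J → Prop := fun i j => ¬ SH j ∧
    (∀ y : G, ψ₀ i (xj j) * ψ₀ i y = ψ₀ i y * ψ₀ i (xj j)) ∧ (ψ₀ i (xj j)) ^ (n j) = 1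
  have hz : ∀ i j, ∃ z : Subgroup.center (ψ₀ i).range, z ^ (n j) = 1 ∧
      (cond i j → (z.1.1 : P i) = ψ₀ i (xj j)) ∧ (SH j → z = 1) := by
    intro i j
    by_cases hc : cond i j
    · refine ⟨⟨⟨ψ₀ i (xj j), ⟨_, rfl⟩⟩, ?_⟩, ?_, fun _ => rfl, fun h => absurd h hc.1⟩
      · rw [Subgroup.mem_center_iff]
        rintro ⟨_, ⟨y, rfl⟩⟩
        apply Subtype.ext
        exact (hc.2.1 y).symm
      · apply Subtype.ext
        apply Subtype.ext
        exact hc.2.2
    · exact ⟨1, one_pow _, fun h => absurd h hc, fun _ => rfl⟩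
  choose z hz1 hz2 hz3 using hz
  let lft : ∀ i j, ZMod (n j) →+ Additive (Subgroup.center (ψ₀ i).range) := fun i j =>
    ZMod.lift (n j) ⟨zmultiplesHom _ (Additive.ofMul (z i j)), by
      show ((n j : ℕ) : ℤ) • Additive.ofMul (z i j) = 0
      rw [natCast_zsmul, ← ofMul_pow, hz1]; rfl⟩
  let χ : ∀ i, G →* Subgroup.center (ψ₀ i).range := fun i => MonoidHom.mk'
    (fun x => Additive.toMul (DFinsupp.liftAddHom (lft i) (Multiplicative.toAdd (π x)))) (by
      intro x y
      rw [map_mul, toAdd_mul, map_add, toMul_add])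
  have hχ1 : ∀ i, ∀ h ∈ H, χ i h = 1 := by
    intro i h hh
    show Additive.toMul (DFinsupp.liftAddHom (lft i) (Multiplicative.toAdd (π h))) = 1
    have h5 : DFinsupp.liftAddHom (lft i) (Multiplicative.toAdd (π h)) = 0 := by
      rw [DFinsupp.liftAddHom_apply, DFinsupp.sumAddHom_apply]
      apply Finset.sum_eq_zero
      intro j hj
      rw [DFinsupp.mem_support_toFun] at hj
      have h6 : z i j = 1 := hz3 i j ⟨h, hh, hj⟩
      have h7 : ∀ y, lft i j y = 0 := by
        intro y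
        obtain ⟨k, rfl⟩ := ZMod.intCast_surjective y
        show ZMod.lift (n j) _ _ = 0
        rw [ZMod.lift_coe]
        simp [h6]
      exact h7 _
    rw [h5]; rfl
  have hχ2 : ∀ i j, χ i (xj j) = z i j := by
    intro i j
    show Additive.toMul (DFinsupp.liftAddHom (lft i) (Multiplicative.toAdd (π (xj j)))) = z i j
    rw [hxj]
    have h5 : DFinsupp.liftAddHom (lft i) (DFinsupp.single j (1 : ZMod (n j))) =
        lft i j 1 := by
      rw [DFinsupp.liftAddHom_apply_single]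
    have h6 : lft i j 1 = Additive.ofMul (z i j) := by
      have : (1 : ZMod (n j)) = ((1 : ℤ) : ZMod (n j)) := by simp
      rw [this]
      show ZMod.lift (n j) _ _ = _
      rw [ZMod.lift_coe]
      simp
    rw [toAdd_ofAdd, h5, h6]; rfl
  have hcen : ∀ i (x y : G), ψ₀ i y * ((χ i x).1.1 : P i) = ((χ i x).1.1 : P i) * ψ₀ i y := by
    intro i x y
    have h5 := (Subgroup.mem_center_iff.mp (χ i x).2) ⟨ψ₀ i y, ⟨y, rfl⟩⟩
    exact congrArg Subtype.val h5
  let ψ : ∀ i, G →* P i := fun i => MonoidHom.mk' (fun x => ψ₀ i x * ((χ i x).1.1 : P i)⁻¹) (by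
    intro x y
    have h5 := hcen i x y
    have h6 : ((χ i (x * y)).1.1 : P i) = (χ i x).1.1 * (χ i y).1.1 := by
      rw [map_mul]; rfl
    have h7 : ((χ i x).1.1 : P i) * (χ i y).1.1 = (χ i y).1.1 * (χ i x).1.1 :=
      congrArg (fun t : Subgroup.center (ψ₀ i).range => (t.1.1 : P i)) (mul_comm (χ i x) (χ i y))
    show ψ₀ i (x * y) * ((χ i (x * y)).1.1 : P i)⁻¹ =
      ψ₀ i x * ((χ i x).1.1 : P i)⁻¹ * (ψ₀ i y * ((χ i y).1.1 : P i)⁻¹)
    rw [h6, map_mul, h7, mul_inv_rev]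
    have h8 : ψ₀ i y * ((χ i x).1.1 : P i)⁻¹ = ((χ i x).1.1 : P i)⁻¹ * ψ₀ i y := by
      rw [mul_inv_eq_iff_eq_mul, mul_assoc, h5, inv_mul_cancel_left]
    rw [mul_assoc, ← mul_assoc (ψ₀ i y), h8]
    group)
  have hψ : ∀ i x, ψ i x = ψ₀ i x * ((χ i x).1.1 : P i)⁻¹ := fun i x => rfl
  have hψH : ∀ i (x : H), ψ i x = φ i x := by
    intro i x
    rw [hψ, hχ1 i x.1 x.2, h1]
    simp
  refine ⟨ψ, hψH, ?_, ?_⟩
  · intro i x
    obtain ⟨y, hy⟩ := (χ i x).1.2
    obtain ⟨h, hh⟩ := h2 i x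
    obtain ⟨h', hh'⟩ := h2 i y
    refine ⟨h * h'⁻¹, ?_⟩
    rw [hψ, ← hy, hh, hh', map_mul, map_inv]
  · let L : Subgroup G :=
      { carrier := {x | ∀ᶠ i in Filter.cofinite, ψ i x = 1}
        one_mem' := by
          show ∀ᶠ i in Filter.cofinite, ψ i 1 = 1
          exact Filter.Eventually.of_forall (fun i => map_one _)
        mul_mem' := by
          intro x y hx hy
          show ∀ᶠ i in Filter.cofinite, ψ i (x * y) = 1
          filter_upwards [hx, hy] with i h5 h6
          rw [map_mul, h5, h6, one_mul]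
        inv_mem' := by
          intro x hx
          show ∀ᶠ i in Filter.cofinite, ψ i x⁻¹ = 1
          filter_upwards [hx] with i h5
          rw [map_inv, h5, inv_one] }
    have hL : ∀ x, x ∈ L ↔ ∀ᶠ i in Filter.cofinite, ψ i x = 1 := fun x => Iff.rfl
    have hLH : H ≤ L := by
      intro h hh
      rw [hL]
      filter_upwards [hφ' ⟨h, hh⟩] with i h5
      rw [← h5]
      exact hψH i ⟨h, hh⟩
    have hLc : commutator G ≤ L := by
      rw [commutator_def, Subgroup.commutator_le]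
      intro x _ y _
      rw [hL]
      filter_upwards [hcent x] with i h5
      rw [hψ, map_commutatorElement, map_commutatorElement,
        commutatorElement_eq_one_iff_mul_comm.mpr (h5 y),
        commutatorElement_eq_one_iff_mul_comm.mpr (mul_comm (χ i x) (χ i y))]
      simp
    have hLx : ∀ j, ¬ SH j → xj j ∈ L := by
      intro j hj
      rw [hL]
      have h5 : xj j ^ (n j) ∈ commutator G := by
        apply D.ker
        rw [map_pow, hxj, ← ofAdd_nsmul]
        have : (n j) • (DFinsupp.single j (1 : ZMod (n j)) : Π₀ j, ZMod (n j)) = 0 := by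
          rw [← DFinsupp.single_smul]
          simp
        rw [this]; rfl
      have h6 : ∀ᶠ i in Filter.cofinite, ψ₀ i (xj j ^ (n j)) = 1 := by
        have h7 := hLc h5
        rw [hL] at h7
        filter_upwards [h7] with i h8
        rw [hψ] at h8
        have h9 : χ i (xj j ^ (n j)) = 1 := by rw [map_pow, hχ2, hz1]
        rw [h9] at h8
        simpa using h8
      filter_upwards [hcent (xj j), h6] with i h7 h8
      have hc : cond i j := ⟨hj, h7, by rw [← map_pow]; exact h8⟩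
      rw [hψ, hχ2, hz2 i j hc, mul_inv_cancel]
    have hsingle : ∀ j (k : ZMod (n j)),
        ∃ y ∈ L, π y = Multiplicative.ofAdd (DFinsupp.single j k) := by
      intro j k
      by_cases hj : SH j
      · obtain ⟨h, hh, hne⟩ := hj
        obtain ⟨h', h5, h6⟩ := hH.ss h hh j hne k
        exact ⟨h', hLH h5, h6⟩
      · haveI : NeZero (n j) := ⟨D.pos j⟩
        refine ⟨xj j ^ (k.val), L.pow_mem (hLx j hj) _, ?_⟩
        rw [map_pow, hxj, ← ofAdd_nsmul, ← DFinsupp.single_smul]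
        simp
    intro x
    have hA : ∃ y ∈ L, π y = π x := by
      let A : AddSubgroup (Π₀ j, ZMod (n j)) :=
        { carrier := {x | ∃ h ∈ L, π h = Multiplicative.ofAdd x}
          zero_mem' := ⟨1, L.one_mem, by rw [map_one]; rfl⟩
          add_mem' := by
            rintro x y ⟨a, ha, ha'⟩ ⟨b, hb, hb'⟩
            exact ⟨a * b, L.mul_mem ha hb, by rw [map_mul, ha', hb']; rfl⟩
          neg_mem' := by
            rintro x ⟨a, ha, ha'⟩
            exact ⟨a⁻¹, L.inv_mem ha, by rw [map_inv, ha']; rfl⟩ }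
      have h2 : Multiplicative.toAdd (π x) ∈ A := by
        rw [← DFinsupp.sum_single (f := Multiplicative.toAdd (π x))]
        apply AddSubgroup.sum_mem
        intro j _
        exact hsingle j _
      exact h2
    obtain ⟨y, hy, hyx⟩ := hA
    have h5 : x * y⁻¹ ∈ L := hLc (D.ker _ (by rw [map_mul, map_inv, hyx, mul_inv_cancel]))
    have h6 : x ∈ L := by
      have := L.mul_mem h5 hy
      rwa [inv_mul_cancel_right] at this
    exact Filter.eventually_cofinite.mp h6

end Pool.Agent.H8Sdf
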