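import Mathlib
import Pool.Agent.H8.SdfExt

set_option autoImplicit false
set_option linter.style.haveILetI false

open scoped Classical

namespace Pool.Agent.H8Sdf

variable {G : Type} [Group G] {J : Type} {n : J → ℕ}
  {π : G →* Multiplicative (Π₀ j, ZMod (n j))}

lemma LN.quot (h : LN G) (H : Subgroup G) [H.Normal] : LN (G ⧸ H) := by
  intro s
  obtain ⟨N, h1, h2, h3⟩ := h (s.image Quotient.out)
  refine ⟨N.map (QuotientGroup.mk' H), h1.map _ (QuotientGroup.mk'_surjective H), ?_, ?_⟩
  · rw [Subgroup.coe_map]; exact h2.image _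
  · intro x hx
    refine ⟨Quotient.out x, h3 ?_, ?_⟩
    · rw [Finset.coe_image]
      exact ⟨x, hx, rfl⟩
    · exact QuotientGroup.out_eq' x

lemma LN.sub (h : LN G) (H : Subgroup G) : LN H := by
  intro s
  obtain ⟨N, h1, h2, h3⟩ := h (s.image Subtype.val)
  refine ⟨N.subgroupOf H, inferInstance, ?_, ?_⟩
  · show ((Subtype.val : H → G) ⁻¹' (N : Set G)).Finite
    exact h2.preimage (Subtype.val_injective.injOn)
  · intro x hx
    exact h3 (by
      rw [Finset.coe_image]
      exact ⟨x, hx, rfl⟩)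

lemma toPerm {Q : Type} [Group Q] (K : Subgroup Q) [K.Normal] [K.FiniteIndex] :
    ∃ (k : ℕ) (θ : Q →* Equiv.Perm (Fin k)), ∀ x, θ x = 1 ↔ x ∈ K := by
  haveI : Finite (Q ⧸ K) := Subgroup.finite_quotient_of_finiteIndex
  obtain ⟨k, ⟨e⟩⟩ := Finite.exists_equiv_fin (Q ⧸ K)
  refine ⟨k, (Equiv.permCongrHom e).toMonoidHom.comp
    ((MulAction.toPermHom (Q ⧸ K) (Q ⧸ K)).comp (QuotientGroup.mk' K)), ?_⟩
  intro x
  show (Equiv.permCongrHom e) (MulAction.toPermHom (Q ⧸ K) (Q ⧸ K) (QuotientGroup.mk' K x)) = 1 ↔ _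
  rw [map_eq_one_iff _ (Equiv.permCongrHom e).injective]
  rw [← QuotientGroup.eq_one_iff]
  constructor
  · intro h
    have h1 := congrArg (fun f : Equiv.Perm (Q ⧸ K) => f 1) h
    simpa using h1
  · intro h
    have : QuotientGroup.mk' K x = 1 := h
    rw [this, map_one]

lemma step (D : Dec π) (hLN : LN G) (hRF : RF G) {H : Subgroup G} (hH : Good π H) (b : G) :
    ∃ H' : Subgroup G, Good π H' ∧ H ≤ H' ∧ b ∈ H' ∧
      ∃ (k : ℕ → ℕ) (θ : ∀ m, H' →* Equiv.Perm (Fin (k m))),
        (∀ m (x : H'), x.1 ∈ H → θ m x = 1) ∧ (∀ x : H', {m | θ m x ≠ 1}.Finite) ∧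
        ∀ x : H', x.1 ∉ H → ∃ m, θ m x ≠ 1 := by
  haveI := hH.normal
  have hLNq : LN (G ⧸ H) := hLN.quot H
  -- finite normal subgroup containing an element
  have hN : ∀ x : G ⧸ H, ∃ N : Subgroup (G ⧸ H), N.Normal ∧ (N : Set (G ⧸ H)).Finite ∧ x ∈ N := by
    intro x
    obtain ⟨N, h1, h2, h3⟩ := hLNq {x}
    exact ⟨N, h1, h2, h3 (by simp)⟩
  choose N hN1 hN2 hN3 using hN
  -- lifts of single elements
  have hlift : ∀ j (c : ZMod (n j)), ∃ x : G,
      π x = Multiplicative.ofAdd (DFinsupp.single j c) := fun j c => D.surj _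
  choose lf hlf using hlift
  let T : G ⧸ H → Set (G ⧸ H) := fun x =>
    ⋃ j ∈ (Multiplicative.toAdd (π (Quotient.out x))).support,
      ⋃ c : ZMod (n j), {QuotientGroup.mk' H (lf j c)}
  have hT : ∀ x, (T x).Countable := by
    intro x
    apply Set.Countable.biUnion (Finset.countable_toSet _)
    intro j _
    haveI : NeZero (n j) := ⟨D.pos j⟩
    exact Set.countable_iUnion (fun c => Set.countable_singleton _)
  let Op : List (G ⧸ H) → Set (G ⧸ H) := fun l =>
    {1, l.getD 0 1 * l.getD 1 1, (l.getD 0 1)⁻¹} ∪ (N (l.getD 0 1) : Set (G ⧸ H)) ∪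
      T (l.getD 0 1) ∪
      Set.range (fun p : (Finset (ℕ × ℕ × ℕ) × Finset ℕ) × ℕ => sk p.1 l p.2)
  have hOp : ∀ l, (Op l).Countable := by
    intro l
    refine (((Set.Countable.union ?_ ?_).union ?_).union ?_)
    · exact (Set.toFinite _).countable
    · exact (hN2 _).countable
    · exact hT _
    · exact Set.countable_range _
  obtain ⟨M₀, hM1, hM2, hM3⟩ := exists_closed Op hOp {QuotientGroup.mk' H b}
    (Set.countable_singleton _)
  let M : Subgroup (G ⧸ H) :=
    { carrier := M₀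
      one_mem' := hM3 [] (by simp) (Or.inl (Or.inl (Or.inl (Or.inl rfl))))
      mul_mem' := by
        intro x y hx hy
        exact hM3 [x, y] (by
          intro z hz
          simp only [List.mem_cons, List.not_mem_nil, or_false] at hz
          rcases hz with rfl | rfl
          · exact hx
          · exact hy) (Or.inl (Or.inl (Or.inl (Or.inr (Or.inl rfl)))))
      inv_mem' := by
        intro x hx
        exact hM3 [x] (by
          intro z hz
          simp only [List.mem_cons, List.not_mem_nil, or_false] at hz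
          rw [hz]; exact hx) (Or.inl (Or.inl (Or.inl (Or.inr (Or.inr rfl))))) }
  have hMmem : ∀ x, x ∈ M ↔ x ∈ M₀ := fun x => Iff.rfl
  have hMN : ∀ x ∈ M, ∀ y ∈ N x, y ∈ M := by
    intro x hx y hy
    exact hM3 [x] (by
      intro z hz
      simp only [List.mem_cons, List.not_mem_nil, or_false] at hz
      rw [hz]; exact hx) (Or.inl (Or.inl (Or.inr hy)))
  have hMT : ∀ x ∈ M, ∀ y ∈ T x, y ∈ M := by
    intro x hx y hy
    exact hM3 [x] (by
      intro z hz
      simp only [List.mem_cons, List.not_mem_nil, or_false] at hz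
      rw [hz]; exact hx) (Or.inl (Or.inr hy))
  haveI hMnorm : M.Normal := ⟨fun x hx g => hMN x hx _ ((hN1 x).conj_mem x (hN3 x) g)⟩
  have hMext : Ext M := ext_of_closed M (fun l hl c k => hM3 l hl (Or.inr ⟨(c, k), rfl⟩))
  haveI : Countable M := hM1
  -- the preimage
  have hle : H ≤ M.comap (QuotientGroup.mk' H) := by
    intro x hx
    rw [Subgroup.mem_comap]
    have : QuotientGroup.mk' H x = 1 := (QuotientGroup.eq_one_iff _).mpr hx
    rw [this]; exact M.one_mem
  have hgood : Good π (M.comap (QuotientGroup.mk' H)) := by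
    refine ⟨hMnorm.comap _, ext_comap hH.ext hMext, ?_⟩
    intro x hx j hj c
    have hx' : QuotientGroup.mk' H x ∈ M := hx
    obtain ⟨y, hy⟩ : ∃ y, y = Quotient.out (QuotientGroup.mk' H x) := ⟨_, rfl⟩
    have hyx : QuotientGroup.mk' H y = QuotientGroup.mk' H x := by
      rw [hy]; exact QuotientGroup.out_eq' _
    have hdiff : x * y⁻¹ ∈ H := by
      rw [← QuotientGroup.eq_one_iff]
      show QuotientGroup.mk' H (x * y⁻¹) = 1
      rw [map_mul, map_inv, hyx, mul_inv_cancel]
    by_cases hyj : (Multiplicative.toAdd (π y)) j = 0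
    · obtain ⟨h', h1, h2⟩ := hH.ss _ hdiff j (by
        rw [map_mul, map_inv, toAdd_mul, toAdd_inv, DFinsupp.add_apply, DFinsupp.neg_apply, hyj]
        simpa using hj) c
      exact ⟨h', hle h1, h2⟩
    · refine ⟨lf j c, ?_, hlf j c⟩
      rw [Subgroup.mem_comap]
      apply hMT _ hx'
      refine Set.mem_biUnion (x := j) ?_ (Set.mem_iUnion.mpr ⟨c, rfl⟩)
      show j ∈ (Multiplicative.toAdd (π (Quotient.out (QuotientGroup.mk' H x)))).support
      rw [← hy, DFinsupp.mem_support_toFun]
      exact hyj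
  -- Hall
  have hRFM : RF M := by
    rintro ⟨m, hm⟩ hne
    obtain ⟨x, rfl⟩ := QuotientGroup.mk'_surjective H m
    have hx : x ∉ H := by
      intro h
      apply hne
      apply Subtype.ext
      exact (QuotientGroup.eq_one_iff _).mpr h
    obtain ⟨K, h1, h2, h3, h4⟩ := closed D hLN hRF hH hx
    haveI := h1
    haveI := h2
    haveI : Finite (G ⧸ K) := Subgroup.finite_quotient_of_finiteIndex
    let f : M →* G ⧸ K :=
      (QuotientGroup.map H K (MonoidHom.id G) h3).comp M.subtype
    refine ⟨f.ker, inferInstance, inferInstance, ?_⟩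
    intro h5
    apply h4
    rw [MonoidHom.mem_ker] at h5
    exact (QuotientGroup.eq_one_iff _).mp h5
  obtain ⟨K, hK1, hK2, hK3⟩ := hall (hLNq.sub M) hRFM
  have hperm : ∀ m, ∃ (k : ℕ) (θ : M →* Equiv.Perm (Fin k)), ∀ x, θ x = 1 ↔ x ∈ K m := by
    intro m
    haveI := (hK1 m).1
    haveI := (hK1 m).2
    exact toPerm (K m)
  choose k θ hθ using hperm
  let f : M.comap (QuotientGroup.mk' H) →* M :=
    ((QuotientGroup.mk' H).comp (M.comap (QuotientGroup.mk' H)).subtype).codRestrict M
      (fun x => x.2)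
  refine ⟨M.comap (QuotientGroup.mk' H), hgood, hle, hM2 rfl, k, fun m => (θ m).comp f, ?_, ?_, ?_⟩
  · intro m x hx
    have : f x = 1 := by
      apply Subtype.ext
      exact (QuotientGroup.eq_one_iff _).mpr hx
    show θ m (f x) = 1
    rw [this, map_one]
  · intro x
    apply (hK2 (f x)).subset
    intro m hm hm'
    exact hm ((hθ m (f x)).mpr hm')
  · intro x hx
    have : f x ≠ 1 := by
      intro h
      apply hx
      exact (QuotientGroup.eq_one_iff _).mp (congrArg Subtype.val h)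
    obtain ⟨m, hm⟩ := hK3 (f x) this
    exact ⟨m, fun h => hm ((hθ m (f x)).mp h)⟩

end Pool.Agent.H8Sdf
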