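import Mathlib
import Pool.Agent.H8.SdfStep

set_option autoImplicit false
set_option linter.style.haveILetI false

open scoped Classical

namespace Pool.Agent.H8Sdf

variable {G : Type} [Group G] {J : Type} {n : J → ℕ}

/-- partial solutions -/
structure St (π : G →* Multiplicative (Π₀ j, ZMod (n j))) where
  H : Subgroup G
  Ψ : ∀ i : Subgroup G × ℕ × ℕ, G →* Equiv.Perm (Fin i.2.1)
  good : Good π H
  lf : ∀ x ∈ H, {i | Ψ i x ≠ 1}.Finite
  sep : ∀ x ∈ H, x ≠ 1 → ∃ i, Ψ i x ≠ 1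
  inv : ∀ i, ∀ x ∈ H, Ψ i x ≠ 1 → i.1 < H

variable {π : G →* Multiplicative (Π₀ j, ZMod (n j))}

instance : Preorder (St π) where
  le a b := a.H ≤ b.H ∧ ∀ i, ∀ x ∈ a.H, b.Ψ i x = a.Ψ i x
  le_refl a := ⟨le_rfl, fun _ _ _ => rfl⟩
  le_trans a b c hab hbc := ⟨hab.1.trans hbc.1, fun i x hx => by
    rw [hbc.2 i x (hab.1 hx), hab.2 i x hx]⟩

lemma St.le_def (a b : St π) : a ≤ b ↔ a.H ≤ b.H ∧ ∀ i, ∀ x ∈ a.H, b.Ψ i x = a.Ψ i x := Iff.rfl

lemma chain_bdd (c : Set (St π)) (hc : IsChain (· ≤ ·) c) (hne : c.Nonempty) : BddAbove c := by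
  have hdir : DirectedOn (· ≤ ·) (St.H '' c) := by
    rintro _ ⟨a, ha, rfl⟩ _ ⟨b, hb, rfl⟩
    rcases hc.total ha hb with h | h
    · exact ⟨b.H, ⟨b, hb, rfl⟩, h.1, le_rfl⟩
    · exact ⟨a.H, ⟨a, ha, rfl⟩, le_rfl, h.1⟩
  have hneH : (St.H '' c).Nonempty := hne.image _
  obtain ⟨S, hS⟩ : ∃ S : Subgroup G, S = sSup (St.H '' c) := ⟨_, rfl⟩
  have hmem : ∀ x, x ∈ S ↔ ∃ a ∈ c, x ∈ a.H := by
    intro x
    rw [hS, Subgroup.mem_sSup_of_directedOn hneH hdir]
    constructor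
    · rintro ⟨_, ⟨a, ha, rfl⟩, hx⟩; exact ⟨a, ha, hx⟩
    · rintro ⟨a, ha, hx⟩; exact ⟨_, ⟨a, ha, rfl⟩, hx⟩
  have hgood : Good π S := by
    rw [hS]
    exact good_sSup _ hneH hdir (by rintro _ ⟨a, _, rfl⟩; exact a.good)
  have hch : ∀ x : S, ∃ a ∈ c, x.1 ∈ a.H := fun x => (hmem x.1).mp x.2
  choose st hst1 hst2 using hch
  have hcompat : ∀ a ∈ c, ∀ b ∈ c, ∀ x, x ∈ a.H → x ∈ b.H → ∀ i, a.Ψ i x = b.Ψ i x := by
    intro a ha b hb x hxa hxb i
    rcases hc.total ha hb with h | h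
    · exact (h.2 i x hxa).symm
    · exact h.2 i x hxb
  let φ : ∀ i : Subgroup G × ℕ × ℕ, S →* Equiv.Perm (Fin i.2.1) := fun i =>
    MonoidHom.mk' (fun x => (st x).Ψ i x.1) (by
      intro x y
      -- a common bound
      obtain ⟨a, ha, h1, h2, h3⟩ : ∃ a ∈ c, x.1 ∈ a.H ∧ y.1 ∈ a.H ∧ (x * y).1 ∈ a.H := by
        rcases hc.total (hst1 x) (hst1 y) with h | h
        · exact ⟨st y, hst1 y, h.1 (hst2 x), hst2 y, (st y).H.mul_mem (h.1 (hst2 x)) (hst2 y)⟩
        · exact ⟨st x, hst1 x, hst2 x, h.1 (hst2 y), (st x).H.mul_mem (hst2 x) (h.1 (hst2 y))⟩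
      rw [hcompat _ (hst1 _) a ha _ (hst2 _) h3, hcompat _ (hst1 _) a ha _ (hst2 _) h1,
        hcompat _ (hst1 _) a ha _ (hst2 _) h2]
      exact map_mul (a.Ψ i) x.1 y.1)
  have hφ : ∀ i (x : S), ∀ a ∈ c, x.1 ∈ a.H → φ i x = a.Ψ i x.1 := fun i x a ha hx =>
    hcompat _ (hst1 x) a ha _ (hst2 x) hx i
  choose Ψ h1 h2 using fun i => hgood.ext _ (φ i)
  refine ⟨⟨S, Ψ, hgood, ?_, ?_, ?_⟩, ?_⟩
  · intro x hx
    obtain ⟨a, ha, hxa⟩ := (hmem x).mp hx
    refine (a.lf x hxa).subset ?_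
    intro i hi
    rw [Set.mem_ofPred_eq] at hi ⊢
    rw [h1 i ⟨x, hx⟩, hφ i ⟨x, hx⟩ a ha hxa] at hi
    exact hi
  · intro x hx hne
    obtain ⟨a, ha, hxa⟩ := (hmem x).mp hx
    obtain ⟨i, hi⟩ := a.sep x hxa hne
    refine ⟨i, ?_⟩
    rw [h1 i ⟨x, hx⟩, hφ i ⟨x, hx⟩ a ha hxa]
    exact hi
  · intro i x hx hne
    obtain ⟨a, ha, hxa⟩ := (hmem x).mp hx
    rw [h1 i ⟨x, hx⟩, hφ i ⟨x, hx⟩ a ha hxa] at hne
    exact lt_of_lt_of_le (a.inv i x hxa hne) (by rw [hS]; exact le_sSup ⟨a, ha, rfl⟩)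
  · intro a ha
    have hle : a.H ≤ S := by rw [hS]; exact le_sSup ⟨a, ha, rfl⟩
    refine ⟨hle, ?_⟩
    intro i x hx
    have hx' : x ∈ S := (hmem x).mpr ⟨a, ha, hx⟩
    show Ψ i x = _
    rw [h1 i ⟨x, hx'⟩, hφ i ⟨x, hx'⟩ a ha hx]

/-- The main embedding theorem. -/
theorem main (D : Dec π) (hLN : LN G) (hRF : RF G) :
    ∃ (I : Type) (P : I → Type) (_ : ∀ i, Group (P i)) (_ : ∀ i, Finite (P i))
      (f : G →* ∀ i, P i), Function.Injective f ∧ ∀ g : G, {i : I | f g i ≠ 1}.Finite := by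
  haveI : Nonempty (St π) := ⟨⟨⊥, fun i => 1, good_bot, by simp, by
    intro x hx hne
    exact absurd (Subgroup.mem_bot.mp hx) hne, by simp⟩⟩
  obtain ⟨m, hm⟩ := zorn_le_nonempty (α := St π) (fun c hc hne => chain_bdd c hc hne)
  have htop : m.H = ⊤ := by
    by_contra hne
    obtain ⟨b, hb⟩ : ∃ b, b ∉ m.H := by
      by_contra hcon
      push Not at hcon
      exact hne (eq_top_iff.mpr (fun x _ => hcon x))
    obtain ⟨H', hgood, hle, hbH', k, θ, hθ1, hθ2, hθ3⟩ := step D hLN hRF m.good b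
    have hlt : m.H < H' := lt_of_le_of_ne hle (fun h => hb (by rw [h]; exact hbH'))
    -- extend the old family
    obtain ⟨ψ, hψ1, hψ2, hψ3⟩ := ext_lf D hLN m.good (I := Subgroup G × ℕ × ℕ)
      (fun i => Equiv.Perm (Fin i.2.1)) (fun i => (m.Ψ i).comp m.H.subtype)
      (fun h => m.lf h.1 h.2)
    have hψ1' : ∀ i, ∀ x ∈ m.H, ψ i x = m.Ψ i x := fun i x hx => hψ1 i ⟨x, hx⟩
    -- extend the new homomorphisms
    choose χ hχ1 hχ2 using fun t => hgood.ext _ (θ t)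
    let Ψ : ∀ i : Subgroup G × ℕ × ℕ, G →* Equiv.Perm (Fin i.2.1) := fun i =>
      if i.1 = m.H then
        (if h : k i.2.2 = i.2.1 then
          (Equiv.permCongrHom (finCongr h)).toMonoidHom.comp (χ i.2.2) else 1)
      else ψ i
    have hΨ1 : ∀ i, i.1 ≠ m.H → Ψ i = ψ i := fun i hi => if_neg hi
    have hΨ2 : ∀ t, Ψ (m.H, k t, t) = χ t := by
      intro t
      show (if m.H = m.H then (if h : k t = k t then
          (Equiv.permCongrHom (finCongr h)).toMonoidHom.comp (χ t) else 1) else _) = _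
      rw [if_pos rfl, dif_pos rfl]
      ext x
      rfl
    have hΨ3 : ∀ i, i.1 = m.H → k i.2.2 ≠ i.2.1 → Ψ i = 1 := by
      intro i hi hk
      show (if i.1 = m.H then (if h : k i.2.2 = i.2.1 then
          (Equiv.permCongrHom (finCongr h)).toMonoidHom.comp (χ i.2.2) else 1) else _) = _
      rw [if_pos hi, dif_neg hk]
    have hcase : ∀ i, i.1 ≠ m.H ∨ (∃ t, i = (m.H, k t, t)) ∨ (i.1 = m.H ∧ k i.2.2 ≠ i.2.1) := by
      rintro ⟨L, a, t⟩
      by_cases h : L = m.H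
      · by_cases h' : k t = a
        · right; left; exact ⟨t, by rw [h, h']⟩
        · right; right; exact ⟨h, h'⟩
      · left; exact h
    have hψne : ∀ i x, ψ i x ≠ 1 → i.1 < m.H := by
      intro i x hx
      obtain ⟨h, hh⟩ := hψ2 i x
      apply m.inv i h.1 h.2
      intro h'
      exact hx (hh.trans h')
    let m' : St π :=
      { H := H'
        Ψ := Ψ
        good := hgood
        lf := by
          intro x hx
          have hfin : ((fun t => ((m.H, k t, t) : Subgroup G × ℕ × ℕ)) ''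
              {t | θ t ⟨x, hx⟩ ≠ 1}).Finite := (hθ2 ⟨x, hx⟩).image _
          refine ((hψ3 x).union hfin).subset ?_
          intro i hi
          rcases hcase i with h | ⟨t, rfl⟩ | ⟨h, h'⟩
          · left
            rw [Set.mem_ofPred_eq, hΨ1 i h] at hi
            exact hi
          · right
            refine ⟨t, ?_, rfl⟩
            rw [Set.mem_ofPred_eq, hΨ2 t, hχ1 t ⟨x, hx⟩] at hi
            exact hi
          · rw [Set.mem_ofPred_eq, hΨ3 i h h'] at hi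
            exact absurd rfl hi
        sep := by
          intro x hx hne
          by_cases hxm : x ∈ m.H
          · obtain ⟨i, hi⟩ := m.sep x hxm hne
            refine ⟨i, ?_⟩
            rw [hΨ1 i (m.inv i x hxm hi).ne, hψ1' i x hxm]
            exact hi
          · obtain ⟨t, ht⟩ := hθ3 ⟨x, hx⟩ hxm
            refine ⟨(m.H, k t, t), ?_⟩
            rw [hΨ2 t, hχ1 t ⟨x, hx⟩]
            exact ht
        inv := by
          intro i x hx hne
          by_cases h : i.1 = m.H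
          · rw [h]; exact hlt
          · rw [hΨ1 i h] at hne
            exact (hψne i x hne).trans hlt }
    have hle' : m ≤ m' := by
      refine ⟨hle, ?_⟩
      intro i x hx
      show Ψ i x = m.Ψ i x
      have hone : i.1 = m.H → m.Ψ i x = 1 := by
        intro h
        by_contra hne
        exact (m.inv i x hx hne).ne h
      rcases hcase i with h | ⟨t, rfl⟩ | ⟨h, h'⟩
      · rw [hΨ1 i h, hψ1' i x hx]
      · rw [hone rfl, hΨ2 t, hχ1 t ⟨x, hle hx⟩]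
        exact hθ1 t ⟨x, hle hx⟩ hx
      · rw [hone h, hΨ3 i h h']; rfl
    exact hb ((hm hle').1 hbH')
  refine ⟨Subgroup G × ℕ × ℕ, fun i => Equiv.Perm (Fin i.2.1), inferInstance, inferInstance,
    MonoidHom.pi m.Ψ, ?_, ?_⟩
  · rw [injective_iff_map_eq_one]
    intro x hx
    by_contra hne
    obtain ⟨i, hi⟩ := m.sep x (by rw [htop]; trivial) hne
    exact hi (congrFun hx i)
  · intro g
    exact m.lf g (by rw [htop]; trivial)

end Pool.Agent.H8Sdf
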