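import Mathlib
import Pool.Agent.H8.SdfMain

set_option autoImplicit false
set_option linter.style.haveILetI false

open scoped Classical

namespace Pool.Agent.H8Sdf

variable {G : Type} [Group G]

lemma centralizer_finiteIndex {K : Type} [Group K] (g : K) (h : {x : K | IsConj g x}.Finite) :
    (Subgroup.centralizer ({g} : Set K)).FiniteIndex := by
  haveI : Finite {x : K | IsConj g x} := h
  let f : K ⧸ Subgroup.centralizer ({g} : Set K) → {x : K | IsConj g x} :=
    Quotient.lift (fun x => ⟨x * g * x⁻¹, isConj_iff.mpr ⟨x, rfl⟩⟩) (by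
      intro x y hxy
      have h1 : x⁻¹ * y ∈ Subgroup.centralizer ({g} : Set K) :=
        QuotientGroup.leftRel_apply.mp hxy
      rw [Subgroup.mem_centralizer_singleton_iff] at h1
      apply Subtype.ext
      show x * g * x⁻¹ = y * g * y⁻¹
      have h2 : x * (x⁻¹ * y * g) * y⁻¹ = x * (g * (x⁻¹ * y)) * y⁻¹ := by rw [h1]
      calc x * g * x⁻¹ = x * (g * (x⁻¹ * y)) * y⁻¹ := by group
        _ = x * (x⁻¹ * y * g) * y⁻¹ := h2.symm
        _ = y * g * y⁻¹ := by group)
  have hf : Function.Injective f := by
    intro a b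
    induction a using QuotientGroup.induction_on with
    | H x =>
    induction b using QuotientGroup.induction_on with
    | H y =>
    intro hxy
    have h1 : x * g * x⁻¹ = y * g * y⁻¹ := congrArg Subtype.val hxy
    apply QuotientGroup.eq.mpr
    rw [Subgroup.mem_centralizer_singleton_iff]
    calc x⁻¹ * y * g = x⁻¹ * (y * g * y⁻¹) * y := by group
      _ = x⁻¹ * (x * g * x⁻¹) * y := by rw [h1]
      _ = g * (x⁻¹ * y) := by group
  haveI : Finite (K ⧸ Subgroup.centralizer ({g} : Set K)) := Finite.of_injective f hf
  exact Subgroup.finiteIndex_of_finite_quotient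

lemma ln_of_fc (ht : Monoid.IsTorsion G) (hfc : ∀ g : G, {h : G | IsConj g h}.Finite) : LN G := by
  intro s
  refine ⟨Subgroup.normalClosure (s : Set G), inferInstance, ?_, Subgroup.subset_normalClosure⟩
  let N : Subgroup G := Subgroup.normalClosure (s : Set G)
  have hfin : (Group.conjugatesOfSet (s : Set G)).Finite := by
    apply Set.Finite.biUnion s.finite_toSet
    intro g _
    exact hfc g
  have hNcl : N = Subgroup.closure (Group.conjugatesOfSet (s : Set G)) := rfl
  haveI hfg : Group.FG N := by
    rw [hNcl]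
    haveI : Finite (Group.conjugatesOfSet (s : Set G)) := hfin
    exact Group.closure_finite_fg _
  let S : Set N := {x : N | x.1 ∈ Group.conjugatesOfSet (s : Set G)}
  have hSfin : S.Finite := by
    show ((Subtype.val : N → G) ⁻¹' (Group.conjugatesOfSet (s : Set G))).Finite
    exact hfin.preimage (Subtype.val_injective.injOn)
  have hS : Subgroup.closure S = ⊤ := Subgroup.closure_closure_coe_preimage
  haveI hcen : (Subgroup.center N).FiniteIndex := by
    rw [Subgroup.center_eq_infi' hS]
    haveI : Finite S := hSfin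
    apply Subgroup.finiteIndex_iInf
    intro x
    apply centralizer_finiteIndex
    apply Set.Finite.of_finite_image (f := Subtype.val) _ (Subtype.val_injective.injOn)
    apply (hfc x.1.1).subset
    rintro _ ⟨y, hy, rfl⟩
    obtain ⟨k, hk⟩ := isConj_iff.mp hy
    exact isConj_iff.mpr ⟨k.1, congrArg Subtype.val hk⟩
  haveI : Group.FG (Subgroup.center N) := Subgroup.fg_of_index_ne_zero _
  haveI : Finite (Subgroup.center N) := by
    apply CommGroup.finite_of_fg_isMulTorsion
    intro x
    have h1 := ht x.1.1
    rw [isOfFinOrder_iff_pow_eq_one] at h1 ⊢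
    obtain ⟨k, hk, hk'⟩ := h1
    exact ⟨k, hk, Subtype.ext (Subtype.ext hk')⟩
  have hcard : Finite N := by
    have h1 : Nat.card N ≠ 0 := by
      rw [← (Subgroup.center N).card_mul_index]
      exact mul_ne_zero Nat.card_pos.ne' hcen.index_ne_zero
    exact Nat.finite_of_card_ne_zero h1
  exact hcard

lemma dec_of_equiv {J : Type} {n : J → ℕ} (hn : ∀ j, n j ≠ 0)
    (e : Additive (Abelianization G) ≃+ Π₀ j, ZMod (n j)) :
    ∃ π : G →* Multiplicative (Π₀ j, ZMod (n j)), Dec π := by
  refine ⟨MonoidHom.mk' (fun x => Multiplicative.ofAdd (e (Additive.ofMul (Abelianization.of x))))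
    ?_, hn, ?_, ?_⟩
  · intro x y
    rw [map_mul, ofMul_mul, map_add, ofAdd_add]
  · intro y
    obtain ⟨a, ha⟩ := e.surjective (Multiplicative.toAdd y)
    obtain ⟨x, hx⟩ := QuotientGroup.mk'_surjective (commutator G) (Additive.toMul a)
    refine ⟨x, ?_⟩
    show Multiplicative.ofAdd (e (Additive.ofMul (Abelianization.of x))) = y
    have : Additive.ofMul (Abelianization.of x) = a := hx
    rw [this, ha]; rfl
  · intro x hx
    have h1 : e (Additive.ofMul (Abelianization.of x)) = 0 := hx
    have h2 : Additive.ofMul (Abelianization.of x) = 0 := by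
      rw [← map_zero e] at h1
      exact e.injective h1
    exact (QuotientGroup.eq_one_iff x).mp h2

end Pool.Agent.H8Sdf
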