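import Mathlib

set_option autoImplicit false
open Polynomial

namespace Pool.Agent.H8Unif

/-- `α` is a root of an irreducible integer polynomial of degree at most two and height `h`. -/
def IsApp (α : ℝ) (h : ℤ) : Prop :=
  ∃ P : Polynomial ℤ, Irreducible P ∧ P.natDegree ≤ 2 ∧ Polynomial.aeval α P = 0 ∧
    (∀ i : ℕ, |P.coeff i| ≤ h) ∧ (∃ i : ℕ, |P.coeff i| = h)

lemma isApp_rat (p q : ℤ) (hp : 0 < p) (hpq : p < q) (hc : IsCoprime p q) :
    IsApp ((p : ℝ) / q) q := by
  refine ⟨C q * X + C (-p), ?_, ?_, ?_, ?_, ?_⟩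
  · apply irreducible_C_mul_X_add_C (by omega)
    exact hc.symm.neg_right.isRelPrime
  · exact natDegree_linear_le.trans (by norm_num)
  · have : (q : ℝ) ≠ 0 := by
      have : (0 : ℝ) < q := by exact_mod_cast hp.trans hpq
      exact this.ne'
    simp [map_add]
    field_simp
    ring
  · intro i
    rcases i with _ | _ | i
    · simp only [coeff_add, coeff_C_mul, coeff_X, coeff_C]
      norm_num
      rw [abs_of_pos hp]; exact hpq.le
    · simp only [coeff_add, coeff_C_mul, coeff_X, coeff_C]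
      norm_num
      rw [abs_of_pos (hp.trans hpq)]
    · simp only [coeff_add, coeff_C_mul, coeff_X, coeff_C]
      norm_num
      exact (hp.trans hpq).le
  · refine ⟨1, ?_⟩
    simp only [coeff_add, coeff_C_mul, coeff_X, coeff_C]
    norm_num
    exact (hp.trans hpq).le

/-- A quadratic polynomial. -/
noncomputable def quad (a b c : ℤ) : ℤ[X] := C a * X ^ 2 + C b * X + C c

lemma quad_coeff_zero (a b c : ℤ) : (quad a b c).coeff 0 = c := by
  unfold quad
  simp only [coeff_add, coeff_C_mul, coeff_X_pow, coeff_X, coeff_C]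
  norm_num

lemma quad_coeff_one (a b c : ℤ) : (quad a b c).coeff 1 = b := by
  unfold quad
  simp only [coeff_add, coeff_C_mul, coeff_X_pow, coeff_X, coeff_C]
  norm_num

lemma quad_coeff_two (a b c : ℤ) : (quad a b c).coeff 2 = a := by
  unfold quad
  simp only [coeff_add, coeff_C_mul, coeff_X_pow, coeff_X, coeff_C]
  norm_num

lemma quad_coeff_ge (a b c : ℤ) (i : ℕ) : (quad a b c).coeff (i + 3) = 0 := by
  unfold quad
  simp only [coeff_add, coeff_C_mul, coeff_X_pow, coeff_X, coeff_C]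
  simp

lemma quad_aeval (a b c : ℤ) (x : ℝ) :
    Polynomial.aeval x (quad a b c) = a * x ^ 2 + b * x + c := by
  unfold quad
  simp

lemma quad_natDegree_le (a b c : ℤ) : (quad a b c).natDegree ≤ 2 := by
  unfold quad
  exact natDegree_quadratic_le

lemma quad_natDegree (a b c : ℤ) (ha : a ≠ 0) : (quad a b c).natDegree = 2 := by
  unfold quad
  exact natDegree_quadratic ha

lemma eq_quad (P : ℤ[X]) (h : P.natDegree ≤ 2) :
    P = quad (P.coeff 2) (P.coeff 1) (P.coeff 0) := by
  ext i
  rcases i with _ | _ | _ | i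
  · rw [quad_coeff_zero]
  · rw [quad_coeff_one]
  · rw [quad_coeff_two]
  · rw [quad_coeff_ge]
    apply coeff_eq_zero_of_natDegree_lt
    omega

/-- irreducibility of a primitive quadratic with an irrational root -/
lemma quad_irreducible (a b c : ℤ) (ha : a ≠ 0) (x : ℝ) (hx : Irrational x)
    (hroot : (a : ℝ) * x ^ 2 + b * x + c = 0)
    (hprim : ∀ d : ℤ, d ∣ a → d ∣ b → d ∣ c → IsUnit d) : Irreducible (quad a b c) := by
  have hP : (quad a b c).IsPrimitive := by
    intro d hd
    rw [C_dvd_iff_dvd_coeff] at hd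
    apply hprim d
    · have := hd 2; rwa [quad_coeff_two] at this
    · have := hd 1; rwa [quad_coeff_one] at this
    · have := hd 0; rwa [quad_coeff_zero] at this
  rw [IsPrimitive.Int.irreducible_iff_irreducible_map_cast hP]
  have hdeg : ((quad a b c).map (Int.castRingHom ℚ)).natDegree = 2 := by
    rw [natDegree_map_eq_of_injective (by exact Int.cast_injective), quad_natDegree _ _ _ ha]
  apply irreducible_of_degree_le_three_of_not_isRoot
  · rw [hdeg]; decide
  · intro y hy
    have hy' : (a : ℚ) * y ^ 2 + b * y + c = 0 := by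
      have := hy
      unfold quad at this
      simpa [IsRoot] using this
    have hyR : (a : ℝ) * (y : ℝ) ^ 2 + b * (y : ℝ) + c = 0 := by exact_mod_cast hy'
    have haR : (a : ℝ) ≠ 0 := by exact_mod_cast ha
    have h1 : ((y : ℝ) - x) * (a * (y + x) + b) = 0 := by linear_combination hyR - hroot
    rcases mul_eq_zero.mp h1 with h | h
    · apply hx
      exact ⟨y, by linarith⟩
    · apply hx
      refine ⟨-(b : ℚ) / a - y, ?_⟩
      push_cast
      field_simp
      linarith

lemma exists_rsu (p q : ℤ) (hp : 0 < p) (hpq : p < q) (hc : IsCoprime p q) :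
    ∃ r s u : ℤ, r * p ^ 2 + s * p * q + u * q ^ 2 = 1 ∧ 0 < r ∧ r < q ∧ 0 ≤ s ∧ s < q ∧
      -(2 * q) < u ∧ u ≤ 0 := by
  have hq : 0 < q := hp.trans hpq
  obtain ⟨a, b, hab⟩ := hc
  -- a * p + b * q = 1
  have h1 : q ∣ 1 - (a ^ 2 % q) * p ^ 2 := by
    have h2 : a ^ 2 % q = a ^ 2 - q * (a ^ 2 / q) := by
      have := Int.emod_add_mul_ediv (a ^ 2) q
      linarith
    rw [h2]
    refine ⟨b * (1 + a * p) + (a ^ 2 / q) * p ^ 2, ?_⟩
    have : b * q = 1 - a * p := by linarith
    linear_combination (-(1 + a * p)) * this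
  obtain ⟨c, hc⟩ := h1
  have h3 : q ∣ c - ((a * c) % q) * p := by
    have h2 : (a * c) % q = a * c - q * (a * c / q) := by
      have := Int.emod_add_mul_ediv (a * c) q
      linarith
    rw [h2]
    refine ⟨b * c + (a * c / q) * p, ?_⟩
    have : b * q = 1 - a * p := by linarith
    linear_combination (-c) * this
  obtain ⟨u, hu⟩ := h3
  have hr0 := Int.emod_nonneg (a ^ 2) hq.ne'
  have hr1 := Int.emod_lt_of_pos (a ^ 2) hq
  have hs0 := Int.emod_nonneg (a * c) hq.ne'
  have hs1 := Int.emod_lt_of_pos (a * c) hq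
  generalize a ^ 2 % q = r at *
  generalize (a * c) % q = s at *
  have heq : r * p ^ 2 + s * p * q + u * q ^ 2 = 1 := by
    linear_combination (-1 : ℤ) * hc - q * hu
  refine ⟨r, s, u, heq, ?_, hr1, hs0, hs1, ?_, ?_⟩
  · rcases hr0.lt_or_eq with h | h
    · exact h
    · exfalso
      rw [← h] at heq
      have : q ∣ 1 := ⟨s * p + u * q, by linarith⟩
      have := Int.le_of_dvd one_pos this
      omega
  · by_contra hcon
    push_neg at hcon
    have e1 : r * p ^ 2 ≤ q * q ^ 2 := by
      apply mul_le_mul hr1.le _ (by positivity) hq.le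
      exact pow_le_pow_left₀ hp.le hpq.le 2
    have e2 : s * p * q < q * q * q := by
      have : s * p ≤ s * q := by nlinarith
      have h5 : s * q < q * q := by nlinarith
      nlinarith
    have e3 : u * q ^ 2 ≤ -(2 * q) * q ^ 2 := by
      apply mul_le_mul_of_nonneg_right hcon (by positivity)
    nlinarith
  · by_contra hcon
    push_neg at hcon
    have e1 : 0 < r * p ^ 2 ∨ 0 ≤ r * p ^ 2 := Or.inr (by positivity)
    have e2 : 0 ≤ s * p * q := by positivity
    have e3 : q ^ 2 ≤ u * q ^ 2 := by nlinarith [sq_nonneg q]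
    have e4 : 4 ≤ q ^ 2 := by nlinarith
    have e5 : 0 ≤ r * p ^ 2 := by positivity
    linarith



lemma no_small_rat (a b c : ℤ) (ha : 0 < a) (y : ℚ) (hy : (a : ℚ) * y ^ 2 + b * y + c = 0) :
    (y.den : ℤ) ≤ a := by
  have hden : (y.den : ℤ) ∣ a := by
    have h1 : a * y.num ^ 2 + b * y.num * y.den + c * y.den ^ 2 = 0 := by
      have h2 : (y : ℚ) = y.num / y.den := (Rat.num_div_den y).symm
      have h3 : (y.den : ℚ) ≠ 0 := by exact_mod_cast y.den_nz
      rw [h2] at hy
      field_simp at hy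
      have : (a : ℚ) * y.num ^ 2 + b * y.num * y.den + c * y.den ^ 2 = 0 := by
        linear_combination hy
      exact_mod_cast this
    have h4 : (y.den : ℤ) ∣ a * y.num ^ 2 := by
      refine ⟨-(b * y.num + c * y.den), ?_⟩
      linear_combination h1
    have h5 : IsCoprime (y.den : ℤ) (y.num ^ 2) := by
      apply IsCoprime.pow_right
      have := y.reduced
      rw [Int.isCoprime_iff_gcd_eq_one]
      rw [Int.gcd_comm]
      simpa [Int.gcd] using this
    exact h5.dvd_of_dvd_mul_right h4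
  exact Int.le_of_dvd ha hden

set_option maxHeartbeats 1000000 in
/-- The quadratic irrational attached to `p / q` and the parameter `m`. -/
lemma exists_alpha (p q m : ℤ) (hp : 0 < p) (hpq : p < q) (hc : IsCoprime p q) (hm : 12 ≤ m) :
    ∃ (α : ℝ) (h : ℤ), Irrational α ∧ IsApp α h ∧ 0 < h ∧ h ≤ 2 * m * q ∧
      1 / (2 * m * (q : ℝ) ^ 3) ≤ |α - p / q| ∧ |α - p / q| ≤ 2 / (m * (q : ℝ) ^ 3) := by
  have hq : 0 < q := hp.trans hpq
  have hq2 : 2 ≤ q := by omega
  obtain ⟨r, s, u, heq, hr0, hr1, hs0, hs1, hu0, hu1⟩ := exists_rsu p q hp hpq hc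
  have hqR : (2 : ℝ) ≤ q := by exact_mod_cast hq2
  have hmR : (12 : ℝ) ≤ m := by exact_mod_cast hm
  have hrR0 : (0 : ℝ) < r := by exact_mod_cast hr0
  have hrR1 : (r : ℝ) < q := by exact_mod_cast hr1
  have hsR0 : (0 : ℝ) ≤ s := by exact_mod_cast hs0
  have hsR1 : (s : ℝ) < q := by exact_mod_cast hs1
  have hpR0 : (0 : ℝ) < p := by exact_mod_cast hp
  have hpR1 : (p : ℝ) < q := by exact_mod_cast hpq
  set x0 : ℝ := (p : ℝ) / q with hx0
  have hx0pos : 0 < x0 := by positivity
  have hx01 : x0 < 1 := by rw [hx0, div_lt_one (by linarith)]; exact hpR1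
  set D : ℝ := 2 * r * x0 + s + m * q with hD
  have hD1 : m * q ≤ D := by
    rw [hD]; nlinarith [mul_pos hrR0 hx0pos]
  have hD2 : D ≤ 5 / 4 * (m * q) := by
    have : r * x0 ≤ q := by nlinarith
    rw [hD]; nlinarith
  have hval : (r : ℝ) * x0 ^ 2 + (s + m * q) * x0 + (u - m * p) = 1 / q ^ 2 := by
    have e : (r : ℝ) * p ^ 2 + s * p * q + u * q ^ 2 = 1 := by exact_mod_cast heq
    rw [hx0]
    field_simp
    linear_combination e
  set f : ℝ → ℝ := fun x => (r : ℝ) * x ^ 2 + (s + m * q) * x + (u - m * p) with hf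
  have hfy : ∀ y : ℝ, f (x0 - y) = 1 / q ^ 2 - D * y + r * y ^ 2 := by
    intro y
    rw [hf, ← hval, hD]
    ring
  have hfc : Continuous f := by rw [hf]; fun_prop
  set y1 : ℝ := 1 / (2 * m * (q : ℝ) ^ 3) with hy1
  set y2 : ℝ := 2 / (m * (q : ℝ) ^ 3) with hy2
  have hmq : 0 < (m : ℝ) * q := by positivity
  have hq3 : (0 : ℝ) < q ^ 3 := by positivity
  have hy1pos : 0 < y1 := by rw [hy1]; positivity
  have hy12 : y1 ≤ y2 := by
    rw [hy1, hy2, div_le_div_iff₀ (by positivity) (by positivity)]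
    nlinarith [mul_pos (by linarith : (0:ℝ) < m) hq3]
  have h1 : 0 ≤ f (x0 - y1) := by
    rw [hfy]
    have e1 : m * q * y1 = 1 / (2 * q ^ 2) := by rw [hy1]; field_simp
    have e2 : D * y1 ≤ 5 / 4 * (m * q) * y1 := mul_le_mul_of_nonneg_right hD2 hy1pos.le
    have e3 : 5 / 4 * (m * q) * y1 = 5 / 8 * (1 / q ^ 2) := by
      have : 5 / 4 * (m * q) * y1 = 5 / 4 * (m * q * y1) := by ring
      rw [this, e1]; field_simp; norm_num
    have e4 : 0 ≤ r * y1 ^ 2 := by positivity
    have e5 : (0 : ℝ) < 1 / q ^ 2 := by positivity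
    nlinarith
  have h2 : f (x0 - y2) ≤ 0 := by
    rw [hfy]
    have hy2pos : 0 < y2 := by rw [hy2]; positivity
    have e1 : m * q * y2 = 2 * (1 / q ^ 2) := by rw [hy2]; field_simp
    have e2 : m * q * y2 ≤ D * y2 := mul_le_mul_of_nonneg_right hD1 hy2pos.le
    have e4 : r * y2 ^ 2 ≤ 1 / q ^ 2 := by
      have e6 : r * y2 ^ 2 ≤ q * y2 ^ 2 := mul_le_mul_of_nonneg_right hrR1.le (by positivity)
      have e7 : q * y2 ^ 2 = 4 / (m ^ 2 * q ^ 3) * (1 / q ^ 2) := by
        rw [hy2]; field_simp; norm_num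
      have e8 : 4 / ((m : ℝ) ^ 2 * q ^ 3) ≤ 1 := by
        rw [div_le_one (by positivity)]
        have e9 : (1 : ℝ) ≤ q ^ 3 := one_le_pow₀ (by linarith)
        nlinarith
      calc r * y2 ^ 2 ≤ q * y2 ^ 2 := e6
        _ = 4 / (m ^ 2 * q ^ 3) * (1 / q ^ 2) := e7
        _ ≤ 1 * (1 / q ^ 2) := mul_le_mul_of_nonneg_right e8 (by positivity)
        _ = 1 / q ^ 2 := one_mul _
    linarith
  have hivt : (0 : ℝ) ∈ f '' Set.Icc (x0 - y2) (x0 - y1) := by
    apply intermediate_value_Icc (by linarith) hfc.continuousOn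
    exact ⟨h2, h1⟩
  obtain ⟨α, ⟨hα1, hα2⟩, hα0⟩ := hivt
  have hroot : (r : ℝ) * α ^ 2 + ((s + m * q : ℤ) : ℝ) * α + ((u - m * p : ℤ) : ℝ) = 0 := by
    push_cast
    exact hα0
  have habs : |α - x0| = x0 - α := by
    rw [abs_of_nonpos (by linarith)]; ring
  have hirr : Irrational α := by
    rintro ⟨y, hy⟩
    have hyQ : (r : ℚ) * y ^ 2 + ((s + m * q : ℤ) : ℚ) * y + ((u - m * p : ℤ) : ℚ) = 0 := by
      rw [← hy] at hroot
      exact_mod_cast hroot
    have hden := no_small_rat r _ _ hr0 y hyQ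
    have hdenq : (y.den : ℤ) < q := lt_of_le_of_lt hden hr1
    have hdpos : 0 < (y.den : ℝ) := by exact_mod_cast y.den_pos
    have hdR : (y.den : ℝ) < q := by exact_mod_cast hdenq
    have hyv : (y : ℝ) = y.num / y.den := by
      exact_mod_cast (Rat.num_div_den y).symm
    -- x0 - y > 0
    have hpos : 0 < x0 - (y : ℝ) := by rw [hy]; linarith
    have hlt : x0 - (y : ℝ) ≤ y2 := by rw [hy]; linarith
    have hdiff : x0 - (y : ℝ) = ((p * y.den - y.num * q : ℤ) : ℝ) / (q * y.den) := by
      rw [hx0, hyv]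
      push_cast
      field_simp
    have hnum : 1 ≤ (p * y.den - y.num * q : ℤ) := by
      by_contra hcon
      push_neg at hcon
      have : ((p * y.den - y.num * q : ℤ) : ℝ) ≤ 0 := by
        exact_mod_cast (by omega : (p * y.den - y.num * q : ℤ) ≤ 0)
      rw [hdiff] at hpos
      have h7 : ((p * y.den - y.num * q : ℤ) : ℝ) / (q * y.den) ≤ 0 :=
        div_nonpos_of_nonpos_of_nonneg this (by positivity)
      linarith
    have hnumR : (1 : ℝ) ≤ ((p * y.den - y.num * q : ℤ) : ℝ) := by exact_mod_cast hnum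
    have h8 : 1 / ((q : ℝ) * y.den) ≤ y2 := by
      refine le_trans ?_ hlt
      rw [hdiff]
      exact div_le_div_of_nonneg_right hnumR (by positivity)
    have h9 : 1 / ((q : ℝ) * q) ≤ 1 / ((q : ℝ) * y.den) := by
      apply one_div_le_one_div_of_le (by positivity)
      exact mul_le_mul_of_nonneg_left hdR.le (by linarith)
    have h10 : y2 < 1 / ((q : ℝ) * q) := by
      rw [hy2, div_lt_div_iff₀ (by positivity) (by positivity)]
      have : (q : ℝ) ^ 3 = q * q * q := by ring
      rw [this]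
      have hqq : (0 : ℝ) < q * q := by positivity
      have hmq2 : (0:ℝ) < m * q - 2 * 1 := by nlinarith
      nlinarith [mul_pos hqq hmq2, mul_pos hqq hqq]
    linarith
  have hprim : ∀ d : ℤ, d ∣ r → d ∣ (s + m * q) → d ∣ (u - m * p) → IsUnit d := by
    intro d ⟨a, ha⟩ ⟨b, hb⟩ ⟨c, hc⟩
    apply isUnit_of_dvd_one
    refine ⟨a * p ^ 2 + b * p * q + c * q ^ 2, ?_⟩
    linear_combination (-1 : ℤ) * heq + p ^ 2 * ha + p * q * hb + q ^ 2 * hc
  have hcb : ∀ i : ℕ, |(quad r (s + m * q) (u - m * p)).coeff i| ≤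
      max r (max (s + m * q) (m * p - u)) := by
    have hmp : 0 < m * p := by positivity
    have hmq' : 0 < m * q := by positivity
    intro i
    rcases i with _ | _ | _ | i
    · rw [quad_coeff_zero, abs_of_nonpos (by linarith)]
      exact le_trans (by linarith) (le_trans (le_max_right _ _) (le_max_right _ _))
    · rw [quad_coeff_one, abs_of_nonneg (by linarith)]
      exact le_trans (le_max_left _ _) (le_max_right _ _)
    · rw [quad_coeff_two, abs_of_nonneg hr0.le]
      exact le_max_left _ _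
    · rw [quad_coeff_ge]
      simp [hr0.le]
  refine ⟨α, max r (max (s + m * q) (m * p - u)), hirr,
    ⟨quad r (s + m * q) (u - m * p), ?_, quad_natDegree_le _ _ _, ?_, hcb, ?_⟩, ?_, ?_, ?_, ?_⟩
  · exact quad_irreducible _ _ _ hr0.ne' α hirr hroot hprim
  · rw [quad_aeval]; exact hroot
  · have hmp : 0 < m * p := by positivity
    have hmq' : 0 < m * q := by positivity
    rcases max_choice r (max (s + m * q) (m * p - u)) with h | h
    · exact ⟨2, by rw [h, quad_coeff_two, abs_of_nonneg hr0.le]⟩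
    · rw [h]
      rcases max_choice (s + m * q) (m * p - u) with h | h
      · exact ⟨1, by rw [h, quad_coeff_one, abs_of_nonneg (by linarith)]⟩
      · exact ⟨0, by rw [h, quad_coeff_zero, abs_of_nonpos (by linarith)]; ring⟩
  · exact lt_max_of_lt_left hr0
  · have hmq' : q * 12 ≤ q * m := mul_le_mul_of_nonneg_left hm hq.le
    have hmp' : m * p ≤ m * q := mul_le_mul_of_nonneg_left hpq.le (by linarith)
    apply max_le
    · nlinarith
    · apply max_le <;> nlinarith
  · rw [habs]; linarith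
  · rw [habs]; linarith

end Pool.Agent.H8Unif
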