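import Mathlib
import Pool.Agent.H8.UnifAlg

set_option autoImplicit false
open Polynomial

namespace Pool.Agent.H8Unif

lemma dep_seq {X : Type*} (G : ℕ → X → Prop) (R : ℕ → X → X → Prop) (h0 : ∃ x, G 0 x)
    (hs : ∀ n x, G n x → ∃ y, G (n + 1) y ∧ R n x y) :
    ∃ f : ℕ → X, (∀ n, G n (f n)) ∧ ∀ n, R n (f n) (f (n + 1)) := by
  classical
  let F : (n : ℕ) → {x // G n x} := fun n => Nat.rec (motive := fun n => {x // G n x})
    ⟨h0.choose, h0.choose_spec⟩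
    (fun n x => ⟨(hs n x.1 x.2).choose, (hs n x.1 x.2).choose_spec.1⟩) n
  refine ⟨fun n => (F n).1, fun n => (F n).2, fun n => ?_⟩
  exact (hs n (F n).1 (F n).2).choose_spec.2

/-- good rational approximations with large denominator -/
lemma next_rat (α : ℝ) (hα : Irrational α) (N : ℕ) :
    ∃ p q : ℤ, IsCoprime p q ∧ (N : ℤ) < q ∧ |α - p / q| ≤ 1 / (q : ℝ) ^ 2 := by
  have h1 := hα.eventually_forall_le_dist_cast_rat_of_den_le N
  rw [Metric.eventually_nhds_iff] at h1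
  obtain ⟨ε, hε, h2⟩ := h1
  have h3 := @h2 (ε / 2) (by
    rw [Real.dist_eq, sub_zero, abs_of_pos (by linarith)]
    linarith)
  obtain ⟨n, hn⟩ := exists_nat_gt (2 / ε)
  have hn0 : 0 < n := by
    have : (0 : ℝ) < n := lt_trans (by positivity) hn
    exact_mod_cast this
  obtain ⟨y, hy1, hy2⟩ := Real.exists_rat_abs_sub_le_and_den_le α hn0
  have hden : (1 : ℝ) ≤ y.den := by exact_mod_cast y.den_pos
  have hden2 : (y.den : ℝ) ≤ n := by exact_mod_cast hy2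
  have hnR : (0 : ℝ) < n := by exact_mod_cast hn0
  refine ⟨y.num, y.den, ?_, ?_, ?_⟩
  · have := y.reduced
    rw [Int.isCoprime_iff_gcd_eq_one]
    simpa [Int.gcd] using this
  · by_contra hcon
    push_neg at hcon
    have hle : y.den ≤ N := by exact_mod_cast hcon
    have h4 := h3 y hle
    rw [Real.dist_eq] at h4
    have h5 : 1 / (((n : ℝ) + 1) * y.den) < ε / 2 := by
      rw [div_lt_iff₀ (by positivity)]
      rw [div_lt_iff₀ hε] at hn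
      have : ε / 2 * ((n + 1) * 1) ≤ ε / 2 * ((n + 1) * y.den) := by gcongr
      nlinarith
    linarith
  · have hv : ((y.num : ℤ) : ℝ) / ((y.den : ℤ) : ℝ) = (y : ℝ) := by
      exact_mod_cast (Rat.num_div_den y)
    rw [hv]
    refine hy1.trans ?_
    push_cast
    apply one_div_le_one_div_of_le (by positivity)
    rw [sq]
    apply mul_le_mul_of_nonneg_right _ (by positivity)
    linarith

lemma exists_m (t : ℝ) (ht1 : 1 < t) (ht2 : t < 2) :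
    ∃ N : ℕ, ∀ q : ℤ, (N : ℤ) < q → ∃ m : ℤ, 12 ≤ m ∧
      (m : ℝ) * (q : ℝ) ^ 2 ≤ ((m : ℝ) * q) ^ t ∧ ((m : ℝ) * q) ^ t ≤ 2 * (m * (q : ℝ) ^ 2) := by
  set e : ℝ := (2 - t) / (t - 1) with he
  have he0 : 0 < e := by rw [he]; apply div_pos <;> linarith
  have htend := (tendsto_rpow_atTop he0).eventually_ge_atTop 12
  rw [Filter.eventually_atTop] at htend
  obtain ⟨a, ha⟩ := htend
  obtain ⟨N, hN⟩ := exists_nat_gt (max a 1)
  refine ⟨N, fun q hq => ?_⟩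
  have hqR : (N : ℝ) < q := by exact_mod_cast hq
  have hq1 : (1 : ℝ) < q := lt_of_le_of_lt (le_max_right a 1) (hN.trans hqR)
  have hqa : a ≤ q := ((le_max_left a 1).trans_lt (hN.trans hqR)).le
  have hx := ha q hqa
  set x : ℝ := (q : ℝ) ^ e with hxdef
  have hm1 : x ≤ (⌈x⌉ : ℤ) := Int.le_ceil x
  have hm2 : ((⌈x⌉ : ℤ) : ℝ) < x + 1 := Int.ceil_lt_add_one x
  set m : ℤ := ⌈x⌉ with hmdef
  have hm12 : (12 : ℝ) ≤ m := hx.trans hm1
  have hm0 : (0 : ℝ) < m := by linarith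
  have hq0 : (0 : ℝ) < q := by linarith
  have hxe : x ^ (t - 1) = (q : ℝ) ^ (2 - t) := by
    rw [hxdef, ← Real.rpow_mul hq0.le, he]
    congr 1
    have : t - 1 ≠ 0 := by linarith
    field_simp
  have hsplit : ((m : ℝ) * q) ^ t = m * m ^ (t - 1) * (q : ℝ) ^ t := by
    rw [Real.mul_rpow hm0.le hq0.le]
    congr 1
    nth_rewrite 2 [← Real.rpow_one (m : ℝ)]
    rw [← Real.rpow_add hm0]
    congr 1
    ring
  have hqq : (q : ℝ) ^ (2 - t) * (q : ℝ) ^ t = (q : ℝ) ^ 2 := by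
    rw [← Real.rpow_add hq0]
    have : 2 - t + t = (2 : ℕ) := by push_cast; ring
    rw [this, Real.rpow_natCast]
  refine ⟨m, by exact_mod_cast hm12, ?_, ?_⟩
  · rw [hsplit, ← hqq, ← hxe]
    have h1 : x ^ (t - 1) ≤ (m : ℝ) ^ (t - 1) :=
      Real.rpow_le_rpow (by linarith) hm1 (by linarith)
    have h2 : (0 : ℝ) < (q : ℝ) ^ t := Real.rpow_pos_of_pos hq0 t
    calc (m : ℝ) * (x ^ (t - 1) * (q : ℝ) ^ t) = m * x ^ (t - 1) * (q : ℝ) ^ t := by ring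
      _ ≤ m * (m : ℝ) ^ (t - 1) * (q : ℝ) ^ t := by gcongr
  · rw [hsplit, ← hqq, ← hxe]
    have h1 : (m : ℝ) ^ (t - 1) ≤ 2 * x ^ (t - 1) := by
      have h3 : (m : ℝ) ^ (t - 1) ≤ (2 * x) ^ (t - 1) :=
        Real.rpow_le_rpow hm0.le (by linarith) (by linarith)
      rw [Real.mul_rpow (by norm_num) (by linarith)] at h3
      have h4 : (2 : ℝ) ^ (t - 1) ≤ 2 ^ (1 : ℝ) :=
        Real.rpow_le_rpow_of_exponent_le (by norm_num) (by linarith)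
      rw [Real.rpow_one] at h4
      have h5 : (0 : ℝ) ≤ x ^ (t - 1) := Real.rpow_nonneg (by linarith) _
      nlinarith
    have h2 : (0 : ℝ) < (q : ℝ) ^ t := Real.rpow_pos_of_pos hq0 t
    calc (m : ℝ) * (m : ℝ) ^ (t - 1) * (q : ℝ) ^ t ≤ m * (2 * x ^ (t - 1)) * (q : ℝ) ^ t := by
          gcongr
      _ = 2 * (m * (x ^ (t - 1) * (q : ℝ) ^ t)) := by ring

structure St where
  (p q m h : ℤ)
  (α ρ : ℝ)

structure Good (t : ℝ) (k : ℕ) (S : St) : Prop where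
  hp : 0 < S.p
  hpq : S.p < S.q
  hc : IsCoprime S.p S.q
  hk : (k : ℤ) < S.q
  hm : 12 ≤ S.m
  hm1 : (S.m : ℝ) * (S.q : ℝ) ^ 2 ≤ ((S.m : ℝ) * S.q) ^ t
  hm2 : ((S.m : ℝ) * S.q) ^ t ≤ 2 * (S.m * (S.q : ℝ) ^ 2)
  hirr : Irrational S.α
  happ : IsApp S.α S.h
  hh0 : 0 < S.h
  hh : S.h ≤ 2 * S.m * S.q
  hα1 : 1 / (2 * S.m * (S.q : ℝ) ^ 3) ≤ |S.α - S.p / S.q|
  hα2 : |S.α - S.p / S.q| ≤ 2 / (S.m * (S.q : ℝ) ^ 3)
  hρ0 : 0 < S.ρ
  hρ1 : S.ρ ≤ 1 / (4 * S.m * (S.q : ℝ) ^ 3)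
  h0 : 0 < S.α - S.ρ
  h1 : S.α + S.ρ < 1

lemma step0 (α ρ : ℝ) (hα : Irrational α) (hρ : 0 < ρ) (h0 : 0 < α - ρ) (h1 : α + ρ < 1)
    (t : ℝ) (ht1 : 1 < t) (ht2 : t < 2) (k N : ℕ) :
    ∃ S : St, Good t k S ∧ (N : ℤ) < S.q ∧ |S.α - α| + S.ρ ≤ ρ ∧
      |S.α - α| + S.ρ ≤ 3 / (S.q : ℝ) ^ 2 := by
  obtain ⟨N1, hN1⟩ := exists_m t ht1 ht2
  obtain ⟨N2, hN2⟩ := exists_nat_gt (3 / ρ)
  obtain ⟨p, q, hc, hNq, hαq⟩ := next_rat α hα (max (max N k) (max N1 (max N2 2)))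
  have hNq' : (N : ℤ) < q ∧ (k : ℤ) < q ∧ (N1 : ℤ) < q ∧ (N2 : ℤ) < q ∧ 2 < q := by
    push_cast at hNq
    simp only [max_lt_iff] at hNq
    tauto
  obtain ⟨hN, hk, hqN1, hqN2, hq2⟩ := hNq'
  obtain ⟨m, hm12, hm1, hm2⟩ := hN1 q hqN1
  have hqR : (2 : ℝ) < q := by exact_mod_cast hq2
  have hmR : (12 : ℝ) ≤ m := by exact_mod_cast hm12
  have hqN2R : (N2 : ℝ) < q := by exact_mod_cast hqN2
  have hρq : 3 / (q : ℝ) ^ 2 < ρ := by
    rw [div_lt_iff₀ hρ] at hN2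
    rw [div_lt_iff₀ (by positivity)]
    have : (q : ℝ) ≤ (q : ℝ) ^ 2 := by nlinarith
    have h3 : (N2 : ℝ) * ρ < q * ρ := by gcongr
    nlinarith
  have hq2pos : (0 : ℝ) < 1 / (q : ℝ) ^ 2 := by positivity
  have h3q : 3 / (q : ℝ) ^ 2 = 3 * (1 / (q : ℝ) ^ 2) := by ring
  have hαq' := abs_le.mp hαq
  have hqpos : (0 : ℝ) < q := by linarith
  have hp0 : 0 < p := by
    have : (0 : ℝ) < p / q := by linarith [hαq'.2]
    have h4 : (0 : ℝ) < p := by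
      by_contra hcon
      push_neg at hcon
      have := div_nonpos_of_nonpos_of_nonneg hcon hqpos.le
      linarith
    exact_mod_cast h4
  have hpq : p < q := by
    have : (p : ℝ) / q < 1 := by linarith [hαq'.1]
    rw [div_lt_one hqpos] at this
    exact_mod_cast this
  obtain ⟨α', h, hirr, happ, hh0, hh, ha1, ha2⟩ := exists_alpha p q m hp0 hpq hc hm12
  have hsmall : 2 / ((m : ℝ) * (q : ℝ) ^ 3) ≤ 1 / (q : ℝ) ^ 2 := by
    rw [div_le_div_iff₀ (by positivity) (by positivity)]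
    have : (q : ℝ) ^ 3 = q * q ^ 2 := by ring
    rw [this]
    have h5 : (0 : ℝ) < q ^ 2 := by positivity
    have h6 : (2 : ℝ) ≤ m * q := by nlinarith
    nlinarith
  have hsmall2 : 1 / (4 * (m : ℝ) * (q : ℝ) ^ 3) ≤ 1 / (q : ℝ) ^ 2 := by
    apply one_div_le_one_div_of_le (by positivity)
    have : 4 * (m : ℝ) * (q : ℝ) ^ 3 = 4 * m * q * q ^ 2 := by ring
    rw [this]
    have h5 : (0 : ℝ) < q ^ 2 := by positivity
    have h6 : (1 : ℝ) ≤ 4 * m * q := by nlinarith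
    nlinarith
  have hdist : |α' - α| ≤ 2 * (1 / (q : ℝ) ^ 2) := by
    have e1 : α' - α = (α' - p / q) - (α - p / q) := by ring
    rw [e1]
    refine (abs_sub _ _).trans ?_
    linarith
  have hdist' := abs_le.mp hdist
  refine ⟨⟨p, q, m, h, α', 1 / (4 * (m : ℝ) * (q : ℝ) ^ 3)⟩, ?_, hN, ?_, ?_⟩
  · refine ⟨hp0, hpq, hc, hk, hm12, hm1, hm2, hirr, happ, hh0, hh, ha1, ha2, by positivity,
      le_rfl, ?_, ?_⟩
    · show 0 < α' - 1 / (4 * (m : ℝ) * (q : ℝ) ^ 3)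
      linarith [hdist'.1]
    · show α' + 1 / (4 * (m : ℝ) * (q : ℝ) ^ 3) < 1
      linarith [hdist'.2]
  · show |α' - α| + 1 / (4 * (m : ℝ) * (q : ℝ) ^ 3) ≤ ρ
    linarith
  · show |α' - α| + 1 / (4 * (m : ℝ) * (q : ℝ) ^ 3) ≤ 3 / (q : ℝ) ^ 2
    linarith

lemma exists_sequence (t : ℕ → ℝ) (ht1 : ∀ k, 1 < t k) (ht2 : ∀ k, t k < 2) :
    ∃ f : ℕ → St, (∀ k, Good (t k) k (f k)) ∧
      ∀ k, (f k).q < (f (k + 1)).q ∧ |(f (k + 1)).α - (f k).α| + (f (k + 1)).ρ ≤ (f k).ρ ∧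
        |(f (k + 1)).α - (f k).α| + (f (k + 1)).ρ ≤ 3 / ((f (k + 1)).q : ℝ) ^ 2 ∧
        6 * ((f k).m : ℝ) * (f k).q ≤ ((f (k + 1)).q : ℝ) ^ (2 - t k) := by
  apply dep_seq (fun k S => Good (t k) k S) (fun k S S' => S.q < S'.q ∧
    |S'.α - S.α| + S'.ρ ≤ S.ρ ∧ |S'.α - S.α| + S'.ρ ≤ 3 / (S'.q : ℝ) ^ 2 ∧
        6 * (S.m : ℝ) * S.q ≤ (S'.q : ℝ) ^ (2 - t k))
  · obtain ⟨α, hα, h1, h2⟩ := exists_irrational_btwn (show (1 / 4 : ℝ) < 3 / 4 by norm_num)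
    obtain ⟨S, hS, -⟩ := step0 α (1 / 4) hα (by norm_num) (by linarith) (by linarith) (t 0)
      (ht1 0) (ht2 0) 0 0
    exact ⟨S, hS⟩
  · intro k S hS
    have htend := (tendsto_rpow_atTop (show 0 < 2 - t k by linarith [ht2 k])).eventually_ge_atTop
      (6 * (S.m : ℝ) * S.q)
    rw [Filter.eventually_atTop] at htend
    obtain ⟨a, ha⟩ := htend
    obtain ⟨N, hN⟩ := exists_nat_gt a
    obtain ⟨S', hS', hN', h1, h2⟩ := step0 S.α S.ρ hS.hirr hS.hρ0 hS.h0 hS.h1 (t (k + 1))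
      (ht1 _) (ht2 _) (k + 1) (max N S.q.toNat)
    push_cast at hN'
    simp only [max_lt_iff] at hN'
    refine ⟨S', hS', ?_, h1, h2, ?_⟩
    · exact lt_of_le_of_lt (Int.self_le_toNat _) (by exact_mod_cast hN'.2)
    · apply ha
      have : (N : ℝ) < S'.q := by exact_mod_cast hN'.1
      linarith

end Pool.Agent.H8Unif
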