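import Mathlib
import Pool.Agent.H8.UnifSeq

set_option autoImplicit false
open Polynomial

namespace Pool.Agent.H8Unif

/-- vanishing of a quadratic form at a coprime pair with large denominator -/
lemma form_zero (a b c p q : ℤ) (hq : 0 < q) (hc : IsCoprime p q)
    (h : a * p ^ 2 + b * p * q + c * q ^ 2 = 0) (ha : |a| < q) (hb : |b| < q) :
    a = 0 ∧ b = 0 ∧ c = 0 := by
  have h1 : q ∣ a * p ^ 2 := ⟨-(b * p + c * q), by linear_combination h⟩
  have h2 : q ∣ a := (hc.symm.pow_right (n := 2)).dvd_of_dvd_mul_right h1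
  have ha0 : a = 0 := Int.eq_zero_of_abs_lt_dvd h2 ha
  subst ha0
  have h3 : q * (b * p + c * q) = 0 := by linear_combination h
  have h4 : b * p + c * q = 0 := by
    rcases mul_eq_zero.mp h3 with h | h
    · omega
    · exact h
  have h5 : q ∣ b * p := ⟨-c, by linear_combination h4⟩
  have h6 : q ∣ b := hc.symm.dvd_of_dvd_mul_right h5
  have hb0 : b = 0 := Int.eq_zero_of_abs_lt_dvd h6 hb
  subst hb0
  refine ⟨rfl, rfl, ?_⟩
  have h7 : c * q = 0 := by linear_combination h4
  rcases mul_eq_zero.mp h7 with h | h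
  · exact h
  · omega

/-- an irreducible polynomial of degree at most two vanishing at `p / q` -/
lemma irred_form_zero (a b c p q : ℤ) (hq : 0 < q) (hc : IsCoprime p q)
    (hirr : Irreducible (quad a b c))
    (h : a * p ^ 2 + b * p * q + c * q ^ 2 = 0) :
    a = 0 ∧ |b| = q ∧ b * p + c * q = 0 := by
  have h1 : q ∣ a * p ^ 2 := ⟨-(b * p + c * q), by linear_combination h⟩
  have h2 : q ∣ a := (hc.symm.pow_right (n := 2)).dvd_of_dvd_mul_right h1
  obtain ⟨a', rfl⟩ := h2
  have h3 : q * (a' * p ^ 2 + b * p + c * q) = 0 := by linear_combination h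
  have h4 : a' * p ^ 2 + b * p + c * q = 0 := by
    rcases mul_eq_zero.mp h3 with h | h
    · omega
    · exact h
  have h5 : p ∣ c * q := ⟨-(a' * p + b), by linear_combination h4⟩
  have h6 : p ∣ c := hc.dvd_of_dvd_mul_right h5
  obtain ⟨c', rfl⟩ := h6
  by_cases hp0 : p = 0
  · subst hp0
    -- then q = 1
    have hq1 : IsUnit q := by
      have := hc
      rw [isCoprime_zero_left] at this
      exact this
    have hq1' : q = 1 := by
      rcases Int.isUnit_iff.mp hq1 with h | h
      · exact h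
      · omega
    subst hq1'
    have hfac : quad (1 * a') b (0 * c') = X * (C a' * X + C b) := by
      unfold quad
      simp only [one_mul, zero_mul, map_zero, add_zero]
      ring
    rw [hfac] at hirr
    have hu := (hirr.isUnit_or_isUnit rfl).resolve_left not_isUnit_X
    rw [isUnit_iff] at hu
    obtain ⟨r, hr, hr2⟩ := hu
    have e0 := congrArg (fun P => P.coeff 0) hr2
    have e1 := congrArg (fun P => P.coeff 1) hr2
    simp only [coeff_add, coeff_C_mul, coeff_X, coeff_C] at e0 e1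
    norm_num at e0 e1
    subst e0
    refine ⟨by omega, ?_, by ring⟩
    rcases Int.isUnit_iff.mp hr with h | h <;> rw [h] <;> rfl
  · have h7 : p * (a' * p + b + c' * q) = 0 := by linear_combination h4
    have h8 : a' * p + b + c' * q = 0 := by
      rcases mul_eq_zero.mp h7 with h | h
      · exact absurd h hp0
      · exact h
    have hb : b = -(a' * p + c' * q) := by linear_combination h8
    subst hb
    have hfac : quad (q * a') (-(a' * p + c' * q)) (p * c') =
        (C q * X - C p) * (C a' * X - C c') := by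
      unfold quad
      simp only [C_mul, C_neg, C_add]
      ring
    rw [hfac] at hirr
    have hnu : ¬ IsUnit (C q * X - C p : ℤ[X]) := by
      rw [isUnit_iff]
      rintro ⟨r, hr, hr2⟩
      have e1 := congrArg (fun P => P.coeff 1) hr2
      simp only [coeff_sub, coeff_C_mul, coeff_X, coeff_C] at e1
      norm_num at e1
      omega
    have hu := (hirr.isUnit_or_isUnit rfl).resolve_left hnu
    rw [isUnit_iff] at hu
    obtain ⟨r, hr, hr2⟩ := hu
    have e0 := congrArg (fun P => P.coeff 0) hr2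
    have e1 := congrArg (fun P => P.coeff 1) hr2
    simp only [coeff_sub, coeff_C_mul, coeff_X, coeff_C] at e0 e1
    norm_num at e0 e1
    have ha' : a' = 0 := by omega
    subst ha'
    have hc' : c' = -r := by omega
    subst hc'
    refine ⟨by ring, ?_, by ring⟩
    rcases Int.isUnit_iff.mp hr with h | h <;> rw [h] <;> simp [abs_of_pos hq]

/-- integrality gap -/
lemma int_gap (z : ℤ) (h : |(z : ℝ)| < 1) : z = 0 := by
  have : |z| < 1 := by exact_mod_cast h
  exact Int.abs_lt_one_iff.mp this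

lemma form_cast (a b c p q : ℤ) (hq : 0 < q) :
    ((a * p ^ 2 + b * p * q + c * q ^ 2 : ℤ) : ℝ) =
      (q : ℝ) ^ 2 * ((a : ℝ) * ((p : ℝ) / q) ^ 2 + b * ((p : ℝ) / q) + c) := by
  have : (q : ℝ) ≠ 0 := by exact_mod_cast hq.ne'
  push_cast
  field_simp

/-- the limit point -/
lemma limit_point (t : ℕ → ℝ) (f : ℕ → St) (hG : ∀ k, Good (t k) k (f k))
    (hR : ∀ k, (f k).q < (f (k + 1)).q ∧ |(f (k + 1)).α - (f k).α| + (f (k + 1)).ρ ≤ (f k).ρ ∧
        |(f (k + 1)).α - (f k).α| + (f (k + 1)).ρ ≤ 3 / ((f (k + 1)).q : ℝ) ^ 2 ∧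
        6 * ((f k).m : ℝ) * (f k).q ≤ ((f (k + 1)).q : ℝ) ^ (2 - t k)) :
    ∃ ξ : ℝ, 0 < ξ ∧ ξ < 1 ∧
      (∀ k, 1 / (4 * (f k).m * ((f k).q : ℝ) ^ 3) ≤ |ξ - (f k).p / (f k).q|) ∧
      (∀ k, |ξ - (f k).p / (f k).q| ≤ 3 / ((f k).m * ((f k).q : ℝ) ^ 3)) ∧
      (∀ k, |ξ - (f k).α| ≤ 3 / ((f (k + 1)).q : ℝ) ^ 2) := by
  have hanti : Antitone (fun k => Set.Icc ((f k).α - (f k).ρ) ((f k).α + (f k).ρ)) := by
    apply antitone_nat_of_succ_le
    intro k x hx
    obtain ⟨-, h, -, -⟩ := hR k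
    have h2 := abs_le.mp (show |(f (k + 1)).α - (f k).α| ≤ (f k).ρ - (f (k + 1)).ρ by linarith)
    exact ⟨by linarith [hx.1, h2.1], by linarith [hx.2, h2.2]⟩
  have hmem := ciSup_mem_iInter_Icc_of_antitone_Icc hanti
    (fun k => by linarith [(hG k).hρ0])
  set ξ : ℝ := ⨆ k, ((f k).α - (f k).ρ) with hξ
  rw [Set.mem_iInter] at hmem
  have hξα : ∀ k, |ξ - (f k).α| ≤ (f k).ρ := by
    intro k
    have := hmem k
    rw [abs_le]
    exact ⟨by linarith [this.1], by linarith [this.2]⟩
  refine ⟨ξ, ?_, ?_, ?_, ?_, ?_⟩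
  · linarith [(hmem 0).1, (hG 0).h0]
  · linarith [(hmem 0).2, (hG 0).h1]
  · intro k
    have h1 := (hG k).hα1
    have h2 := hξα k
    have h3 := (hG k).hρ1
    have e : (f k).α - (f k).p / (f k).q = (ξ - (f k).p / (f k).q) - (ξ - (f k).α) := by ring
    have h4 : |(f k).α - (f k).p / (f k).q| ≤ |ξ - (f k).p / (f k).q| + |ξ - (f k).α| := by
      rw [e]; exact abs_sub _ _
    have h5 : 1 / (2 * (f k).m * ((f k).q : ℝ) ^ 3) = 2 * (1 / (4 * (f k).m * ((f k).q : ℝ) ^ 3)) := by
      have : ((f k).m : ℝ) ≠ 0 := by have := (hG k).hm; exact_mod_cast (by omega)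
      have : ((f k).q : ℝ) ≠ 0 := by have := (hG k).hk; exact_mod_cast (by omega)
      field_simp; norm_num
    linarith
  · intro k
    have h1 := (hG k).hα2
    have h2 := hξα k
    have h3 := (hG k).hρ1
    have e : ξ - (f k).p / (f k).q = (ξ - (f k).α) + ((f k).α - (f k).p / (f k).q) := by ring
    have h4 : |ξ - (f k).p / (f k).q| ≤ |ξ - (f k).α| + |(f k).α - (f k).p / (f k).q| := by
      rw [e]; exact abs_add_le _ _
    have hm0 : (0 : ℝ) < (f k).m := by have := (hG k).hm; exact_mod_cast (by omega)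
    have hq0 : (0 : ℝ) < (f k).q := by have := (hG k).hk; exact_mod_cast (by omega)
    have h5 : 1 / (4 * (f k).m * ((f k).q : ℝ) ^ 3) ≤ 1 / ((f k).m * ((f k).q : ℝ) ^ 3) := by
      apply one_div_le_one_div_of_le (by positivity)
      have : 0 < (f k).m * ((f k).q : ℝ) ^ 3 := by positivity
      nlinarith
    have h6 : 3 / ((f k).m * ((f k).q : ℝ) ^ 3) = 2 / ((f k).m * ((f k).q : ℝ) ^ 3) +
        1 / ((f k).m * ((f k).q : ℝ) ^ 3) := by ring
    linarith
  · intro k
    have h1 := hξα (k + 1)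
    obtain ⟨-, -, h2, -⟩ := hR k
    have e : ξ - (f k).α = (ξ - (f (k + 1)).α) + ((f (k + 1)).α - (f k).α) := by ring
    have h4 : |ξ - (f k).α| ≤ |ξ - (f (k + 1)).α| + |(f (k + 1)).α - (f k).α| := by
      rw [e]; exact abs_add_le _ _
    linarith

end Pool.Agent.H8Unif
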